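import Pool.Agent.TwoCol.Spec

/-!
# JOB BALL: balls outside the core
-/

open MeasureTheory ProbabilityTheory Filter Topology Set
open scoped ENNReal NNReal

namespace Pool.Agent.TwoCol

namespace BallAux

variable {V : Type*} {A : V → V → Prop} {S : Set V}

lemma ball_succ_of {x y : V} {k : ℕ} (h : y ∈ ball A S x k) : y ∈ ball A S x (k + 1) :=
  Or.inl h

lemma ball_step {x y z : V} {k : ℕ} (h : y ∈ ball A S x k) (hz : z ∉ S) (hA : A y z) :
    z ∈ ball A S x (k + 1) := Or.inr ⟨hz, y, h, hA⟩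

lemma not_mem_of_ball {x y : V} : ∀ {k : ℕ}, y ∈ ball A S x k → y ∉ S
  | 0, h => by
    obtain ⟨h1, h2⟩ := h
    rw [h1]
    exact h2
  | k + 1, h => by
    rcases h with h | h
    · exact not_mem_of_ball h
    · exact h.1

lemma ball_trans {x y z : V} {k : ℕ} (h : y ∈ ball A S x k) :
    ∀ {l : ℕ}, z ∈ ball A S y l → z ∈ ball A S x (k + l)
  | 0, hz => by
    have : z = y := hz.1
    rw [this]
    exact h
  | l + 1, hz => by
    rcases hz with hz | ⟨hz, u, hu, hA⟩
    · exact ball_succ_of (ball_trans h hz)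
    · exact ball_step (ball_trans h hu) hz hA

lemma ball_symm (hA : ∀ u v, A u v → A v u) {x : V} :
    ∀ {k : ℕ} {y : V}, y ∈ ball A S x k → x ∈ ball A S y k
  | 0, y, h => by
    obtain ⟨h1, h2⟩ := h
    refine ⟨h1.symm, ?_⟩
    rw [h1]
    exact h2
  | k + 1, y, h => by
    rcases h with h | ⟨hy, u, hu, hAu⟩
    · exact ball_succ_of (ball_symm hA h)
    · have h1 := ball_symm hA hu
      have h2 : u ∈ ball A S y 1 := ball_step (k := 0) ⟨rfl, hy⟩ (not_mem_of_ball hu) (hA _ _ hAu)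
      have h3 := ball_trans h2 h1
      rw [add_comm] at h3
      exact h3

lemma ball_path (y : ℕ → V) : ∀ (l : ℕ), (∀ i ≤ l, y i ∉ S) → (∀ i < l, A (y i) (y (i + 1))) →
    y l ∈ ball A S (y 0) l
  | 0, h, _ => ⟨rfl, h 0 le_rfl⟩
  | l + 1, h, h' =>
    ball_step (ball_path y l (fun i hi => h i (by omega)) (fun i hi => h' i (by omega)))
      (h (l + 1) le_rfl) (h' l (by omega))

open scoped Classical in
/-- Size of a ball. -/
lemma ball_card {n : ℕ} (d : Vx n → ℕ) (σ : Equiv.Perm (Half d)) (C : Set (Vx n)) (M : ℝ)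
    (hM : ∀ v, v ∉ C → (d v : ℝ) ≤ M) (hM0 : 0 ≤ M) (x : Vx n) : ∀ k : ℕ,
    ((Finset.univ.filter fun b : Vx n => b ∈ ball (Adj σ) C x k).card : ℝ) ≤ (1 + M) ^ k
  | 0 => by
    rw [pow_zero]
    have : (Finset.univ.filter fun b : Vx n => b ∈ ball (Adj σ) C x 0) ⊆ {x} := by
      intro b hb
      rw [Finset.mem_filter] at hb
      rw [Finset.mem_singleton]
      exact hb.2.1
    exact_mod_cast (Finset.card_le_card this).trans (by simp)
  | k + 1 => by
    set B := Finset.univ.filter fun b : Vx n => b ∈ ball (Adj σ) C x k with hB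
    have ih : (B.card : ℝ) ≤ (1 + M) ^ k := ball_card d σ C M hM hM0 x k
    have hsub : (Finset.univ.filter fun b : Vx n => b ∈ ball (Adj σ) C x (k + 1)) ⊆
        B ∪ B.biUnion fun u => Finset.univ.image fun i : Fin (d u) => (σ ⟨u, i⟩).1 := by
      intro b hb
      rw [Finset.mem_filter] at hb
      rcases hb.2 with h | ⟨_, u, hu, h, rfl, hb'⟩
      · exact Finset.mem_union_left _ (by simp [hB, h])
      · refine Finset.mem_union_right _ ?_
        rw [Finset.mem_biUnion]
        refine ⟨h.1, by simp [hB, hu], ?_⟩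
        rw [Finset.mem_image]
        exact ⟨h.2, Finset.mem_univ _, hb'⟩
    have hcard : ((Finset.univ.filter fun b : Vx n => b ∈ ball (Adj σ) C x (k + 1)).card : ℝ) ≤
        (B.card : ℝ) + ∑ u ∈ B, (d u : ℝ) := by
      have h1 := (Finset.card_le_card hsub).trans (Finset.card_union_le _ _)
      have h2 : (B.biUnion fun u => Finset.univ.image fun i : Fin (d u) => (σ ⟨u, i⟩).1).card ≤
          ∑ u ∈ B, d u := by
        refine Finset.card_biUnion_le.trans (Finset.sum_le_sum fun u _ => ?_)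
        refine Finset.card_image_le.trans ?_
        simp
      calc _ ≤ ((B.card + ∑ u ∈ B, d u : ℕ) : ℝ) := by exact_mod_cast h1.trans (by omega)
        _ = _ := by push_cast; rfl
    have hsum : ∑ u ∈ B, (d u : ℝ) ≤ B.card * M := by
      calc ∑ u ∈ B, (d u : ℝ) ≤ ∑ _u ∈ B, M := by
            refine Finset.sum_le_sum fun u hu => hM u ?_
            rw [hB, Finset.mem_filter] at hu
            exact not_mem_of_ball hu.2
        _ = B.card * M := by simp
    calc _ ≤ (B.card : ℝ) + ∑ u ∈ B, (d u : ℝ) := hcard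
      _ ≤ (B.card : ℝ) * (1 + M) := by nlinarith
      _ ≤ (1 + M) ^ k * (1 + M) := by gcongr
      _ = (1 + M) ^ (k + 1) := by ring

lemma tendsto_log_succ : Tendsto (fun n : ℕ => Real.log ((n : ℝ) + 1)) atTop atTop :=
  Real.tendsto_log_atTop.comp (tendsto_atTop_add_const_right _ _ tendsto_natCast_atTop_atTop)

/-- Analytic estimate. -/
lemma size_bound {α κ : ℝ} (hα : 0 < α) (hα1 : α < 1) (hκ : 0 < κ) :
    ∀ᶠ n : ℕ in atTop, (1 + MM α n) ^ ⌊κ * lgg n⌋₊ ≤ Real.exp (Real.log ((n : ℝ) + 1) / 2) := by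
  have h1 : ∀ᶠ L : ℝ in atTop, Real.log L ≤ 1 / (4 * κ) * L ^ (1 - α) := by
    have := (isLittleO_log_rpow_atTop (sub_pos.2 hα1)).bound
      (show (0 : ℝ) < 1 / (4 * κ) by positivity)
    filter_upwards [this, eventually_ge_atTop (1 : ℝ)] with L hL hL1
    have h2 : 0 ≤ Real.log L := Real.log_nonneg hL1
    rw [Real.norm_of_nonneg h2, Real.norm_of_nonneg (by positivity)] at hL
    exact hL
  filter_upwards [tendsto_log_succ.eventually h1,
    tendsto_log_succ.eventually (eventually_ge_atTop (1 : ℝ))] with n hn hn1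
  set L := Real.log ((n : ℝ) + 1) with hL
  have hL0 : 0 < L := by linarith
  have hMM : MM α n = Real.exp (L ^ α) := rfl
  have hlgg : lgg n = Real.log L := rfl
  have hLα : 1 ≤ L ^ α := Real.one_le_rpow hn1 hα.le
  have hlog0 : 0 ≤ Real.log L := Real.log_nonneg hn1
  have hb : 1 + MM α n ≤ Real.exp (2 * L ^ α) := by
    rw [hMM]
    have h2 : Real.exp (2 * L ^ α) = Real.exp (L ^ α) * Real.exp (L ^ α) := by
      rw [← Real.exp_add]
      ring_nf
    have h3 : 2 ≤ Real.exp (L ^ α) := by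
      have := Real.add_one_le_exp (L ^ α)
      linarith
    rw [h2]
    nlinarith
  have hb0 : 0 ≤ 1 + MM α n := by
    rw [hMM]
    positivity
  calc (1 + MM α n) ^ ⌊κ * lgg n⌋₊ ≤ (Real.exp (2 * L ^ α)) ^ ⌊κ * lgg n⌋₊ := by gcongr
    _ = Real.exp ((⌊κ * lgg n⌋₊ : ℝ) * (2 * L ^ α)) := by rw [← Real.exp_nat_mul]
    _ ≤ Real.exp (L / 2) := by
      refine Real.exp_le_exp.2 ?_
      have hf : (⌊κ * lgg n⌋₊ : ℝ) ≤ κ * lgg n := Nat.floor_le (by rw [hlgg]; positivity)
      rw [hlgg] at hf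
      have h4 : κ * Real.log L ≤ κ * (1 / (4 * κ) * L ^ (1 - α)) := by gcongr
      have h5 : κ * (1 / (4 * κ) * L ^ (1 - α)) = L ^ (1 - α) / 4 := by
        field_simp
      have h6 : (⌊κ * Real.log L⌋₊ : ℝ) ≤ L ^ (1 - α) / 4 := by
        rw [← h5]
        rw [hlgg] at *
        exact hf.trans h4
      calc (⌊κ * lgg n⌋₊ : ℝ) * (2 * L ^ α) ≤ (L ^ (1 - α) / 4) * (2 * L ^ α) := by
            rw [hlgg]
            gcongr
        _ = (L ^ (1 - α) * L ^ α) / 2 := by ring
        _ = L / 2 := by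
            rw [← Real.rpow_add hL0]
            simp

end BallAux

open BallAux in
theorem target_BALL : Target_BALL := by
  classical
  refine ⟨fun V A S hA => ⟨fun x y k h => ball_symm hA h, fun x y z k l h h' => ball_trans h h',
    fun l y h h' => ball_path y l h h'⟩, ?_⟩
  intro α κ hα hα1 hκ ε hε
  have hlim : Tendsto (fun n : ℕ => ENNReal.ofReal (Real.exp (-(Real.log ((n : ℝ) + 1) / 2))))
      atTop (𝓝 0) := by
    have : Tendsto (fun n : ℕ => Real.exp (-(Real.log ((n : ℝ) + 1) / 2))) atTop (𝓝 0) :=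
      Real.tendsto_exp_neg_atTop_nhds_zero.comp (tendsto_log_succ.atTop_div_const (by norm_num))
    have h2 := (ENNReal.continuous_ofReal.tendsto 0).comp this
    rw [ENNReal.ofReal_zero] at h2
    exact h2
  filter_upwards [size_bound hα hα1 hκ, hlim.eventually (ge_mem_nhds hε)] with n hn hn2
  intro d σ x
  refine le_trans ?_ hn2
  set B := Finset.univ.filter fun b : Vx n =>
    b ∈ ball (Adj σ) (core α d) x ⌊κ * lgg n⌋₊ with hB
  have hcard : (B.card : ℝ) ≤ Real.exp (Real.log ((n : ℝ) + 1) / 2) := by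
    refine (ball_card d σ (core α d) (MM α n) ?_ ?_ x _).trans hn
    · intro v hv
      have : ¬ (MM α n ≤ (d v : ℝ)) := hv
      linarith
    · unfold MM
      positivity
  have hN : (0 : ℝ) < (n : ℝ) + 1 := by positivity
  have hexp : Real.exp (Real.log ((n : ℝ) + 1) / 2) / ((n : ℝ) + 1) =
      Real.exp (-(Real.log ((n : ℝ) + 1) / 2)) := by
    rw [div_eq_iff hN.ne']
    conv_rhs => rw [← Real.exp_log hN]
    rw [Real.log_exp, ← Real.exp_add]
    congr 1
    ring
  unfold avg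
  have hsum : (∑ b : Vx n, if b ∈ ball (Adj σ) (core α d) x ⌊κ * lgg n⌋₊ then (1 : ℝ≥0∞) else 0) =
      (B.card : ℝ≥0∞) := by
    rw [hB, Finset.card_filter]
    push_cast
    rfl
  rw [hsum, ← hexp, ENNReal.ofReal_div_of_pos hN]
  have h1 : ENNReal.ofReal ((n : ℝ) + 1) = ((n + 1 : ℕ) : ℝ≥0∞) := by
    rw [← ENNReal.ofReal_natCast]
    push_cast
    rfl
  rw [h1]
  gcongr
  rw [← ENNReal.ofReal_natCast]
  exact ENNReal.ofReal_le_ofReal hcard

end Pool.Agent.TwoCol
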