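import Pool.Agent.TwoCol.Spec

/-!
# First moment bound for the blue colour
-/

open MeasureTheory ProbabilityTheory Filter Topology Set
open scoped ENNReal NNReal

namespace Pool.Agent.TwoCol

namespace BlueAux

/-! ## Paths -/

lemma walk_of_ball {V : Type*} (A : V → V → Prop) (S : Set V) (x : V) : ∀ k, ∀ u ∈ ball A S x k,
    ∃ j ≤ k, ∃ v : ℕ → V, v 0 = x ∧ v j = u ∧ ∀ i < j, A (v i) (v (i + 1)) := by
  intro k
  induction k with
  | zero =>
    rintro u ⟨rfl, _⟩
    exact ⟨0, le_rfl, fun _ => u, rfl, rfl, fun i hi => absurd hi (Nat.not_lt_zero i)⟩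
  | succ k ih =>
    rintro u (hu | ⟨_, w, hw, hA⟩)
    · obtain ⟨j, hj, v, h0, h1, h2⟩ := ih u hu
      exact ⟨j, Nat.le_succ_of_le hj, v, h0, h1, h2⟩
    · obtain ⟨j, hj, v, h0, h1, h2⟩ := ih w hw
      refine ⟨j + 1, Nat.succ_le_succ hj, fun i => if i ≤ j then v i else u, ?_, ?_, ?_⟩
      · simp [h0]
      · simp
      · intro i hi
        rcases Nat.lt_or_ge i j with h | h
        · have e1 : (if i ≤ j then v i else u) = v i := if_pos h.le
          have e2 : (if i + 1 ≤ j then v (i + 1) else u) = v (i + 1) := if_pos h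
          simp only [e1, e2]
          exact h2 i h
        · have hij : i = j := by omega
          subst hij
          have e1 : (if i ≤ i then v i else u) = v i := if_pos le_rfl
          have e2 : (if i + 1 ≤ i then v (i + 1) else u) = u := if_neg (by omega)
          simp only [e1, e2]
          rw [h1]
          exact hA

lemma simple_walk {V : Type*} (A : V → V → Prop) (S : Set V) (x : V) (J : ℕ)
    (h : x ∈ S ∨ ∃ u ∈ ball A S x J, ∃ v ∈ S, A u v) :
    ∃ j ≤ J + 1, ∃ v : ℕ → V, v 0 = x ∧ v j ∈ S ∧ (∀ i < j, A (v i) (v (i + 1))) ∧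
      ∀ i ≤ j, ∀ i' ≤ j, v i = v i' → i = i' := by
  classical
  let P : ℕ → Prop := fun j => ∃ v : ℕ → V, v 0 = x ∧ v j ∈ S ∧ ∀ i < j, A (v i) (v (i + 1))
  have hP : ∃ j, j ≤ J + 1 ∧ P j := by
    rcases h with h | ⟨u, hu, w, hw, hA⟩
    · exact ⟨0, Nat.zero_le _, fun _ => x, rfl, h, fun i hi => absurd hi (Nat.not_lt_zero i)⟩
    · obtain ⟨j, hj, v, h0, h1, h2⟩ := walk_of_ball A S x J u hu
      refine ⟨j + 1, Nat.succ_le_succ hj, fun i => if i ≤ j then v i else w, ?_, ?_, ?_⟩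
      · simp [h0]
      · simp [hw]
      · intro i hi
        rcases Nat.lt_or_ge i j with h | h
        · have e1 : (if i ≤ j then v i else w) = v i := if_pos h.le
          have e2 : (if i + 1 ≤ j then v (i + 1) else w) = v (i + 1) := if_pos h
          simp only [e1, e2]
          exact h2 i h
        · have hij : i = j := by omega
          subst hij
          have e1 : (if i ≤ i then v i else w) = v i := if_pos le_rfl
          have e2 : (if i + 1 ≤ i then v (i + 1) else w) = w := if_neg (by omega)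
          simp only [e1, e2]
          rw [h1]
          exact hA
  obtain ⟨j0, hj0, hPj0⟩ := hP
  have hex : ∃ j, P j := ⟨j0, hPj0⟩
  have hmin : Nat.find hex ≤ j0 := Nat.find_min' hex hPj0
  obtain ⟨v, h0, h1, h2⟩ := Nat.find_spec hex
  have hno : ∀ i i', i < i' → i' ≤ Nat.find hex → v i ≠ v i' := by
    intro i i' hii hi' heq
    have hlt : Nat.find hex - (i' - i) < Nat.find hex := by omega
    apply Nat.find_min hex hlt
    refine ⟨fun s => if s ≤ i then v s else v (s + (i' - i)), ?_, ?_, ?_⟩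
    · simp [h0]
    · by_cases hc : Nat.find hex - (i' - i) ≤ i
      · have e1 : Nat.find hex = i' := by omega
        have e2 : Nat.find hex - (i' - i) = i := by omega
        simp only [e2, le_refl, if_true]
        rw [heq, ← e1]
        exact h1
      · simp only [hc, if_false]
        have e2 : Nat.find hex - (i' - i) + (i' - i) = Nat.find hex := by omega
        rw [e2]
        exact h1
    · intro s hs
      rcases Nat.lt_trichotomy s i with h | h | h
      · have e1 : s ≤ i := h.le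
        have e2 : s + 1 ≤ i := h
        simp only [e1, e2, if_true]
        exact h2 s (by omega)
      · subst h
        have e2 : ¬ (s + 1 ≤ s) := by omega
        have e3 : s + 1 + (i' - s) = i' + 1 := by omega
        simp only [le_refl, e2, if_true, if_false, e3]
        rw [heq]
        exact h2 i' (by omega)
      · have e1 : ¬ (s ≤ i) := by omega
        have e2 : ¬ (s + 1 ≤ i) := by omega
        have e3 : s + 1 + (i' - i) = s + (i' - i) + 1 := by omega
        simp only [e1, e2, if_false, e3]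
        exact h2 (s + (i' - i)) (by omega)
  refine ⟨Nat.find hex, hmin.trans hj0, v, h0, h1, h2, ?_⟩
  intro i hi i' hi' heq
  rcases Nat.lt_trichotomy i i' with h | h | h
  · exact absurd heq (hno i i' h hi')
  · exact h
  · exact absurd heq.symm (hno i' i h hi)

/-- the initial segment up to the first large degree -/
lemma segment {V : Type*} (A : V → V → Prop) (d : V → ℕ) (M : ℝ) (u : ℕ → ℝ) (x : V) (J : ℕ)
    (hu : ∀ j ≤ J + 1, u j < M)
    (h : x ∈ {v | M ≤ (d v : ℝ)} ∨ ∃ w ∈ ball A {v | M ≤ (d v : ℝ)} x J,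
      ∃ v ∈ {v | M ≤ (d v : ℝ)}, A w v) :
    ∃ j ≤ J + 1, ∃ w : Fin (j + 1) → V, Function.Injective w ∧ w 0 = x ∧
      (∀ i : Fin j, A (w i.castSucc) (w i.succ)) ∧
      (∀ i : Fin j, (d (w i.castSucc) : ℝ) ≤ u i) ∧ u j < d (w (Fin.last j)) := by
  classical
  obtain ⟨j, hj, v, h0, h1, h2, h3⟩ := simple_walk A _ x J h
  have hex : ∃ i, u i < d (v i) := ⟨j, (hu j hj).trans_le h1⟩
  have hle : Nat.find hex ≤ j := Nat.find_min' hex ((hu j hj).trans_le h1)
  refine ⟨Nat.find hex, hle.trans hj, fun i => v i, ?_, ?_, ?_, ?_, ?_⟩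
  · intro i i' hii
    apply Fin.ext
    exact h3 _ (by have := i.2; omega) _ (by have := i'.2; omega) hii
  · exact h0
  · intro i
    exact h2 i (by have := i.2; omega)
  · intro i
    exact not_lt.1 (Nat.find_min hex i.2)
  · exact Nat.find_spec hex

/-! ## Real estimates -/

/-- the exponent -/
lemma expo {τ b : ℝ} (h2 : 2 < τ) (h3 : τ < 3) (hb : 1 / (τ - 2) < b) (j : ℕ) :
    (3 - τ) * (∑ i ∈ Finset.range j, b ^ i) + (2 - τ) * b ^ j ≤
      -(((τ - 2) * b - 1) / (b - 1)) * (1 + j * (b - 1)) := by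
  have ht : 0 < τ - 2 := by linarith
  have hb1 : 1 < b := by
    refine lt_trans ?_ hb
    rw [lt_div_iff₀ ht]; linarith
  have hb0 : 0 < b - 1 := by linarith
  have hc : 0 < ((τ - 2) * b - 1) / (b - 1) := by
    apply div_pos _ hb0
    rw [div_lt_iff₀ ht] at hb
    linarith
  have hbern : 1 + (j : ℝ) * (b - 1) ≤ b ^ j := by
    have := one_add_mul_le_pow (a := b - 1) (by linarith) j
    simpa using this
  have hsum : ∑ i ∈ Finset.range j, b ^ i = (b ^ j - 1) / (b - 1) := geom_sum_eq hb1.ne' j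
  rw [hsum]
  have hpow : 0 < b ^ j := by positivity
  calc (3 - τ) * ((b ^ j - 1) / (b - 1)) + (2 - τ) * b ^ j
      ≤ (3 - τ) * (b ^ j / (b - 1)) + (2 - τ) * b ^ j := by
        have h4 : (b ^ j - 1) / (b - 1) ≤ b ^ j / (b - 1) := by
          apply div_le_div_of_nonneg_right _ hb0.le
          linarith
        have h5 := mul_le_mul_of_nonneg_left h4 (by linarith : (0 : ℝ) ≤ 3 - τ)
        linarith
    _ = -(((τ - 2) * b - 1) / (b - 1)) * b ^ j := by
        field_simp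
        ring
    _ ≤ -(((τ - 2) * b - 1) / (b - 1)) * (1 + j * (b - 1)) := by
        have := mul_le_mul_of_nonneg_left hbern hc.le
        linarith

/-- choice of the constant -/
lemma exists_K {C c c' ε : ℝ} (hc : 0 < c) (hc' : 0 < c') (hε : 0 < ε) :
    ∃ K : ℝ, 1 ≤ K ∧ C * K ^ (-c') ≤ 1 / 2 ∧ C * K ^ (-c) * 2 ≤ ε := by
  have h1 : Tendsto (fun K : ℝ => C * K ^ (-c')) atTop (𝓝 0) := by
    simpa using (tendsto_rpow_neg_atTop hc').const_mul C
  have h2 : Tendsto (fun K : ℝ => C * K ^ (-c) * 2) atTop (𝓝 0) := by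
    simpa using ((tendsto_rpow_neg_atTop hc).const_mul C).mul_const 2
  have h3 := (h1.eventually (Iic_mem_nhds (by norm_num : (0 : ℝ) < 1 / 2))).and
    (h2.eventually (Iic_mem_nhds hε))
  obtain ⟨K, hK, hK1⟩ := (h3.and (eventually_ge_atTop 1)).exists
  exact ⟨K, hK1, hK.1, hK.2⟩

/-- the sum of the bounds -/
lemma sum_bound {C c c' ε K : ℝ} (hC : 0 ≤ C) (hK : 1 ≤ K) (h1 : C * K ^ (-c') ≤ 1 / 2)
    (h2 : C * K ^ (-c) * 2 ≤ ε) (m : ℕ) :
    ∑ j ∈ Finset.range m, C ^ (j + 1) * K ^ (-c + -c' * j) ≤ ε := by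
  have hK0 : 0 < K := by linarith
  have hp : 0 ≤ C * K ^ (-c') := by positivity
  have hp2 : 0 ≤ C * K ^ (-c) := by positivity
  have e1 : ∀ j : ℕ, C ^ (j + 1) * K ^ (-c + -c' * j) ≤ C * K ^ (-c) * (1 / 2) ^ j := by
    intro j
    have e2 : C ^ (j + 1) * K ^ (-c + -c' * j) = C * K ^ (-c) * (C * K ^ (-c')) ^ j := by
      rw [Real.rpow_add hK0, Real.rpow_mul hK0.le, Real.rpow_natCast, mul_pow, pow_succ]
      ring
    rw [e2]
    exact mul_le_mul_of_nonneg_left (pow_le_pow_left₀ hp h1 j) hp2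
  calc ∑ j ∈ Finset.range m, C ^ (j + 1) * K ^ (-c + -c' * j)
      ≤ ∑ j ∈ Finset.range m, C * K ^ (-c) * (1 / 2) ^ j := Finset.sum_le_sum fun j _ => e1 j
    _ = C * K ^ (-c) * ∑ j ∈ Finset.range m, (1 / 2 : ℝ) ^ j := by rw [Finset.mul_sum]
    _ ≤ C * K ^ (-c) * 2 := by
        apply mul_le_mul_of_nonneg_left _ hp2
        have e3 : ∑ j ∈ Finset.range m, (1 / 2 : ℝ) ^ j = 2 - 2 * (1 / 2) ^ m := by
          rw [geom_sum_eq (by norm_num)]
          ring
        rw [e3]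
        have : (0 : ℝ) < (1 / 2) ^ m := by positivity
        linarith
    _ ≤ ε := h2

/-! ## Large `n` -/

lemma log_atTop : Tendsto (fun n : ℕ => Real.log ((n : ℝ) + 1)) atTop atTop :=
  Real.tendsto_log_atTop.comp (tendsto_atTop_add_const_right _ _ tendsto_natCast_atTop_atTop)

/-- the number of steps -/
noncomputable def JJ (α' b : ℝ) (n : ℕ) : ℕ := ⌊α' * lgg n / Real.log b⌋₊

lemma pow_JJ {α' b : ℝ} (hb : 1 < b) (ha : 0 < α') {n : ℕ} (hn : 1 ≤ Real.log ((n : ℝ) + 1)) :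
    b ^ (JJ α' b n) ≤ Real.log ((n : ℝ) + 1) ^ α' := by
  have hlb : 0 < Real.log b := Real.log_pos hb
  have hl : 0 ≤ lgg n := Real.log_nonneg hn
  have h1 : ((JJ α' b n : ℕ) : ℝ) ≤ α' * lgg n / Real.log b :=
    Nat.floor_le (div_nonneg (mul_nonneg ha.le hl) hlb.le)
  rw [le_div_iff₀ hlb] at h1
  rw [← Real.rpow_natCast, Real.rpow_def_of_pos (by linarith : 0 < b),
    Real.rpow_def_of_pos (by linarith : 0 < Real.log ((n : ℝ) + 1))]
  apply Real.exp_le_exp.2
  unfold lgg at h1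
  linarith

lemma event_size {α' b : ℝ} (hb : 1 < b) (ha : 0 < α') (ha1 : α' < 1) :
    ∀ᶠ n : ℕ in atTop, 2 * (JJ α' b n + 1) ≤ n + 1 := by
  have h1 : ∀ᶠ x : ℝ in atTop, Real.log x ≤ (b - 1) / 4 * x := by
    have := Real.isLittleO_log_id_atTop.bound (by linarith : (0 : ℝ) < (b - 1) / 4)
    filter_upwards [this, eventually_ge_atTop 1] with x hx hx1
    rw [Real.norm_eq_abs, Real.norm_eq_abs, id, abs_of_nonneg (Real.log_nonneg hx1),
      abs_of_nonneg (by linarith)] at hx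
    exact hx
  have h2 : Tendsto (fun n : ℕ => (n : ℝ) + 1) atTop atTop :=
    tendsto_atTop_add_const_right _ _ tendsto_natCast_atTop_atTop
  filter_upwards [h2.eventually h1, log_atTop.eventually_ge_atTop 1, eventually_ge_atTop 4]
    with n hn hn1 hn4
  have h3 := pow_JJ hb ha hn1
  have h4 : Real.log ((n : ℝ) + 1) ^ α' ≤ Real.log ((n : ℝ) + 1) := by
    calc Real.log ((n : ℝ) + 1) ^ α' ≤ Real.log ((n : ℝ) + 1) ^ (1 : ℝ) :=
          Real.rpow_le_rpow_of_exponent_le hn1 ha1.le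
      _ = _ := Real.rpow_one _
  have hbern : 1 + (JJ α' b n : ℝ) * (b - 1) ≤ b ^ (JJ α' b n) := by
    have := one_add_mul_le_pow (a := b - 1) (by linarith) (JJ α' b n)
    simpa using this
  have h5 : (JJ α' b n : ℝ) * (b - 1) ≤ (b - 1) / 4 * ((n : ℝ) + 1) := by linarith
  have hb0 : 0 < b - 1 := by linarith
  have h6 : (JJ α' b n : ℝ) ≤ ((n : ℝ) + 1) / 4 := by
    have : (JJ α' b n : ℝ) * (b - 1) ≤ ((n : ℝ) + 1) / 4 * (b - 1) := by linarith
    exact le_of_mul_le_mul_right this hb0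
  have h7 : (2 * (JJ α' b n + 1) : ℝ) ≤ (n : ℝ) + 1 := by
    have : (4 : ℝ) ≤ n := by exact_mod_cast hn4
    linarith
  exact_mod_cast h7

lemma event_MM {α α' b K : ℝ} (hb : 1 < b) (hK : 1 ≤ K) (ha : 0 < α') (haa : α' < α) :
    ∀ᶠ n : ℕ in atTop, ∀ j ≤ JJ α' b n + 1, K ^ (b ^ j) < MM α n := by
  have h1 : Tendsto (fun n : ℕ => Real.log ((n : ℝ) + 1) ^ (α - α')) atTop atTop :=
    (tendsto_rpow_atTop (by linarith)).comp log_atTop
  filter_upwards [log_atTop.eventually_ge_atTop 1, h1.eventually_gt_atTop (b * Real.log K)]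
    with n hn1 hn2 j hj
  have hK0 : 0 < K := by linarith
  have hl0 : 0 < Real.log ((n : ℝ) + 1) := by linarith
  have h3 := pow_JJ hb ha hn1
  have h4 : b ^ j ≤ b ^ (JJ α' b n) * b := by
    rw [← pow_succ]
    exact pow_le_pow_right₀ hb.le hj
  have hlK : 0 ≤ Real.log K := Real.log_nonneg hK
  rw [Real.rpow_def_of_pos hK0]
  unfold MM
  apply Real.exp_lt_exp.2
  calc Real.log K * b ^ j ≤ Real.log K * (b ^ (JJ α' b n) * b) :=
        mul_le_mul_of_nonneg_left h4 hlK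
    _ ≤ Real.log K * (Real.log ((n : ℝ) + 1) ^ α' * b) := by
        apply mul_le_mul_of_nonneg_left _ hlK
        exact mul_le_mul_of_nonneg_right h3 (by linarith)
    _ = (b * Real.log K) * Real.log ((n : ℝ) + 1) ^ α' := by ring
    _ < Real.log ((n : ℝ) + 1) ^ (α - α') * Real.log ((n : ℝ) + 1) ^ α' := by
        apply mul_lt_mul_of_pos_right hn2
        exact Real.rpow_pos_of_pos hl0 _
    _ = Real.log ((n : ℝ) + 1) ^ α := by
        rw [← Real.rpow_add hl0]
        congr 1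
        ring

/-! ## The moments -/

/-- the factors of the first moment -/
noncomputable def ph (K b : ℝ) (j : ℕ) (i : Fin (j + 1)) (k : ℕ) : ℝ≥0∞ :=
  if (i : ℕ) = j then (if K ^ (b ^ j) < (k : ℝ) + 1 then ((k : ℝ≥0∞) + 1) else 0)
  else (if (k : ℝ) ≤ K ^ (b ^ (i : ℕ)) then ((k : ℝ≥0∞) + 1) ^ 2 else 0)

lemma ph_prod {τ b K C : ℝ} (h2 : 2 < τ) (h3 : τ < 3) (hb : 1 / (τ - 2) < b) (hK : 1 ≤ K)
    (hC : 1 ≤ C) (μ : Measure ℕ)
    (hM1 : ∀ u : ℝ, 1 ≤ u → ∫⁻ k, (if (k : ℝ) ≤ u then ((k : ℝ≥0∞) + 1) ^ 2 else 0) ∂μ ≤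
      ENNReal.ofReal (C * u ^ (3 - τ)))
    (hM2 : ∀ u : ℝ, 1 ≤ u → ∫⁻ k, (if u < (k : ℝ) + 1 then ((k : ℝ≥0∞) + 1) else 0) ∂μ ≤
      ENNReal.ofReal (C * u ^ (2 - τ))) (j : ℕ) :
    ∏ i, ∫⁻ k, ph K b j i k ∂μ ≤ ENNReal.ofReal (C ^ (j + 1) *
      K ^ (-(((τ - 2) * b - 1) / (b - 1)) + -(((τ - 2) * b - 1)) * j)) := by
  have ht : 0 < τ - 2 := by linarith
  have hb1 : 1 < b := by
    refine lt_trans ?_ hb
    rw [lt_div_iff₀ ht]; linarith
  have hK0 : 0 < K := by linarith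
  have hC0 : 0 < C := by linarith
  have hKb : ∀ i : ℕ, 1 ≤ K ^ (b ^ i) := fun i => Real.one_le_rpow hK (by positivity)
  have e1 : ∀ i : Fin j, ∫⁻ k, ph K b j i.castSucc k ∂μ ≤
      ENNReal.ofReal (C * K ^ (b ^ (i : ℕ) * (3 - τ))) := by
    intro i
    have h4 : ¬ (i : ℕ) = j := i.2.ne
    unfold ph
    simp only [Fin.val_castSucc, h4, if_false]
    rw [Real.rpow_mul hK0.le]
    exact hM1 _ (hKb _)
  have e2 : ∫⁻ k, ph K b j (Fin.last j) k ∂μ ≤ ENNReal.ofReal (C * K ^ (b ^ j * (2 - τ))) := by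
    unfold ph
    simp only [Fin.val_last, if_true]
    rw [Real.rpow_mul hK0.le]
    exact hM2 _ (hKb _)
  rw [Fin.prod_univ_castSucc]
  calc (∏ i : Fin j, ∫⁻ k, ph K b j i.castSucc k ∂μ) * ∫⁻ k, ph K b j (Fin.last j) k ∂μ
      ≤ (∏ i : Fin j, ENNReal.ofReal (C * K ^ (b ^ (i : ℕ) * (3 - τ)))) *
          ENNReal.ofReal (C * K ^ (b ^ j * (2 - τ))) :=
        mul_le_mul' (Finset.prod_le_prod' fun i _ => e1 i) e2
    _ = ENNReal.ofReal ((∏ i : Fin j, (C * K ^ (b ^ (i : ℕ) * (3 - τ)))) *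
          (C * K ^ (b ^ j * (2 - τ)))) := by
        rw [← ENNReal.ofReal_prod_of_nonneg (fun i _ => by positivity),
          ← ENNReal.ofReal_mul (Finset.prod_nonneg fun i _ => by positivity)]
    _ ≤ _ := by
        apply ENNReal.ofReal_le_ofReal
        have e3 : ∏ i : Fin j, (C * K ^ (b ^ (i : ℕ) * (3 - τ)))
            = C ^ j * K ^ ((∑ i ∈ Finset.range j, b ^ i) * (3 - τ)) := by
          rw [Finset.prod_mul_distrib, Finset.prod_const, Finset.card_univ, Fintype.card_fin,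
            Finset.sum_mul, ← Real.rpow_sum_of_pos hK0,
            Fin.sum_univ_eq_sum_range (fun i => b ^ i * (3 - τ)) j]
        rw [e3]
        have e4 : C ^ j * K ^ ((∑ i ∈ Finset.range j, b ^ i) * (3 - τ)) *
            (C * K ^ (b ^ j * (2 - τ))) = C ^ (j + 1) *
            K ^ ((3 - τ) * (∑ i ∈ Finset.range j, b ^ i) + (2 - τ) * b ^ j) := by
          rw [Real.rpow_add hK0, pow_succ]
          have e5 : (∑ i ∈ Finset.range j, b ^ i) * (3 - τ) = (3 - τ) * (∑ i ∈ Finset.range j, b ^ i) :=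
            mul_comm _ _
          have e6 : b ^ j * (2 - τ) = (2 - τ) * b ^ j := mul_comm _ _
          rw [e5, e6]
          ring
        rw [e4]
        apply mul_le_mul_of_nonneg_left _ (by positivity)
        apply Real.rpow_le_rpow_of_exponent_le hK
        refine (expo h2 h3 hb j).trans (le_of_eq ?_)
        have hb0 : b - 1 ≠ 0 := by linarith
        field_simp
        ring

/-! ## Fixed degrees -/

lemma path_bound {n : ℕ} {δ d : Vx n → ℕ} {K b : ℝ} (hd2 : ∀ v, 2 ≤ δ v) (hδ : ∀ v, δ v ≤ d v)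
    (hδ' : ∀ v, d v ≤ δ v + 1) (hP : Target_PATH) (hev : Even (∑ v, d v)) {j : ℕ}
    (hj : 2 * j ≤ n + 1) (v : Fin (j + 1) → Vx n) (hv : Function.Injective v) :
    pairLaw d {σ | ((∀ i : Fin j, (d (v i.castSucc) : ℝ) ≤ K ^ (b ^ (i : ℕ))) ∧
      K ^ (b ^ j) < d (v (Fin.last j))) ∧ ∀ i : Fin j, Adj σ (v i.castSucc) (v i.succ)} ≤
      (((n + 1 : ℕ) : ℝ≥0∞)⁻¹) ^ j * ∏ i, ph K b j i (δ (v i)) := by
  by_cases hc : (∀ i : Fin j, (d (v i.castSucc) : ℝ) ≤ K ^ (b ^ (i : ℕ))) ∧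
      K ^ (b ^ j) < d (v (Fin.last j))
  · have hL : 2 * (n + 1) ≤ ∑ v, d v := by
      calc 2 * (n + 1) = ∑ _v : Vx n, 2 := by simp [mul_comm]
        _ ≤ ∑ v, d v := Finset.sum_le_sum fun v _ => (hd2 v).trans (hδ v)
    have hLR : (2 : ℝ) * (n + 1) ≤ ((∑ v, d v : ℕ) : ℝ) := by exact_mod_cast hL
    have hjR : (2 : ℝ) * j ≤ n + 1 := by exact_mod_cast hj
    have h1 := hP n d hev j v hv (by omega)
    have h2 : pairLaw d {σ | ((∀ i : Fin j, (d (v i.castSucc) : ℝ) ≤ K ^ (b ^ (i : ℕ))) ∧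
      K ^ (b ^ j) < d (v (Fin.last j))) ∧ ∀ i : Fin j, Adj σ (v i.castSucc) (v i.succ)} ≤
      pairLaw d {σ | ∀ i : Fin j, Adj σ (v i.castSucc) (v i.succ)} :=
      measure_mono fun σ hσ => hσ.2
    refine h2.trans (h1.trans ?_)
    -- the product of the factors
    set g : Fin (j + 1) → ℝ := fun i => (δ (v i) : ℝ) + 1 with hg
    have hg1 : ∀ i, 1 ≤ g i := fun i => by simp only [hg]; linarith [Nat.cast_nonneg (α := ℝ) (δ (v i))]
    have hg0 : ∀ i, 0 ≤ g i := fun i => zero_le_one.trans (hg1 i)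
    have hdg : ∀ i, (d (v i) : ℝ) ≤ g i := fun i => by
      simp only [hg]
      exact_mod_cast hδ' (v i)
    have hprod : ∏ i : Fin j, ((d (v i.castSucc) : ℝ) * d (v i.succ)) ≤
        (∏ i : Fin j, g i.castSucc ^ 2) * g (Fin.last j) := by
      calc ∏ i : Fin j, ((d (v i.castSucc) : ℝ) * d (v i.succ))
          ≤ ∏ i : Fin j, (g i.castSucc * g i.succ) := by
            apply Finset.prod_le_prod (fun i _ => by positivity)
            intro i _
            exact mul_le_mul (hdg _) (hdg _) (by positivity) (hg0 _)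
        _ = (∏ i : Fin j, g i.castSucc) * ∏ i : Fin j, g i.succ := Finset.prod_mul_distrib
        _ ≤ (∏ i : Fin j, g i.castSucc) * (g 0 * ∏ i : Fin j, g i.succ) := by
            apply mul_le_mul_of_nonneg_left _ (Finset.prod_nonneg fun i _ => hg0 _)
            exact le_mul_of_one_le_left (Finset.prod_nonneg fun i _ => hg0 _) (hg1 0)
        _ = (∏ i : Fin j, g i.castSucc) * ((∏ i : Fin j, g i.castSucc) * g (Fin.last j)) := by
            rw [← Fin.prod_univ_succ, ← Fin.prod_univ_castSucc]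
        _ = (∏ i : Fin j, g i.castSucc ^ 2) * g (Fin.last j) := by
            rw [Finset.prod_pow]; ring
    have hpow : (1 / (((∑ v, d v : ℕ) : ℝ) - 2 * j)) ^ j ≤ (((n + 1 : ℕ) : ℝ)⁻¹) ^ j := by
      apply pow_le_pow_left₀
      · apply one_div_nonneg.2; linarith
      · rw [one_div]
        apply inv_anti₀
        · positivity
        · have e1 : ((n + 1 : ℕ) : ℝ) = (n : ℝ) + 1 := by push_cast; ring
          rw [e1]; linarith
    have hreal : (1 / (((∑ v, d v : ℕ) : ℝ) - 2 * j)) ^ j *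
        ∏ i : Fin j, ((d (v i.castSucc) : ℝ) * d (v i.succ)) ≤
        (((n + 1 : ℕ) : ℝ)⁻¹) ^ j * ((∏ i : Fin j, g i.castSucc ^ 2) * g (Fin.last j)) :=
      mul_le_mul hpow hprod (Finset.prod_nonneg fun i _ => by positivity) (by positivity)
    refine (ENNReal.ofReal_le_ofReal hreal).trans (le_of_eq ?_)
    have hcast : ∀ i, ENNReal.ofReal (g i) = ((δ (v i) : ℕ) : ℝ≥0∞) + 1 := by
      intro i
      simp only [hg]
      rw [ENNReal.ofReal_add (Nat.cast_nonneg _) zero_le_one, ENNReal.ofReal_natCast,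
        ENNReal.ofReal_one]
    have hN : ENNReal.ofReal (((n + 1 : ℕ) : ℝ)⁻¹) = (((n + 1 : ℕ) : ℝ≥0∞)⁻¹) := by
      rw [ENNReal.ofReal_inv_of_pos (by positivity), ENNReal.ofReal_natCast]
    rw [ENNReal.ofReal_mul (by positivity), ENNReal.ofReal_pow (by positivity), hN,
      ENNReal.ofReal_mul (Finset.prod_nonneg fun i _ => by positivity),
      ENNReal.ofReal_prod_of_nonneg (fun i _ => by positivity), hcast, Fin.prod_univ_castSucc]
    congr 2
    · apply Finset.prod_congr rfl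
      intro i _
      have h4 : ¬ ((i.castSucc : Fin (j + 1)) : ℕ) = j := by
        have := i.2
        simp only [Fin.val_castSucc]
        omega
      have h5 : ((δ (v i.castSucc) : ℕ) : ℝ) ≤ K ^ (b ^ (i : ℕ)) :=
        le_trans (by exact_mod_cast hδ (v i.castSucc)) (hc.1 i)
      rw [ENNReal.ofReal_pow (hg0 _), hcast]
      unfold ph
      rw [if_neg h4]
      simp only [Fin.val_castSucc]
      rw [if_pos h5]
    · unfold ph
      have h5 : K ^ (b ^ j) < ((δ (v (Fin.last j)) : ℕ) : ℝ) + 1 :=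
        lt_of_lt_of_le hc.2 (by exact_mod_cast hδ' (v (Fin.last j)))
      rw [if_pos (by simp), if_pos h5]
  · have h0 : {σ : Equiv.Perm (Half d) | ((∀ i : Fin j, (d (v i.castSucc) : ℝ) ≤ K ^ (b ^ (i : ℕ))) ∧
      K ^ (b ^ j) < d (v (Fin.last j))) ∧ ∀ i : Fin j, Adj σ (v i.castSucc) (v i.succ)} = ∅ := by
      apply eq_empty_of_forall_notMem
      intro σ hσ
      exact hc hσ.1
    rw [h0, measure_empty]
    exact zero_le

/-- the event at `x` -/
def Ev {n : ℕ} (d : Vx n → ℕ) (S : Set (Vx n)) (J : ℕ) (x : Vx n) :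
    Set (Equiv.Perm (Half d)) :=
  {σ | x ∈ S ∨ ∃ u ∈ ball (Adj σ) S x J, ∃ v ∈ S, Adj σ u v}

lemma sum_ev {n : ℕ} {δ d : Vx n → ℕ} {K b M : ℝ} (hd2 : ∀ v, 2 ≤ δ v) (hδ : ∀ v, δ v ≤ d v)
    (hδ' : ∀ v, d v ≤ δ v + 1) (hP : Target_PATH) (hev : Even (∑ v, d v)) {J : ℕ}
    (hJ : 2 * (J + 1) ≤ n + 1) (hu : ∀ j ≤ J + 1, K ^ (b ^ j) < M) :
    ∑ x, pairLaw d (Ev d {v | M ≤ (d v : ℝ)} J x) ≤
      ∑ j ∈ Finset.range (J + 2), (((n + 1 : ℕ) : ℝ≥0∞)⁻¹) ^ j *
        ∑ v ∈ Finset.univ.filter (fun v : Fin (j + 1) → Vx n => Function.Injective v),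
          ∏ i, ph K b j i (δ (v i)) := by
  classical
  -- the elementary events
  let R : (j : ℕ) → (Fin (j + 1) → Vx n) → Set (Equiv.Perm (Half d)) := fun j v =>
    {σ | ((∀ i : Fin j, (d (v i.castSucc) : ℝ) ≤ K ^ (b ^ (i : ℕ))) ∧
      K ^ (b ^ j) < d (v (Fin.last j))) ∧ ∀ i : Fin j, Adj σ (v i.castSucc) (v i.succ)}
  have h1 : ∀ x, pairLaw d (Ev d {v | M ≤ (d v : ℝ)} J x) ≤ ∑ j ∈ Finset.range (J + 2),
      ∑ v ∈ Finset.univ.filter (fun v : Fin (j + 1) → Vx n => Function.Injective v),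
        if v 0 = x then pairLaw d (R j v) else 0 := by
    intro x
    have hsub : Ev d {v | M ≤ (d v : ℝ)} J x ⊆ ⋃ j ∈ Finset.range (J + 2),
        ⋃ v ∈ Finset.univ.filter (fun v : Fin (j + 1) → Vx n => Function.Injective v),
          {σ | v 0 = x ∧ σ ∈ R j v} := by
      intro σ hσ
      obtain ⟨j, hj, w, hw1, hw2, hw3, hw4, hw5⟩ :=
        segment (Adj σ) d M (fun j => K ^ (b ^ j)) x J hu hσ
      simp only [mem_iUnion, Finset.mem_range, Finset.mem_filter, Finset.mem_univ, true_and]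
      exact ⟨j, by omega, w, hw1, hw2, ⟨hw4, hw5⟩, hw3⟩
    refine (measure_mono hsub).trans ((measure_biUnion_finset_le _ _).trans ?_)
    apply Finset.sum_le_sum
    intro j _
    refine (measure_biUnion_finset_le _ _).trans ?_
    apply Finset.sum_le_sum
    intro v _
    by_cases hv0 : v 0 = x
    · rw [if_pos hv0]
      exact measure_mono fun σ hσ => hσ.2
    · rw [if_neg hv0]
      have h0 : {σ | v 0 = x ∧ σ ∈ R j v} = ∅ :=
        eq_empty_of_forall_notMem fun σ hσ => hv0 hσ.1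
      rw [h0, measure_empty]
  calc ∑ x, pairLaw d (Ev d {v | M ≤ (d v : ℝ)} J x)
      ≤ ∑ x, ∑ j ∈ Finset.range (J + 2),
        ∑ v ∈ Finset.univ.filter (fun v : Fin (j + 1) → Vx n => Function.Injective v),
          if v 0 = x then pairLaw d (R j v) else 0 := Finset.sum_le_sum fun x _ => h1 x
    _ = ∑ j ∈ Finset.range (J + 2),
        ∑ v ∈ Finset.univ.filter (fun v : Fin (j + 1) → Vx n => Function.Injective v),
          pairLaw d (R j v) := by
        rw [Finset.sum_comm]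
        apply Finset.sum_congr rfl
        intro j _
        rw [Finset.sum_comm]
        apply Finset.sum_congr rfl
        intro v _
        rw [Finset.sum_ite_eq]
        simp
    _ ≤ _ := by
        apply Finset.sum_le_sum
        intro j hj
        rw [Finset.mul_sum]
        apply Finset.sum_le_sum
        intro v hv
        rw [Finset.mem_range] at hj
        rw [Finset.mem_filter] at hv
        exact path_bound hd2 hδ hδ' hP hev (by omega) v hv.2

lemma ae_two {μ : Measure ℕ} [IsProbabilityMeasure μ] (h : μ {k | k < 2} = 0) (n : ℕ) :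
    ∀ᵐ δ ∂(Measure.pi fun _ : Vx n => μ), ∀ v, 2 ≤ δ v := by
  rw [ae_all_iff]
  intro v
  have h1 : ∀ᵐ k ∂μ, 2 ≤ k := by
    rw [ae_iff]
    simpa using h
  exact (Measure.quasiMeasurePreserving_eval (μ := fun _ : Vx n => μ) v).ae h1

lemma avg_bound {μ : Measure ℕ} [IsProbabilityMeasure μ] (h2 : μ {k | k < 2} = 0) {n : ℕ}
    {K b α : ℝ} (hC : Target_COND) (hP : Target_PATH) (hR : Target_PROD) {J : ℕ}
    (hJ : 2 * (J + 1) ≤ n + 1) (hu : ∀ j ≤ J + 1, K ^ (b ^ j) < MM α n) :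
    avg (fun x : Vx n => cfgLaw μ n {g | x ∈ core α (fixDeg g.deg) ∨
      ∃ u ∈ ball (Adj g.pair) (core α (fixDeg g.deg)) x J,
        ∃ v ∈ core α (fixDeg g.deg), Adj g.pair u v}) ≤
      ∑ j ∈ Finset.range (J + 2), ∏ i, ∫⁻ k, ph K b j i k ∂μ := by
  obtain ⟨-, -, hfix, hcond, -⟩ := hC
  have hN0 : ((n + 1 : ℕ) : ℝ≥0∞) ≠ 0 := by exact_mod_cast Nat.succ_ne_zero n
  have hNt : ((n + 1 : ℕ) : ℝ≥0∞) ≠ ⊤ := ENNReal.natCast_ne_top _
  unfold avg
  rw [ENNReal.div_le_iff hN0 hNt]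
  calc ∑ x, cfgLaw μ n {g | x ∈ core α (fixDeg g.deg) ∨
      ∃ u ∈ ball (Adj g.pair) (core α (fixDeg g.deg)) x J,
        ∃ v ∈ core α (fixDeg g.deg), Adj g.pair u v}
      = ∑ x, ∫⁻ δ, pairLaw (fixDeg δ) (Ev (fixDeg δ) (core α (fixDeg δ)) J x)
          ∂(Measure.pi fun _ : Vx n => μ) := by
        apply Finset.sum_congr rfl
        intro x _
        exact hcond μ n _
    _ = ∫⁻ δ, ∑ x, pairLaw (fixDeg δ) (Ev (fixDeg δ) (core α (fixDeg δ)) J x)
          ∂(Measure.pi fun _ : Vx n => μ) := by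
        rw [lintegral_finsetSum]
        intro x _
        exact measurable_of_countable _
    _ ≤ ∫⁻ δ, ∑ j ∈ Finset.range (J + 2), (((n + 1 : ℕ) : ℝ≥0∞)⁻¹) ^ j *
        ∑ v ∈ Finset.univ.filter (fun v : Fin (j + 1) → Vx n => Function.Injective v),
          ∏ i, ph K b j i (δ (v i)) ∂(Measure.pi fun _ : Vx n => μ) := by
        apply lintegral_mono_ae
        filter_upwards [ae_two h2 n] with δ hδ
        exact sum_ev hδ (fun v => ((hfix n δ).2 v).1) (fun v => ((hfix n δ).2 v).2) hP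
          (hfix n δ).1 hJ hu
    _ = ∑ j ∈ Finset.range (J + 2), (((n + 1 : ℕ) : ℝ≥0∞)⁻¹) ^ j *
        ∫⁻ δ, ∑ v ∈ Finset.univ.filter (fun v : Fin (j + 1) → Vx n => Function.Injective v),
          ∏ i, ph K b j i (δ (v i)) ∂(Measure.pi fun _ : Vx n => μ) := by
        rw [lintegral_finsetSum _ (fun j _ => measurable_of_countable _)]
        apply Finset.sum_congr rfl
        intro j _
        rw [lintegral_const_mul _ (measurable_of_countable _)]
    _ ≤ ∑ j ∈ Finset.range (J + 2), (((n + 1 : ℕ) : ℝ≥0∞)⁻¹) ^ j *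
        (((n + 1 : ℕ) : ℝ≥0∞) ^ (j + 1) * ∏ i, ∫⁻ k, ph K b j i k ∂μ) := by
        apply Finset.sum_le_sum
        intro j _
        exact mul_le_mul' le_rfl (hR μ n j (ph K b j))
    _ = _ := by
        rw [Finset.sum_mul]
        apply Finset.sum_congr rfl
        intro j _
        rw [← mul_assoc, pow_succ, ← mul_assoc, ← mul_pow, ENNReal.inv_mul_cancel hN0 hNt, one_pow,
          one_mul, mul_comm]

end BlueAux

open BlueAux in
theorem target_BLUE (hC : Target_COND) (hP : Target_PATH) (hR : Target_PROD) (hM : Target_MOM) :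
    Target_BLUE := by
  intro τ μ _ c₁ C₁ hT b α α' hb ha haa _ ε hε
  obtain ⟨C, hC1, hM1, hM2, -⟩ := hM τ μ c₁ C₁ hT
  have h2 := hT.two_lt
  have h3 := hT.lt_three
  have ht : 0 < τ - 2 := by linarith
  have hb1 : 1 < b := by
    refine lt_trans ?_ hb
    rw [lt_div_iff₀ ht]; linarith
  have hc' : 0 < (τ - 2) * b - 1 := by
    rw [div_lt_iff₀ ht] at hb
    linarith
  have hc : 0 < ((τ - 2) * b - 1) / (b - 1) := div_pos hc' (by linarith)
  -- a real bound
  obtain ⟨e, he0, he⟩ : ∃ e : ℝ, 0 < e ∧ ENNReal.ofReal e ≤ ε := by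
    rcases eq_or_ne ε ⊤ with h | h
    · exact ⟨1, one_pos, by rw [h]; exact le_top⟩
    · exact ⟨ε.toReal, ENNReal.toReal_pos hε.ne' h, by rw [ENNReal.ofReal_toReal h]⟩
  obtain ⟨K, hK, hK1, hK2⟩ := exists_K (C := C) hc hc' he0
  filter_upwards [event_size hb1 ha (by linarith : α' < 1), event_MM hb1 hK ha haa] with n hn1 hn2
  refine (avg_bound hT.two_le hC hP hR hn1 hn2).trans (le_trans ?_ he)
  calc ∑ j ∈ Finset.range (JJ α' b n + 2), ∏ i, ∫⁻ k, ph K b j i k ∂μ
      ≤ ∑ j ∈ Finset.range (JJ α' b n + 2), ENNReal.ofReal (C ^ (j + 1) *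
      K ^ (-(((τ - 2) * b - 1) / (b - 1)) + -(((τ - 2) * b - 1)) * j)) :=
        Finset.sum_le_sum fun j _ => ph_prod h2 h3 hb hK hC1 μ hM1 hM2 j
    _ = ENNReal.ofReal (∑ j ∈ Finset.range (JJ α' b n + 2), C ^ (j + 1) *
      K ^ (-(((τ - 2) * b - 1) / (b - 1)) + -(((τ - 2) * b - 1)) * j)) := by
        rw [ENNReal.ofReal_sum_of_nonneg]
        intro j _
        have : 0 ≤ C := by linarith
        have : 0 ≤ K := by linarith
        positivity
    _ ≤ ENNReal.ofReal e :=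
        ENNReal.ofReal_le_ofReal (sum_bound (by linarith) hK hK1 hK2 _)

end Pool.Agent.TwoCol
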