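import Pool.Agent.TwoCol.Spec

/-!
# Countability, measurability, Fubini, existence of pairings
-/

open MeasureTheory ProbabilityTheory Filter Topology Set
open scoped ENNReal NNReal

namespace Pool.Agent.TwoCol

namespace CondAux

/-- A finite type with an even number of elements has a pairing. -/
theorem exists_pairing {H : Type*} [Fintype H] (h : Even (Fintype.card H)) :
    ∃ σ : Equiv.Perm H, IsPairing σ := by
  obtain ⟨k, hk⟩ := h
  have e : H ≃ Fin k ⊕ Fin k := Fintype.equivOfCardEq (by simp [hk])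
  refine ⟨(e.trans (Equiv.sumComm _ _)).trans e.symm, fun x => ⟨?_, ?_⟩⟩
  · simp
  · intro hx
    have h2 : (Equiv.sumComm _ _) (e x) = e x := by
      have := congrArg e hx
      simpa using this
    rcases he : e x with y | y
    · rw [he] at h2
      simp at h2
    · rw [he] at h2
      simp at h2

theorem card_half {n : ℕ} (d : Vx n → ℕ) : Fintype.card (Half d) = ∑ v, d v := by
  simp [Half, Fintype.card_sigma]

instance discPerm {n : ℕ} (d : Vx n → ℕ) : DiscreteMeasurableSpace (Equiv.Perm (Half d)) :=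
  ⟨fun _ => MeasurableSpace.measurableSet_top⟩

instance discCfg (n : ℕ) : DiscreteMeasurableSpace (Cfg n) :=
  ⟨fun _ => MeasurableSpace.measurableSet_top⟩

instance countable_cfg (n : ℕ) : Countable (Cfg n) := by
  have hinj : Function.Injective
      (fun g : Cfg n => (⟨g.deg, g.pair⟩ : Σ δ : Vx n → ℕ, Equiv.Perm (Half (fixDeg δ)))) := by
    intro g g' h
    cases g
    cases g'
    simp only [Sigma.mk.injEq] at h
    obtain ⟨h1, h2⟩ := h
    subst h1
    simp only [heq_eq_eq] at h2
    subst h2
    rfl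
  exact hinj.countable

theorem prob_pairLaw {n : ℕ} (d : Vx n → ℕ) (h : Even (∑ v, d v)) :
    IsProbabilityMeasure (pairLaw d) := by
  unfold pairLaw
  refine isProbabilityMeasure_uniformOn (Set.toFinite _) ?_
  obtain ⟨σ, hσ⟩ := exists_pairing (H := Half d) (by rw [card_half]; exact h)
  exact ⟨σ, hσ⟩

instance sfinite_pairLaw {n : ℕ} (d : Vx n → ℕ) : IsFiniteMeasure (pairLaw d) := by
  unfold pairLaw
  rcases Set.eq_empty_or_nonempty {σ : Equiv.Perm (Half d) | IsPairing σ} with h | h
  · rw [h, uniformOn, ProbabilityTheory.cond_empty]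
    infer_instance
  · have := isProbabilityMeasure_uniformOn (Set.toFinite _) h
    infer_instance

theorem fixDeg_spec {n : ℕ} (δ : Vx n → ℕ) : Even (∑ v, fixDeg δ v) ∧ ∀ v, δ v ≤ fixDeg δ v ∧
    fixDeg δ v ≤ δ v + 1 := by
  unfold fixDeg
  split_ifs with h
  · exact ⟨h, fun v => ⟨le_rfl, Nat.le_succ _⟩⟩
  · refine ⟨?_, fun v => ?_⟩
    · have h1 : ∑ v, Function.update δ (Fin.last n) (δ (Fin.last n) + 1) v = (∑ v, δ v) + 1 := by
        have h3 := Finset.sum_update_of_mem (Finset.mem_univ (Fin.last n)) δ (δ (Fin.last n) + 1)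
        have h4 := Finset.sum_update_of_mem (Finset.mem_univ (Fin.last n)) δ (δ (Fin.last n))
        rw [Function.update_eq_self] at h4
        rw [h3, h4]
        ring
      rw [h1]
      exact (Nat.not_even_iff_odd.mp h).add_one
    · by_cases hv : v = Fin.last n
      · subst hv
        simp
      · rw [Function.update_of_ne hv]
        exact ⟨le_rfl, Nat.le_succ _⟩

theorem cfgLaw_apply (μ : Measure ℕ) (n : ℕ) (S : Set (Cfg n)) :
    cfgLaw μ n S = ∫⁻ δ, pairLaw (fixDeg δ) {σ | Cfg.mk δ σ ∈ S} ∂(Measure.pi fun _ : Vx n => μ) := by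
  unfold cfgLaw
  rw [Measure.bind_apply (MeasurableSet.of_discrete) (measurable_of_countable _).aemeasurable]
  refine lintegral_congr fun δ => ?_
  rw [Measure.map_apply (measurable_of_countable _) MeasurableSet.of_discrete]
  rfl

theorem prob_cfgLaw (μ : Measure ℕ) [IsProbabilityMeasure μ] (n : ℕ) :
    IsProbabilityMeasure (cfgLaw μ n) := by
  refine ⟨?_⟩
  rw [cfgLaw_apply]
  have h : ∀ δ : Vx n → ℕ, pairLaw (fixDeg δ) {σ | Cfg.mk δ σ ∈ (Set.univ : Set (Cfg n))} = 1 := by
    intro δ
    have := prob_pairLaw (fixDeg δ) (fixDeg_spec δ).1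
    simp
  simp only [h]
  simp

instance prob_marksLaw (ρ : Measure (ℝ≥0 × ℝ≥0)) [IsProbabilityMeasure ρ] (n : ℕ) :
    IsProbabilityMeasure (marksLaw ρ n) := by
  unfold marksLaw
  infer_instance

/-- A set in a product with countable discrete first factor is measurable if its sections are. -/
theorem measurableSet_of_sections {A B : Type*} [MeasurableSpace A] [MeasurableSpace B]
    [DiscreteMeasurableSpace A] [Countable A] (S : Set (A × B))
    (h : ∀ a, MeasurableSet {b | (a, b) ∈ S}) : MeasurableSet S := by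
  have hS : S = ⋃ a : A, ({a} : Set A) ×ˢ {b | (a, b) ∈ S} := by
    ext ⟨a, b⟩
    simp
  rw [hS]
  exact MeasurableSet.iUnion fun a => (MeasurableSet.of_discrete).prod (h a)

theorem Q_apply (μ : Measure ℕ) [IsProbabilityMeasure μ] (ρ : Measure (ℝ≥0 × ℝ≥0))
    [IsProbabilityMeasure ρ] (n : ℕ) (S : Set (Cfg n × Marks n))
    (hS : ∀ g, MeasurableSet {X | (g, X) ∈ S}) :
    MeasurableSet S ∧ Q μ ρ n S = ∫⁻ δ, ((pairLaw (fixDeg δ)).prod (marksLaw ρ n))
      {p | (Cfg.mk δ p.1, p.2) ∈ S} ∂(Measure.pi fun _ : Vx n => μ) := by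
  have hm := measurableSet_of_sections S hS
  refine ⟨hm, ?_⟩
  unfold Q
  rw [Measure.prod_apply hm]
  unfold cfgLaw
  rw [Measure.lintegral_bind (measurable_of_countable _).aemeasurable
    (measurable_of_countable _).aemeasurable]
  refine lintegral_congr fun δ => ?_
  rw [lintegral_map (measurable_of_countable _) (measurable_of_countable _)]
  rw [Measure.prod_apply (measurableSet_of_sections _ fun σ => hS (Cfg.mk δ σ))]
  rfl

theorem measurable_rd (n : ℕ) (d : Vx n → ℕ) (σ : Equiv.Perm (Half d)) (u v : Vx n) :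
    Measurable fun X : Marks n => rd σ X u v := by
  unfold rd
  refine Measurable.iInf fun h => Measurable.iInf fun _ => ?_
  exact (measurable_pi_apply (edge σ h)).fst.coe_nnreal_ennreal

end CondAux

open CondAux in
/-- JOB COND. -/
theorem target_COND : Target_COND := by
  refine ⟨fun μ _ n => prob_cfgLaw μ n, fun n d h => prob_pairLaw d h, fun n δ => fixDeg_spec δ,
    fun μ _ n S => cfgLaw_apply μ n S, fun μ _ ρ _ n S hS => Q_apply μ ρ n S hS,
    fun n d σ u v => measurable_rd n d σ u v, fun n d ρ _ S hS => ?_⟩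
  have hm := measurableSet_of_sections S hS
  exact ⟨hm, Measure.prod_apply hm⟩

end Pool.Agent.TwoCol

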