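import Pool.Agent.TwoCol.Spec

/-!
# Short paths inside the core
-/

open MeasureTheory ProbabilityTheory Filter Topology Set
open scoped ENNReal NNReal

namespace Pool.Agent.TwoCol

namespace CoreAux

/-! ### Paths -/

/-- There is a path with `l` steps of the relation `R` inside `S`. -/
def Conn {V : Type*} (R : V → V → Prop) (S : Set V) (l : ℕ) (u v : V) : Prop :=
  ∃ y : ℕ → V, y 0 = u ∧ y l = v ∧ (∀ i ≤ l, y i ∈ S) ∧ ∀ i < l, R (y i) (y (i + 1))

lemma Conn.refl {V : Type*} {R : V → V → Prop} {S : Set V} {u : V} (hu : u ∈ S) :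
    Conn R S 0 u u :=
  ⟨fun _ => u, rfl, rfl, fun _ _ => hu, fun _ h => absurd h (Nat.not_lt_zero _)⟩

lemma Conn.single {V : Type*} {R : V → V → Prop} {S : Set V} {u v : V} (hu : u ∈ S) (hv : v ∈ S)
    (h : R u v) : Conn R S 1 u v := by
  refine ⟨fun i => if i = 0 then u else v, by simp, by simp, ?_, ?_⟩
  · intro i hi
    by_cases h0 : i = 0
    · simpa [h0] using hu
    · simpa [h0] using hv
  · intro i hi
    have : i = 0 := by omega
    subst this
    simpa using h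

lemma Conn.trans {V : Type*} {R : V → V → Prop} {S : Set V} {l m : ℕ} {u v w : V}
    (h1 : Conn R S l u v) (h2 : Conn R S m v w) : Conn R S (l + m) u w := by
  obtain ⟨y, hy0, hyl, hyS, hyR⟩ := h1
  obtain ⟨z, hz0, hzm, hzS, hzR⟩ := h2
  refine ⟨fun i => if i ≤ l then y i else z (i - l), by simp [hy0], ?_, ?_, ?_⟩
  · by_cases hm : m = 0
    · subst hm
      simp [hyl, ← hz0, hzm]
    · have : ¬ (l + m ≤ l) := by omega
      simp only [this, if_false]
      rw [Nat.add_sub_cancel_left]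
      exact hzm
  · intro i hi
    by_cases hil : i ≤ l
    · simp only [hil, if_true]
      exact hyS i hil
    · simp only [hil, if_false]
      exact hzS _ (by omega)
  · intro i hi
    by_cases hil : i + 1 ≤ l
    · have hil' : i ≤ l := by omega
      simp only [hil, hil', if_true]
      exact hyR i (by omega)
    · by_cases hil' : i ≤ l
      · have h3 : i = l := by omega
        subst h3
        simp only [hil, hil', if_true, if_false]
        rw [hyl, ← hz0]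
        have : i + 1 - i = 0 + 1 := by omega
        rw [this]
        exact hzR 0 (by omega)
      · simp only [hil, hil', if_false]
        have : i + 1 - l = (i - l) + 1 := by omega
        rw [this]
        exact hzR _ (by omega)

lemma Conn.symm {V : Type*} {R : V → V → Prop} {S : Set V} (hR : ∀ u v, R u v → R v u) {l : ℕ}
    {u v : V} (h1 : Conn R S l u v) : Conn R S l v u := by
  obtain ⟨y, hy0, hyl, hyS, hyR⟩ := h1
  refine ⟨fun i => y (l - i), by simpa using hyl, by simpa using hy0, ?_, ?_⟩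
  · intro i hi
    exact hyS _ (by omega)
  · intro i hi
    have : l - i = (l - (i + 1)) + 1 := by omega
    simp only
    rw [this]
    exact hR _ _ (hyR _ (by omega))

/-- Ascending paths. -/
lemma ascend {V : Type*} {R : V → V → Prop} {d : V → ℝ} {M T a : ℝ} (hM : 1 ≤ M) (hMT : M ≤ T)
    (ha : 1 ≤ a)
    (H1 : ∀ v, M ≤ d v → d v < T → ∃ w, min ((d v) ^ a) T ≤ d w ∧ R v w) :
    ∀ (i : ℕ) (u : V), M ≤ d u →
      ∃ l ≤ i, ∃ v, Conn R {v | M ≤ d v} l u v ∧ min (M ^ (a ^ i)) T ≤ d v := by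
  intro i
  induction i with
  | zero =>
    intro u hu
    refine ⟨0, le_refl _, u, Conn.refl hu, ?_⟩
    simp only [pow_zero, Real.rpow_one]
    exact le_trans (min_le_left _ _) hu
  | succ i ih =>
    intro u hu
    obtain ⟨l, hl, v, hc, hv⟩ := ih u hu
    by_cases hT : T ≤ d v
    · exact ⟨l, by omega, v, hc, le_trans (min_le_right _ _) hT⟩
    · push Not at hT
      have hvM : M ≤ d v := by
        obtain ⟨y, -, hyl, hyS, -⟩ := hc
        have := hyS l (le_refl _)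
        rw [hyl] at this
        exact this
      obtain ⟨w, hw, hR⟩ := H1 v hvM hT
      have hd1 : 1 ≤ d v := le_trans hM hvM
      have hwM : M ≤ d w := by
        refine le_trans (le_min ?_ hMT) hw
        calc M ≤ d v := hvM
          _ = (d v) ^ (1 : ℝ) := (Real.rpow_one _).symm
          _ ≤ (d v) ^ a := Real.rpow_le_rpow_of_exponent_le hd1 ha
      refine ⟨l + 1, by omega, w, hc.trans (Conn.single hvM hwM hR), ?_⟩
      have h2 : M ^ (a ^ i) ≤ d v := by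
        rcases min_le_iff.1 hv with h | h
        · exact h
        · exact absurd h (not_le.2 hT)
      refine le_trans (min_le_min ?_ (le_refl _)) hw
      calc M ^ (a ^ (i + 1)) = (M ^ (a ^ i)) ^ a := by
            rw [← Real.rpow_mul (by linarith), pow_succ]
        _ ≤ (d v) ^ a := Real.rpow_le_rpow (Real.rpow_nonneg (by linarith) _) h2 (by linarith)

lemma conn_all {V : Type*} {R : V → V → Prop} (hR : ∀ u v, R u v → R v u)
    {d : V → ℝ} {M T a : ℝ} (hM : 1 ≤ M) (hMT : M ≤ T)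
    (ha : 1 ≤ a)
    (H1 : ∀ v, M ≤ d v → d v < T → ∃ w, min ((d v) ^ a) T ≤ d w ∧ R v w)
    (H2 : ∀ u v, u ≠ v → T ≤ d u → T ≤ d v → R u v) (I : ℕ) (hI : T ≤ M ^ (a ^ I)) (u v : V)
    (hu : M ≤ d u) (hv : M ≤ d v) : ∃ l ≤ 2 * I + 1, Conn R {v | M ≤ d v} l u v := by
  obtain ⟨l, hl, u', hcu, hu'⟩ := ascend hM hMT ha H1 I u hu
  obtain ⟨m, hm, v', hcv, hv'⟩ := ascend hM hMT ha H1 I v hv
  rw [min_eq_right hI] at hu' hv'
  by_cases h : u' = v'
  · subst h
    exact ⟨l + m, by omega, hcu.trans (hcv.symm hR)⟩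
  · exact ⟨l + 1 + m, by omega, (hcu.trans (Conn.single (le_trans hMT hu') (le_trans hMT hv')
      (H2 u' v' h hu' hv'))).trans (hcv.symm hR)⟩

/-! ### Symmetry of `rd` -/

lemma edge_symm {n : ℕ} {d : Vx n → ℕ} {σ : Equiv.Perm (Half d)} (hσ : IsPairing σ) (h : Half d) :
    edge σ (σ h) = edge σ h := by
  unfold edge
  rw [(hσ h).1]
  exact Sym2.eq_swap

lemma rd_le {n : ℕ} {d : Vx n → ℕ} {σ : Equiv.Perm (Half d)} {X : Marks n} {u v : Vx n}
    (h : Half d) (h1 : h.1 = u) (h2 : (σ h).1 = v) {q : ℝ≥0∞} (hq : ((X (edge σ h)).1 : ℝ≥0∞) ≤ q) :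
    rd σ X u v ≤ q :=
  le_trans (iInf₂_le h ⟨h1, h2⟩) hq

lemma rd_symm {n : ℕ} {d : Vx n → ℕ} {σ : Equiv.Perm (Half d)} (hσ : IsPairing σ) (X : Marks n)
    (u v : Vx n) : rd σ X u v = rd σ X v u := by
  have key : ∀ u v : Vx n, rd σ X u v ≤ rd σ X v u := by
    intro u v
    refine le_iInf₂ fun h hh => ?_
    refine rd_le (σ h) hh.2 (by rw [(hσ h).1]; exact hh.1) ?_
    rw [edge_symm hσ]
  exact le_antisymm (key u v) (key v u)

/-! ### Half-edges -/

/-- The half-edges at the vertices of `T`. -/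
def halfs {n : ℕ} (d : Vx n → ℕ) (T : Finset (Vx n)) : Finset (Half d) :=
  T.sigma fun v => (Finset.univ : Finset (Fin (d v)))

lemma mem_halfs {n : ℕ} {d : Vx n → ℕ} {T : Finset (Vx n)} {h : Half d} :
    h ∈ halfs d T ↔ h.1 ∈ T := by
  simp [halfs]

lemma card_halfs {n : ℕ} (d : Vx n → ℕ) (T : Finset (Vx n)) :
    (halfs d T).card = ∑ v ∈ T, d v := by
  simp [halfs]

lemma pow_bound {x y : ℝ} {k : ℕ} (hxy : x ≤ y) (hy : y ≤ 1) :
    (1 - y) ^ k ≤ Real.exp (-((k : ℝ) * x)) := by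
  have h1 : 1 - y ≤ Real.exp (-x) := by
    have := Real.add_one_le_exp (-x)
    linarith
  calc (1 - y) ^ k ≤ (Real.exp (-x)) ^ k := pow_le_pow_left₀ (by linarith) h1 k
    _ = Real.exp (-((k : ℝ) * x)) := by
        rw [← Real.exp_nat_mul]
        ring_nf

/-- The bound of `Target_PAIR` without given pairs. -/
lemma pair0 (hP : Target_PAIR) {n : ℕ} (d : Vx n → ℕ) (hd : Even (∑ v, d v))
    (hpos : 0 < ∑ v, d v)
    (ρ : Measure (ℝ≥0 × ℝ≥0)) [IsProbabilityMeasure ρ] (G : Set (ℝ≥0 × ℝ≥0)) (hG : MeasurableSet G)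
    (A B : Finset (Half d)) (hAB : Disjoint A B) (k : ℕ) (hA : 2 * k ≤ A.card) (hB : k ≤ B.card)
    (x : ℝ) (hx : x ≤ (ρ G).toReal * ((B.card : ℝ) - k) / ((∑ v, d v : ℕ) : ℝ)) :
    ((pairLaw d).prod (marksLaw ρ n))
        {p | ∀ h ∈ A, p.1 h ∈ B → p.2 (edge p.1 h) ∉ G} ≤
      ENNReal.ofReal (Real.exp (-((k : ℝ) * x))) := by
  have h := hP n d hd ρ G hG 0 Fin.elim0 Fin.elim0 (by
    intro i
    rcases i with i | i
    · exact i.elim0
    · exact i.elim0) A B hAB (fun i => i.elim0) k hA hB (by simpa using hpos)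
  refine le_trans (measure_mono ?_) (le_trans h ?_)
  · intro p hp
    exact ⟨fun i => i.elim0, hp⟩
  · apply ENNReal.ofReal_le_ofReal
    rw [pow_zero, one_mul]
    apply pow_bound hx
    have hL : (0 : ℝ) < ((∑ v, d v : ℕ) : ℝ) := by exact_mod_cast hpos
    rw [div_le_one hL]
    have hBL : (B.card : ℝ) ≤ ((∑ v, d v : ℕ) : ℝ) := by
      have : B.card ≤ ∑ v, d v := by
        calc B.card ≤ Fintype.card (Half d) := Finset.card_le_univ B
          _ = ∑ v, d v := by simp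
      exact_mod_cast this
    have hp1 : (ρ G).toReal ≤ 1 := by
      have := prob_le_one (μ := ρ) (s := G)
      exact ENNReal.toReal_le_of_le_ofReal (by norm_num) (by simpa using this)
    have hp0 : 0 ≤ (ρ G).toReal := ENNReal.toReal_nonneg
    have hkB : (0 : ℝ) ≤ (B.card : ℝ) - k := by
      have : (k : ℝ) ≤ B.card := by exact_mod_cast hB
      linarith
    have hk0 : (0 : ℝ) ≤ k := Nat.cast_nonneg k
    nlinarith

lemma prob1 (hP : Target_PAIR) {n : ℕ} {δ : Vx n → ℕ} {τ c₂ K ζ a M : ℝ} (hτ2 : 2 < τ)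
    (hg : GoodDeg τ c₂ K ζ δ)
    (hev : Even (∑ v, fixDeg δ v)) (hfix : ∀ v, δ v ≤ fixDeg δ v)
    (ρ : Measure (ℝ≥0 × ℝ≥0)) [IsProbabilityMeasure ρ] (G : Set (ℝ≥0 × ℝ≥0)) (hG : MeasurableSet G)
    (ha : 1 < a) (hc2 : 0 < c₂) (hK : 1 ≤ K) (hM : 2 ≤ M) (haθ : a * (τ - 2) < 1)
    (hN : (((n : ℝ) + 1) ^ ζ) ^ (1 + a * (τ - 2)) ≤ c₂ * (n + 1))
    (v : Vx n) (hv1 : M ≤ (fixDeg δ v : ℝ)) (hv2 : (fixDeg δ v : ℝ) < ((n : ℝ) + 1) ^ ζ) :
    ((pairLaw (fixDeg δ)).prod (marksLaw ρ n))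
      {p | ∀ h : Half (fixDeg δ), h.1 = v →
        min ((fixDeg δ v : ℝ) ^ a) (((n : ℝ) + 1) ^ ζ) ≤ (fixDeg δ (p.1 h).1 : ℝ) →
        p.2 (edge p.1 h) ∉ G} ≤
      ENNReal.ofReal (Real.exp (-((ρ G).toReal * c₂ / (8 * K) * M ^ (1 - a * (τ - 2))))) := by
  set d := fixDeg δ with hd
  set t : ℝ := (d v : ℝ) with ht
  set N : ℝ := (n : ℝ) + 1 with hNdef
  set y : ℝ := min (t ^ a) (N ^ ζ) with hy
  set p : ℝ := (ρ G).toReal with hp
  have hN1 : (1 : ℝ) ≤ N := by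
    have : (0 : ℝ) ≤ n := Nat.cast_nonneg n
    linarith
  have hN0 : (0 : ℝ) < N := by linarith
  have ht2 : 2 ≤ t := le_trans hM hv1
  have ht0 : 0 < t := by linarith
  have hp0 : 0 ≤ p := ENNReal.toReal_nonneg
  have hty : t < y := by
    refine lt_min ?_ hv2
    calc t = t ^ (1 : ℝ) := (Real.rpow_one _).symm
      _ < t ^ a := Real.rpow_lt_rpow_of_exponent_lt (by linarith) ha
  have hy1 : 1 ≤ y := by linarith
  have hy0 : 0 < y := by linarith
  have hyN : y ≤ N ^ ζ := min_le_right _ _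
  have hyt : y ≤ t ^ a := min_le_left _ _
  have hdpos : 0 < ∑ w, d w := by
    have h1 : d v ≤ ∑ w, d w := Finset.single_le_sum (fun _ _ => bot_le) (Finset.mem_univ v)
    have h2 : 0 < d v := by
      have : (0 : ℝ) < (d v : ℝ) := ht0
      exact_mod_cast this
    omega
  have hLpos : (0 : ℝ) < ((∑ w, d w : ℕ) : ℝ) := by exact_mod_cast hdpos
  have hLK : ((∑ w, d w : ℕ) : ℝ) ≤ K * N := hg.total
  let A : Finset (Half d) := halfs d {v}
  let B : Finset (Half d) := halfs d (Finset.univ.filter fun w => y ≤ (d w : ℝ))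
  have hAB : Disjoint A B := by
    rw [Finset.disjoint_left]
    intro h hA hB
    rw [mem_halfs] at hA hB
    rw [Finset.mem_singleton] at hA
    rw [Finset.mem_filter] at hB
    have := hB.2
    rw [hA] at this
    linarith
  have hAc : A.card = d v := by
    show (halfs d {v}).card = d v
    rw [card_halfs, Finset.sum_singleton]
  have hBc : c₂ * N * t ^ (-(a * (τ - 2))) ≤ (B.card : ℝ) := by
    have h1 : (B.card : ℝ) = ∑ w ∈ Finset.univ.filter (fun w => y ≤ (d w : ℝ)), (d w : ℝ) := by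
      show ((halfs d _).card : ℝ) = _
      rw [card_halfs]
      push_cast
      rfl
    have h2 : ((Finset.univ.filter fun w : Vx n => y ≤ (d w : ℝ)).card : ℝ) * y ≤ (B.card : ℝ) := by
      rw [h1, ← nsmul_eq_mul, ← Finset.sum_const]
      apply Finset.sum_le_sum
      intro w hw
      exact (Finset.mem_filter.1 hw).2
    have h3 : c₂ * N * y ^ (1 - τ) ≤
        ((Finset.univ.filter fun w : Vx n => y ≤ (d w : ℝ)).card : ℝ) := by
      refine le_trans (hg.many y hy1 hyN) ?_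
      have : (Finset.univ.filter fun w : Vx n => y ≤ (δ w : ℝ)).card ≤
          (Finset.univ.filter fun w : Vx n => y ≤ (d w : ℝ)).card := by
        apply Finset.card_le_card
        intro w hw
        rw [Finset.mem_filter] at hw ⊢
        refine ⟨hw.1, le_trans hw.2 ?_⟩
        exact_mod_cast hfix w
      exact_mod_cast this
    have h4 : t ^ (-(a * (τ - 2))) ≤ y ^ (1 - τ) * y := by
      have h5 : y ^ (1 - τ) * y = y ^ (-(τ - 2)) := by
        rw [← Real.rpow_add_one hy0.ne']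
        ring_nf
      rw [h5]
      have h6 : t ^ (-(a * (τ - 2))) = (t ^ a) ^ (-(τ - 2)) := by
        rw [← Real.rpow_mul ht0.le]
        ring_nf
      rw [h6]
      exact Real.rpow_le_rpow_of_nonpos hy0 hyt (by linarith)
    calc c₂ * N * t ^ (-(a * (τ - 2))) ≤ c₂ * N * (y ^ (1 - τ) * y) :=
          mul_le_mul_of_nonneg_left h4 (by positivity)
      _ = (c₂ * N * y ^ (1 - τ)) * y := by ring
      _ ≤ ((Finset.univ.filter fun w : Vx n => y ≤ (d w : ℝ)).card : ℝ) * y :=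
          mul_le_mul_of_nonneg_right h3 hy0.le
      _ ≤ (B.card : ℝ) := h2
  set b : ℝ := c₂ * N * t ^ (-(a * (τ - 2))) with hb
  have htb : t ≤ b := by
    have h1 : t ^ (1 + a * (τ - 2)) ≤ c₂ * N := by
      refine le_trans ?_ hN
      apply Real.rpow_le_rpow ht0.le hv2.le
      have : 0 < a * (τ - 2) := mul_pos (by linarith) (by linarith)
      linarith
    calc t = t ^ (1 + a * (τ - 2)) * t ^ (-(a * (τ - 2))) := by
          rw [← Real.rpow_add ht0]
          ring_nf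
          rw [Real.rpow_one]
      _ ≤ c₂ * N * t ^ (-(a * (τ - 2))) :=
          mul_le_mul_of_nonneg_right h1 (Real.rpow_nonneg ht0.le _)
  have hk1 : ((d v / 2 : ℕ) : ℝ) ≤ t / 2 := by
    have := @Nat.cast_div_le ℝ _ _ _ (d v) 2
    simpa using this
  have hk2 : t / 4 ≤ ((d v / 2 : ℕ) : ℝ) := by
    have h1 : d v ≤ 2 * (d v / 2) + 1 := by omega
    have h2 : (d v : ℝ) ≤ 2 * ((d v / 2 : ℕ) : ℝ) + 1 := by exact_mod_cast h1
    have h3 : t ≤ 2 * ((d v / 2 : ℕ) : ℝ) + 1 := h2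
    linarith
  set x : ℝ := p * (b / 2) / (K * N) with hx
  have hb0 : 0 < b := by linarith
  have key := pair0 hP d hev hdpos ρ G hG A B hAB (d v / 2) (by rw [hAc]; omega) (by
    have : ((d v / 2 : ℕ) : ℝ) ≤ (B.card : ℝ) := by linarith
    exact_mod_cast this) x (by
      rw [hx]
      apply div_le_div₀
      · apply mul_nonneg hp0
        linarith
      · apply mul_le_mul_of_nonneg_left _ hp0
        linarith
      · exact hLpos
      · exact hLK)
  refine le_trans (measure_mono ?_) (le_trans key ?_)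
  · intro q hq h hA hB
    rw [mem_halfs] at hA hB
    rw [Finset.mem_singleton] at hA
    rw [Finset.mem_filter] at hB
    exact hq h hA hB.2
  · apply ENNReal.ofReal_le_ofReal
    apply Real.exp_le_exp.2
    rw [neg_le_neg_iff]
    have hx0 : 0 ≤ x := by rw [hx]; positivity
    calc p * c₂ / (8 * K) * M ^ (1 - a * (τ - 2))
        ≤ p * c₂ / (8 * K) * t ^ (1 - a * (τ - 2)) := by
          apply mul_le_mul_of_nonneg_left _ (by positivity)
          exact Real.rpow_le_rpow (by linarith) hv1 (by linarith)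
      _ = t / 4 * x := by
          rw [hx, hb]
          have : t ^ (1 - a * (τ - 2)) = t * t ^ (-(a * (τ - 2))) := by
            rw [sub_eq_add_neg, Real.rpow_add ht0, Real.rpow_one]
          rw [this]
          field_simp
          ring
      _ ≤ ((d v / 2 : ℕ) : ℝ) * x := mul_le_mul_of_nonneg_right hk2 hx0

lemma prob2 (hP : Target_PAIR) {n : ℕ} {d : Vx n → ℕ} {K ζ : ℝ}
    (hev : Even (∑ v, d v)) (hLK : ((∑ w, d w : ℕ) : ℝ) ≤ K * ((n : ℝ) + 1))
    (ρ : Measure (ℝ≥0 × ℝ≥0)) [IsProbabilityMeasure ρ] (G : Set (ℝ≥0 × ℝ≥0)) (hG : MeasurableSet G)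
    (hK : 1 ≤ K) (hN : 4 ≤ (((n : ℝ) + 1) ^ ζ)) (u v : Vx n) (huv : u ≠ v)
    (hu : ((n : ℝ) + 1) ^ ζ ≤ (d u : ℝ)) (hv : ((n : ℝ) + 1) ^ ζ ≤ (d v : ℝ)) :
    ((pairLaw d).prod (marksLaw ρ n))
      {p | ∀ h : Half d, h.1 = u → (p.1 h).1 = v → p.2 (edge p.1 h) ∉ G} ≤
      ENNReal.ofReal (Real.exp (-((ρ G).toReal / (8 * K) * ((n : ℝ) + 1) ^ (2 * ζ - 1)))) := by
  set N : ℝ := (n : ℝ) + 1 with hNdef
  set p : ℝ := (ρ G).toReal with hp
  have hN1 : (1 : ℝ) ≤ N := by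
    have : (0 : ℝ) ≤ n := Nat.cast_nonneg n
    linarith
  have hN0 : (0 : ℝ) < N := by linarith
  have hp0 : 0 ≤ p := ENNReal.toReal_nonneg
  have hdpos : 0 < ∑ w, d w := by
    have h1 : d v ≤ ∑ w, d w := Finset.single_le_sum (fun _ _ => bot_le) (Finset.mem_univ v)
    have h2 : 0 < d v := by
      have : (0 : ℝ) < (d v : ℝ) := by linarith
      exact_mod_cast this
    omega
  have hLpos : (0 : ℝ) < ((∑ w, d w : ℕ) : ℝ) := by exact_mod_cast hdpos
  have hAB : Disjoint (halfs d {u}) (halfs d {v}) := by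
    rw [Finset.disjoint_left]
    intro h hA hB
    rw [mem_halfs, Finset.mem_singleton] at hA hB
    exact huv (hA.symm.trans hB)
  have hAc : (halfs d {u}).card = d u := by
    rw [card_halfs, Finset.sum_singleton]
  have hBc : (halfs d {v}).card = d v := by
    rw [card_halfs, Finset.sum_singleton]
  set T : ℝ := N ^ ζ with hT
  have hk1 : ((⌊T / 2⌋₊ : ℕ) : ℝ) ≤ T / 2 := Nat.floor_le (by linarith)
  have hk2 : T / 4 ≤ ((⌊T / 2⌋₊ : ℕ) : ℝ) := by
    have := Nat.lt_floor_add_one (T / 2)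
    linarith
  set x : ℝ := p * (T / 2) / (K * N) with hx
  have key := pair0 hP d hev hdpos ρ G hG _ _ hAB ⌊T / 2⌋₊ (by
    rw [hAc]
    have : ((2 * ⌊T / 2⌋₊ : ℕ) : ℝ) ≤ (d u : ℝ) := by
      push_cast
      linarith
    exact_mod_cast this) (by
    rw [hBc]
    have : ((⌊T / 2⌋₊ : ℕ) : ℝ) ≤ (d v : ℝ) := by linarith
    exact_mod_cast this) x (by
      rw [hx, hBc]
      apply div_le_div₀
      · apply mul_nonneg hp0
        linarith
      · apply mul_le_mul_of_nonneg_left _ hp0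
        linarith
      · exact hLpos
      · exact hLK)
  refine le_trans (measure_mono ?_) (le_trans key ?_)
  · intro q hq h hA hB
    rw [mem_halfs, Finset.mem_singleton] at hA hB
    exact hq h hA hB
  · apply ENNReal.ofReal_le_ofReal
    apply Real.exp_le_exp.2
    rw [neg_le_neg_iff]
    have hx0 : 0 ≤ x := by rw [hx]; positivity
    calc p / (8 * K) * N ^ (2 * ζ - 1) = T / 4 * x := by
          rw [hx, hT]
          have : N ^ (2 * ζ - 1) = N ^ ζ * N ^ ζ / N := by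
            rw [← Real.rpow_add hN0, ← Real.rpow_sub_one hN0.ne']
            ring_nf
          rw [this]
          field_simp
          ring
      _ ≤ ((⌊T / 2⌋₊ : ℕ) : ℝ) * x := mul_le_mul_of_nonneg_right hk2 hx0

/-! ### Limits -/

lemma tN : Tendsto (fun n : ℕ => (n : ℝ) + 1) atTop atTop :=
  tendsto_atTop_add_const_right _ _ tendsto_natCast_atTop_atTop

lemma tlog : Tendsto (fun n : ℕ => Real.log ((n : ℝ) + 1)) atTop atTop :=
  Real.tendsto_log_atTop.comp tN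

lemma tlgg : Tendsto (fun n : ℕ => lgg n) atTop atTop :=
  Real.tendsto_log_atTop.comp tlog

lemma e_MM_le {α ζ : ℝ} (hα1 : α < 1) (hζ : 0 < ζ) :
    ∀ᶠ n : ℕ in atTop, MM α n ≤ ((n : ℝ) + 1) ^ ζ := by
  have h1 : Tendsto (fun n : ℕ => Real.log ((n : ℝ) + 1) ^ (-(1 - α))) atTop (𝓝 0) :=
    (tendsto_rpow_neg_atTop (by linarith : 0 < 1 - α)).comp tlog
  filter_upwards [(tendsto_order.1 h1).2 ζ hζ, tlog.eventually_gt_atTop 0,
    tN.eventually_gt_atTop 0] with n hn1 hn2 hn3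
  unfold MM
  rw [Real.rpow_def_of_pos hn3]
  apply Real.exp_le_exp.2
  set s := Real.log ((n : ℝ) + 1) with hs
  calc s ^ α = s * s ^ (-(1 - α)) := by
        nth_rewrite 2 [← Real.rpow_one s]
        rw [← Real.rpow_add hn2]
        ring_nf
    _ ≤ s * ζ := mul_le_mul_of_nonneg_left hn1.le hn2.le

lemma e_MM_ge {α : ℝ} (hα0 : 0 < α) : ∀ᶠ n : ℕ in atTop, 2 ≤ MM α n := by
  have h1 : Tendsto (fun n : ℕ => MM α n) atTop atTop :=
    Real.tendsto_exp_atTop.comp ((tendsto_rpow_atTop hα0).comp tlog)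
  exact h1.eventually_ge_atTop 2

lemma e_T_ge {ζ : ℝ} (hζ : 0 < ζ) : ∀ᶠ n : ℕ in atTop, 4 ≤ ((n : ℝ) + 1) ^ ζ :=
  ((tendsto_rpow_atTop hζ).comp tN).eventually_ge_atTop 4

lemma e_T_pow {ζ s c₂ : ℝ} (h : ζ * s < 1) (hc2 : 0 < c₂) :
    ∀ᶠ n : ℕ in atTop, (((n : ℝ) + 1) ^ ζ) ^ s ≤ c₂ * ((n : ℝ) + 1) := by
  have h1 : Tendsto (fun n : ℕ => ((n : ℝ) + 1) ^ (-(1 - ζ * s))) atTop (𝓝 0) :=
    (tendsto_rpow_neg_atTop (by linarith : 0 < 1 - ζ * s)).comp tN
  filter_upwards [(tendsto_order.1 h1).2 c₂ hc2, tN.eventually_gt_atTop 0] with n hn1 hn2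
  set N := (n : ℝ) + 1 with hN
  calc (N ^ ζ) ^ s = N ^ (-(1 - ζ * s)) * N := by
        rw [← Real.rpow_mul hn2.le, ← Real.rpow_add_one hn2.ne']
        ring_nf
    _ ≤ c₂ * N := mul_le_mul_of_nonneg_right hn1.le hn2.le

lemma t_first {α c η : ℝ} (hα0 : 0 < α) (hc : 0 < c) (hη : 0 < η) :
    Tendsto (fun n : ℕ => ((n : ℝ) + 1) * Real.exp (-(c * (MM α n) ^ η))) atTop (𝓝 0) := by
  have h1 : Tendsto (fun n : ℕ => Real.exp (η * Real.log ((n : ℝ) + 1) ^ α) /
      (Real.log ((n : ℝ) + 1) ^ α) ^ (1 / α)) atTop atTop :=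
    (tendsto_exp_mul_div_rpow_atTop (1 / α) η hη).comp ((tendsto_rpow_atTop hα0).comp tlog)
  have h2 : Tendsto (fun n : ℕ => Real.exp (-Real.log ((n : ℝ) + 1))) atTop (𝓝 0) :=
    Real.tendsto_exp_neg_atTop_nhds_zero.comp tlog
  refine squeeze_zero' ?_ ?_ h2
  · filter_upwards [tN.eventually_gt_atTop 0] with n hn
    positivity
  · filter_upwards [h1.eventually_ge_atTop (2 / c), tlog.eventually_gt_atTop 0,
      tN.eventually_gt_atTop 0] with n hn1 hn2 hn3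
    set s := Real.log ((n : ℝ) + 1) with hs
    have h4 : (s ^ α) ^ (1 / α) = s := by
      rw [← Real.rpow_mul hn2.le, mul_one_div_cancel hα0.ne', Real.rpow_one]
    rw [h4, div_le_div_iff₀ hc hn2] at hn1
    have h5 : (MM α n) ^ η = Real.exp (η * s ^ α) := by
      unfold MM
      rw [← Real.exp_mul, mul_comm]
    have h6 : (n : ℝ) + 1 = Real.exp s := (Real.exp_log hn3).symm
    rw [h5]
    calc ((n : ℝ) + 1) * Real.exp (-(c * Real.exp (η * s ^ α)))
        = Real.exp (s + -(c * Real.exp (η * s ^ α))) := by rw [Real.exp_add, h6]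
      _ ≤ Real.exp (-s) := by
          apply Real.exp_le_exp.2
          nlinarith

lemma t_second {c s : ℝ} (hc : 0 < c) (hs : 0 < s) :
    Tendsto (fun n : ℕ => ((n : ℝ) + 1) ^ 2 * Real.exp (-(c * ((n : ℝ) + 1) ^ s)))
      atTop (𝓝 0) := by
  have h1 : Tendsto (fun n : ℕ => (((n : ℝ) + 1) ^ s) ^ (2 / s) *
      Real.exp (-c * ((n : ℝ) + 1) ^ s)) atTop (𝓝 0) :=
    (tendsto_rpow_mul_exp_neg_mul_atTop_nhds_zero (2 / s) c hc).comp
      ((tendsto_rpow_atTop hs).comp tN)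
  refine h1.congr' ?_
  filter_upwards [tN.eventually_gt_atTop 0] with n hn
  rw [← Real.rpow_mul hn.le]
  have : s * (2 / s) = ((2 : ℕ) : ℝ) := by
    field_simp
    norm_num
  rw [this, Real.rpow_natCast]
  ring_nf

/-- Number of steps of the ascent. -/
noncomputable def II (α a : ℝ) (n : ℕ) : ℕ := ⌈(1 - α) * lgg n / Real.log a⌉₊

lemma e_len {α a κ : ℝ} (hα1 : α < 1) (ha : 1 < a) (hκ : 2 * (1 - α) / Real.log a < κ) :
    ∀ᶠ n : ℕ in atTop, ((2 * II α a n + 1 : ℕ) : ℝ) ≤ κ * lgg n := by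
  have hla : 0 < Real.log a := Real.log_pos ha
  have hpos : 0 < κ - 2 * (1 - α) / Real.log a := by linarith
  have h1 : Tendsto (fun n : ℕ => (κ - 2 * (1 - α) / Real.log a) * lgg n) atTop atTop :=
    tlgg.const_mul_atTop hpos
  filter_upwards [h1.eventually_ge_atTop 3, tlgg.eventually_gt_atTop 0] with n hn1 hn2
  have h2 : 0 ≤ (1 - α) * lgg n / Real.log a :=
    div_nonneg (mul_nonneg (by linarith) hn2.le) hla.le
  have h3 := Nat.ceil_lt_add_one h2
  unfold II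
  push_cast
  have h4 : 2 * ((1 - α) * lgg n / Real.log a) = 2 * (1 - α) / Real.log a * lgg n := by ring
  nlinarith

lemma e_top {α a ζ : ℝ} (ha : 1 < a) (hζ : ζ ≤ 1) :
    ∀ᶠ n : ℕ in atTop, ((n : ℝ) + 1) ^ ζ ≤ (MM α n) ^ (a ^ II α a n) := by
  have hla : 0 < Real.log a := Real.log_pos ha
  filter_upwards [tlog.eventually_gt_atTop 0, tN.eventually_ge_atTop 1] with n hn2 hn3
  set s := Real.log ((n : ℝ) + 1) with hs
  have h1 : s ^ (1 - α) ≤ a ^ II α a n := by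
    have h2 : (1 - α) * lgg n / Real.log a ≤ (II α a n : ℝ) := Nat.le_ceil _
    rw [div_le_iff₀ hla] at h2
    have h3 : s ^ (1 - α) = Real.exp ((1 - α) * lgg n) := by
      rw [Real.rpow_def_of_pos hn2]
      unfold lgg
      rw [mul_comm]
    rw [h3, ← Real.rpow_natCast, Real.rpow_def_of_pos (by linarith : 0 < a)]
    apply Real.exp_le_exp.2
    linarith
  unfold MM
  rw [← Real.exp_mul]
  calc ((n : ℝ) + 1) ^ ζ ≤ ((n : ℝ) + 1) ^ (1 : ℝ) :=
        Real.rpow_le_rpow_of_exponent_le hn3 hζ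
    _ = (n : ℝ) + 1 := Real.rpow_one _
    _ = Real.exp s := (Real.exp_log (by linarith)).symm
    _ ≤ Real.exp (s ^ α * a ^ II α a n) := by
        apply Real.exp_le_exp.2
        calc s = s ^ α * s ^ (1 - α) := by
              rw [← Real.rpow_add hn2]
              ring_nf
              rw [Real.rpow_one]
          _ ≤ s ^ α * a ^ II α a n :=
              mul_le_mul_of_nonneg_left h1 (Real.rpow_nonneg hn2.le _)

lemma choose_a {τ α κ : ℝ} (hτ2 : 2 < τ) (hτ3 : τ < 3) (hα1 : α < 1)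
    (hκ : 2 * (1 - α) / Real.log (1 / (τ - 2)) < κ) :
    ∃ a : ℝ, 1 < a ∧ a * (τ - 2) < 1 ∧ 2 * (1 - α) / Real.log a < κ := by
  have hθ0 : 0 < τ - 2 := by linarith
  have hL : 0 < Real.log (1 / (τ - 2)) := by
    apply Real.log_pos
    rw [lt_div_iff₀ hθ0]
    linarith
  have h0 : 0 < 2 * (1 - α) / Real.log (1 / (τ - 2)) := div_pos (by linarith) hL
  have hκ0 : 0 < κ := lt_trans h0 hκ
  have h1 : 2 * (1 - α) / κ < Real.log (1 / (τ - 2)) := by
    rw [div_lt_iff₀ hL] at hκ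
    rw [div_lt_iff₀ hκ0]
    linarith
  have h2 : 0 < 2 * (1 - α) / κ := div_pos (by linarith) hκ0
  set r : ℝ := (2 * (1 - α) / κ + Real.log (1 / (τ - 2))) / 2 with hr
  have hr0 : 0 < r := by rw [hr]; linarith
  have hr1 : r < Real.log (1 / (τ - 2)) := by rw [hr]; linarith
  have hr2 : 2 * (1 - α) / κ < r := by rw [hr]; linarith
  refine ⟨Real.exp r, Real.one_lt_exp_iff.2 hr0, ?_, ?_⟩
  · have h3 : Real.exp r < 1 / (τ - 2) := by
      rw [← Real.lt_log_iff_exp_lt (by positivity)]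
      exact hr1
    rw [lt_div_iff₀ hθ0] at h3
    exact h3
  · rw [Real.log_exp, div_lt_iff₀ hr0]
    rw [div_lt_iff₀ hκ0] at hr2
    linarith

lemma choose_zeta {x : ℝ} (hx0 : 0 < x) (hx1 : x < 1) :
    ∃ ζ : ℝ, 1 / 2 < ζ ∧ ζ ≤ 1 ∧ ζ * (1 + x) < 1 := by
  refine ⟨(1 / 2 + 1 / (1 + x)) / 2, ?_, ?_, ?_⟩
  · have : 1 / 2 < 1 / (1 + x) := by
      apply one_div_lt_one_div_of_lt <;> linarith
    linarith
  · have : 1 / (1 + x) ≤ 1 := by
      rw [div_le_one (by linarith)]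
      linarith
    linarith
  · have h1 : (1 / (1 + x)) * (1 + x) = 1 := by
      field_simp
    have h2 : (1 / 2 + 1 / (1 + x)) / 2 * (1 + x) = (1 + x) / 4 + 1 / 2 := by
      calc (1 / 2 + 1 / (1 + x)) / 2 * (1 + x)
          = (1 + x) / 4 + ((1 / (1 + x)) * (1 + x)) / 2 := by ring
        _ = (1 + x) / 4 + 1 / 2 := by rw [h1]
    rw [h2]
    linarith

/-! ### Measurability -/

lemma meas_ev {G : Set (ℝ≥0 × ℝ≥0)} (hG : MeasurableSet G) {n : ℕ} {d : Vx n → ℕ}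
    (σ : Equiv.Perm (Half d)) (P : Half d → Prop) :
    MeasurableSet {X : Marks n | ∀ h, P h → X (edge σ h) ∉ G} := by
  have : {X : Marks n | ∀ h, P h → X (edge σ h) ∉ G} =
      ⋂ h, ⋂ (_ : P h), {X : Marks n | X (edge σ h) ∉ G} := by
    ext X
    simp
  rw [this]
  exact MeasurableSet.iInter fun h => MeasurableSet.iInter fun _ =>
    (measurable_pi_apply (edge σ h) hG).compl

lemma pairLaw_not {n : ℕ} (d : Vx n → ℕ) : pairLaw d {σ | ¬ IsPairing σ} = 0 := by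
  unfold pairLaw uniformOn
  rw [cond_apply (by trivial)]
  have : ({σ | IsPairing σ} ∩ {σ | ¬ IsPairing σ} : Set (Equiv.Perm (Half d))) = ∅ := by
    ext σ
    simp
  rw [this]
  simp

/-! ### The bad event -/

/-- No good edge from a vertex of the core of moderate degree to a vertex of larger degree. -/
def Bad1 (G : Set (ℝ≥0 × ℝ≥0)) (a M T : ℝ) {n : ℕ} {d : Vx n → ℕ} (σ : Equiv.Perm (Half d))
    (X : Marks n) (v : Vx n) : Prop :=
  M ≤ (d v : ℝ) ∧ (d v : ℝ) < T ∧ ∀ h : Half d, h.1 = v →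
    min ((d v : ℝ) ^ a) T ≤ (d (σ h).1 : ℝ) → X (edge σ h) ∉ G

/-- No good edge between two vertices of large degree. -/
def Bad2 (G : Set (ℝ≥0 × ℝ≥0)) (T : ℝ) {n : ℕ} {d : Vx n → ℕ} (σ : Equiv.Perm (Half d))
    (X : Marks n) (u v : Vx n) : Prop :=
  u ≠ v ∧ T ≤ (d u : ℝ) ∧ T ≤ (d v : ℝ) ∧ ∀ h : Half d, h.1 = u → (σ h).1 = v → X (edge σ h) ∉ G

lemma det_part {n : ℕ} {d : Vx n → ℕ} {σ : Equiv.Perm (Half d)} (hσ : IsPairing σ) (X : Marks n)
    (q : ℝ≥0) {a M T : ℝ} (hM : 1 ≤ M) (hMT : M ≤ T) (ha : 1 ≤ a)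
    (h1 : ∀ v, ¬ Bad1 {x | x.1 ≤ q} a M T σ X v) (h2 : ∀ u v, ¬ Bad2 {x | x.1 ≤ q} T σ X u v)
    (I : ℕ) (hI : T ≤ M ^ (a ^ I)) (u v : Vx n) (hu : M ≤ (d u : ℝ)) (hv : M ≤ (d v : ℝ)) :
    ∃ l ≤ 2 * I + 1, Conn (fun u v => rd σ X u v ≤ q) {v | M ≤ (d v : ℝ)} l u v := by
  have hR : ∀ u v : Vx n, rd σ X u v ≤ q → rd σ X v u ≤ q := by
    intro u v h
    rw [rd_symm hσ X v u]
    exact h
  refine conn_all (R := fun u v => rd σ X u v ≤ q) hR (d := fun v => (d v : ℝ)) hM hMT ha ?_ ?_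
    I hI u v hu hv
  · intro v hv1 hv2
    have h3 := h1 v
    unfold Bad1 at h3
    push Not at h3
    obtain ⟨h, hh1, hh2, hh3⟩ := h3 hv1 hv2
    refine ⟨(σ h).1, hh2, rd_le h hh1 rfl ?_⟩
    have hh4 : (X (edge σ h)).1 ≤ q := hh3
    exact_mod_cast hh4
  · intro u v huv hu hv
    have h3 := h2 u v
    unfold Bad2 at h3
    push Not at h3
    obtain ⟨h, hh1, hh2, hh3⟩ := h3 huv hu hv
    refine rd_le h hh1 hh2 ?_
    have hh4 : (X (edge σ h)).1 ≤ q := hh3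
    exact_mod_cast hh4

lemma sum_bound1 {n : ℕ} {x : ℝ} : (∑ _v : Vx n, ENNReal.ofReal x) =
    ENNReal.ofReal (((n : ℝ) + 1) * x) := by
  rw [Finset.sum_const, nsmul_eq_mul, ENNReal.ofReal_mul (by positivity)]
  congr 1
  simp only [Finset.card_univ, Fintype.card_fin]
  rw [show ((n : ℝ) + 1) = ((n + 1 : ℕ) : ℝ) by push_cast; ring, ENNReal.ofReal_natCast]

lemma prob_bad (hP : Target_PAIR) (hC : Target_COND) {n : ℕ} {δ : Vx n → ℕ} {τ c₂ K ζ a M : ℝ}
    (hτ2 : 2 < τ) (hg : GoodDeg τ c₂ K ζ δ)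
    (ρ : Measure (ℝ≥0 × ℝ≥0)) [IsProbabilityMeasure ρ] (G : Set (ℝ≥0 × ℝ≥0)) (hG : MeasurableSet G)
    (ha : 1 < a) (hc2 : 0 < c₂) (hK : 1 ≤ K) (hM : 2 ≤ M) (haθ : a * (τ - 2) < 1)
    (hN : (((n : ℝ) + 1) ^ ζ) ^ (1 + a * (τ - 2)) ≤ c₂ * (n + 1))
    (hT4 : 4 ≤ ((n : ℝ) + 1) ^ ζ) :
    ((pairLaw (fixDeg δ)).prod (marksLaw ρ n))
      {p | ¬ IsPairing p.1 ∨ (∃ v, Bad1 G a M (((n : ℝ) + 1) ^ ζ) p.1 p.2 v) ∨
        ∃ u v, Bad2 G (((n : ℝ) + 1) ^ ζ) p.1 p.2 u v} ≤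
      ENNReal.ofReal (((n : ℝ) + 1) *
        Real.exp (-((ρ G).toReal * c₂ / (8 * K) * M ^ (1 - a * (τ - 2))))) +
      ENNReal.ofReal (((n : ℝ) + 1) ^ 2 *
        Real.exp (-((ρ G).toReal / (8 * K) * ((n : ℝ) + 1) ^ (2 * ζ - 1)))) := by
  obtain ⟨hC1, hC2, hC3, hC4, hC5, hC6, hC7⟩ := hC
  obtain ⟨hev, hfix⟩ := hC3 n δ
  have : IsProbabilityMeasure (pairLaw (fixDeg δ)) := hC2 n _ hev
  have : IsProbabilityMeasure (marksLaw ρ n) := by unfold marksLaw; infer_instance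
  set P := (pairLaw (fixDeg δ)).prod (marksLaw ρ n) with hPdef
  have hsub : {p : Equiv.Perm (Half (fixDeg δ)) × Marks n |
        ¬ IsPairing p.1 ∨ (∃ v, Bad1 G a M (((n : ℝ) + 1) ^ ζ) p.1 p.2 v) ∨
        ∃ u v, Bad2 G (((n : ℝ) + 1) ^ ζ) p.1 p.2 u v} ⊆
      ({σ | ¬ IsPairing σ} ×ˢ (univ : Set (Marks n))) ∪
      ((⋃ v : Vx n, {p | Bad1 G a M (((n : ℝ) + 1) ^ ζ) p.1 p.2 v}) ∪
       (⋃ u : Vx n, ⋃ v : Vx n, {p | Bad2 G (((n : ℝ) + 1) ^ ζ) p.1 p.2 u v})) := by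
    intro p hp
    rcases hp with h | h | h
    · exact Or.inl ⟨h, trivial⟩
    · obtain ⟨v, hv⟩ := h
      exact Or.inr (Or.inl (mem_iUnion.2 ⟨v, hv⟩))
    · obtain ⟨u, v, hv⟩ := h
      exact Or.inr (Or.inr (mem_iUnion.2 ⟨u, mem_iUnion.2 ⟨v, hv⟩⟩))
  have h0 : P ({σ | ¬ IsPairing σ} ×ˢ (univ : Set (Marks n))) = 0 := by
    rw [hPdef, Measure.prod_prod, pairLaw_not, zero_mul]
  have h1 : P (⋃ v : Vx n, {p | Bad1 G a M (((n : ℝ) + 1) ^ ζ) p.1 p.2 v}) ≤
      ENNReal.ofReal (((n : ℝ) + 1) *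
        Real.exp (-((ρ G).toReal * c₂ / (8 * K) * M ^ (1 - a * (τ - 2))))) := by
    refine le_trans (measure_iUnion_fintype_le _ _) ?_
    rw [← sum_bound1]
    apply Finset.sum_le_sum
    intro v _
    by_cases hv : M ≤ (fixDeg δ v : ℝ) ∧ (fixDeg δ v : ℝ) < ((n : ℝ) + 1) ^ ζ
    · refine le_trans (measure_mono ?_) (prob1 hP hτ2 hg hev (fun v => (hfix v).1) ρ G hG ha hc2 hK
        hM haθ hN v hv.1 hv.2)
      intro p hp
      exact hp.2.2
    · have : {p : Equiv.Perm (Half (fixDeg δ)) × Marks n |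
          Bad1 G a M (((n : ℝ) + 1) ^ ζ) p.1 p.2 v} = ∅ := by
        ext p
        simp only [mem_ofPred_eq, mem_empty_iff_false, iff_false]
        intro hb
        exact hv ⟨hb.1, hb.2.1⟩
      rw [this]
      simp
  have h2 : P (⋃ u : Vx n, ⋃ v : Vx n, {p | Bad2 G (((n : ℝ) + 1) ^ ζ) p.1 p.2 u v}) ≤
      ENNReal.ofReal (((n : ℝ) + 1) ^ 2 *
        Real.exp (-((ρ G).toReal / (8 * K) * ((n : ℝ) + 1) ^ (2 * ζ - 1)))) := by
    refine le_trans (measure_iUnion_fintype_le _ _) ?_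
    rw [pow_two, mul_assoc, ← sum_bound1]
    apply Finset.sum_le_sum
    intro u _
    refine le_trans (measure_iUnion_fintype_le _ _) ?_
    rw [← sum_bound1]
    apply Finset.sum_le_sum
    intro v _
    by_cases hv : u ≠ v ∧ ((n : ℝ) + 1) ^ ζ ≤ (fixDeg δ u : ℝ) ∧
        ((n : ℝ) + 1) ^ ζ ≤ (fixDeg δ v : ℝ)
    · refine le_trans (measure_mono ?_) (prob2 hP hev hg.total ρ G hG hK hT4 u v hv.1 hv.2.1 hv.2.2)
      intro p hp
      exact hp.2.2.2
    · have : {p : Equiv.Perm (Half (fixDeg δ)) × Marks n |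
          Bad2 G (((n : ℝ) + 1) ^ ζ) p.1 p.2 u v} = ∅ := by
        ext p
        simp only [mem_ofPred_eq, mem_empty_iff_false, iff_false]
        intro hb
        exact hv ⟨hb.1, hb.2.1, hb.2.2.1⟩
      rw [this]
      simp
  refine le_trans (measure_mono hsub) (le_trans (measure_union_le _ _) ?_)
  rw [h0, zero_add]
  exact le_trans (measure_union_le _ _) (add_le_add h1 h2)

end CoreAux

open CoreAux in
theorem target_CORE (hP : Target_PAIR) (hD : Target_DEG) (hC : Target_COND) : Target_CORE := by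
  intro τ μ _ c₁ C₁ hT ρ _ q hq α κ hα0 hα1 hκ ε hε
  obtain ⟨a, ha1, haθ, haκ⟩ := choose_a hT.two_lt hT.lt_three hα1 hκ
  have hθ0 : 0 < τ - 2 := by linarith [hT.two_lt]
  have haθ0 : 0 < a * (τ - 2) := mul_pos (by linarith) hθ0
  obtain ⟨ζ, hζ1, hζ2, hζ3⟩ := choose_zeta haθ0 haθ
  have hζ0 : 0 < ζ := by linarith
  obtain ⟨c₂, hc2, hD'⟩ := hD τ μ c₁ C₁ hT ζ hζ0 (by nlinarith)
  have hε2 : 0 < ε / 2 := ENNReal.half_pos hε.ne'
  have hε4 : 0 < ε / 2 / 2 := ENNReal.half_pos hε2.ne'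
  obtain ⟨K, hK, hev⟩ := hD' (ε / 2) hε2
  set G : Set (ℝ≥0 × ℝ≥0) := {x | x.1 ≤ q} with hGdef
  have hG : MeasurableSet G := measurableSet_le measurable_fst measurable_const
  have hp : 0 < (ρ G).toReal := ENNReal.toReal_pos hq (measure_ne_top ρ G)
  have hc : 0 < (ρ G).toReal * c₂ / (8 * K) := by positivity
  have hc' : 0 < (ρ G).toReal / (8 * K) := by positivity
  have t1 := t_first (η := 1 - a * (τ - 2)) hα0 hc (by linarith)
  have t2 := t_second (s := 2 * ζ - 1) hc' (by linarith)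
  have t1' : Tendsto (fun n : ℕ => ENNReal.ofReal (((n : ℝ) + 1) *
      Real.exp (-((ρ G).toReal * c₂ / (8 * K) * (MM α n) ^ (1 - a * (τ - 2)))))) atTop (𝓝 0) := by
    have := ENNReal.tendsto_ofReal t1
    rwa [ENNReal.ofReal_zero] at this
  have t2' : Tendsto (fun n : ℕ => ENNReal.ofReal (((n : ℝ) + 1) ^ 2 *
      Real.exp (-((ρ G).toReal / (8 * K) * ((n : ℝ) + 1) ^ (2 * ζ - 1))))) atTop (𝓝 0) := by
    have := ENNReal.tendsto_ofReal t2
    rwa [ENNReal.ofReal_zero] at this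
  filter_upwards [hev, (tendsto_order.1 t1').2 _ hε4, (tendsto_order.1 t2').2 _ hε4,
    e_MM_le hα1 hζ0, e_MM_ge hα0, e_T_ge hζ0, e_T_pow hζ3 hc2, e_len hα1 ha1 haκ,
    e_top (α := α) ha1 hζ2] with n hn hb1 hb2 hMT hM2 hT4 hTp hlen htop
  have hC' := hC
  obtain ⟨hC1, hC2, hC3, hC4, hC5, hC6, hC7⟩ := hC'
  set T : ℝ := ((n : ℝ) + 1) ^ ζ with hTdef
  set S : Set (Cfg n × Marks n) := {p | ¬ GoodDeg τ c₂ K ζ p.1.deg ∨ ¬ IsPairing p.1.pair ∨
    (∃ v, Bad1 G a (MM α n) T p.1.pair p.2 v) ∨ ∃ u v, Bad2 G T p.1.pair p.2 u v} with hS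
  have hsub : {p : Cfg n × Marks n | ¬ ∀ u ∈ core α (fixDeg p.1.deg),
      ∀ v ∈ core α (fixDeg p.1.deg),
      ∃ (l : ℕ) (y : ℕ → Vx n), y 0 = u ∧ y l = v ∧ (l : ℝ) ≤ κ * lgg n ∧
        (∀ i ≤ l, y i ∈ core α (fixDeg p.1.deg)) ∧
        ∀ i < l, rd p.1.pair p.2 (y i) (y (i + 1)) ≤ q} ⊆ S := by
    intro p hp
    by_contra hcon
    simp only [hS, mem_ofPred_eq] at hcon
    push Not at hcon
    obtain ⟨h1, h2, h3, h4⟩ := hcon
    apply hp
    intro u hu v hv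
    obtain ⟨l, hl, y, hy0, hyl, hyS, hyR⟩ := det_part h2 p.2 q (by linarith) hMT ha1.le h3 h4
      (II α a n) htop u v hu hv
    refine ⟨l, y, hy0, hyl, ?_, hyS, hyR⟩
    refine le_trans ?_ hlen
    exact_mod_cast hl
  have hmeas : ∀ g : Cfg n, MeasurableSet {X | (g, X) ∈ S} := by
    intro g
    have h1 : {X | (g, X) ∈ S} = {X : Marks n | ¬ GoodDeg τ c₂ K ζ g.deg ∨ ¬ IsPairing g.pair} ∪
        ((⋃ v : Vx n, {X | Bad1 G a (MM α n) T g.pair X v}) ∪
          ⋃ u : Vx n, ⋃ v : Vx n, {X | Bad2 G T g.pair X u v}) := by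
      ext X
      simp only [hS, mem_ofPred_eq, mem_union, mem_iUnion]
      tauto
    rw [h1]
    refine (MeasurableSet.const _).union ((MeasurableSet.iUnion fun v => ?_).union
      (MeasurableSet.iUnion fun u => MeasurableSet.iUnion fun v => ?_))
    · have h2 : {X | Bad1 G a (MM α n) T g.pair X v} =
          {X : Marks n | MM α n ≤ (fixDeg g.deg v : ℝ) ∧ (fixDeg g.deg v : ℝ) < T} ∩
          {X : Marks n | ∀ h, (h.1 = v ∧
            min ((fixDeg g.deg v : ℝ) ^ a) T ≤ (fixDeg g.deg (g.pair h).1 : ℝ)) →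
            X (edge g.pair h) ∉ G} := by
        ext X
        simp only [Bad1, mem_ofPred_eq, mem_inter_iff]
        tauto
      rw [h2]
      exact (MeasurableSet.const _).inter (meas_ev hG _ _)
    · have h2 : {X | Bad2 G T g.pair X u v} =
          {X : Marks n | u ≠ v ∧ T ≤ (fixDeg g.deg u : ℝ) ∧ T ≤ (fixDeg g.deg v : ℝ)} ∩
          {X : Marks n | ∀ h, (h.1 = u ∧ (g.pair h).1 = v) → X (edge g.pair h) ∉ G} := by
        ext X
        simp only [Bad2, mem_ofPred_eq, mem_inter_iff]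
        tauto
      rw [h2]
      exact (MeasurableSet.const _).inter (meas_ev hG _ _)
  refine le_trans (measure_mono hsub) ?_
  rw [(hC5 μ ρ n S hmeas).2]
  have hpt : ∀ δ : Vx n → ℕ, ((pairLaw (fixDeg δ)).prod (marksLaw ρ n))
      {p | (Cfg.mk δ p.1, p.2) ∈ S} ≤
      ({δ | ¬ GoodDeg τ c₂ K ζ δ} : Set (Vx n → ℕ)).indicator (fun _ => (1 : ℝ≥0∞)) δ +
        (ε / 2 / 2 + ε / 2 / 2) := by
    intro δ
    have : IsProbabilityMeasure (pairLaw (fixDeg δ)) := hC2 n _ (hC3 n δ).1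
    have : IsProbabilityMeasure (marksLaw ρ n) := by unfold marksLaw; infer_instance
    by_cases hg : GoodDeg τ c₂ K ζ δ
    · refine le_trans ?_ le_add_self
      have hb := prob_bad hP hC hT.two_lt hg ρ G hG ha1 hc2 hK hM2 haθ hTp hT4
      refine le_trans (le_trans (measure_mono ?_) hb) (add_le_add hb1.le hb2.le)
      intro p hp
      simp only [hS, mem_ofPred_eq] at hp
      rcases hp with h | h
      · exact absurd hg h
      · exact h
    · refine le_trans prob_le_one ?_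
      rw [indicator_of_mem (by exact hg)]
      exact le_self_add
  have hmeasG : MeasurableSet ({δ | ¬ GoodDeg τ c₂ K ζ δ} : Set (Vx n → ℕ)) :=
    (Set.to_countable _).measurableSet
  calc ∫⁻ δ, ((pairLaw (fixDeg δ)).prod (marksLaw ρ n)) {p | (Cfg.mk δ p.1, p.2) ∈ S}
        ∂(Measure.pi fun _ : Vx n => μ)
      ≤ ∫⁻ δ, (({δ | ¬ GoodDeg τ c₂ K ζ δ} : Set (Vx n → ℕ)).indicator
          (fun _ => (1 : ℝ≥0∞)) δ + (ε / 2 / 2 + ε / 2 / 2)) ∂(Measure.pi fun _ : Vx n => μ) :=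
        lintegral_mono hpt
    _ = (Measure.pi fun _ : Vx n => μ) {δ | ¬ GoodDeg τ c₂ K ζ δ} +
        (ε / 2 / 2 + ε / 2 / 2) := by
        rw [lintegral_add_right _ measurable_const, lintegral_const, measure_univ, mul_one,
          lintegral_indicator_const hmeasG, one_mul]
    _ ≤ ε / 2 + (ε / 2 / 2 + ε / 2 / 2) := add_le_add_left hn _
    _ = ε := by rw [ENNReal.add_halves, ENNReal.add_halves]

end Pool.Agent.TwoCol
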