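import Pool.Agent.TwoCol.Spec

/-!
# Typical degree sequences
-/

open MeasureTheory ProbabilityTheory Filter Topology Set
open scoped ENNReal NNReal

namespace Pool.Agent.TwoCol

namespace DegAux

/-- Number of coordinates in `S`, Chebyshev. -/
lemma cheb (μ : Measure ℕ) [IsProbabilityMeasure μ] (n : ℕ) (S : Set ℕ) (hp : 0 < μ.real S) :
    (Measure.pi fun _ : Vx n => μ) {δ | ∑ v : Vx n, S.indicator (fun _ => (1 : ℝ)) (δ v) ≤
      (n + 1) * μ.real S / 2} ≤ ENNReal.ofReal (4 / ((n + 1) * μ.real S)) := by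
  set p := μ.real S with hpdef
  set X : ℕ → ℝ := S.indicator (fun _ => (1 : ℝ)) with hX
  have hXb : ∀ k, ‖X k‖ ≤ 1 := by
    intro k
    rw [hX]
    by_cases hk : k ∈ S <;> simp [hk]
  have hXm : AEStronglyMeasurable X μ := (measurable_of_countable X).aestronglyMeasurable
  have hX2 : MemLp X 2 μ := MemLp.of_bound hXm 1 (ae_of_all _ hXb)
  have hint : ∫ k, X k ∂μ = p := by
    rw [hX, integral_indicator (by measurability)]
    simp [hpdef, measureReal_def]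
  have hvar : Var[X; μ] ≤ p := by
    refine (variance_le_expectation_sq hXm).trans (le_of_eq ?_)
    rw [← hint]
    refine integral_congr_ae (ae_of_all _ fun k => ?_)
    simp only [Pi.pow_apply, hX]
    by_cases hk : k ∈ S <;> simp [hk]
  have hn : (0 : ℝ) < (n : ℝ) + 1 := by positivity
  have hc : 0 < (n + 1) * p / 2 := by positivity
  set Z : (Vx n → ℕ) → ℝ := ∑ v : Vx n, fun δ : Vx n → ℕ => X (δ v) with hZ
  have hZ2 : MemLp Z 2 (Measure.pi fun _ : Vx n => μ) := by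
    rw [hZ]
    refine memLp_finsetSum' _ fun v _ => ?_
    exact hX2.comp_measurePreserving (measurePreserving_eval (fun _ : Vx n => μ) v)
  have hZint : ∫ δ, Z δ ∂(Measure.pi fun _ : Vx n => μ) = (n + 1) * p := by
    have h1 : ∀ v : Vx n, ∫ δ : Vx n → ℕ, X (δ v) ∂(Measure.pi fun _ : Vx n => μ) = p := by
      intro v
      have h0 := (measurePreserving_eval (fun _ : Vx n => μ) v)
      have h00 : ∫ k, X k ∂((Measure.pi fun _ : Vx n => μ).map (Function.eval v)) =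
          ∫ δ : Vx n → ℕ, X (δ v) ∂(Measure.pi fun _ : Vx n => μ) :=
        integral_map h0.measurable.aemeasurable
          (measurable_of_countable X).aestronglyMeasurable
      rw [← h00, h0.map_eq, hint]
    have h2 : ∀ δ, Z δ = ∑ v : Vx n, X (δ v) := by
      intro δ
      rw [hZ]
      simp
    simp_rw [h2]
    rw [integral_finsetSum]
    · rw [Finset.sum_congr rfl (fun v _ => h1 v)]
      simp
    · intro v _
      have h3 : MemLp (fun δ : Vx n → ℕ => X (δ v)) 2 (Measure.pi fun _ : Vx n => μ) :=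
        hX2.comp_measurePreserving (measurePreserving_eval (fun _ : Vx n => μ) v)
      exact h3.integrable (by norm_num)
  have hZvar : Var[Z; Measure.pi fun _ : Vx n => μ] ≤ (n + 1) * p := by
    rw [hZ, variance_sum_pi (fun _ => hX2)]
    refine (Finset.sum_le_sum fun v _ => hvar).trans (le_of_eq ?_)
    simp
  have h := meas_ge_le_variance_div_sq hZ2 hc
  refine (measure_mono ?_).trans (h.trans (ENNReal.ofReal_le_ofReal ?_))
  · intro δ hδ
    simp only [mem_ofPred_eq] at hδ ⊢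
    rw [hZint]
    have h2 : Z δ = ∑ v : Vx n, X (δ v) := by
      rw [hZ]
      simp
    rw [h2]
    refine le_trans ?_ (neg_le_abs _)
    linarith
  · rw [div_le_div_iff₀ (by positivity) (by positivity)]
    calc Var[Z; Measure.pi fun _ : Vx n => μ] * ((n + 1) * p) ≤
        ((n + 1) * p) * ((n + 1) * p) := by
          exact mul_le_mul_of_nonneg_right hZvar (by positivity)
      _ = 4 * ((n + 1) * p / 2) ^ 2 := by ring

lemma sum_fixDeg_le {n : ℕ} (δ : Vx n → ℕ) : ∑ v, fixDeg δ v ≤ ∑ v, (δ v + 1) := by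
  refine Finset.sum_le_sum fun v _ => ?_
  unfold fixDeg
  split_ifs
  · omega
  · by_cases hv : v = Fin.last n
    · subst hv
      simp
    · rw [Function.update_of_ne hv]
      omega

lemma markov (μ : Measure ℕ) [IsProbabilityMeasure μ] (n : ℕ) (C' K : ℝ) (hC : 0 < C')
    (hK : 0 < K)
    (hmom : ∫⁻ k, ENNReal.ofReal (((k : ℝ) + 1) ^ (1 : ℝ)) ∂μ ≤ ENNReal.ofReal C') :
    (Measure.pi fun _ : Vx n => μ) {δ | ¬ ((∑ v, fixDeg δ v : ℕ) : ℝ) ≤ K * (n + 1)} ≤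
      ENNReal.ofReal (C' / K) := by
  set f : (Vx n → ℕ) → ℝ≥0∞ := fun δ => ∑ v : Vx n, ENNReal.ofReal (((δ v : ℝ) + 1) ^ (1 : ℝ))
    with hf
  have hfint : ∫⁻ δ, f δ ∂(Measure.pi fun _ : Vx n => μ) ≤ ENNReal.ofReal ((n + 1) * C') := by
    rw [hf, lintegral_finsetSum]
    · have h1 : ∀ v : Vx n, ∫⁻ δ : Vx n → ℕ, ENNReal.ofReal (((δ v : ℝ) + 1) ^ (1 : ℝ))
          ∂(Measure.pi fun _ : Vx n => μ) ≤ ENNReal.ofReal C' := by
        intro v
        refine le_trans (le_of_eq ?_) hmom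
        have := (measurePreserving_eval (fun _ : Vx n => μ) v)
        exact this.lintegral_comp (measurable_of_countable
          (fun k : ℕ => ENNReal.ofReal (((k : ℝ) + 1) ^ (1 : ℝ))))
      refine (Finset.sum_le_sum fun v _ => h1 v).trans (le_of_eq ?_)
      rw [Finset.sum_const, Finset.card_univ, Fintype.card_fin, nsmul_eq_mul,
        ENNReal.ofReal_mul (by positivity)]
      congr 1
      rw [← Nat.cast_succ, ENNReal.ofReal_natCast]
    · intro v _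
      exact (measurable_of_countable
          (fun k : ℕ => ENNReal.ofReal (((k : ℝ) + 1) ^ (1 : ℝ)))).comp (measurable_pi_apply v)
  have hfm : Measurable f := by
    rw [hf]
    refine Finset.measurable_sum _ fun v _ => ?_
    exact (measurable_of_countable
          (fun k : ℕ => ENNReal.ofReal (((k : ℝ) + 1) ^ (1 : ℝ)))).comp (measurable_pi_apply v)
  have hpos : 0 < K * ((n : ℝ) + 1) := by positivity
  have hm := meas_ge_le_lintegral_div hfm.aemeasurable (μ := Measure.pi fun _ : Vx n => μ)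
    (ε := ENNReal.ofReal (K * (n + 1))) (by simpa using hpos) ENNReal.ofReal_ne_top
  refine (measure_mono ?_).trans (hm.trans ?_)
  · intro δ hδ
    simp only [mem_ofPred_eq, not_le] at hδ ⊢
    have h1 : f δ = ENNReal.ofReal ((∑ v, (δ v + 1) : ℕ) : ℝ) := by
      simp only [hf]
      rw [← ENNReal.ofReal_sum_of_nonneg]
      · congr 1
        push_cast
        refine Finset.sum_congr rfl fun v _ => ?_
        rw [Real.rpow_one]
      · intro v _
        positivity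
    rw [h1]
    refine ENNReal.ofReal_le_ofReal (hδ.le.trans ?_)
    exact_mod_cast sum_fixDeg_le δ
  · calc (∫⁻ δ, f δ ∂(Measure.pi fun _ : Vx n => μ)) / ENNReal.ofReal (K * (n + 1)) ≤
        ENNReal.ofReal ((n + 1) * C') / ENNReal.ofReal (K * (n + 1)) := by
          gcongr
      _ = ENNReal.ofReal (((n + 1) * C') / (K * (n + 1))) := by
          rw [ENNReal.ofReal_div_of_pos hpos]
      _ = ENNReal.ofReal (C' / K) := by
          congr 1
          field_simp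

lemma two_le_ae (μ : Measure ℕ) [IsProbabilityMeasure μ] (h : μ {k | k < 2} = 0) (n : ℕ) :
    (Measure.pi fun _ : Vx n => μ) {δ | ¬ ∀ v, 2 ≤ δ v} = 0 := by
  have h1 : {δ : Vx n → ℕ | ¬ ∀ v, 2 ≤ δ v} = ⋃ v : Vx n, (Function.eval v) ⁻¹' {k | k < 2} := by
    ext δ
    simp
  rw [h1, measure_iUnion_null_iff]
  intro v
  rw [(measurePreserving_eval (fun _ : Vx n => μ) v).measure_preimage
    (by measurability), h]

lemma geo (r : ℝ) (hr : 2 ≤ r) (m : ℕ) : ∑ i ∈ Finset.range m, r ^ i ≤ r ^ m := by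
  induction m with
  | zero => simp
  | succ m ih =>
    rw [Finset.sum_range_succ, pow_succ]
    have : 0 ≤ r ^ m := by positivity
    nlinarith

/-- The tail events. -/
def Sv (i : ℕ) : Set ℕ := {k : ℕ | (2 : ℝ) ^ (i + 1) < k}

lemma many_of (τ ζ c₁ C₁ : ℝ) (μ : Measure ℕ) [IsProbabilityMeasure μ] (hT : Tail τ μ c₁ C₁)
    (n : ℕ) (δ : Vx n → ℕ)
    (h : ∀ i : ℕ, (2 : ℝ) ^ i ≤ ((n : ℝ) + 1) ^ ζ →
      (n + 1) * μ.real (Sv i) / 2 < ∑ v : Vx n, (Sv i).indicator (fun _ => (1 : ℝ)) (δ v))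
    (y : ℝ) (hy : 1 ≤ y) (hy2 : y ≤ ((n : ℝ) + 1) ^ ζ) :
    c₁ / (2 * 2 ^ (τ - 1)) * (n + 1) * y ^ (1 - τ) ≤
      ((Finset.univ.filter fun v : Vx n => y ≤ (δ v : ℝ)).card : ℝ) := by
  obtain ⟨i, hi1, hi2⟩ := exists_nat_pow_near hy (one_lt_two : (1 : ℝ) < 2)
  have h1 := h i (hi1.trans hy2)
  have h2 : ∑ v : Vx n, (Sv i).indicator (fun _ => (1 : ℝ)) (δ v) ≤
      ((Finset.univ.filter fun v : Vx n => y ≤ (δ v : ℝ)).card : ℝ) := by
    rw [Finset.card_filter, Nat.cast_sum]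
    refine Finset.sum_le_sum fun v _ => ?_
    by_cases hv : δ v ∈ Sv i
    · have hv' : y ≤ (δ v : ℝ) := (hi2.trans hv).le
      simp [hv, hv']
    · rw [indicator_of_notMem hv]
      positivity
  refine le_trans ?_ (h1.le.trans h2)
  have h3 : (1 : ℝ) ≤ 2 ^ (i + 1) := one_le_pow₀ (by norm_num)
  have h4 := hT.lower ((2 : ℝ) ^ (i + 1)) h3
  have h5 : ((2 : ℝ) ^ (i + 1)) ^ (τ - 1) ≤ (2 * y) ^ (τ - 1) := by
    refine Real.rpow_le_rpow (by positivity) ?_ (by linarith [hT.two_lt])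
    rw [pow_succ]
    linarith
  have hy0 : 0 < y := by linarith
  have h6 : (2 * y) ^ (τ - 1) = 2 ^ (τ - 1) * y ^ (τ - 1) :=
    Real.mul_rpow (by norm_num) hy0.le
  have h7 : y ^ (1 - τ) = (y ^ (τ - 1))⁻¹ := by
    rw [← Real.rpow_neg hy0.le]
    congr 1
    ring
  have hc := hT.pos
  have h8 : c₁ / (2 ^ (τ - 1) * y ^ (τ - 1)) ≤ μ.real (Sv i) := by
    refine le_trans ?_ h4
    rw [← h6]
    exact div_le_div_of_nonneg_left hc.le (by positivity) h5
  have hn : (0 : ℝ) < (n : ℝ) + 1 := by positivity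
  calc c₁ / (2 * 2 ^ (τ - 1)) * (n + 1) * y ^ (1 - τ) =
      (n + 1) * (c₁ / (2 ^ (τ - 1) * y ^ (τ - 1))) / 2 := by
        rw [h7]
        have : (0 : ℝ) < y ^ (τ - 1) := by positivity
        field_simp
    _ ≤ (n + 1) * μ.real (Sv i) / 2 := by gcongr

lemma bad_le (τ ζ c₁ C₁ : ℝ) (μ : Measure ℕ) [IsProbabilityMeasure μ] (hT : Tail τ μ c₁ C₁)
    (hζ : 0 < ζ) (hζ1 : ζ * (τ - 1) < 1) (n : ℕ) :
    (Measure.pi fun _ : Vx n => μ) {δ | ¬ ∀ i : ℕ, (2 : ℝ) ^ i ≤ ((n : ℝ) + 1) ^ ζ →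
      (n + 1) * μ.real (Sv i) / 2 < ∑ v : Vx n, (Sv i).indicator (fun _ => (1 : ℝ)) (δ v)} ≤
      ENNReal.ofReal (4 * (2 ^ (τ - 1)) ^ 2 / c₁ * ((n : ℝ) + 1) ^ (-(1 - ζ * (τ - 1)))) := by
  classical
  have hn : (0 : ℝ) < (n : ℝ) + 1 := by positivity
  have hn1 : (1 : ℝ) ≤ (n : ℝ) + 1 := by linarith [(Nat.cast_nonneg n : (0 : ℝ) ≤ n)]
  have hτ := hT.two_lt
  have hc := hT.pos
  have hζ2 : ζ ≤ 1 := by nlinarith
  set F : Finset ℕ := (Finset.range (n + 1)).filter fun i => (2 : ℝ) ^ i ≤ ((n : ℝ) + 1) ^ ζ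
    with hF
  have hFmem : ∀ i : ℕ, (2 : ℝ) ^ i ≤ ((n : ℝ) + 1) ^ ζ → i ∈ F := by
    intro i hi
    rw [hF, Finset.mem_filter, Finset.mem_range]
    refine ⟨?_, hi⟩
    have h1 : ((n : ℝ) + 1) ^ ζ ≤ (n : ℝ) + 1 := by
      calc ((n : ℝ) + 1) ^ ζ ≤ ((n : ℝ) + 1) ^ (1 : ℝ) := Real.rpow_le_rpow_of_exponent_le hn1 hζ2
        _ = _ := Real.rpow_one _
    have h2 : ((2 ^ i : ℕ) : ℝ) ≤ ((n + 1 : ℕ) : ℝ) := by
      push_cast
      exact hi.trans h1
    have h3 : 2 ^ i ≤ n + 1 := by exact_mod_cast h2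
    exact lt_of_lt_of_le (Nat.lt_two_pow_self) h3
  have hsub : {δ : Vx n → ℕ | ¬ ∀ i : ℕ, (2 : ℝ) ^ i ≤ ((n : ℝ) + 1) ^ ζ →
      (n + 1) * μ.real (Sv i) / 2 < ∑ v : Vx n, (Sv i).indicator (fun _ => (1 : ℝ)) (δ v)} ⊆
      ⋃ i ∈ F, {δ : Vx n → ℕ | ∑ v : Vx n, (Sv i).indicator (fun _ => (1 : ℝ)) (δ v) ≤
        (n + 1) * μ.real (Sv i) / 2} := by
    intro δ hδ
    simp only [mem_ofPred_eq, not_forall, not_lt] at hδ
    obtain ⟨i, hi, hi2⟩ := hδ
    simp only [mem_iUnion]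
    exact ⟨i, hFmem i hi, hi2⟩
  refine (measure_mono hsub).trans ((measure_biUnion_finset_le F _).trans ?_)
  have hr2 : (2 : ℝ) ≤ 2 ^ (τ - 1) := by
    calc (2 : ℝ) = 2 ^ (1 : ℝ) := (Real.rpow_one 2).symm
      _ ≤ 2 ^ (τ - 1) := Real.rpow_le_rpow_of_exponent_le (by norm_num) (by linarith)
  set r : ℝ := 2 ^ (τ - 1) with hr
  have hr0 : 0 < r := by linarith
  have hpow : ∀ i : ℕ, ((2 : ℝ) ^ i) ^ (τ - 1) = r ^ i := by
    intro i
    rw [hr, ← Real.rpow_natCast, ← Real.rpow_natCast, ← Real.rpow_mul (by norm_num),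
      ← Real.rpow_mul (by norm_num), mul_comm]
  have hterm : ∀ i ∈ F, (Measure.pi fun _ : Vx n => μ)
      {δ : Vx n → ℕ | ∑ v : Vx n, (Sv i).indicator (fun _ => (1 : ℝ)) (δ v) ≤
        (n + 1) * μ.real (Sv i) / 2} ≤ ENNReal.ofReal (4 / (c₁ * (n + 1)) * r ^ (i + 1)) := by
    intro i _
    have h3 : (1 : ℝ) ≤ 2 ^ (i + 1) := one_le_pow₀ (by norm_num)
    have h4 : c₁ / ((2 : ℝ) ^ (i + 1)) ^ (τ - 1) ≤ μ.real (Sv i) := hT.lower _ h3
    rw [hpow] at h4
    have hp : 0 < μ.real (Sv i) := lt_of_lt_of_le (by positivity) h4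
    refine (cheb μ n (Sv i) hp).trans (ENNReal.ofReal_le_ofReal ?_)
    calc 4 / ((n + 1) * μ.real (Sv i)) ≤ 4 / ((n + 1) * (c₁ / r ^ (i + 1))) := by
          gcongr
      _ = 4 / (c₁ * (n + 1)) * r ^ (i + 1) := by
          field_simp
  refine (Finset.sum_le_sum hterm).trans ?_
  rw [← ENNReal.ofReal_sum_of_nonneg (fun i _ => by positivity)]
  refine ENNReal.ofReal_le_ofReal ?_
  rcases F.eq_empty_or_nonempty with hFe | hFne
  · rw [hFe, Finset.sum_empty]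
    positivity
  · set m := F.max' hFne with hm
    have hmF : m ∈ F := F.max'_mem hFne
    have hm2 : (2 : ℝ) ^ m ≤ ((n : ℝ) + 1) ^ ζ := (Finset.mem_filter.1 hmF).2
    have hrm : r ^ m ≤ ((n : ℝ) + 1) ^ (ζ * (τ - 1)) := by
      rw [← hpow, Real.rpow_mul hn.le]
      exact Real.rpow_le_rpow (by positivity) hm2 (by linarith)
    have hsum : ∑ i ∈ F, r ^ (i + 1) ≤ r ^ 2 * r ^ m := by
      calc ∑ i ∈ F, r ^ (i + 1) ≤ ∑ i ∈ Finset.range (m + 1), r ^ (i + 1) := by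
            refine Finset.sum_le_sum_of_subset_of_nonneg ?_ (fun i _ _ => by positivity)
            intro i hi
            rw [Finset.mem_range]
            exact Nat.lt_succ_of_le (F.le_max' i hi)
        _ = r * ∑ i ∈ Finset.range (m + 1), r ^ i := by
            rw [Finset.mul_sum]
            exact Finset.sum_congr rfl fun i _ => by ring
        _ ≤ r * r ^ (m + 1) := by
            exact mul_le_mul_of_nonneg_left (geo r hr2 (m + 1)) hr0.le
        _ = r ^ 2 * r ^ m := by ring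
    rw [← Finset.mul_sum]
    have hsplit : ((n : ℝ) + 1) ^ (-(1 - ζ * (τ - 1))) =
        ((n : ℝ) + 1) ^ (ζ * (τ - 1)) / ((n : ℝ) + 1) := by
      rw [show -(1 - ζ * (τ - 1)) = ζ * (τ - 1) - 1 by ring, Real.rpow_sub hn, Real.rpow_one]
    calc 4 / (c₁ * ((n : ℝ) + 1)) * ∑ i ∈ F, r ^ (i + 1) ≤
        4 / (c₁ * ((n : ℝ) + 1)) * (r ^ 2 * ((n : ℝ) + 1) ^ (ζ * (τ - 1))) := by
          refine mul_le_mul_of_nonneg_left (hsum.trans ?_) (by positivity)
          exact mul_le_mul_of_nonneg_left hrm (by positivity)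
      _ = 4 * r ^ 2 / c₁ * ((n : ℝ) + 1) ^ (-(1 - ζ * (τ - 1))) := by
          rw [hsplit]
          field_simp

end DegAux

open DegAux in
theorem target_DEG (hM : Target_MOM) : Target_DEG := by
  intro τ μ _ c₁ C₁ hT ζ hζ hζ1
  have hτ := hT.two_lt
  have hc := hT.pos
  obtain ⟨-, -, -, -, hmom, -⟩ := hM τ μ c₁ C₁ hT
  obtain ⟨C', hC', hmom⟩ := hmom 1 (by linarith)
  refine ⟨c₁ / (2 * 2 ^ (τ - 1)), by positivity, fun ε hε => ?_⟩
  obtain ⟨e, he, heε⟩ : ∃ e : ℝ, 0 < e ∧ ENNReal.ofReal e ≤ ε := by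
    by_cases h : ε = ⊤
    · exact ⟨1, one_pos, by rw [h]; exact le_top⟩
    · exact ⟨ε.toReal, ENNReal.toReal_pos hε.ne' h, (ENNReal.ofReal_toReal h).le⟩
  refine ⟨max 1 (2 * C' / e), le_max_left _ _, ?_⟩
  set K := max 1 (2 * C' / e) with hK
  have hK1 : 1 ≤ K := le_max_left _ _
  have hK0 : 0 < K := by linarith
  have hK2 : 2 * C' / e ≤ K := le_max_right _ _
  have hKe : C' / K ≤ e / 2 := by
    rw [div_le_div_iff₀ hK0 (by norm_num)]
    rw [div_le_iff₀ he] at hK2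
    linarith
  have hlim : Tendsto (fun n : ℕ => 4 * (2 ^ (τ - 1)) ^ 2 / c₁ *
      ((n : ℝ) + 1) ^ (-(1 - ζ * (τ - 1)))) atTop (𝓝 0) := by
    have h1 : Tendsto (fun n : ℕ => (n : ℝ) + 1) atTop atTop :=
      tendsto_atTop_add_const_right _ _ tendsto_natCast_atTop_atTop
    have h2 := (tendsto_rpow_neg_atTop (show 0 < 1 - ζ * (τ - 1) by linarith)).comp h1
    simpa using h2.const_mul (4 * (2 ^ (τ - 1)) ^ 2 / c₁)
  filter_upwards [hlim.eventually_le_const (show (0 : ℝ) < e / 2 by positivity)] with n hn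
  have hsub : {δ : Vx n → ℕ | ¬ GoodDeg τ (c₁ / (2 * 2 ^ (τ - 1))) K ζ δ} ⊆
      ({δ | ¬ ∀ v, 2 ≤ δ v} ∪ {δ | ¬ ((∑ v, fixDeg δ v : ℕ) : ℝ) ≤ K * (n + 1)}) ∪
      {δ | ¬ ∀ i : ℕ, (2 : ℝ) ^ i ≤ ((n : ℝ) + 1) ^ ζ →
      (n + 1) * μ.real (Sv i) / 2 < ∑ v : Vx n, (Sv i).indicator (fun _ => (1 : ℝ)) (δ v)} := by
    intro δ hδ
    by_contra hcon
    simp only [mem_union, mem_ofPred_eq, not_or, not_not] at hcon
    obtain ⟨⟨h1, h2⟩, h3⟩ := hcon
    exact hδ ⟨h1, h2, fun y hy hy2 => many_of τ ζ c₁ C₁ μ hT n δ h3 y hy hy2⟩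
  calc (Measure.pi fun _ : Vx n => μ) {δ | ¬ GoodDeg τ (c₁ / (2 * 2 ^ (τ - 1))) K ζ δ} ≤
      (0 + ENNReal.ofReal (e / 2)) + ENNReal.ofReal (e / 2) := by
        refine (measure_mono hsub).trans ((measure_union_le _ _).trans ?_)
        refine add_le_add ((measure_union_le _ _).trans (add_le_add ?_ ?_)) ?_
        · exact (two_le_ae μ hT.two_le n).le
        · exact (markov μ n C' K hC' hK0 hmom).trans (ENNReal.ofReal_le_ofReal hKe)
        · exact (bad_le τ ζ c₁ C₁ μ hT hζ hζ1 n).trans (ENNReal.ofReal_le_ofReal hn)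
    _ = ENNReal.ofReal e := by
        rw [zero_add, ← ENNReal.ofReal_add (by positivity) (by positivity)]
        congr 1
        ring
    _ ≤ ε := heε

end Pool.Agent.TwoCol
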