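import Pool.Agent.TwoCol.Spec

/-!
# The deterministic argument (job DET)
-/

set_option autoImplicit false

open MeasureTheory ProbabilityTheory Filter Topology Set
open scoped ENNReal NNReal

namespace Pool.Agent.TwoCol

namespace DetAux

variable {V : Type} {W : Bool → V → V → ℝ≥0∞} {src : Bool → V} {coin : V → Bool}
  {t : V → ℝ≥0∞} {col : V → Option Bool}

/-- a finite arrival time comes from the source or from a painted vertex -/
lemma arr_attained [Finite V] (κ : Bool) (v : V) (h : arr W src t col κ v ≠ ⊤) :
    v = src κ ∨ ∃ u, col u = some κ ∧ t u + W κ u v = arr W src t col κ v := by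
  classical
  by_cases hv : v = src κ
  · exact Or.inl hv
  · right
    have h1 : arr W src t col κ v = ⨅ u : V, ⨅ (_ : col u = some κ), t u + W κ u v := by
      unfold arr
      simp [hv]
    have : Nonempty V := ⟨v⟩
    obtain ⟨u, hu⟩ := exists_eq_ciInf_of_finite
      (f := fun u : V => ⨅ (_ : col u = some κ), t u + W κ u v)
    refine ⟨u, ?_, ?_⟩
    · by_contra hc
      apply h
      rw [h1, ← hu]
      simp [hc]
    · by_cases hc : col u = some κ
      · rw [h1, ← hu]
        simp [hc]
      · exfalso
        apply h
        rw [h1, ← hu]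
        simp [hc]

lemma arr_src (κ : Bool) : arr W src t col κ (src κ) = 0 := by
  unfold arr
  simp

lemma arr_le {κ : Bool} {u v : V} (hu : col u = some κ) :
    arr W src t col κ v ≤ t u + W κ u v := by
  unfold arr
  refine inf_le_right.trans ?_
  exact (iInf_le _ u).trans (iInf_le _ hu)

lemma t_le_arr (hp : IsPainting W src coin t col) (κ : Bool) (v : V) :
    t v ≤ arr W src t col κ v := by
  rw [hp.time v]
  cases κ
  · exact inf_le_right
  · exact inf_le_left

lemma col_ne_none (hp : IsPainting W src coin t col) {v : V} (h : t v ≠ ⊤) : col v ≠ none := by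
  rcases lt_trichotomy (arr W src t col true v) (arr W src t col false v) with h1 | h1 | h1
  · rw [hp.red v h1]; simp
  · rw [hp.tie v h1 h]; simp
  · rw [hp.blue v h1]; simp

lemma red_of_not_blue (hp : IsPainting W src coin t col) {v : V} (h : t v ≠ ⊤)
    (hb : col v ≠ some false) : col v = some true := by
  have h1 := col_ne_none hp h
  rcases hc : col v with _ | b
  · exact absurd hc h1
  · cases b
    · exact absurd hc hb
    · rfl

lemma t_ne_top (hp : IsPainting W src coin t col) {v : V} {κ : Bool} (h : col v = some κ) :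
    t v ≠ ⊤ := by
  intro ht
  rw [hp.never v ht] at h
  exact absurd h (by simp)

lemma t_blue (hp : IsPainting W src coin t col) {v : V} (h : col v = some false) :
    t v = arr W src t col false v := by
  rw [hp.time v]
  refine inf_eq_right.mpr ?_
  by_contra hc
  rw [not_le] at hc
  have := hp.red v hc
  rw [h] at this
  exact absurd this (by simp)

/-- where a blue vertex got its colour from -/
lemma blue_pred [Finite V] (hp : IsPainting W src coin t col) {v : V} (h : col v = some false) :
    v = src false ∨ ∃ u, col u = some false ∧ t u + W false u v = t v := by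
  have h1 := t_blue hp h
  have h2 := t_ne_top hp h
  rw [h1] at h2
  rcases arr_attained false v h2 with h3 | ⟨u, hu, h3⟩
  · exact Or.inl h3
  · exact Or.inr ⟨u, hu, by rw [h3, h1]⟩

variable {A : V → V → Prop} {core : Set V}

lemma ball_mono {x : V} {i j : ℕ} (h : i ≤ j) : ball A core x i ⊆ ball A core x j := by
  induction h with
  | refl => exact fun _ h => h
  | step _ ih => exact fun v hv => Or.inl (ih hv)

lemma ball_disjoint {x v : V} {i : ℕ} (h : v ∈ ball A core x i) : v ∉ core := by
  induction i generalizing v with
  | zero => exact h.1 ▸ h.2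
  | succ i ih =>
    rcases h with h | h
    · exact ih h
    · exact h.1

/-- early blue vertices lie in a ball around the blue source -/
lemma blue_ball [Finite V] (hp : IsPainting W src coin t col)
    (hA : ∀ u v, W false u v ≠ ⊤ → A u v) {cb : ℝ≥0∞}
    (hcb : ∀ u v, cb ≤ W false u v) (hs : src false ∉ core) (J : ℕ)
    (hcore : ∀ i < J, ∀ u ∈ ball A core (src false) i, ∀ v, A u v → col v = some false →
      v ∉ core) :
    ∀ j ≤ J, ∀ v, col v = some false → t v < (j + 1) * cb → v ∈ ball A core (src false) j := by
  intro j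
  induction j with
  | zero =>
    intro _ v hv htv
    rcases blue_pred hp hv with h | ⟨u, hu, h⟩
    · exact ⟨h, hs⟩
    · exfalso
      have h1 : cb ≤ t v := by
        rw [← h]
        exact (hcb u v).trans le_add_self
      simp only [Nat.cast_zero, zero_add, one_mul] at htv
      exact absurd htv (not_lt.mpr h1)
  | succ j ih =>
    intro hj v hv htv
    rcases blue_pred hp hv with h | ⟨u, hu, h⟩
    · exact ball_mono (Nat.zero_le _) ⟨h, hs⟩
    · right
      have hWt : W false u v ≠ ⊤ := by
        intro hW
        rw [hW, add_top] at h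
        exact t_ne_top hp hv h.symm
      have hcbt : cb ≠ ⊤ := ne_top_of_le_ne_top hWt (hcb u v)
      have h2 : t u < (j + 1) * cb := by
        have h3 : t u + cb ≤ t v := by
          rw [← h]
          gcongr
          exact hcb u v
        have h4 : t u + cb < (j + 1) * cb + cb := by
          refine h3.trans_lt (htv.trans_le ?_)
          rw [Nat.cast_succ]
          rw [add_mul (((j : ℕ) : ℝ≥0∞) + 1) 1 cb, one_mul]
        exact lt_of_add_lt_add_right h4
      have h5 := ih (by omega) u hu h2
      exact ⟨hcore j (by omega) u h5 v (hA u v hWt) hv, u, h5, hA u v hWt⟩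

/-- a red vertex passes its colour along a path, as long as the path avoids blue vertices -/
lemma red_path (hp : IsPainting W src coin t col) (x : ℕ → V) (m : ℕ) (s₀ s B : ℝ≥0∞)
    (h0 : col (x 0) = some true) (ht0 : t (x 0) ≤ s₀)
    (hs : ∑ i ∈ Finset.range m, W true (x i) (x (i + 1)) ≤ s) (hB : s₀ + s < B)
    (hnb : ∀ i, 0 < i → i ≤ m → t (x i) < B → col (x i) ≠ some false) :
    ∀ i ≤ m, col (x i) = some true ∧
      t (x i) ≤ s₀ + ∑ j ∈ Finset.range i, W true (x j) (x (j + 1)) := by
  intro i
  induction i with
  | zero =>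
    intro _
    exact ⟨h0, by simpa using ht0⟩
  | succ i ih =>
    intro hi
    obtain ⟨h1, h2⟩ := ih (by omega)
    have h3 : t (x (i + 1)) ≤ s₀ + ∑ j ∈ Finset.range (i + 1), W true (x j) (x (j + 1)) := by
      rw [Finset.sum_range_succ, ← add_assoc]
      refine (t_le_arr hp true _).trans ((arr_le h1).trans ?_)
      gcongr
    have h4 : ∑ j ∈ Finset.range (i + 1), W true (x j) (x (j + 1)) ≤ s := by
      refine le_trans ?_ hs
      exact Finset.sum_le_sum_of_subset (Finset.range_mono hi)
    have h5 : t (x (i + 1)) < B := lt_of_le_of_lt (h3.trans (by gcongr)) hB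
    exact ⟨red_of_not_blue hp h5.ne_top (hnb (i + 1) (Nat.succ_pos _) hi h5), h3⟩

end DetAux

open DetAux in
theorem target_DET : Target_DET := by
  intro V _ W src coin t col hp A hA core cb _ hcb _ J k hs hball m x s₁ hx0 hxm hx hxs s₂ hconn
    hJ m' z s₃ hz0 hz hzs hk
  have hblueJ := blue_ball (J := J) hp hA hcb hs (core := core)
    (fun i hi u hu v hv _ => hball u (ball_mono (by omega) hu) v hv) J le_rfl
  -- core vertices painted early are not blue
  have hcoreJ : ∀ v ∈ core, t v < (J + 1) * cb → col v ≠ some false := by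
    intro v hv ht hb
    exact ball_disjoint (hblueJ v hb ht) hv
  have hs1 : s₁ < (J + 1) * cb := lt_of_le_of_lt le_self_add hJ
  -- the red source
  have hx0t : t (x 0) = 0 := by
    rw [hx0]
    have := t_le_arr hp true (src true)
    rw [arr_src] at this
    exact le_antisymm this bot_le
  have hpos : (0 : ℝ≥0∞) < (J + 1) * cb := lt_of_le_of_lt bot_le hJ
  have hx0c : col (x 0) = some true := by
    apply red_of_not_blue hp (by rw [hx0t]; simp)
    intro hb
    have h1 := hblueJ (x 0) hb (by rw [hx0t]; exact hpos)
    rcases Nat.eq_zero_or_pos m with h0 | h0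
    · rw [h0] at hxm
      exact ball_disjoint h1 hxm
    · exact hx 0 h0 h1
  have hxr := red_path hp x m 0 s₁ ((J + 1) * cb) hx0c (by rw [hx0t]) hxs (by rwa [zero_add])
    (by
      intro i _ hi ht hb
      rcases Nat.lt_or_ge i m with h1 | h1
      · exact hx i h1 (hblueJ _ hb ht)
      · obtain rfl : i = m := le_antisymm hi h1
        exact hcoreJ _ hxm ht hb) m le_rfl
  have hxmt : t (x m) ≤ s₁ := by
    refine hxr.2.trans ?_
    rw [zero_add]
    exact hxs
  -- all core vertices are red
  have hcr : ∀ v ∈ core, col v = some true ∧ t v ≤ s₁ + s₂ := by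
    intro v hv
    obtain ⟨l, y, hy0, hyl, hyc, hys⟩ := hconn (x m) hxm v hv
    have h1 := red_path hp y l s₁ s₂ ((J + 1) * cb) (by rw [hy0]; exact hxr.1)
      (by rw [hy0]; exact hxmt) hys hJ
      (by
        intro i _ hi ht
        exact hcoreJ _ (hyc i hi) ht) l le_rfl
    rw [hyl] at h1
    exact ⟨h1.1, h1.2.trans (by gcongr)⟩
  -- blue vertices are in small balls
  have hbluek := blue_ball (J := k) hp hA hcb hs (core := core)
    (fun i _ u _ v _ hb hc => by
      have := (hcr v hc).1
      rw [hb] at this
      exact absurd this (by simp)) k le_rfl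
  exact (red_path hp z m' (s₁ + s₂) s₃ ((k + 1) * cb) (hcr _ hz0).1 (hcr _ hz0).2 hzs hk
    (by
      intro i hi hi' ht hb
      exact hz i hi hi' (hbluek _ hb ht)) m' le_rfl).1

end Pool.Agent.TwoCol
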