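import Pool.Agent.TwoCol.Spec

/-!
# Existence and uniqueness of the outcome of the competition (job EXU)

The outcome is the unique fixed point of the operator `Fop`; two inputs which agree at all instants
before `m` are sent to outputs which agree at all instants before `m + c`.
-/

open MeasureTheory ProbabilityTheory Filter Topology Set
open scoped ENNReal NNReal

namespace Pool.Agent.TwoCol

namespace ExuAux

variable {V : Type*}

/-- Time and colour. -/
abbrev P (V : Type*) : Type _ := (V → ℝ≥0∞) × (V → Option Bool)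

/-- The two inputs agree before the instant `m`. -/
def Agree (m : ℝ≥0∞) (p q : P V) : Prop :=
  ∀ u, (p.1 u < m ∨ q.1 u < m) → p.1 u = q.1 u ∧ p.2 u = q.2 u

theorem Agree.symm {m : ℝ≥0∞} {p q : P V} (h : Agree m p q) : Agree m q p := fun u hu =>
  ⟨(h u hu.symm).1.symm, (h u hu.symm).2.symm⟩

theorem Agree.trans {m : ℝ≥0∞} {p q r : P V} (h : Agree m p q) (h' : Agree m q r) :
    Agree m p r := by
  intro u hu
  have hq : q.1 u < m := by
    rcases hu with hu | hu
    · rw [← (h u (Or.inl hu)).1]; exact hu
    · rw [(h' u (Or.inr hu)).1]; exact hu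
  have h1 := h u (Or.inr hq)
  have h2 := h' u (Or.inl hq)
  exact ⟨h1.1.trans h2.1, h1.2.trans h2.2⟩

theorem agree_zero (p q : P V) : Agree 0 p q := by
  intro u hu
  rcases hu with hu | hu <;> exact absurd hu not_lt_zero

/-- The rules of the competition as an operator. -/
noncomputable def Fop (W : Bool → V → V → ℝ≥0∞) (src : Bool → V) (coin : V → Bool) (p : P V) :
    P V :=
  (fun v => arr W src p.1 p.2 true v ⊓ arr W src p.1 p.2 false v,
   fun v => if arr W src p.1 p.2 true v ⊓ arr W src p.1 p.2 false v = ⊤ then none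
    else if arr W src p.1 p.2 true v < arr W src p.1 p.2 false v then some true
    else if arr W src p.1 p.2 false v < arr W src p.1 p.2 true v then some false
    else some (coin v))

theorem isPainting_iff (W : Bool → V → V → ℝ≥0∞) (src : Bool → V) (coin : V → Bool) (p : P V) :
    IsPainting W src coin p.1 p.2 ↔ Fop W src coin p = p := by
  constructor
  · intro h
    refine Prod.ext (funext fun v => (h.time v).symm) (funext fun v => ?_)
    change (if arr W src p.1 p.2 true v ⊓ arr W src p.1 p.2 false v = ⊤ then none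
      else if arr W src p.1 p.2 true v < arr W src p.1 p.2 false v then some true
      else if arr W src p.1 p.2 false v < arr W src p.1 p.2 true v then some false
      else some (coin v)) = p.2 v
    rw [← h.time v]
    by_cases h1 : p.1 v = ⊤
    · rw [if_pos h1, h.never v h1]
    · rw [if_neg h1]
      by_cases h2 : arr W src p.1 p.2 true v < arr W src p.1 p.2 false v
      · rw [if_pos h2, h.red v h2]
      · rw [if_neg h2]
        by_cases h3 : arr W src p.1 p.2 false v < arr W src p.1 p.2 true v
        · rw [if_pos h3, h.blue v h3]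
        · rw [if_neg h3, h.tie v (le_antisymm (not_lt.1 h3) (not_lt.1 h2)) h1]
  · intro h
    have ht : ∀ v, arr W src p.1 p.2 true v ⊓ arr W src p.1 p.2 false v = p.1 v := fun v =>
      congrFun (congrArg Prod.fst h) v
    have hc : ∀ v, (if arr W src p.1 p.2 true v ⊓ arr W src p.1 p.2 false v = ⊤ then none
      else if arr W src p.1 p.2 true v < arr W src p.1 p.2 false v then some true
      else if arr W src p.1 p.2 false v < arr W src p.1 p.2 true v then some false
      else some (coin v)) = p.2 v := fun v => congrFun (congrArg Prod.snd h) v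
    refine ⟨fun v => (ht v).symm, fun v hv => ?_, fun v hv => ?_, fun v hv hv' => ?_,
      fun v hv => ?_⟩
    · rw [← hc v, if_neg, if_pos hv]
      rw [inf_eq_left.2 hv.le]
      exact (lt_of_lt_of_le hv le_top).ne
    · rw [← hc v, if_neg, if_neg (not_lt.2 hv.le), if_pos hv]
      rw [inf_eq_right.2 hv.le]
      exact (lt_of_lt_of_le hv le_top).ne
    · rw [← hc v, if_neg, if_neg (not_lt.2 hv.ge), if_neg (not_lt.2 hv.le)]
      rw [ht v]
      exact hv'
    · rw [← hc v, if_pos]
      rw [ht v]
      exact hv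

theorem arr_le {W : Bool → V → V → ℝ≥0∞} {src : Bool → V} {c m : ℝ≥0∞}
    (hW : ∀ κ u v, c ≤ W κ u v) {p q : P V} (h : Agree m p q) (κ : Bool) (v : V) :
    arr W src p.1 p.2 κ v ⊓ (m + c) ≤ arr W src q.1 q.2 κ v := by
  unfold arr
  refine le_inf (inf_le_left.trans inf_le_left) (le_iInf fun u => le_iInf fun hu => ?_)
  by_cases hm : q.1 u < m
  · have h1 := h u (Or.inr hm)
    refine inf_le_left.trans (inf_le_right.trans ?_)
    rw [← h1.1]
    exact iInf_le_of_le u (iInf_le_of_le (h1.2.trans hu) le_rfl)
  · exact inf_le_right.trans (add_le_add (not_lt.1 hm) (hW κ u v))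

theorem arr_inf {W : Bool → V → V → ℝ≥0∞} {src : Bool → V} {c m : ℝ≥0∞}
    (hW : ∀ κ u v, c ≤ W κ u v) {p q : P V} (h : Agree m p q) (κ : Bool) (v : V) :
    arr W src p.1 p.2 κ v ⊓ (m + c) = arr W src q.1 q.2 κ v ⊓ (m + c) :=
  le_antisymm (le_inf (arr_le hW h κ v) inf_le_right)
    (le_inf (arr_le hW h.symm κ v) inf_le_right)

/-- Two numbers with the same minimum with `M`, one of them less than `M`, are equal. -/
theorem eq_of_inf {a b M : ℝ≥0∞} (h : a ⊓ M = b ⊓ M) (ha : a < M) : a = b := by
  rw [inf_eq_left.2 ha.le] at h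
  rcases le_total b M with hb | hb
  · rw [inf_eq_left.2 hb] at h
    exact h
  · rw [inf_eq_right.2 hb] at h
    exact absurd h ha.ne

theorem lt_of_inf {a b M x : ℝ≥0∞} (h : a ⊓ M = b ⊓ M) (hx : x < M) (ha : x < a) : x < b := by
  have h1 : x < a ⊓ M := lt_inf_iff.2 ⟨ha, hx⟩
  rw [h] at h1
  exact (lt_inf_iff.1 h1).1

theorem Agree.step_aux {W : Bool → V → V → ℝ≥0∞} {src : Bool → V} {coin : V → Bool} {c m : ℝ≥0∞}
    (hW : ∀ κ u v, c ≤ W κ u v) {p q : P V} (h : Agree m p q) (v : V)
    (hv : (Fop W src coin p).1 v < m + c) :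
    (Fop W src coin p).1 v = (Fop W src coin q).1 v ∧
      (Fop W src coin p).2 v = (Fop W src coin q).2 v := by
  have ht := arr_inf (src := src) hW h true v
  have hf := arr_inf (src := src) hW h false v
  change arr W src p.1 p.2 true v ⊓ arr W src p.1 p.2 false v < m + c at hv
  change arr W src p.1 p.2 true v ⊓ arr W src p.1 p.2 false v =
      arr W src q.1 q.2 true v ⊓ arr W src q.1 q.2 false v ∧
    (if arr W src p.1 p.2 true v ⊓ arr W src p.1 p.2 false v = ⊤ then none
      else if arr W src p.1 p.2 true v < arr W src p.1 p.2 false v then some true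
      else if arr W src p.1 p.2 false v < arr W src p.1 p.2 true v then some false
      else some (coin v)) =
    (if arr W src q.1 q.2 true v ⊓ arr W src q.1 q.2 false v = ⊤ then none
      else if arr W src q.1 q.2 true v < arr W src q.1 q.2 false v then some true
      else if arr W src q.1 q.2 false v < arr W src q.1 q.2 true v then some false
      else some (coin v))
  generalize arr W src p.1 p.2 true v = a at *
  generalize arr W src p.1 p.2 false v = b at *
  generalize arr W src q.1 q.2 true v = a' at *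
  generalize arr W src q.1 q.2 false v = b' at *
  rcases lt_trichotomy a b with hab | hab | hab
  · rw [inf_eq_left.2 hab.le] at hv
    have e1 : a = a' := eq_of_inf ht hv
    have e2 : a' < b' := by
      rw [← e1]
      exact lt_of_inf hf hv hab
    have n1 : a ≠ ⊤ := (lt_of_lt_of_le hab le_top).ne
    rw [inf_eq_left.2 hab.le, inf_eq_left.2 e2.le, if_neg n1, if_pos hab, if_neg (e1 ▸ n1),
      if_pos e2]
    exact ⟨e1, rfl⟩
  · subst hab
    rw [inf_idem] at hv
    have e1 : a = a' := eq_of_inf ht hv
    have e2 : a = b' := eq_of_inf hf hv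
    subst e1
    subst e2
    exact ⟨rfl, rfl⟩
  · rw [inf_eq_right.2 hab.le] at hv
    have e1 : b = b' := eq_of_inf hf hv
    have e2 : b' < a' := by
      rw [← e1]
      exact lt_of_inf ht hv hab
    have n1 : b ≠ ⊤ := (lt_of_lt_of_le hab le_top).ne
    rw [inf_eq_right.2 hab.le, inf_eq_right.2 e2.le, if_neg n1, if_neg (not_lt.2 hab.le),
      if_pos hab, if_neg (e1 ▸ n1), if_neg (not_lt.2 e2.le), if_pos e2]
    exact ⟨e1, rfl⟩

theorem Agree.step {W : Bool → V → V → ℝ≥0∞} {src : Bool → V} {coin : V → Bool} {c m : ℝ≥0∞}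
    (hW : ∀ κ u v, c ≤ W κ u v) {p q : P V} (h : Agree m p q) :
    Agree (m + c) (Fop W src coin p) (Fop W src coin q) := by
  intro v hv
  rcases hv with hv | hv
  · exact h.step_aux hW v hv
  · have h1 := h.symm.step_aux (src := src) (coin := coin) hW v hv
    exact ⟨h1.1.symm, h1.2.symm⟩

theorem Agree.iter {W : Bool → V → V → ℝ≥0∞} {src : Bool → V} {coin : V → Bool} {c : ℝ≥0∞}
    (hW : ∀ κ u v, c ≤ W κ u v) (p q : P V) (k : ℕ) :
    Agree (k * c) ((Fop W src coin)^[k] p) ((Fop W src coin)^[k] q) := by
  induction k with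
  | zero =>
    rw [Nat.cast_zero, zero_mul]
    exact agree_zero _ _
  | succ k ih =>
    rw [Function.iterate_succ_apply', Function.iterate_succ_apply', Nat.cast_succ, add_mul, one_mul]
    exact ih.step hW

theorem exists_lt {c x : ℝ≥0∞} (hc : 0 < c) (hx : x ≠ ⊤) : ∃ k : ℕ, x < k * c :=
  ENNReal.exists_nat_mul_gt hc.ne' hx

/-- Full agreement from agreement at all finite instants. -/
theorem eq_of_agree {c : ℝ≥0∞} (hc : 0 < c) {p q : P V} (h : ∀ k : ℕ, Agree (k * c) p q)
    (hp : ∀ v, p.1 v = ⊤ → p.2 v = none) (hq : ∀ v, q.1 v = ⊤ → q.2 v = none) : p = q := by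
  have key : ∀ v, p.1 v = q.1 v ∧ p.2 v = q.2 v := by
    intro v
    by_cases h1 : p.1 v = ⊤
    · by_cases h2 : q.1 v = ⊤
      · exact ⟨h1.trans h2.symm, (hp v h1).trans (hq v h2).symm⟩
      · obtain ⟨k, hk⟩ := exists_lt hc h2
        exact h k v (Or.inr hk)
    · obtain ⟨k, hk⟩ := exists_lt hc h1
      exact h k v (Or.inl hk)
  exact Prod.ext (funext fun v => (key v).1) (funext fun v => (key v).2)

theorem fop_none {W : Bool → V → V → ℝ≥0∞} {src : Bool → V} {coin : V → Bool} (p : P V) (v : V)
    (h : (Fop W src coin p).1 v = ⊤) : (Fop W src coin p).2 v = none := by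
  change (if arr W src p.1 p.2 true v ⊓ arr W src p.1 p.2 false v = ⊤ then none
      else if arr W src p.1 p.2 true v < arr W src p.1 p.2 false v then some true
      else if arr W src p.1 p.2 false v < arr W src p.1 p.2 true v then some false
      else some (coin v)) = none
  exact if_pos h

open scoped Classical in
theorem exists_fixed {W : Bool → V → V → ℝ≥0∞} {src : Bool → V} {coin : V → Bool} {c : ℝ≥0∞}
    (hc : 0 < c) (hW : ∀ κ u v, c ≤ W κ u v) : ∃ p : P V, Fop W src coin p = p := by
  set F := Fop W src coin with hF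
  let p0 : P V := (fun _ => ⊤, fun _ => none)
  let s : ℕ → P V := fun k => F^[k] p0
  have hs : ∀ j k : ℕ, j ≤ k → Agree (j * c) (s j) (s k) := by
    intro j k hjk
    obtain ⟨m, rfl⟩ := Nat.exists_eq_add_of_le hjk
    change Agree (j * c) (F^[j] p0) (F^[j + m] p0)
    rw [Function.iterate_add_apply]
    exact Agree.iter hW p0 (F^[m] p0) j
  let q : P V :=
    (fun v => if h : ∃ k : ℕ, (s k).1 v < k * c then (s h.choose).1 v else ⊤,
     fun v => if h : ∃ k : ℕ, (s k).1 v < k * c then (s h.choose).2 v else none)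
  have hq : ∀ v (k : ℕ), (s k).1 v < k * c → q.1 v = (s k).1 v ∧ q.2 v = (s k).2 v := by
    intro v k hk
    have hex : ∃ k : ℕ, (s k).1 v < k * c := ⟨k, hk⟩
    have e1 : q.1 v = (s hex.choose).1 v := dif_pos hex
    have e2 : q.2 v = (s hex.choose).2 v := dif_pos hex
    rw [e1, e2]
    rcases le_total hex.choose k with hle | hle
    · exact hs _ _ hle v (Or.inl hex.choose_spec)
    · have := hs _ _ hle v (Or.inl hk)
      exact ⟨this.1.symm, this.2.symm⟩
  have hqtop : ∀ v, q.1 v = ⊤ → q.2 v = none := by
    intro v hv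
    by_cases hex : ∃ k : ℕ, (s k).1 v < k * c
    · obtain ⟨k, hk⟩ := hex
      have := (hq v k hk).1
      rw [hv] at this
      rw [← this] at hk
      exact absurd hk not_top_lt
    · exact dif_neg hex
  have hag : ∀ k : ℕ, Agree (k * c) q (s k) := by
    intro k v hv
    rcases hv with hv | hv
    · by_cases hex : ∃ j : ℕ, (s j).1 v < j * c
      · obtain ⟨j, hj⟩ := hex
        have h1 := hq v j hj
        rcases le_total j k with hle | hle
        · have h2 := hs j k hle v (Or.inl hj)
          exact ⟨h1.1.trans h2.1, h1.2.trans h2.2⟩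
        · have h3 : (s j).1 v < k * c := by rw [← h1.1]; exact hv
          have h2 := hs k j hle v (Or.inr h3)
          exact ⟨h1.1.trans h2.1.symm, h1.2.trans h2.2.symm⟩
      · have e1 : q.1 v = ⊤ := dif_neg hex
        rw [e1] at hv
        exact absurd hv not_top_lt
    · exact hq v k hv
  refine ⟨q, ?_⟩
  refine eq_of_agree hc (fun k => ?_) (fun v hv => fop_none q v hv) hqtop
  cases k with
  | zero =>
    rw [Nat.cast_zero, zero_mul]
    exact agree_zero _ _
  | succ k =>
    have h1 : Agree (((k + 1 : ℕ) : ℝ≥0∞) * c) (F q) (s (k + 1)) := by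
      have : s (k + 1) = F (s k) := Function.iterate_succ_apply' F k p0
      rw [this, Nat.cast_succ, add_mul, one_mul]
      exact (hag k).step hW
    exact h1.trans (hag (k + 1)).symm

theorem unique_fixed {W : Bool → V → V → ℝ≥0∞} {src : Bool → V} {coin : V → Bool} {c : ℝ≥0∞}
    (hc : 0 < c) (hW : ∀ κ u v, c ≤ W κ u v) {p q : P V} (hp : Fop W src coin p = p)
    (hq : Fop W src coin q = q) : p = q := by
  refine eq_of_agree hc (fun k => ?_) (fun v hv => ?_) (fun v hv => ?_)
  · have h := Agree.iter (src := src) (coin := coin) hW p q k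
    rwa [Function.iterate_fixed hp, Function.iterate_fixed hq] at h
  · have h := fop_none (W := W) (src := src) (coin := coin) p v
    rw [hp] at h
    exact h hv
  · have h := fop_none (W := W) (src := src) (coin := coin) q v
    rw [hq] at h
    exact h hv

end ExuAux

open ExuAux in
/-- JOB EXU: the outcome of the competition exists and is unique. -/
theorem target_EXU : Target_EXU := by
  intro V _ W src coin ⟨c, hc, hW⟩
  obtain ⟨p, hp⟩ := exists_fixed (src := src) (coin := coin) hc hW
  refine ⟨p, (isPainting_iff W src coin p).2 hp, fun q hq => ?_⟩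
  exact unique_fixed hc hW ((isPainting_iff W src coin q).1 hq) hp

end Pool.Agent.TwoCol
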