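import Pool.Agent.TwoCol.Spec

/-! Moments of the degree law from the power-law tail. -/

open MeasureTheory ProbabilityTheory Filter Topology Set
open scoped ENNReal NNReal

namespace Pool.Agent.TwoCol

namespace MomAux

variable {τ : ℝ} {μ : Measure ℕ} [IsProbabilityMeasure μ] {c₁ C₁ : ℝ}

lemma tail_le (h : Tail τ μ c₁ C₁) (i : ℕ) :
    μ {k : ℕ | 2 ^ i ≤ k + 1} ≤
      ENNReal.ofReal (max 1 C₁ * 2 ^ (τ - 1) * ((2 : ℝ) ^ (1 - τ)) ^ i) := by
  have hM : (1 : ℝ) ≤ max 1 C₁ := le_max_left _ _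
  have h2 : (1 : ℝ) ≤ 2 ^ (τ - 1) := Real.one_le_rpow (by norm_num) (by linarith [h.two_lt])
  cases i with
  | zero =>
    refine prob_le_one.trans ?_
    rw [pow_zero, mul_one, ← ENNReal.ofReal_one]
    exact ENNReal.ofReal_le_ofReal (by nlinarith)
  | succ j =>
    have e : max 1 C₁ * 2 ^ (τ - 1) * ((2 : ℝ) ^ (1 - τ)) ^ (j + 1) =
        max 1 C₁ * ((2 : ℝ) ^ (1 - τ)) ^ j := by
      rw [pow_succ, show (2 : ℝ) ^ (1 - τ) = (2 ^ (τ - 1))⁻¹ by
        rw [← Real.rpow_neg (by norm_num)]; congr 1; ring]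
      field_simp
    rw [e]
    rcases Nat.eq_zero_or_pos j with rfl | hj
    · refine prob_le_one.trans ?_
      rw [pow_zero, mul_one, ← ENNReal.ofReal_one]
      exact ENNReal.ofReal_le_ofReal hM
    · have h3 := h.upper (2 ^ j) (one_le_pow₀ (by norm_num))
      have h4 : {k : ℕ | 2 ^ (j + 1) ≤ k + 1} ⊆ {k : ℕ | (2 : ℝ) ^ j < k} := by
        intro k hk
        simp only [mem_ofPred_eq] at hk ⊢
        have h5 : 2 ≤ 2 ^ j := by
          calc 2 = 2 ^ 1 := rfl
            _ ≤ 2 ^ j := Nat.pow_le_pow_right (by norm_num) hj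
        have h6 : 2 ^ j < k := by rw [pow_succ] at hk; omega
        exact_mod_cast h6
      refine (measure_mono h4).trans ?_
      rw [← ofReal_measureReal]
      apply ENNReal.ofReal_le_ofReal
      refine h3.trans ?_
      have h7 : ((2 : ℝ) ^ (1 - τ)) ^ j = (((2 : ℝ) ^ j) ^ (τ - 1))⁻¹ := by
        rw [← Real.rpow_neg (by positivity), ← Real.rpow_natCast, ← Real.rpow_natCast,
          ← Real.rpow_mul (by norm_num), ← Real.rpow_mul (by norm_num)]
        congr 1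
        ring
      rw [h7, div_eq_mul_inv]
      exact mul_le_mul_of_nonneg_right (le_max_right _ _) (by positivity)

/-- The dyadic estimate. -/
lemma dyadic (h : Tail τ μ c₁ C₁) (f : ℕ → ℝ≥0∞) (a : ℕ → ℝ≥0∞)
    (hf : ∀ k, f k ≤ a (Nat.log 2 (k + 1))) :
    ∫⁻ k, f k ∂μ ≤
      ∑' i, a i * ENNReal.ofReal (max 1 C₁ * 2 ^ (τ - 1) * ((2 : ℝ) ^ (1 - τ)) ^ i) := by
  have h1 : ∀ k, f k ≤ ∑' i, a i * ({k : ℕ | 2 ^ i ≤ k + 1}.indicator 1 k) := by
    intro k
    refine (hf k).trans ?_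
    refine le_trans (le_of_eq ?_) (ENNReal.le_tsum (Nat.log 2 (k + 1)))
    rw [indicator_of_mem (by
      simp only [mem_ofPred_eq]
      exact Nat.pow_log_le_self 2 (by omega)), Pi.one_apply, mul_one]
  calc ∫⁻ k, f k ∂μ ≤ ∫⁻ k, ∑' i, a i * ({k : ℕ | 2 ^ i ≤ k + 1}.indicator 1 k) ∂μ :=
        lintegral_mono h1
    _ = ∑' i, ∫⁻ k, a i * ({k : ℕ | 2 ^ i ≤ k + 1}.indicator 1 k) ∂μ :=
        lintegral_tsum fun i => (measurable_of_countable _).aemeasurable
    _ = ∑' i, a i * μ {k : ℕ | 2 ^ i ≤ k + 1} := by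
        congr 1
        funext i
        rw [lintegral_const_mul _ (measurable_of_countable _),
          lintegral_indicator_one (MeasurableSet.of_discrete)]
    _ ≤ _ := ENNReal.tsum_le_tsum fun i => mul_le_mul_right (tail_le h i) _

lemma log_bounds (k : ℕ) : (2 : ℝ) ^ (Nat.log 2 (k + 1)) ≤ (k : ℝ) + 1 ∧
    (k : ℝ) + 1 ≤ 2 * 2 ^ (Nat.log 2 (k + 1)) := by
  constructor
  · have := Nat.pow_log_le_self 2 (show k + 1 ≠ 0 by omega)
    exact_mod_cast this
  · have := Nat.lt_pow_succ_log_self (b := 2) (by norm_num) (k + 1)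
    rw [pow_succ] at this
    have h2 : k + 1 ≤ 2 * 2 ^ (Nat.log 2 (k + 1)) := by omega
    exact_mod_cast h2

lemma ofReal_nat (k : ℕ) : ((k : ℝ≥0∞) + 1) = ENNReal.ofReal ((k : ℝ) + 1) := by
  rw [ENNReal.ofReal_add (by positivity) (by norm_num)]
  simp

lemma pow_eq_rpow (x : ℝ) (i : ℕ) : ((2 : ℝ) ^ x) ^ i = ((2 : ℝ) ^ i) ^ x := by
  rw [← Real.rpow_natCast, ← Real.rpow_natCast, ← Real.rpow_mul (by norm_num),
    ← Real.rpow_mul (by norm_num), mul_comm]

/-- Bounded geometric sums, increasing case. -/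
lemma sum_low {s : ℝ} (hs : 0 < s) {v : ℝ} (hv : 1 ≤ v) :
    ∑' i : ℕ, (if (2 : ℝ) ^ i ≤ v then ENNReal.ofReal (((2 : ℝ) ^ s) ^ i) else 0) ≤
      ENNReal.ofReal (2 ^ s / (2 ^ s - 1) * v ^ s) := by
  have hq : (1 : ℝ) < 2 ^ s := Real.one_lt_rpow (by norm_num) hs
  set I := Nat.log 2 ⌊v⌋₊ with hI
  have hv0 : ⌊v⌋₊ ≠ 0 := by
    have := Nat.le_floor (n := 1) (a := v) (by simpa using hv)
    omega
  have hI1 : (2 : ℝ) ^ I ≤ v := by
    have h1 := Nat.pow_log_le_self 2 hv0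
    have h2 : ((2 ^ I : ℕ) : ℝ) ≤ v := by
      refine le_trans ?_ (Nat.floor_le (by linarith))
      exact_mod_cast h1
    exact_mod_cast h2
  rw [tsum_eq_sum (s := Finset.range (I + 1))]
  · calc ∑ i ∈ Finset.range (I + 1), (if (2 : ℝ) ^ i ≤ v then
          ENNReal.ofReal (((2 : ℝ) ^ s) ^ i) else 0) ≤
        ∑ i ∈ Finset.range (I + 1), ENNReal.ofReal (((2 : ℝ) ^ s) ^ i) := by
          refine Finset.sum_le_sum fun i _ => ?_
          split_ifs
          · exact le_rfl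
          · exact zero_le
      _ = ENNReal.ofReal (∑ i ∈ Finset.range (I + 1), ((2 : ℝ) ^ s) ^ i) :=
          (ENNReal.ofReal_sum_of_nonneg fun i _ => by positivity).symm
      _ ≤ _ := by
          apply ENNReal.ofReal_le_ofReal
          rw [geom_sum_eq hq.ne', div_mul_eq_mul_div]
          apply div_le_div_of_nonneg_right _ (by linarith)
          have h3 : ((2 : ℝ) ^ s) ^ I ≤ v ^ s := by
            rw [pow_eq_rpow]
            exact Real.rpow_le_rpow (by positivity) hI1 hs.le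
          rw [pow_succ]
          nlinarith
  · intro i hi
    rw [if_neg]
    rw [Finset.mem_range, not_lt] at hi
    intro h4
    have h5 : 2 ^ i ≤ ⌊v⌋₊ := Nat.le_floor (by exact_mod_cast h4)
    have h6 := (Nat.le_log_iff_pow_le (by norm_num) hv0).mpr h5
    omega

/-- Geometric tails, decreasing case. -/
lemma sum_high {s : ℝ} (hs : 0 < s) {v : ℝ} (hv : 0 < v) :
    ∑' i : ℕ, (if v < (2 : ℝ) ^ i then ENNReal.ofReal (((2 : ℝ) ^ (-s)) ^ i) else 0) ≤
      ENNReal.ofReal ((1 - 2 ^ (-s))⁻¹ * v ^ (-s)) := by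
  have hq : (2 : ℝ) ^ (-s) < 1 := Real.rpow_lt_one_of_one_lt_of_neg (by norm_num) (by linarith)
  have hq0 : (0 : ℝ) < 2 ^ (-s) := by positivity
  have hex : ∃ i : ℕ, v < (2 : ℝ) ^ i := pow_unbounded_of_one_lt v (by norm_num)
  classical
  set I := Nat.find hex with hI
  have hI1 : v < (2 : ℝ) ^ I := Nat.find_spec hex
  rw [← Summable.sum_add_tsum_nat_add' (k := I) ENNReal.summable]
  have h0 : ∑ i ∈ Finset.range I, (if v < (2 : ℝ) ^ i then
      ENNReal.ofReal (((2 : ℝ) ^ (-s)) ^ i) else 0) = 0 := by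
    refine Finset.sum_eq_zero fun i hi => ?_
    rw [if_neg]
    exact Nat.find_min hex (Finset.mem_range.mp hi)
  rw [h0, zero_add]
  calc ∑' i : ℕ, (if v < (2 : ℝ) ^ (i + I) then ENNReal.ofReal (((2 : ℝ) ^ (-s)) ^ (i + I)) else 0)
      ≤ ∑' i : ℕ, ENNReal.ofReal (v ^ (-s) * ((2 : ℝ) ^ (-s)) ^ i) := by
        refine ENNReal.tsum_le_tsum fun i => ?_
        split_ifs
        · apply ENNReal.ofReal_le_ofReal
          rw [pow_add, mul_comm]
          apply mul_le_mul_of_nonneg_right _ (by positivity)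
          rw [pow_eq_rpow]
          exact Real.rpow_le_rpow_of_nonpos hv hI1.le (by linarith)
        · exact zero_le
    _ = ENNReal.ofReal (∑' i : ℕ, v ^ (-s) * ((2 : ℝ) ^ (-s)) ^ i) :=
        (ENNReal.ofReal_tsum_of_nonneg (fun i => by positivity)
          ((summable_geometric_of_lt_one hq0.le hq).mul_left _)).symm
    _ = _ := by rw [tsum_mul_left, tsum_geometric_of_lt_one hq0.le hq, mul_comm]

lemma rpow_mul_le (x a γ : ℝ) (ha : 0 < a) (h1 : a ≤ x) (h2 : x ≤ 2 * a) :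
    x ^ γ ≤ 2 ^ |γ| * a ^ γ := by
  rcases le_total 0 γ with hγ | hγ
  · rw [abs_of_nonneg hγ, ← Real.mul_rpow (by norm_num) ha.le]
    exact Real.rpow_le_rpow (by linarith) h2 hγ
  · have h3 : x ^ γ ≤ a ^ γ := Real.rpow_le_rpow_of_nonpos ha h1 hγ
    have h4 : (1 : ℝ) ≤ 2 ^ |γ| := Real.one_le_rpow (by norm_num) (abs_nonneg _)
    have h5 : 0 ≤ a ^ γ := by positivity
    nlinarith

lemma bdd_exp (A κ η B : ℝ) (hκ : 0 < κ) (hη : 0 < η) : ∃ C' : ℝ, 0 < C' ∧
    ∀ k : ℕ, ((k : ℝ) + 1) ^ (A + |B|) * Real.exp (-κ * (k : ℝ) ^ η) ≤ C' := by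
  set p := |A| + |B| with hp
  have h1 : Tendsto (fun k : ℕ => ((k : ℝ) ^ η) ^ (p / η) * Real.exp (-κ * (k : ℝ) ^ η))
      atTop (𝓝 0) :=
    (tendsto_rpow_mul_exp_neg_mul_atTop_nhds_zero (p / η) κ hκ).comp
      ((tendsto_rpow_atTop hη).comp tendsto_natCast_atTop_atTop)
  obtain ⟨D, hD⟩ := h1.bddAbove_range
  have hD' : ∀ k : ℕ, ((k : ℝ) ^ η) ^ (p / η) * Real.exp (-κ * (k : ℝ) ^ η) ≤ D :=
    fun k => hD ⟨k, rfl⟩
  refine ⟨2 ^ p * |D| + 1, by positivity, fun k => ?_⟩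
  rcases Nat.eq_zero_or_pos k with rfl | hk
  · simp only [Nat.cast_zero, zero_add, Real.one_rpow, Real.zero_rpow hη.ne', mul_zero,
      Real.exp_zero, mul_one]
    have : (0 : ℝ) ≤ 2 ^ p * |D| := by positivity
    linarith
  · have hk1 : (1 : ℝ) ≤ k := by exact_mod_cast hk
    have h2 : ((k : ℝ) + 1) ^ (A + |B|) ≤ 2 ^ p * ((k : ℝ) ^ η) ^ (p / η) := by
      rw [← Real.rpow_mul (by positivity), mul_div_cancel₀ _ hη.ne',
        ← Real.mul_rpow (by norm_num) (by positivity)]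
      calc ((k : ℝ) + 1) ^ (A + |B|) ≤ ((k : ℝ) + 1) ^ p := by
            apply Real.rpow_le_rpow_of_exponent_le (by linarith)
            rw [hp]
            linarith [le_abs_self A]
        _ ≤ _ := by
            apply Real.rpow_le_rpow (by positivity) (by linarith)
            positivity
    have h3 : 0 < Real.exp (-κ * (k : ℝ) ^ η) := Real.exp_pos _
    have h4 : (0 : ℝ) < 2 ^ p := by positivity
    calc ((k : ℝ) + 1) ^ (A + |B|) * Real.exp (-κ * (k : ℝ) ^ η) ≤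
        (2 ^ p * ((k : ℝ) ^ η) ^ (p / η)) * Real.exp (-κ * (k : ℝ) ^ η) := by gcongr
      _ = 2 ^ p * (((k : ℝ) ^ η) ^ (p / η) * Real.exp (-κ * (k : ℝ) ^ η)) := by ring
      _ ≤ 2 ^ p * |D| := by
          gcongr
          exact (hD' k).trans (le_abs_self D)
      _ ≤ _ := by linarith

end MomAux

open MomAux in
theorem target_MOM : Target_MOM := by
  intro τ μ _ c₁ C₁ h
  set M : ℝ := max 1 C₁ * 2 ^ (τ - 1) with hM
  have hM0 : 0 < M := by
    have : (1 : ℝ) ≤ max 1 C₁ := le_max_left _ _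
    positivity
  have hs3 : 0 < 3 - τ := by linarith [h.lt_three]
  have hs2 : 0 < τ - 2 := by linarith [h.two_lt]
  have hq3 : (1 : ℝ) < 2 ^ (3 - τ) := Real.one_lt_rpow (by norm_num) hs3
  have hq2 : (2 : ℝ) ^ (-(τ - 2)) < 1 := Real.rpow_lt_one_of_one_lt_of_neg (by norm_num) (by linarith)
  set D₁ : ℝ := 4 * M * (2 ^ (3 - τ) / (2 ^ (3 - τ) - 1) * 2 ^ (3 - τ)) with hD₁
  set D₂ : ℝ := 2 * M * ((1 - 2 ^ (-(τ - 2)))⁻¹ * (1 / 2) ^ (-(τ - 2))) with hD₂
  refine ⟨max 1 (max D₁ D₂), le_max_left _ _, ?_, ?_, ?_, ?_⟩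
  · -- truncated second moment
    intro u hu
    have h1 := dyadic h (fun k => if (k : ℝ) ≤ u then ((k : ℝ≥0∞) + 1) ^ 2 else 0)
      (fun i => if (2 : ℝ) ^ i ≤ 2 * u then ENNReal.ofReal (4 * 4 ^ i) else 0) (by
        intro k
        obtain ⟨hl1, hl2⟩ := log_bounds k
        split_ifs with h2 h3
        · rw [ofReal_nat, ← ENNReal.ofReal_pow (by positivity)]
          apply ENNReal.ofReal_le_ofReal
          calc ((k : ℝ) + 1) ^ 2 ≤ (2 * 2 ^ (Nat.log 2 (k + 1))) ^ 2 :=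
                pow_le_pow_left₀ (by positivity) hl2 2
            _ = 4 * 4 ^ (Nat.log 2 (k + 1)) := by
                rw [mul_pow, ← pow_mul, mul_comm (Nat.log 2 (k + 1)) 2, pow_mul]
                norm_num
        · exact absurd (hl1.trans (by linarith)) h3
        · exact zero_le
        · exact zero_le)
    refine h1.trans ?_
    have h2 : ∀ i : ℕ, (if (2 : ℝ) ^ i ≤ 2 * u then ENNReal.ofReal (4 * 4 ^ i) else 0) *
        ENNReal.ofReal (max 1 C₁ * 2 ^ (τ - 1) * ((2 : ℝ) ^ (1 - τ)) ^ i) =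
        ENNReal.ofReal (4 * M) *
          (if (2 : ℝ) ^ i ≤ 2 * u then ENNReal.ofReal (((2 : ℝ) ^ (3 - τ)) ^ i) else 0) := by
      intro i
      split_ifs
      · rw [← ENNReal.ofReal_mul (by positivity), ← ENNReal.ofReal_mul (by positivity)]
        congr 1
        have h3 : (2 : ℝ) ^ (3 - τ) = 4 * 2 ^ (1 - τ) := by
          rw [show 3 - τ = 2 + (1 - τ) by ring, Real.rpow_add (by norm_num)]
          norm_num
        rw [h3, mul_pow, hM]
        ring
      · simp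
    simp_rw [h2]
    rw [ENNReal.tsum_mul_left]
    calc ENNReal.ofReal (4 * M) * ∑' i : ℕ, (if (2 : ℝ) ^ i ≤ 2 * u then
          ENNReal.ofReal (((2 : ℝ) ^ (3 - τ)) ^ i) else 0) ≤
        ENNReal.ofReal (4 * M) *
          ENNReal.ofReal (2 ^ (3 - τ) / (2 ^ (3 - τ) - 1) * (2 * u) ^ (3 - τ)) := by
          gcongr
          exact sum_low hs3 (by linarith)
      _ = ENNReal.ofReal (D₁ * u ^ (3 - τ)) := by
          rw [← ENNReal.ofReal_mul (by positivity), Real.mul_rpow (by norm_num) (by linarith)]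
          congr 1
          rw [hD₁]
          ring
      _ ≤ _ := by
          apply ENNReal.ofReal_le_ofReal
          apply mul_le_mul_of_nonneg_right _ (by positivity)
          exact (le_max_left _ _).trans (le_max_right _ _)
  · -- tail of the first moment
    intro u hu
    have h1 := dyadic h (fun k => if u < (k : ℝ) + 1 then ((k : ℝ≥0∞) + 1) else 0)
      (fun i => if u / 2 < (2 : ℝ) ^ i then ENNReal.ofReal (2 * 2 ^ i) else 0) (by
        intro k
        obtain ⟨hl1, hl2⟩ := log_bounds k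
        split_ifs with h2 h3
        · rw [ofReal_nat]
          exact ENNReal.ofReal_le_ofReal hl2
        · exact absurd (by linarith : u / 2 < 2 ^ (Nat.log 2 (k + 1))) h3
        · exact zero_le
        · exact zero_le)
    refine h1.trans ?_
    have h2 : ∀ i : ℕ, (if u / 2 < (2 : ℝ) ^ i then ENNReal.ofReal (2 * 2 ^ i) else 0) *
        ENNReal.ofReal (max 1 C₁ * 2 ^ (τ - 1) * ((2 : ℝ) ^ (1 - τ)) ^ i) =
        ENNReal.ofReal (2 * M) *
          (if u / 2 < (2 : ℝ) ^ i then ENNReal.ofReal (((2 : ℝ) ^ (-(τ - 2))) ^ i) else 0) := by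
      intro i
      split_ifs
      · rw [← ENNReal.ofReal_mul (by positivity), ← ENNReal.ofReal_mul (by positivity)]
        congr 1
        have h3 : (2 : ℝ) ^ (-(τ - 2)) = 2 * 2 ^ (1 - τ) := by
          rw [show -(τ - 2) = 1 + (1 - τ) by ring, Real.rpow_add (by norm_num)]
          norm_num
        rw [h3, mul_pow, hM]
        ring
      · simp
    simp_rw [h2]
    rw [ENNReal.tsum_mul_left]
    have hq2' : 0 < 1 - (2 : ℝ) ^ (-(τ - 2)) := by linarith
    calc ENNReal.ofReal (2 * M) * ∑' i : ℕ, (if u / 2 < (2 : ℝ) ^ i then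
          ENNReal.ofReal (((2 : ℝ) ^ (-(τ - 2))) ^ i) else 0) ≤
        ENNReal.ofReal (2 * M) *
          ENNReal.ofReal ((1 - 2 ^ (-(τ - 2)))⁻¹ * (u / 2) ^ (-(τ - 2))) := by
          gcongr
          exact sum_high hs2 (by linarith)
      _ = ENNReal.ofReal (D₂ * u ^ (2 - τ)) := by
          rw [← ENNReal.ofReal_mul (by positivity), show u / 2 = (1 / 2) * u by ring,
            Real.mul_rpow (by norm_num) (by linarith), show 2 - τ = -(τ - 2) by ring]
          congr 1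
          rw [hD₂]
          ring
      _ ≤ _ := by
          apply ENNReal.ofReal_le_ofReal
          apply mul_le_mul_of_nonneg_right _ (by positivity)
          exact (le_max_right _ _).trans (le_max_right _ _)
  · -- moments of order less than `τ - 1`
    intro γ hγ
    have hs : 0 < τ - 1 - γ := by linarith
    have hq : (2 : ℝ) ^ (-(τ - 1 - γ)) < 1 :=
      Real.rpow_lt_one_of_one_lt_of_neg (by norm_num) (by linarith)
    have hq' : 0 < 1 - (2 : ℝ) ^ (-(τ - 1 - γ)) := by linarith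
    refine ⟨2 ^ |γ| * M * (1 - 2 ^ (-(τ - 1 - γ)))⁻¹, by positivity, ?_⟩
    have h1 := dyadic h (fun k => ENNReal.ofReal (((k : ℝ) + 1) ^ γ))
      (fun i => ENNReal.ofReal (2 ^ |γ| * ((2 : ℝ) ^ i) ^ γ)) (by
        intro k
        obtain ⟨hl1, hl2⟩ := log_bounds k
        exact ENNReal.ofReal_le_ofReal (rpow_mul_le _ _ _ (by positivity) hl1 hl2))
    refine h1.trans ?_
    have h2 : ∀ i : ℕ, ENNReal.ofReal (2 ^ |γ| * ((2 : ℝ) ^ i) ^ γ) *
        ENNReal.ofReal (max 1 C₁ * 2 ^ (τ - 1) * ((2 : ℝ) ^ (1 - τ)) ^ i) =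
        ENNReal.ofReal (2 ^ |γ| * M * ((2 : ℝ) ^ (-(τ - 1 - γ))) ^ i) := by
      intro i
      rw [← ENNReal.ofReal_mul (by positivity), ← pow_eq_rpow]
      congr 1
      have h3 : (2 : ℝ) ^ (-(τ - 1 - γ)) = 2 ^ γ * 2 ^ (1 - τ) := by
        rw [← Real.rpow_add (by norm_num)]
        congr 1
        ring
      rw [h3, mul_pow, hM]
      ring
    simp_rw [h2]
    rw [← ENNReal.ofReal_tsum_of_nonneg (fun i => by positivity)
      ((summable_geometric_of_lt_one (by positivity) hq).mul_left _), tsum_mul_left,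
      tsum_geometric_of_lt_one (by positivity) hq]
  · -- stretched exponential weights
    intro A κ η B hκ hη
    obtain ⟨C', hC', hb⟩ := bdd_exp A κ η B hκ hη
    refine ⟨C', hC', fun u hu => ?_⟩
    have h1 : ∀ k : ℕ, (if u ≤ (k : ℝ) + 1 then ENNReal.ofReal (((k : ℝ) + 1) ^ A *
        Real.exp (-κ * (k : ℝ) ^ η)) else 0) ≤ ENNReal.ofReal (C' * u ^ (-B)) := by
      intro k
      split_ifs with h2
      · apply ENNReal.ofReal_le_ofReal
        have h3 := hb k
        have hk : (0 : ℝ) < (k : ℝ) + 1 := by positivity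
        have h4 : ((k : ℝ) + 1) ^ A = ((k : ℝ) + 1) ^ (A + |B|) * ((k : ℝ) + 1) ^ (-|B|) := by
          rw [← Real.rpow_add hk]
          congr 1
          ring
        have h5 : ((k : ℝ) + 1) ^ (-|B|) ≤ u ^ (-B) :=
          (Real.rpow_le_rpow_of_nonpos (by linarith) h2 (by simp)).trans
            (Real.rpow_le_rpow_of_exponent_le hu (by linarith [le_abs_self B]))
        rw [h4]
        calc ((k : ℝ) + 1) ^ (A + |B|) * ((k : ℝ) + 1) ^ (-|B|) * Real.exp (-κ * (k : ℝ) ^ η) =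
            (((k : ℝ) + 1) ^ (A + |B|) * Real.exp (-κ * (k : ℝ) ^ η)) *
              ((k : ℝ) + 1) ^ (-|B|) := by ring
          _ ≤ C' * u ^ (-B) := mul_le_mul h3 h5 (by positivity) hC'.le
      · exact zero_le
    calc _ ≤ ∫⁻ _, ENNReal.ofReal (C' * u ^ (-B)) ∂μ := lintegral_mono h1
      _ = _ := by rw [lintegral_const, measure_univ, mul_one]

end Pool.Agent.TwoCol
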