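import Pool.Agent.TwoCol.Spec

/-!
# Random perfect matchings with marks
-/

open MeasureTheory ProbabilityTheory Filter Topology Set
open scoped ENNReal NNReal

namespace Pool.Agent.TwoCol

namespace PairAux

set_option linter.unusedSectionVars false

section Comb

variable {H : Type*} [Fintype H] [DecidableEq H]

/-- Perfect matchings of `S`, as involutions moving exactly the points of `S`. -/
def Pg (S : Finset H) : Finset (Equiv.Perm H) :=
  Finset.univ.filter fun σ => (∀ h, σ (σ h) = h) ∧ ∀ h, σ h ≠ h ↔ h ∈ S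

lemma mem_Pg {S : Finset H} {σ : Equiv.Perm H} :
    σ ∈ Pg S ↔ (∀ h, σ (σ h) = h) ∧ ∀ h, σ h ≠ h ↔ h ∈ S := by simp [Pg]

lemma Pg_fix {S : Finset H} {σ : Equiv.Perm H} (hσ : σ ∈ Pg S) {h : H} (hh : h ∉ S) :
    σ h = h := by
  by_contra hne
  exact hh (((mem_Pg.1 hσ).2 h).1 hne)

lemma Pg_maps {S : Finset H} {σ : Equiv.Perm H} (hσ : σ ∈ Pg S) {h : H} (hh : h ∈ S) :
    σ h ∈ S ∧ σ h ≠ h := by
  have h1 := (mem_Pg.1 hσ).2
  have h2 := (mem_Pg.1 hσ).1
  have h3 := (h1 h).2 hh
  exact ⟨(h1 _).1 (by rw [h2]; exact h3.symm), h3⟩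

lemma swap_mem_of_fix {S : Finset H} {a b : H} {σ : Equiv.Perm H}
    (hσ : σ ∈ Pg S) (hσa : σ a = b) : Equiv.swap a b * σ ∈ Pg ((S.erase a).erase b) := by
  obtain ⟨h1, h2⟩ := mem_Pg.1 hσ
  have hσb : σ b = a := by rw [← hσa, h1]
  have key : ∀ h, (Equiv.swap a b * σ) h = if h = a ∨ h = b then h else σ h := by
    intro h
    rw [Equiv.Perm.mul_apply]
    by_cases ha : h = a
    · simp [ha, hσa]
    by_cases hb : h = b
    · simp [hb, hσb]
    rw [if_neg (by tauto)]
    apply Equiv.swap_apply_of_ne_of_ne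
    · intro h'
      apply hb
      rw [← h1 h, h', hσa]
    · intro h'
      apply ha
      rw [← h1 h, h', hσb]
  rw [mem_Pg]
  constructor
  · intro h
    by_cases hh : h = a ∨ h = b
    · rw [key h, if_pos hh, key h, if_pos hh]
    · rw [key h, if_neg hh, key (σ h), if_neg, h1]
      rintro (h' | h')
      · apply hh; right; rw [← h1 h, h', hσa]
      · apply hh; left; rw [← h1 h, h', hσb]
  · intro h
    rw [key h, Finset.mem_erase, Finset.mem_erase]
    by_cases hh : h = a ∨ h = b
    · rw [if_pos hh]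
      constructor
      · intro h'; exact absurd rfl h'
      · rintro ⟨h3, h4, -⟩
        rcases hh with hh | hh
        · exact absurd hh h4
        · exact absurd hh h3
    · rw [if_neg hh, h2 h]
      push Not at hh
      constructor
      · intro h'; exact ⟨hh.2, hh.1, h'⟩
      · intro h'; exact h'.2.2

lemma swap_mem_of_erase {S : Finset H} {a b : H} (ha : a ∈ S) (hb : b ∈ S) (hab : a ≠ b)
    {τ : Equiv.Perm H} (hτ : τ ∈ Pg ((S.erase a).erase b)) :
    Equiv.swap a b * τ ∈ Pg S ∧ (Equiv.swap a b * τ) a = b := by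
  obtain ⟨h1, h2⟩ := mem_Pg.1 hτ
  have hτa : τ a = a := Pg_fix hτ (by simp)
  have hτb : τ b = b := Pg_fix hτ (by simp)
  have hσa : (Equiv.swap a b * τ) a = b := by rw [Equiv.Perm.mul_apply, hτa]; simp
  have hσb : (Equiv.swap a b * τ) b = a := by rw [Equiv.Perm.mul_apply, hτb]; simp
  have key : ∀ h, h ≠ a → h ≠ b → (Equiv.swap a b * τ) h = τ h := by
    intro h h3 h4
    rw [Equiv.Perm.mul_apply]
    apply Equiv.swap_apply_of_ne_of_ne
    · intro h'
      apply h3
      rw [← h1 h, h', hτa]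
    · intro h'
      apply h4
      rw [← h1 h, h', hτb]
  refine ⟨?_, hσa⟩
  rw [mem_Pg]
  constructor
  · intro h
    by_cases h3 : h = a
    · rw [h3, hσa, hσb]
    by_cases h4 : h = b
    · rw [h4, hσb, hσa]
    rw [key h h3 h4, key, h1]
    · intro h'
      apply h3
      rw [← h1 h, h', hτa]
    · intro h'
      apply h4
      rw [← h1 h, h', hτb]
  · intro h
    by_cases h3 : h = a
    · rw [h3, hσa]
      exact ⟨fun _ => ha, fun _ => hab.symm⟩
    by_cases h4 : h = b
    · rw [h4, hσb]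
      exact ⟨fun _ => hb, fun _ => hab⟩
    rw [key h h3 h4, h2 h]
    simp [h3, h4]

lemma sum_fix {S : Finset H} {a b : H} (ha : a ∈ S) (hb : b ∈ S) (hab : a ≠ b)
    (f : Equiv.Perm H → ℝ) :
    ∑ σ ∈ (Pg S).filter (fun σ => σ a = b), f σ =
      ∑ τ ∈ Pg ((S.erase a).erase b), f (Equiv.swap a b * τ) := by
  refine Finset.sum_nbij' (fun σ => Equiv.swap a b * σ) (fun τ => Equiv.swap a b * τ) ?_ ?_ ?_ ?_ ?_
  · intro σ hσ
    rw [Finset.mem_filter] at hσ
    exact swap_mem_of_fix hσ.1 hσ.2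
  · intro τ hτ
    rw [Finset.mem_filter]
    exact swap_mem_of_erase ha hb hab hτ
  · intro σ _
    simp [← mul_assoc]
  · intro τ _
    simp [← mul_assoc]
  · intro σ _
    simp [← mul_assoc]

lemma sum_split {S : Finset H} {a : H} (ha : a ∈ S) (f : Equiv.Perm H → ℝ) :
    ∑ σ ∈ Pg S, f σ =
      ∑ b ∈ S.erase a, ∑ τ ∈ Pg ((S.erase a).erase b), f (Equiv.swap a b * τ) := by
  have h1 : ∀ σ ∈ Pg S, σ a ∈ S.erase a := by
    intro σ hσ
    have := Pg_maps hσ ha
    exact Finset.mem_erase.2 ⟨this.2, this.1⟩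
  rw [← Finset.sum_fiberwise_of_maps_to h1]
  refine Finset.sum_congr rfl fun b hb => ?_
  obtain ⟨hb1, hb2⟩ := Finset.mem_erase.1 hb
  exact sum_fix ha hb2 (Ne.symm hb1) f

/-- Number of perfect matchings. -/
def cnt : ℕ → ℕ
  | 0 => 1
  | 1 => 0
  | n + 2 => (n + 1) * cnt n

lemma card_Pg (n : ℕ) : ∀ S : Finset H, S.card = n → (Pg S).card = cnt n := by
  induction n using Nat.twoStepInduction with
  | zero =>
    intro S hS
    rw [Finset.card_eq_zero] at hS
    subst hS
    rw [cnt, Finset.card_eq_one]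
    refine ⟨1, ?_⟩
    ext σ
    rw [mem_Pg, Finset.mem_singleton]
    constructor
    · rintro ⟨-, h⟩
      ext x
      by_contra hne
      exact absurd ((h x).1 hne) (Finset.notMem_empty x)
    · rintro rfl
      simp
  | one =>
    intro S hS
    obtain ⟨a, rfl⟩ := Finset.card_eq_one.1 hS
    rw [cnt, Finset.card_eq_zero, Finset.eq_empty_iff_forall_notMem]
    intro σ hσ
    have := Pg_maps hσ (Finset.mem_singleton_self a)
    exact this.2 (Finset.mem_singleton.1 this.1)
  | more n ih _ =>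
    intro S hS
    obtain ⟨a, ha⟩ : S.Nonempty := by
      rw [← Finset.card_pos]; omega
    have h := sum_split ha (fun _ => (1 : ℝ))
    simp only [Finset.sum_const, nsmul_eq_mul, mul_one] at h
    have h2 : ∀ b ∈ S.erase a, ((Pg ((S.erase a).erase b)).card : ℝ) = cnt n := by
      intro b hb
      rw [ih]
      rw [Finset.card_erase_of_mem hb, Finset.card_erase_of_mem ha]
      omega
    rw [Finset.sum_congr rfl h2, Finset.sum_const, Finset.card_erase_of_mem ha, hS,
      nsmul_eq_mul] at h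
    have h3 : ((Pg S).card : ℝ) = (((n + 1) * cnt n : ℕ) : ℝ) := by
      rw [h, show n + 2 - 1 = n + 1 by omega]
      push_cast
      ring
    rw [cnt]
    exact_mod_cast h3

/-- Number of points of `A` matched to `B`. -/
def nb (A B : Finset H) (σ : Equiv.Perm H) : ℕ := (A.filter fun h => σ h ∈ B).card

lemma nb_ge_of_mem {A B : Finset H} (hAB : Disjoint A B) {a b : H} (ha : a ∈ A) (hb : b ∈ B)
    {τ : Equiv.Perm H} (hτa : τ a = a) :
    nb (A.erase a) (B.erase b) τ + 1 ≤ nb A B (Equiv.swap a b * τ) := by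
  unfold nb
  rw [← Finset.card_insert_of_notMem (a := a)]
  · apply Finset.card_le_card
    intro h hh
    rw [Finset.mem_insert] at hh
    rw [Finset.mem_filter, Equiv.Perm.mul_apply]
    rcases hh with rfl | hh
    · rw [hτa]
      simp [ha, hb]
    · rw [Finset.mem_filter, Finset.mem_erase, Finset.mem_erase] at hh
      refine ⟨hh.1.2, ?_⟩
      rw [Equiv.swap_apply_of_ne_of_ne _ hh.2.1]
      · exact hh.2.2
      · rintro h'
        exact Finset.disjoint_left.1 hAB ha (h' ▸ hh.2.2)
  · simp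

lemma nb_ge_of_not_mem {A B : Finset H} {a b : H} (ha : a ∉ B) (hb : b ∉ B)
    (τ : Equiv.Perm H) {A' : Finset H} (hA' : A' ⊆ A) :
    nb A' B τ ≤ nb A B (Equiv.swap a b * τ) := by
  unfold nb
  apply Finset.card_le_card
  intro h hh
  rw [Finset.mem_filter] at hh
  rw [Finset.mem_filter, Equiv.Perm.mul_apply]
  refine ⟨hA' hh.1, ?_⟩
  rw [Equiv.swap_apply_of_ne_of_ne]
  · exact hh.2
  · rintro h'
    exact ha (h' ▸ hh.2)
  · rintro h'
    exact hb (h' ▸ hh.2)

lemma weight_le {p L : ℝ} (hp0 : 0 ≤ p) (hp1 : p ≤ 1) (k : ℕ) :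
    ∀ S A B : Finset H, A ⊆ S → B ⊆ S → Disjoint A B → 2 * k ≤ A.card → k ≤ B.card →
      (S.card : ℝ) ≤ L →
      ∑ σ ∈ Pg S, (1 - p) ^ nb A B σ ≤
        (Pg S).card * (1 - p * ((B.card : ℝ) - k) / L) ^ k := by
  have hq0 : 0 ≤ 1 - p := by linarith
  have hq1 : 1 - p ≤ 1 := by linarith
  induction k with
  | zero =>
    intro S A B _ _ _ _ _ _
    rw [pow_zero, mul_one]
    calc ∑ σ ∈ Pg S, (1 - p) ^ nb A B σ ≤ ∑ σ ∈ Pg S, (1 : ℝ) :=
          Finset.sum_le_sum fun σ _ => pow_le_one₀ hq0 hq1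
      _ = _ := by simp
  | succ k ih =>
    intro S A B hA hB hAB hkA hkB hSL
    obtain ⟨a, ha⟩ : A.Nonempty := by
      rw [← Finset.card_pos]; omega
    have haS : a ∈ S := hA ha
    have haB : a ∉ B := Finset.disjoint_left.1 hAB ha
    have hSpos : 0 < S.card := Finset.card_pos.2 ⟨a, haS⟩
    have hL0 : 0 < L := lt_of_lt_of_le (by exact_mod_cast hSpos) hSL
    have hBS : (B.card : ℝ) ≤ S.card := by exact_mod_cast Finset.card_le_card hB
    have hkB' : ((k : ℝ) + 1) ≤ B.card := by exact_mod_cast hkB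
    have hk0 : (0 : ℝ) ≤ k := Nat.cast_nonneg k
    set X : ℝ := 1 - p * ((B.card : ℝ) - (k + 1)) / L with hX
    have hX2 : 0 ≤ 1 - p * ((B.card : ℝ) - k) / L := by
      rw [sub_nonneg, div_le_one hL0]
      nlinarith
    have hX3 : 1 - p * ((B.card : ℝ) - k) / L ≤ X := by
      rw [hX]
      gcongr
      linarith
    have hX0 : 0 ≤ X := hX2.trans hX3
    set c : ℝ := (cnt (S.card - 2) : ℝ) with hc
    have hc0 : 0 ≤ c := Nat.cast_nonneg _
    have hcard : ∀ b ∈ S.erase a, (Pg ((S.erase a).erase b)).card = cnt (S.card - 2) := by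
      intro b hb
      rw [card_Pg (S.card - 2)]
      rw [Finset.card_erase_of_mem hb, Finset.card_erase_of_mem haS]
      omega
    rw [sum_split haS]
    have hterm : ∀ b ∈ S.erase a,
        ∑ τ ∈ Pg ((S.erase a).erase b), (1 - p) ^ nb A B (Equiv.swap a b * τ) ≤
          (if b ∈ B then 1 - p else 1) * (c * X ^ k) := by
      intro b hb
      obtain ⟨hba, hbS⟩ := Finset.mem_erase.1 hb
      have hS' : (((S.erase a).erase b).card : ℝ) ≤ L := by
        refine le_trans ?_ hSL
        exact_mod_cast (Finset.card_le_card ((Finset.erase_subset _ _).trans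
          (Finset.erase_subset _ _)))
      by_cases hbB : b ∈ B
      · rw [if_pos hbB]
        have hbA : b ∉ A := Finset.disjoint_right.1 hAB hbB
        have h1 := ih ((S.erase a).erase b) (A.erase a) (B.erase b)
          (fun h hh => by
            rw [Finset.mem_erase] at hh
            rw [Finset.mem_erase, Finset.mem_erase]
            exact ⟨fun h' => hbA (h' ▸ hh.2), hh.1, hA hh.2⟩)
          (fun h hh => by
            rw [Finset.mem_erase] at hh
            rw [Finset.mem_erase, Finset.mem_erase]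
            exact ⟨hh.1, fun h' => haB (h' ▸ hh.2), hB hh.2⟩)
          (hAB.mono (Finset.erase_subset _ _) (Finset.erase_subset _ _))
          (by rw [Finset.card_erase_of_mem ha]; omega)
          (by rw [Finset.card_erase_of_mem hbB]; omega) hS'
        have hBc : ((B.erase b).card : ℝ) - k = (B.card : ℝ) - (k + 1) := by
          rw [Finset.card_erase_of_mem hbB, Nat.cast_sub (by omega)]
          push_cast
          ring
        rw [hBc, hcard b hb] at h1
        calc ∑ τ ∈ Pg ((S.erase a).erase b), (1 - p) ^ nb A B (Equiv.swap a b * τ)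
            ≤ ∑ τ ∈ Pg ((S.erase a).erase b), (1 - p) * (1 - p) ^ nb (A.erase a) (B.erase b) τ := by
              refine Finset.sum_le_sum fun τ hτ => ?_
              rw [← pow_succ']
              exact pow_le_pow_of_le_one hq0 hq1
                (nb_ge_of_mem hAB ha hbB (Pg_fix hτ (by simp)))
          _ = (1 - p) * ∑ τ ∈ Pg ((S.erase a).erase b), (1 - p) ^ nb (A.erase a) (B.erase b) τ := by
              rw [Finset.mul_sum]
          _ ≤ (1 - p) * (c * X ^ k) := by gcongr
      · rw [if_neg hbB, one_mul]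
        have h1 := ih ((S.erase a).erase b) ((A.erase a).erase b) B
          (fun h hh => by
            rw [Finset.mem_erase, Finset.mem_erase] at hh
            rw [Finset.mem_erase, Finset.mem_erase]
            exact ⟨hh.1, hh.2.1, hA hh.2.2⟩)
          (fun h hh => by
            rw [Finset.mem_erase, Finset.mem_erase]
            exact ⟨fun h' => hbB (h' ▸ hh), fun h' => haB (h' ▸ hh), hB hh⟩)
          (hAB.mono_left ((Finset.erase_subset _ _).trans (Finset.erase_subset _ _)))
          (by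
            have h2 := Finset.pred_card_le_card_erase (s := A.erase a) (a := b)
            rw [Finset.card_erase_of_mem ha] at h2
            omega)
          (by omega) hS'
        rw [hcard b hb] at h1
        calc ∑ τ ∈ Pg ((S.erase a).erase b), (1 - p) ^ nb A B (Equiv.swap a b * τ)
            ≤ ∑ τ ∈ Pg ((S.erase a).erase b), (1 - p) ^ nb ((A.erase a).erase b) B τ := by
              refine Finset.sum_le_sum fun τ _ => ?_
              exact pow_le_pow_of_le_one hq0 hq1 (nb_ge_of_not_mem haB hbB τ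
                ((Finset.erase_subset _ _).trans (Finset.erase_subset _ _)))
          _ ≤ c * (1 - p * ((B.card : ℝ) - k) / L) ^ k := h1
          _ ≤ c * X ^ k := by gcongr
    refine (Finset.sum_le_sum hterm).trans ?_
    rw [← Finset.sum_mul]
    have hsum : ∑ b ∈ S.erase a, (if b ∈ B then 1 - p else 1 : ℝ) =
        ((S.card : ℝ) - 1) - p * B.card := by
      have e1 : ∀ b ∈ S.erase a, (if b ∈ B then 1 - p else 1 : ℝ) =
          1 - p * (if b ∈ B then 1 else 0) := by
        intro b _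
        split_ifs <;> ring
      rw [Finset.sum_congr rfl e1, Finset.sum_sub_distrib, ← Finset.mul_sum, Finset.sum_ite_mem]
      have e2 : S.erase a ∩ B = B := by
        rw [Finset.inter_eq_right]
        intro h hh
        exact Finset.mem_erase.2 ⟨fun h' => haB (h' ▸ hh), hB hh⟩
      rw [e2]
      simp only [Finset.sum_const, nsmul_eq_mul, mul_one]
      rw [Finset.card_erase_of_mem haS, Nat.cast_sub (by omega)]
      simp
    rw [hsum]
    have hS2 : 2 ≤ S.card := by
      have : A.card ≤ S.card := Finset.card_le_card hA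
      omega
    have hPS : ((Pg S).card : ℝ) = ((S.card : ℝ) - 1) * c := by
      rw [card_Pg S.card S rfl]
      obtain ⟨m, hm⟩ : ∃ m, S.card = m + 2 := ⟨S.card - 2, by omega⟩
      rw [hc, hm, cnt, show m + 2 - 2 = m by omega]
      push_cast
      ring
    rw [hPS]
    have hkey : ((S.card : ℝ) - 1) - p * B.card ≤ ((S.card : ℝ) - 1) * X := by
      have hS1 : (0 : ℝ) ≤ (S.card : ℝ) - 1 := by
        have : (2 : ℝ) ≤ S.card := by exact_mod_cast hS2
        linarith
      have h1 : ((S.card : ℝ) - 1) / L ≤ 1 := by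
        rw [div_le_one hL0]; linarith
      have h2 : ((S.card : ℝ) - 1) * (p * ((B.card : ℝ) - (k + 1)) / L) ≤ p * B.card := by
        calc ((S.card : ℝ) - 1) * (p * ((B.card : ℝ) - (k + 1)) / L)
            = (((S.card : ℝ) - 1) / L) * (p * ((B.card : ℝ) - (k + 1))) := by ring
          _ ≤ 1 * (p * ((B.card : ℝ) - (k + 1))) := by
              have h3 : 0 ≤ p * ((B.card : ℝ) - (k + 1)) := mul_nonneg hp0 (by linarith)
              exact mul_le_mul_of_nonneg_right h1 h3
          _ ≤ p * B.card := by nlinarith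
      rw [hX, mul_sub, mul_one]
      linarith
    push_cast
    rw [← hX]
    calc (((S.card : ℝ) - 1) - p * B.card) * (c * X ^ k) ≤ (((S.card : ℝ) - 1) * X) * (c * X ^ k) := by
          gcongr
      _ = _ := by ring

lemma pairs_le {p L : ℝ} (hp0 : 0 ≤ p) (hp1 : p ≤ 1) (k : ℕ) (A B : Finset H)
    (hAB : Disjoint A B) (hkA : 2 * k ≤ A.card) (hkB : k ≤ B.card) (j : ℕ) :
    ∀ (S : Finset H) (a b : Fin j → H), Function.Injective (Sum.elim a b) →
      (∀ i, a i ∈ S ∧ b i ∈ S) → (∀ i, a i ∉ A ∧ a i ∉ B ∧ b i ∉ A ∧ b i ∉ B) →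
      A ⊆ S → B ⊆ S → 2 * j < S.card → (S.card : ℝ) ≤ L →
      ∑ σ ∈ Pg S, (if ∀ i, σ (a i) = b i then (1 - p) ^ nb A B σ else 0) ≤
        (Pg S).card * ((1 / ((S.card : ℝ) - 2 * j)) ^ j *
          (1 - p * ((B.card : ℝ) - k) / L) ^ k) := by
  have hq0 : 0 ≤ 1 - p := by linarith
  have hq1 : 1 - p ≤ 1 := by linarith
  induction j with
  | zero =>
    intro S a b _ _ _ hA hB _ hSL
    have := weight_le hp0 hp1 k S A B hA hB hAB hkA hkB hSL
    simpa using this
  | succ j ih =>
    intro S a b hinj hS hn hA hB hj hSL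
    have hLB : (B.card : ℝ) ≤ L := by
      refine le_trans ?_ hSL
      exact_mod_cast Finset.card_le_card hB
    have hL0 : 0 < L := lt_of_lt_of_le (by
      have : 0 < S.card := by omega
      exact_mod_cast this) hSL
    have hY0 : 0 ≤ 1 - p * ((B.card : ℝ) - k) / L := by
      rw [sub_nonneg, div_le_one hL0]
      have : (0 : ℝ) ≤ k := Nat.cast_nonneg k
      have : (k : ℝ) ≤ B.card := by exact_mod_cast hkB
      nlinarith
    have hab : a 0 ≠ b 0 := by
      intro h
      have := @hinj (Sum.inl 0) (Sum.inr 0) (by simpa using h)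
      simp at this
    set S' := (S.erase (a 0)).erase (b 0) with hS'
    have hbmem : b 0 ∈ S.erase (a 0) := Finset.mem_erase.2 ⟨hab.symm, (hS 0).2⟩
    have hS'card : S'.card = S.card - 2 := by
      rw [hS', Finset.card_erase_of_mem hbmem, Finset.card_erase_of_mem (hS 0).1]
      omega
    -- reduce to the first pair
    have e1 : ∑ σ ∈ Pg S, (if ∀ i, σ (a i) = b i then (1 - p) ^ nb A B σ else 0) =
        ∑ σ ∈ (Pg S).filter (fun σ => σ (a 0) = b 0),
          (if ∀ i : Fin j, σ (a i.succ) = b i.succ then (1 - p) ^ nb A B σ else 0) := by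
      rw [Finset.sum_filter]
      refine Finset.sum_congr rfl fun σ _ => ?_
      by_cases h0 : σ (a 0) = b 0
      · simp only [Fin.forall_fin_succ, h0, true_and, if_true]
      · rw [if_neg h0, if_neg]
        intro h; exact h0 (h 0)
    rw [e1, sum_fix (hS 0).1 (hS 0).2 hab]
    have hne : ∀ i : Fin j, b i.succ ≠ a 0 ∧ b i.succ ≠ b 0 ∧ a i.succ ≠ a 0 ∧ a i.succ ≠ b 0 := by
      intro i
      refine ⟨fun h => ?_, fun h => ?_, fun h => ?_, fun h => ?_⟩
      · have := @hinj (Sum.inr i.succ) (Sum.inl 0) (by simpa using h)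
        simp at this
      · have := @hinj (Sum.inr i.succ) (Sum.inr 0) (by simpa using h)
        simp at this
      · have := @hinj (Sum.inl i.succ) (Sum.inl 0) (by simpa using h)
        simp at this
      · have := @hinj (Sum.inl i.succ) (Sum.inr 0) (by simpa using h)
        simp at this
    have e2 : ∀ τ ∈ Pg S', (if ∀ i : Fin j, (Equiv.swap (a 0) (b 0) * τ) (a i.succ) = b i.succ then
        (1 - p) ^ nb A B (Equiv.swap (a 0) (b 0) * τ) else 0) ≤
        (if ∀ i : Fin j, τ (a i.succ) = b i.succ then (1 - p) ^ nb A B τ else 0) := by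
      intro τ _
      have h1 : (∀ i : Fin j, (Equiv.swap (a 0) (b 0) * τ) (a i.succ) = b i.succ) ↔
          ∀ i : Fin j, τ (a i.succ) = b i.succ := by
        refine forall_congr' fun i => ?_
        rw [Equiv.Perm.mul_apply]
        constructor
        · intro h
          rw [Equiv.swap_apply_eq_iff] at h
          rw [h, Equiv.swap_apply_of_ne_of_ne (hne i).1 (hne i).2.1]
        · intro h
          rw [h, Equiv.swap_apply_of_ne_of_ne (hne i).1 (hne i).2.1]
      by_cases h2 : ∀ i : Fin j, τ (a i.succ) = b i.succ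
      · rw [if_pos (h1.2 h2), if_pos h2]
        exact pow_le_pow_of_le_one hq0 hq1
          (nb_ge_of_not_mem (hn 0).2.1 (hn 0).2.2.2 τ (Finset.Subset.refl A))
      · rw [if_neg (fun h => h2 (h1.1 h)), if_neg h2]
    refine (Finset.sum_le_sum e2).trans ?_
    have hinj' : Function.Injective (Sum.elim (fun i : Fin j => a i.succ)
        (fun i : Fin j => b i.succ)) := by
      have : (Sum.elim (fun i : Fin j => a i.succ) (fun i : Fin j => b i.succ)) =
          Sum.elim a b ∘ Sum.map Fin.succ Fin.succ := by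
        funext x
        rcases x with x | x <;> simp
      rw [this]
      exact hinj.comp (Sum.map_injective.2 ⟨Fin.succ_injective j, Fin.succ_injective j⟩)
    have h3 := ih S' (fun i => a i.succ) (fun i => b i.succ) hinj'
      (fun i => ⟨Finset.mem_erase.2 ⟨(hne i).2.2.2, Finset.mem_erase.2 ⟨(hne i).2.2.1,
        (hS i.succ).1⟩⟩, Finset.mem_erase.2 ⟨(hne i).2.1, Finset.mem_erase.2 ⟨(hne i).1,
        (hS i.succ).2⟩⟩⟩) (fun i => hn i.succ)
      (fun h hh => Finset.mem_erase.2 ⟨fun h' => (hn 0).2.2.1 (h' ▸ hh),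
        Finset.mem_erase.2 ⟨fun h' => (hn 0).1 (h' ▸ hh), hA hh⟩⟩)
      (fun h hh => Finset.mem_erase.2 ⟨fun h' => (hn 0).2.2.2 (h' ▸ hh),
        Finset.mem_erase.2 ⟨fun h' => (hn 0).2.1 (h' ▸ hh), hB hh⟩⟩)
      (by omega) (by
        refine le_trans ?_ hSL
        rw [hS'card]
        exact_mod_cast Nat.sub_le _ _)
    refine h3.trans ?_
    have hs : ((S'.card : ℕ) : ℝ) = (S.card : ℝ) - 2 := by
      rw [hS'card, Nat.cast_sub (by omega)]
      norm_num
    have hPS : ((Pg S).card : ℝ) = ((S.card : ℝ) - 1) * (Pg S').card := by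
      rw [card_Pg S.card S rfl, card_Pg (S.card - 2) S' hS'card]
      obtain ⟨m, hm⟩ : ∃ m, S.card = m + 2 := ⟨S.card - 2, by omega⟩
      rw [hm, cnt, show m + 2 - 2 = m by omega]
      push_cast
      ring
    rw [hPS, hs]
    push_cast
    have hpos : 0 < (S.card : ℝ) - 2 * (j + 1) := by
      have : ((2 * (j + 1) : ℕ) : ℝ) < S.card := by exact_mod_cast hj
      push_cast at this
      linarith
    have e3 : (S.card : ℝ) - 2 - 2 * j = (S.card : ℝ) - 2 * (j + 1) := by ring
    rw [e3]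
    set t := (S.card : ℝ) - 2 * (j + 1) with ht
    set Y := (1 - p * ((B.card : ℝ) - k) / L) ^ k with hY
    have hYn : 0 ≤ Y := by positivity
    have h4 : 1 ≤ ((S.card : ℝ) - 1) * (1 / t) := by
      rw [mul_one_div, le_div_iff₀ hpos]
      have : (0 : ℝ) ≤ j := Nat.cast_nonneg j
      rw [ht]
      linarith
    calc ((Pg S').card : ℝ) * ((1 / t) ^ j * Y) = 1 * ((Pg S').card * ((1 / t) ^ j * Y)) := by ring
      _ ≤ (((S.card : ℝ) - 1) * (1 / t)) * ((Pg S').card * ((1 / t) ^ j * Y)) := by gcongr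
      _ = _ := by rw [pow_succ]; ring

end Comb

section Marks

variable {n : ℕ} {d : Vx n → ℕ}

lemma slot_injective : Function.Injective (slot : Half d → Slot n) := by
  rintro ⟨v, i⟩ ⟨v', i'⟩ h
  simp only [slot, Prod.mk.injEq] at h
  obtain ⟨rfl, h2⟩ := h
  rw [Fin.ext h2]

lemma edge_injOn {A B : Finset (Half d)} (hAB : Disjoint A B) (σ : Equiv.Perm (Half d)) :
    Set.InjOn (edge σ) (A.filter fun h => σ h ∈ B : Finset (Half d)) := by
  intro h hh h' hh' he
  rw [Finset.mem_coe, Finset.mem_filter] at hh hh'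
  unfold edge at he
  rw [Sym2.eq_iff] at he
  rcases he with ⟨h1, -⟩ | ⟨h1, -⟩
  · exact slot_injective h1
  · exact absurd (slot_injective h1 ▸ hh'.2) (Finset.disjoint_left.1 hAB hh.1)

lemma marks_eq (ρ : Measure (ℝ≥0 × ℝ≥0)) [IsProbabilityMeasure ρ] {G : Set (ℝ≥0 × ℝ≥0)}
    (hG : MeasurableSet G) {A B : Finset (Half d)} (hAB : Disjoint A B)
    (σ : Equiv.Perm (Half d)) :
    MeasurableSet {X : Marks n | ∀ h ∈ A, σ h ∈ B → X (edge σ h) ∉ G} ∧
    marksLaw ρ n {X | ∀ h ∈ A, σ h ∈ B → X (edge σ h) ∉ G} =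
      ENNReal.ofReal ((1 - (ρ G).toReal) ^ nb A B σ) := by
  classical
  set E : Finset (Sym2 (Slot n)) := (A.filter fun h => σ h ∈ B).image (edge σ) with hE
  have hset : {X : Marks n | ∀ h ∈ A, σ h ∈ B → X (edge σ h) ∉ G} =
      Set.pi (E : Set (Sym2 (Slot n))) (fun _ => Gᶜ) := by
    ext X
    simp only [Set.mem_pi, Set.mem_compl_iff, hE, Finset.coe_image, Set.mem_image, Finset.mem_coe,
      Finset.mem_filter]
    constructor
    · rintro h e ⟨x, ⟨hx1, hx2⟩, rfl⟩
      exact h x hx1 hx2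
    · intro h x hx1 hx2
      exact h _ ⟨x, ⟨hx1, hx2⟩, rfl⟩
  rw [hset]
  refine ⟨MeasurableSet.pi (Finset.countable_toSet E) fun _ _ => hG.compl, ?_⟩
  rw [marksLaw, Measure.infinitePi_pi _ (fun _ _ => hG.compl), Finset.prod_const]
  have hcard : E.card = nb A B σ := by
    rw [hE, Finset.card_image_of_injOn (edge_injOn hAB σ), nb]
  rw [hcard, ENNReal.ofReal_pow, prob_compl_eq_one_sub hG]
  · congr 1
    rw [ENNReal.ofReal_sub _ ENNReal.toReal_nonneg, ENNReal.ofReal_one,
      ENNReal.ofReal_toReal (measure_ne_top _ _)]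
  · rw [sub_nonneg]
    exact ENNReal.toReal_le_of_le_ofReal zero_le_one (by simpa using prob_le_one)

lemma mem_Pg_univ (σ : Equiv.Perm (Half d)) : σ ∈ Pg (Finset.univ : Finset (Half d)) ↔
    IsPairing σ := by
  rw [mem_Pg]
  unfold IsPairing
  simp only [Finset.mem_univ, iff_true]
  exact ⟨fun h x => ⟨h.1 x, h.2 x⟩, fun h => ⟨fun x => (h x).1, fun x => (h x).2⟩⟩

lemma lintegral_pairLaw (f : Equiv.Perm (Half d) → ℝ≥0∞) :
    ∫⁻ σ, f σ ∂(pairLaw d) =
      (∑ σ ∈ Pg (Finset.univ : Finset (Half d)), f σ) *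
        ((Pg (Finset.univ : Finset (Half d))).card : ℝ≥0∞)⁻¹ := by
  classical
  have hms : ∀ s : Set (Equiv.Perm (Half d)), MeasurableSet s := fun s => trivial
  have hsc : MeasurableSingletonClass (Equiv.Perm (Half d)) := ⟨fun _ => trivial⟩
  have hP : {σ : Equiv.Perm (Half d) | IsPairing σ} =
      (Pg (Finset.univ : Finset (Half d)) : Set (Equiv.Perm (Half d))) := by
    ext σ
    exact (mem_Pg_univ σ).symm
  rw [lintegral_fintype]
  have h1 : ∀ σ, f σ * pairLaw d {σ} = if σ ∈ Pg (Finset.univ : Finset (Half d)) then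
      f σ * ((Pg (Finset.univ : Finset (Half d))).card : ℝ≥0∞)⁻¹ else 0 := by
    intro σ
    rw [pairLaw, uniformOn, hP, cond_apply (hms _), Measure.count_apply_finset]
    by_cases hσ : σ ∈ Pg (Finset.univ : Finset (Half d))
    · rw [if_pos hσ, Set.inter_eq_right.2 (Set.singleton_subset_iff.2 hσ),
        Measure.count_singleton, mul_one]
    · rw [if_neg hσ, Set.inter_singleton_eq_empty.2 hσ, measure_empty, mul_zero, mul_zero]
  rw [Finset.sum_congr rfl fun σ _ => h1 σ, Finset.sum_ite_mem, Finset.univ_inter,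
    Finset.sum_mul]

end Marks

end PairAux

open PairAux in
/-- Random pairings with random marks. -/
theorem target_PAIR (hC : Target_COND) : Target_PAIR := by
  classical
  intro n d _ ρ _ G hG j a b hinj A B hAB hn k hkA hkB hj
  obtain ⟨-, -, -, -, -, -, hfub⟩ := hC
  have hcardH : (Finset.univ : Finset (Half d)).card = ∑ v, d v := by
    rw [Finset.card_univ, Fintype.card_sigma]
    simp
  set q := (ρ G).toReal with hq
  have hq0 : 0 ≤ q := ENNReal.toReal_nonneg
  have hq1 : q ≤ 1 := ENNReal.toReal_le_of_le_ofReal zero_le_one (by simpa using prob_le_one)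
  set S : Set (Equiv.Perm (Half d) × Marks n) :=
    {p | (∀ i, p.1 (a i) = b i) ∧ ∀ h ∈ A, p.1 h ∈ B → p.2 (edge p.1 h) ∉ G} with hS
  have hsec : ∀ σ : Equiv.Perm (Half d), {X : Marks n | (σ, X) ∈ S} =
      if ∀ i, σ (a i) = b i then {X : Marks n | ∀ h ∈ A, σ h ∈ B → X (edge σ h) ∉ G} else ∅ := by
    intro σ
    split_ifs with h
    · ext X
      simp only [hS, Set.mem_ofPred_eq]
      exact ⟨fun h' => h'.2, fun h' => ⟨h, h'⟩⟩
    · ext X
      simp only [hS, Set.mem_ofPred_eq, Set.mem_empty_iff_false, iff_false]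
      exact fun h' => h h'.1
  have hmeas : ∀ σ : Equiv.Perm (Half d), MeasurableSet {X : Marks n | (σ, X) ∈ S} := by
    intro σ
    rw [hsec σ]
    split_ifs
    · exact (marks_eq ρ hG hAB σ).1
    · exact MeasurableSet.empty
  rw [(hfub n d ρ S hmeas).2, lintegral_pairLaw]
  have hval : ∀ σ : Equiv.Perm (Half d), marksLaw ρ n {X : Marks n | (σ, X) ∈ S} =
      ENNReal.ofReal (if ∀ i, σ (a i) = b i then (1 - q) ^ nb A B σ else 0) := by
    intro σ
    rw [hsec σ]
    split_ifs
    · exact (marks_eq ρ hG hAB σ).2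
    · simp
  have hnn : ∀ σ : Equiv.Perm (Half d),
      0 ≤ (if ∀ i, σ (a i) = b i then (1 - q) ^ nb A B σ else 0) := by
    intro σ
    split_ifs
    · exact pow_nonneg (by linarith) _
    · exact le_rfl
  rw [Finset.sum_congr rfl fun σ _ => hval σ, ← ENNReal.ofReal_sum_of_nonneg fun σ _ => hnn σ]
  have hmain := pairs_le (p := q) (L := ((∑ v, d v : ℕ) : ℝ)) hq0 hq1 k A B hAB hkA hkB j
    (Finset.univ : Finset (Half d)) a b hinj (fun i => ⟨Finset.mem_univ _, Finset.mem_univ _⟩)
    hn (Finset.subset_univ _) (Finset.subset_univ _) (by rw [hcardH]; exact hj)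
    (by rw [hcardH])
  rw [hcardH] at hmain
  set c := (Pg (Finset.univ : Finset (Half d))).card with hc
  set t := (1 / (((∑ v, d v : ℕ) : ℝ) - 2 * j)) ^ j *
        (1 - q * ((B.card : ℝ) - k) / ((∑ v, d v : ℕ) : ℝ)) ^ k with ht
  calc ENNReal.ofReal (∑ σ ∈ Pg (Finset.univ : Finset (Half d)),
        (if ∀ i, σ (a i) = b i then (1 - q) ^ nb A B σ else 0)) * (c : ℝ≥0∞)⁻¹
      ≤ ENNReal.ofReal ((c : ℝ) * t) * (c : ℝ≥0∞)⁻¹ := by gcongr
    _ = ((c : ℝ≥0∞) * (c : ℝ≥0∞)⁻¹) * ENNReal.ofReal t := by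
        rw [ENNReal.ofReal_mul (Nat.cast_nonneg c), ENNReal.ofReal_natCast]
        ring
    _ ≤ 1 * ENNReal.ofReal t := by
        gcongr
        exact ENNReal.mul_inv_le_one _
    _ = ENNReal.ofReal t := one_mul _

end Pool.Agent.TwoCol
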