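import Pool.Agent.TwoCol.Spec

/-!
# Union bound for paths
-/

open MeasureTheory ProbabilityTheory Filter Topology Set
open scoped ENNReal NNReal

namespace Pool.Agent.TwoCol

namespace PathAux

lemma not_pairing {n : ℕ} (d : Vx n → ℕ) : pairLaw d {σ | ¬ IsPairing σ} = 0 := by
  unfold pairLaw
  rw [uniformOn_eq_zero_iff (toFinite _)]
  ext σ
  simp

/-- Containing `j` given pairs. -/
lemma given (hC : Target_COND) (hP : Target_PAIR) {n : ℕ} (d : Vx n → ℕ) (hd : Even (∑ v, d v))
    (j : ℕ) (a b : Fin j → Half d) (hab : Function.Injective (Sum.elim a b))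
    (hj : 2 * j < ∑ v, d v) :
    pairLaw d {σ | ∀ i, σ (a i) = b i} ≤
      ENNReal.ofReal ((1 / (((∑ v, d v : ℕ) : ℝ) - 2 * j)) ^ j) := by
  have h := hP n d hd (Measure.dirac (0, 0)) ∅ MeasurableSet.empty j a b hab ∅ ∅
    (Finset.disjoint_empty_left _) (fun i => by simp) 0 (by simp) (by simp) hj
  have hprob := hC.2.1 n d hd
  have e : {p : Equiv.Perm (Half d) × Marks n | (∀ i, p.1 (a i) = b i) ∧
      ∀ h ∈ (∅ : Finset (Half d)), p.1 h ∈ (∅ : Finset (Half d)) → p.2 (edge p.1 h) ∉
        (∅ : Set (ℝ≥0 × ℝ≥0))} = {σ | ∀ i, σ (a i) = b i} ×ˢ univ := by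
    ext p
    simp
  have hmp : IsProbabilityMeasure (marksLaw (Measure.dirac (0, 0)) n) := by
    unfold marksLaw
    infer_instance
  rw [e, Measure.prod_prod] at h
  have hm : marksLaw (Measure.dirac (0, 0)) n univ = 1 := measure_univ
  rw [hm, mul_one, pow_zero, mul_one] at h
  exact h

lemma given_path (hC : Target_COND) (hP : Target_PAIR) {n : ℕ} (d : Vx n → ℕ)
    (hd : Even (∑ v, d v)) (j : ℕ) (v : Fin (j + 1) → Vx n) (hv : Function.Injective v)
    (hj : 2 * j < ∑ v, d v)
    (f : ∀ i : Fin j, Fin (d (v i.castSucc)) × Fin (d (v i.succ))) :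
    pairLaw d {σ | IsPairing σ ∧ ∀ i, σ ⟨v i.castSucc, (f i).1⟩ = ⟨v i.succ, (f i).2⟩} ≤
      ENNReal.ofReal ((1 / (((∑ v, d v : ℕ) : ℝ) - 2 * j)) ^ j) := by
  set a : Fin j → Half d := fun i => ⟨v i.castSucc, (f i).1⟩ with ha
  set b : Fin j → Half d := fun i => ⟨v i.succ, (f i).2⟩ with hb
  by_cases hab : Function.Injective (Sum.elim a b)
  · exact (measure_mono fun σ hσ => hσ.2).trans (given hC hP d hd j a b hab hj)
  · have hempty : {σ : Equiv.Perm (Half d) | IsPairing σ ∧
        ∀ i, σ ⟨v i.castSucc, (f i).1⟩ = ⟨v i.succ, (f i).2⟩} = ∅ := by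
      rw [Set.eq_empty_iff_forall_notMem]
      rintro σ ⟨hσ, hab'⟩
      have hσab : ∀ i, σ (a i) = b i := hab'
      have hmix : ∀ i i', a i ≠ b i' := by
        intro i i' h
        have h1 : v i.castSucc = v i'.succ := congrArg Sigma.fst h
        have h2 := hv h1
        have h3 : σ (a i) = a i' := by
          rw [h, ← hσab i']
          exact (hσ (a i')).1
        rw [hσab i] at h3
        have h4 : v i.succ = v i'.castSucc := congrArg Sigma.fst h3
        have h5 := hv h4
        have h6 := congrArg Fin.val h2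
        have h7 := congrArg Fin.val h5
        simp only [Fin.val_castSucc, Fin.val_succ] at h6 h7
        omega
      apply hab
      have ha1 : Function.Injective a := fun i i' h => by
        have h1 : v i.castSucc = v i'.castSucc := congrArg Sigma.fst h
        exact Fin.castSucc_injective _ (hv h1)
      have hb1 : Function.Injective b := fun i i' h => by
        have h1 : v i.succ = v i'.succ := congrArg Sigma.fst h
        exact Fin.succ_injective _ (hv h1)
      exact ha1.sumElim hb1 hmix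
    rw [hempty, measure_empty]
    exact zero_le

end PathAux

open PathAux in
theorem target_PATH (hC : Target_COND) (hP : Target_PAIR) : Target_PATH := by
  intro n d hd j v hv hj
  have hsub : {σ : Equiv.Perm (Half d) | ∀ i : Fin j, Adj σ (v i.castSucc) (v i.succ)} ⊆
      {σ | ¬ IsPairing σ} ∪ ⋃ f ∈ (Finset.univ : Finset (∀ i : Fin j,
        Fin (d (v i.castSucc)) × Fin (d (v i.succ)))),
        {σ | IsPairing σ ∧ ∀ i, σ ⟨v i.castSucc, (f i).1⟩ = ⟨v i.succ, (f i).2⟩} := by
    intro σ hσ
    by_cases hp : IsPairing σ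
    · right
      have h1 : ∀ i : Fin j, ∃ g : Fin (d (v i.castSucc)) × Fin (d (v i.succ)),
          σ ⟨v i.castSucc, g.1⟩ = ⟨v i.succ, g.2⟩ := by
        intro i
        obtain ⟨⟨w, x⟩, hh1, hh2⟩ := hσ i
        rcases hσe : σ ⟨w, x⟩ with ⟨w', x'⟩
        rw [hσe] at hh2
        simp only at hh1 hh2
        subst hh1
        subst hh2
        exact ⟨(x, x'), hσe⟩
      choose f hf using h1
      simp only [Finset.mem_univ, iUnion_true, mem_iUnion]
      exact ⟨f, hp, hf⟩
    · exact Or.inl hp
  refine (measure_mono hsub).trans ((measure_union_le _ _).trans ?_)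
  rw [not_pairing, zero_add]
  refine (measure_biUnion_finset_le _ _).trans ?_
  refine (Finset.sum_le_sum fun f _ => given_path hC hP d hd j v hv hj f).trans ?_
  rw [Finset.sum_const, nsmul_eq_mul, Finset.card_univ, Fintype.card_pi]
  have hL : (0 : ℝ) < ((∑ v, d v : ℕ) : ℝ) - 2 * j := by
    have : ((2 * j : ℕ) : ℝ) < ((∑ v, d v : ℕ) : ℝ) := by exact_mod_cast hj
    push_cast at this ⊢
    linarith
  rw [mul_comm, ENNReal.ofReal_mul (by positivity)]
  gcongr
  rw [ENNReal.ofReal_prod_of_nonneg fun i _ => by positivity]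
  push_cast
  refine Finset.prod_le_prod' fun i _ => ?_
  rw [Fintype.card_prod, Fintype.card_fin, Fintype.card_fin]
  rw [ENNReal.ofReal_mul (by positivity), ENNReal.ofReal_natCast, ENNReal.ofReal_natCast]
  push_cast
  exact le_rfl

end Pool.Agent.TwoCol
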