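import Pool.Agent.TwoCol.Spec

/-!
# Expectations of sums of products over distinct vertices
-/

open MeasureTheory ProbabilityTheory Filter Topology Set
open scoped ENNReal NNReal

namespace Pool.Agent.TwoCol

namespace ProdAux

lemma one (μ : Measure ℕ) [IsProbabilityMeasure μ] (n j : ℕ) (φ : Fin (j + 1) → ℕ → ℝ≥0∞)
    (v : Fin (j + 1) → Vx n) (hv : Function.Injective v) :
    ∫⁻ δ, ∏ i, φ i (δ (v i)) ∂(Measure.pi fun _ : Vx n => μ) = ∏ i, ∫⁻ k, φ i k ∂μ := by
  have h1 : iIndepFun (fun (w : Vx n) (δ : Vx n → ℕ) => id (δ w)) (Measure.pi fun _ : Vx n => μ) :=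
    iIndepFun_pi (X := fun _ => id) fun _ => aemeasurable_id
  have h2 := (h1.precomp hv).comp (fun i => φ i) fun i => measurable_from_top
  have h3 := lintegral_prod_eq_prod_lintegral_of_indepFun Finset.univ
    (fun (i : Fin (j + 1)) (δ : Vx n → ℕ) => φ i (δ (v i))) h2
    fun i => measurable_from_top.comp (measurable_pi_apply _)
  refine h3.trans (Finset.prod_congr rfl fun i _ => ?_)
  exact (measurePreserving_eval (fun _ : Vx n => μ) (v i)).lintegral_comp
    (measurable_from_top (f := φ i))

end ProdAux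

theorem target_PROD : Target_PROD := by
  intro μ _ n j φ
  have hm : ∀ v : Fin (j + 1) → Vx n, Measurable fun δ : Vx n → ℕ => ∏ i, φ i (δ (v i)) :=
    fun v => Finset.measurable_prod _ fun i _ =>
      (measurable_from_top (f := φ i)).comp (measurable_pi_apply (v i))
  rw [lintegral_finsetSum _ fun v _ => hm v]
  rw [Finset.sum_congr rfl fun v hv => ProdAux.one μ n j φ v (Finset.mem_filter.1 hv).2]
  rw [Finset.sum_const, nsmul_eq_mul]
  gcongr
  have h := Finset.card_filter_le (Finset.univ : Finset (Fin (j + 1) → Vx n))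
    (fun v => Function.Injective v)
  rw [Finset.card_univ, Fintype.card_fun, Fintype.card_fin, Fintype.card_fin] at h
  exact_mod_cast h

end Pool.Agent.TwoCol
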