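import Pool.Agent.TwoCol.Spec

/-!
# JOB START: glueing the exploration and the ascending path
-/

open MeasureTheory ProbabilityTheory Filter Topology Set
open scoped ENNReal NNReal

namespace Pool.Agent.TwoCol

namespace StartAux

lemma rd_le {n : ℕ} {d : Vx n → ℕ} (σ : Equiv.Perm (Half d)) (X : Marks n) (h : Half d) :
    rd σ X h.1 (σ h).1 ≤ ((X (edge σ h)).1 : ℝ≥0∞) := by
  unfold rd
  exact iInf₂_le (f := fun (h' : Half d) (_ : h'.1 = h.1 ∧ (σ h').1 = (σ h).1) =>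
    ((X (edge σ h')).1 : ℝ≥0∞)) h ⟨rfl, rfl⟩

/-- Glueing of the exploration and the path. -/
lemma glue {n : ℕ} {d : Vx n → ℕ} (σ : Equiv.Perm (Half d)) (X : Marks n) (C : Set (Vx n))
    (h0 : Half d) (K i : ℕ) (hi : i ≤ K) (hK : ∀ v, d v < K → v ∉ C) (hit : Hit σ h0 K i)
    (l : ℕ) (y : ℕ → Vx n) (hy0 : y 0 = (wk σ h0 i).1) (hyl : y l ∈ C) (hyn : ∀ s < l, y s ∉ C)
    (q xm : ℝ≥0∞) (hq : ∀ s < l, rd σ X (y s) (y (s + 1)) ≤ q)
    (hx : ∀ s < K, ((X (edge σ (wk σ h0 s))).1 : ℝ≥0∞) ≤ xm) :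
    ∃ z : ℕ → Vx n, z 0 = h0.1 ∧ z (i + l) ∈ C ∧ (∀ s < i + l, z s ∉ C) ∧
      ∑ s ∈ Finset.range (i + l), rd σ X (z s) (z (s + 1)) ≤ K * xm + l * q := by
  classical
  set z : ℕ → Vx n := fun s => if s < i then (wk σ h0 s).1 else y (s - i) with hz
  have hzw : ∀ s ≤ i, z s = (wk σ h0 s).1 := by
    intro s hs
    rcases lt_or_eq_of_le hs with h | h
    · simp [hz, h]
    · subst h
      simp [hz, hy0]
  have hzy : ∀ s, z (i + s) = y s := by
    intro s
    have : ¬ (i + s < i) := by omega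
    simp [hz]
  refine ⟨z, ?_, ?_, ?_, ?_⟩
  · rw [hzw 0 (Nat.zero_le _)]
    rfl
  · rw [hzy]
    exact hyl
  · intro s hs
    by_cases h : s < i
    · rw [hzw s h.le]
      exact hK _ (hit.1 s h)
    · obtain ⟨t, rfl⟩ : ∃ t, s = i + t := ⟨s - i, by omega⟩
      rw [hzy]
      exact hyn t (by omega)
  · rw [Finset.sum_range_add]
    refine add_le_add ?_ ?_
    · calc ∑ s ∈ Finset.range i, rd σ X (z s) (z (s + 1))
          ≤ ∑ _s ∈ Finset.range i, xm := by
            refine Finset.sum_le_sum ?_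
            intro s hs
            have hs' : s < i := Finset.mem_range.1 hs
            rw [hzw s hs'.le, hzw (s + 1) hs']
            exact (rd_le σ X (wk σ h0 s)).trans (hx s (lt_of_lt_of_le hs' hi))
        _ = (i : ℝ≥0∞) * xm := by simp
        _ ≤ (K : ℝ≥0∞) * xm := by gcongr
    · calc ∑ s ∈ Finset.range l, rd σ X (z (i + s)) (z (i + s + 1))
          ≤ ∑ _s ∈ Finset.range l, q := by
            refine Finset.sum_le_sum ?_
            intro s hs
            have hs' : s < l := Finset.mem_range.1 hs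
            rw [add_assoc, hzy s, hzy (s + 1)]
            exact hq s hs'
        _ = (l : ℝ≥0∞) * q := by simp

lemma marks_apply {n : ℕ} (ρ : Measure (ℝ≥0 × ℝ≥0)) [IsProbabilityMeasure ρ]
    (e : Sym2 (Slot n)) (T : Set (ℝ≥0 × ℝ≥0)) (hT : MeasurableSet T) :
    marksLaw ρ n {X | X e ∈ T} = ρ T := by
  have h := (measurePreserving_eval_infinitePi (fun _ : Sym2 (Slot n) => ρ) e).measure_preimage
    hT.nullMeasurableSet
  exact h

lemma avg_const {n : ℕ} (c : ℝ≥0∞) : avg (fun _ : Vx n => c) = c := by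
  unfold avg
  rw [Finset.sum_const, Finset.card_univ, Fintype.card_fin, nsmul_eq_mul, mul_comm]
  exact ENNReal.mul_div_cancel_right (by simp) (by simp)

lemma avg_mono {n : ℕ} {f g : Vx n → ℝ≥0∞} (h : ∀ v, f v ≤ g v) : avg f ≤ avg g := by
  unfold avg
  gcongr
  exact h _

lemma avg_add {n : ℕ} (f g : Vx n → ℝ≥0∞) : avg (fun v => f v + g v) = avg f + avg g := by
  unfold avg
  rw [Finset.sum_add_distrib, ENNReal.add_div]

/-- Marks above a large threshold are unlikely. -/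
lemma exists_xm (ρ : Measure (ℝ≥0 × ℝ≥0)) [IsProbabilityMeasure ρ] (δ : ℝ≥0∞) (hδ : 0 < δ) :
    ∃ xm : ℕ, ρ {x | (xm : ℝ≥0) < x.1} ≤ δ := by
  have hanti : Antitone fun m : ℕ => {x : ℝ≥0 × ℝ≥0 | (m : ℝ≥0) < x.1} := by
    intro a b hab x hx
    simp only [mem_setOf_eq] at hx ⊢
    exact lt_of_le_of_lt (by exact_mod_cast hab) hx
  have hmeas : ∀ m : ℕ, NullMeasurableSet {x : ℝ≥0 × ℝ≥0 | (m : ℝ≥0) < x.1} ρ := by
    intro m
    exact (measurableSet_lt measurable_const measurable_fst).nullMeasurableSet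
  have h := tendsto_measure_iInter_atTop hmeas hanti ⟨0, measure_ne_top ρ _⟩
  have hempty : (⋂ m : ℕ, {x : ℝ≥0 × ℝ≥0 | (m : ℝ≥0) < x.1}) = ∅ := by
    ext x
    simp only [mem_iInter, mem_setOf_eq, mem_empty_iff_false, iff_false, not_forall, not_lt]
    obtain ⟨m, hm⟩ := exists_nat_ge x.1
    exact ⟨m, hm⟩
  rw [hempty, measure_empty] at h
  exact (h.eventually (ge_mem_nhds hδ)).exists

lemma tendsto_lgg : Tendsto lgg atTop atTop := by
  unfold lgg
  exact Real.tendsto_log_atTop.comp (Real.tendsto_log_atTop.comp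
    (tendsto_atTop_add_const_right _ _ tendsto_natCast_atTop_atTop))

lemma tendsto_MM {α : ℝ} (hα : 0 < α) : Tendsto (MM α) atTop atTop := by
  unfold MM
  exact Real.tendsto_exp_atTop.comp ((tendsto_rpow_atTop hα).comp (Real.tendsto_log_atTop.comp
    (tendsto_atTop_add_const_right _ _ tendsto_natCast_atTop_atTop)))

end StartAux

open StartAux in
theorem target_START (hC : Target_COND) (h1 : Target_START1) (h2 : Target_START2) :
    Target_START := by
  classical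
  intro τ μ hμ c₁ C₁ hT ρ hρ q hq α κ hα hα1 hκ ε hε
  obtain ⟨κ', hκ1, hκ2⟩ := exists_between hκ
  have hε3 : 0 < ε / 3 := ENNReal.div_pos hε.ne' (by simp)
  have e1 := h1 τ μ c₁ C₁ hT (ε / 3) hε3
  have e2 := h2 τ μ c₁ C₁ hT ρ q hq α κ' hα hα1 hκ1 (ε / 3) hε3
  obtain ⟨K, hK1, hK2⟩ := (e1.and e2).exists
  have hεK : 0 < ε / 3 / ((K : ℝ≥0∞) + 1) := ENNReal.div_pos hε3.ne' (by simp)
  obtain ⟨xm, hxm⟩ := exists_xm ρ _ hεK
  refine ⟨(K : ℝ) * xm, ?_⟩
  have hprob := hC.1 μ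
  have hlgg := (tendsto_lgg.eventually_ge_atTop ((K : ℝ) / (κ - κ'))).and
    (tendsto_lgg.eventually_ge_atTop 0)
  have hMM := (tendsto_MM hα).eventually_ge_atTop (K : ℝ)
  filter_upwards [hK1, hK2, hlgg, hMM] with n hn1 hn2 hn3 hn4
  obtain ⟨hn3, hn5⟩ := hn3
  haveI := hprob n
  haveI : IsProbabilityMeasure (marksLaw ρ n) := by
    unfold marksLaw
    infer_instance
  -- the three bad events
  set E1 : Vx n → Set (Cfg n) := fun x => {g | ¬ ∃ hd : ∀ v, 0 < fixDeg g.deg v,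
        ∃ i ≤ K, Hit g.pair (firstHalf hd x) K i} with hE1
  set E2 : Vx n → Set (Cfg n × Marks n) := fun x => {p | ∃ hd : ∀ v, 0 < fixDeg p.1.deg v,
        ∃ i ≤ K, Hit p.1.pair (firstHalf hd x) K i ∧
        ¬ ∃ (l : ℕ) (y : ℕ → Vx n), y 0 = (wk p.1.pair (firstHalf hd x) i).1 ∧
          y l ∈ core α (fixDeg p.1.deg) ∧ (∀ s < l, y s ∉ core α (fixDeg p.1.deg)) ∧
          (l : ℝ) ≤ κ' * lgg n ∧ ∀ s < l, rd p.1.pair p.2 (y s) (y (s + 1)) ≤ q} with hE2
  set E3 : Vx n → Set (Cfg n × Marks n) := fun x => {p | ∃ s < K,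
        ∃ hd : ∀ v, 0 < fixDeg p.1.deg v,
        p.2 (edge p.1.pair (wk p.1.pair (firstHalf hd x) s)) ∈
          {z : ℝ≥0 × ℝ≥0 | (xm : ℝ≥0) < z.1}} with hE3
  have hmz : MeasurableSet {z : ℝ≥0 × ℝ≥0 | (xm : ℝ≥0) < z.1} :=
    measurableSet_lt measurable_const measurable_fst
  -- third event
  have hb3 : ∀ x : Vx n, Q μ ρ n (E3 x) ≤ ε / 3 := by
    intro x
    have hsub : E3 x ⊆ ⋃ s ∈ Finset.range K, {p : Cfg n × Marks n |
        ∃ hd : ∀ v, 0 < fixDeg p.1.deg v,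
        p.2 (edge p.1.pair (wk p.1.pair (firstHalf hd x) s)) ∈
          {z : ℝ≥0 × ℝ≥0 | (xm : ℝ≥0) < z.1}} := by
      rintro p ⟨s, hs, hd, hp⟩
      simp only [mem_iUnion, Finset.mem_range]
      exact ⟨s, hs, hd, hp⟩
    have hone : ∀ s : ℕ, Q μ ρ n {p : Cfg n × Marks n |
        ∃ hd : ∀ v, 0 < fixDeg p.1.deg v,
        p.2 (edge p.1.pair (wk p.1.pair (firstHalf hd x) s)) ∈
          {z : ℝ≥0 × ℝ≥0 | (xm : ℝ≥0) < z.1}} ≤ ρ {z | (xm : ℝ≥0) < z.1} := by
      intro s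
      have hsec : ∀ g : Cfg n, MeasurableSet {X : Marks n | (g, X) ∈ {p : Cfg n × Marks n |
          ∃ hd : ∀ v, 0 < fixDeg p.1.deg v,
          p.2 (edge p.1.pair (wk p.1.pair (firstHalf hd x) s)) ∈
          {z : ℝ≥0 × ℝ≥0 | (xm : ℝ≥0) < z.1}}} := by
        intro g
        by_cases hd : ∀ v, 0 < fixDeg g.deg v
        · have : {X : Marks n | (g, X) ∈ {p : Cfg n × Marks n |
              ∃ hd : ∀ v, 0 < fixDeg p.1.deg v,
              p.2 (edge p.1.pair (wk p.1.pair (firstHalf hd x) s)) ∈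
              {z : ℝ≥0 × ℝ≥0 | (xm : ℝ≥0) < z.1}}} =
              {X : Marks n | X (edge g.pair (wk g.pair (firstHalf hd x) s)) ∈
              {z : ℝ≥0 × ℝ≥0 | (xm : ℝ≥0) < z.1}} := by
            ext X
            constructor
            · rintro ⟨_, h⟩
              exact h
            · intro h
              exact ⟨hd, h⟩
          rw [this]
          exact (measurable_pi_apply _) hmz
        · have : {X : Marks n | (g, X) ∈ {p : Cfg n × Marks n |
              ∃ hd : ∀ v, 0 < fixDeg p.1.deg v,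
              p.2 (edge p.1.pair (wk p.1.pair (firstHalf hd x) s)) ∈
              {z : ℝ≥0 × ℝ≥0 | (xm : ℝ≥0) < z.1}}} = ∅ := by
            ext X
            simp only [mem_setOf_eq, mem_empty_iff_false, iff_false]
            rintro ⟨h, _⟩
            exact hd h
          rw [this]
          exact MeasurableSet.empty
      have hm := (hC.2.2.2.2.1 μ ρ n _ hsec).1
      unfold Q
      rw [Measure.prod_apply hm]
      calc ∫⁻ g, marksLaw ρ n (Prod.mk g ⁻¹' {p : Cfg n × Marks n |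
              ∃ hd : ∀ v, 0 < fixDeg p.1.deg v,
              p.2 (edge p.1.pair (wk p.1.pair (firstHalf hd x) s)) ∈
              {z : ℝ≥0 × ℝ≥0 | (xm : ℝ≥0) < z.1}}) ∂(cfgLaw μ n)
          ≤ ∫⁻ _g, ρ {z | (xm : ℝ≥0) < z.1} ∂(cfgLaw μ n) := by
            refine lintegral_mono ?_
            intro g
            by_cases hd : ∀ v, 0 < fixDeg g.deg v
            · refine (measure_mono ?_).trans
                (marks_apply ρ (edge g.pair (wk g.pair (firstHalf hd x) s)) _ hmz).le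
              rintro X ⟨_, h⟩
              exact h
            · have : (Prod.mk g ⁻¹' {p : Cfg n × Marks n |
                  ∃ hd : ∀ v, 0 < fixDeg p.1.deg v,
                  p.2 (edge p.1.pair (wk p.1.pair (firstHalf hd x) s)) ∈
                  {z : ℝ≥0 × ℝ≥0 | (xm : ℝ≥0) < z.1}}) = ∅ := by
                ext X
                simp only [mem_preimage, mem_setOf_eq, mem_empty_iff_false, iff_false]
                rintro ⟨h, _⟩
                exact hd h
              simp only [this, measure_empty, zero_le]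
        _ = ρ {z | (xm : ℝ≥0) < z.1} := by
            rw [lintegral_const, measure_univ, mul_one]
    calc Q μ ρ n (E3 x) ≤ _ := measure_mono hsub
      _ ≤ ∑ s ∈ Finset.range K, Q μ ρ n {p : Cfg n × Marks n |
            ∃ hd : ∀ v, 0 < fixDeg p.1.deg v,
            p.2 (edge p.1.pair (wk p.1.pair (firstHalf hd x) s)) ∈
              {z : ℝ≥0 × ℝ≥0 | (xm : ℝ≥0) < z.1}} := measure_biUnion_finset_le _ _
      _ ≤ ∑ _s ∈ Finset.range K, ε / 3 / ((K : ℝ≥0∞) + 1) :=
          Finset.sum_le_sum fun s _ => (hone s).trans hxm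
      _ = (K : ℝ≥0∞) * (ε / 3 / ((K : ℝ≥0∞) + 1)) := by simp
      _ ≤ ((K : ℝ≥0∞) + 1) * (ε / 3 / ((K : ℝ≥0∞) + 1)) := by
          gcongr
          exact le_self_add
      _ = ε / 3 := ENNReal.mul_div_cancel (by simp) (by simp)
  -- first event
  have hb1 : ∀ x : Vx n, Q μ ρ n {p | p.1 ∈ E1 x} = cfgLaw μ n (E1 x) := by
    intro x
    have : {p : Cfg n × Marks n | p.1 ∈ E1 x} = E1 x ×ˢ univ := by
      ext p
      simp
    rw [this]
    unfold Q
    rw [Measure.prod_prod, measure_univ, mul_one]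
  -- pointwise inclusion
  have hκκ : 0 < κ - κ' := sub_pos.2 hκ2
  have hKl : (K : ℝ) ≤ (κ - κ') * lgg n := by
    have := (div_le_iff₀ hκκ).1 hn3
    linarith [mul_comm (lgg n) (κ - κ')]
  have hincl : ∀ x : Vx n, {p : Cfg n × Marks n | ¬ ∃ (l : ℕ) (y : ℕ → Vx n), y 0 = x ∧
          y l ∈ core α (fixDeg p.1.deg) ∧ (∀ s < l, y s ∉ core α (fixDeg p.1.deg)) ∧
          (l : ℝ) ≤ κ * lgg n ∧
          ∑ s ∈ Finset.range l, rd p.1.pair p.2 (y s) (y (s + 1)) ≤
            ENNReal.ofReal (q * κ * lgg n + (K : ℝ) * xm)} ⊆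
      ({p | p.1 ∈ E1 x} ∪ E2 x) ∪ E3 x := by
    intro x p hp
    by_contra hcon
    simp only [mem_union, not_or] at hcon
    obtain ⟨⟨hc1, hc2⟩, hc3⟩ := hcon
    have hc1' : ∃ hd : ∀ v, 0 < fixDeg p.1.deg v,
        ∃ i ≤ K, Hit p.1.pair (firstHalf hd x) K i := by
      by_contra h
      exact hc1 h
    obtain ⟨hd, i, hi, hit⟩ := hc1'
    have hc2' : ∃ (l : ℕ) (y : ℕ → Vx n), y 0 = (wk p.1.pair (firstHalf hd x) i).1 ∧
          y l ∈ core α (fixDeg p.1.deg) ∧ (∀ s < l, y s ∉ core α (fixDeg p.1.deg)) ∧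
          (l : ℝ) ≤ κ' * lgg n ∧ ∀ s < l, rd p.1.pair p.2 (y s) (y (s + 1)) ≤ q := by
      by_contra h
      exact hc2 ⟨hd, i, hi, hit, h⟩
    obtain ⟨l, y, hy0, hyl, hyn, hl, hyq⟩ := hc2'
    have hc3' : ∀ s < K, ((p.2 (edge p.1.pair (wk p.1.pair (firstHalf hd x) s))).1 : ℝ≥0∞) ≤
        ((xm : ℝ≥0) : ℝ≥0∞) := by
      intro s hs
      by_contra h
      refine hc3 ⟨s, hs, hd, ?_⟩
      rw [not_le] at h
      exact_mod_cast h
    have hKC : ∀ v, fixDeg p.1.deg v < K → v ∉ core α (fixDeg p.1.deg) := by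
      intro v hv hvC
      have hvC' : MM α n ≤ (fixDeg p.1.deg v : ℝ) := hvC
      have : ((fixDeg p.1.deg v : ℕ) : ℝ) < K := by exact_mod_cast hv
      linarith
    obtain ⟨z, hz0, hzl, hzn, hzs⟩ := glue p.1.pair p.2 (core α (fixDeg p.1.deg))
      (firstHalf hd x) K i hi hKC hit l y hy0 hyl hyn q ((xm : ℝ≥0) : ℝ≥0∞) hyq hc3'
    refine hp ⟨i + l, z, hz0, hzl, hzn, ?_, hzs.trans ?_⟩
    · push_cast
      have : (i : ℝ) ≤ K := by exact_mod_cast hi
      nlinarith
    · have hlq : (l : ℝ) * q ≤ q * κ * lgg n := by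
        have hq0 : (0 : ℝ) ≤ q := q.2
        have h1 : (l : ℝ) ≤ κ * lgg n := by nlinarith
        nlinarith
      have hcast : (K : ℝ≥0∞) * ((xm : ℝ≥0) : ℝ≥0∞) + (l : ℝ≥0∞) * (q : ℝ≥0∞) =
          ENNReal.ofReal ((l : ℝ) * q + (K : ℝ) * xm) := by
        rw [ENNReal.ofReal_add (by positivity) (by positivity), ENNReal.ofReal_mul (by positivity),
          ENNReal.ofReal_mul (by positivity)]
        simp [add_comm]
      rw [hcast]
      exact ENNReal.ofReal_le_ofReal (by linarith)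
  calc _ ≤ avg (fun x : Vx n => (cfgLaw μ n (E1 x) + Q μ ρ n (E2 x)) + ε / 3) := by
        refine avg_mono ?_
        intro x
        refine (measure_mono (hincl x)).trans ((measure_union_le _ _).trans ?_)
        refine add_le_add ((measure_union_le _ _).trans ?_) (hb3 x)
        rw [hb1 x]
    _ = (avg (fun x : Vx n => cfgLaw μ n (E1 x)) + avg (fun x : Vx n => Q μ ρ n (E2 x))) +
        ε / 3 := by
        rw [avg_add, avg_add, avg_const]
    _ ≤ (ε / 3 + ε / 3) + ε / 3 := by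
        gcongr
    _ = ε := by
        rw [← ENNReal.add_div, ← ENNReal.add_div]
        have : ε + ε + ε = ε * 3 := by ring
        rw [this]
        exact ENNReal.mul_div_cancel_right (by simp) (by simp)

end Pool.Agent.TwoCol
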