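import Pool.Agent.TwoCol.Spec

/-!
# START1: the exploration meets a vertex of large degree

Words `g : Fin j → Half d` record the half-edges met by the exploration; the probability of every
word is at most `(1 / (L - 2 j)) ^ j` by `Target_PAIR`, and the words are counted.
-/

open MeasureTheory ProbabilityTheory Filter Topology Set
open scoped ENNReal NNReal

namespace Pool.Agent.TwoCol

namespace Start1Aux

variable {n : ℕ} {d : Vx n → ℕ}

/-- Two half-edges with the same vertex and the same index are equal. -/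
theorem half_ext {h h' : Half d} (h1 : h.1 = h'.1) (h2 : (h.2 : ℕ) = (h'.2 : ℕ)) : h = h' := by
  obtain ⟨v, i⟩ := h
  obtain ⟨w, j⟩ := h'
  simp only at h1
  subst h1
  congr 1
  exact Fin.ext h2

theorem nx_ne (hd : ∀ v, 2 ≤ d v) (h : Half d) : nx h ≠ h := by
  intro e
  have h2 : (((h.2 : ℕ) + 1) % d h.1 : ℕ) = (h.2 : ℕ) :=
    congrArg (fun h : Half d => (h.2 : ℕ)) e
  have h3 : (h.2 : ℕ) < d h.1 := h.2.2
  have h4 := hd h.1
  rcases Nat.lt_or_ge ((h.2 : ℕ) + 1) (d h.1) with h5 | h5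
  · rw [Nat.mod_eq_of_lt h5] at h2
    omega
  · have h6 : (h.2 : ℕ) + 1 = d h.1 := by omega
    rw [h6, Nat.mod_self] at h2
    omega

/-- The vertices at the steps `0, …, j - 1` are distinct. -/
def Dist (σ : Equiv.Perm (Half d)) (h : Half d) (j : ℕ) : Prop :=
  ∀ s < j, ∀ s' < j, (wk σ h s).1 = (wk σ h s').1 → s = s'

/-- The starting half-edges belonging to a word. -/
def st (h : Half d) {j : ℕ} (g : Fin j → Half d) (r : Fin j) : Half d :=
  if hr : (r : ℕ) = 0 then h else nx (g ⟨(r : ℕ) - 1, by omega⟩)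

/-- The word of a matching. -/
def word (σ : Equiv.Perm (Half d)) (h : Half d) (j : ℕ) (r : Fin j) : Half d := σ (wk σ h r)

theorem st_word (σ : Equiv.Perm (Half d)) (h : Half d) (j : ℕ) (r : Fin j) :
    st h (word σ h j) r = wk σ h r := by
  obtain ⟨r, hr⟩ := r
  cases r with
  | zero => simp [st, wk]
  | succ r => simp [st, wk, word]

theorem wk_ne (hd : ∀ v, 2 ≤ d v) {σ : Equiv.Perm (Half d)} (hσ : IsPairing σ) {h : Half d}
    {j : ℕ} (hj : Dist σ h j) {r r' : ℕ} (hr : r < j) (hr' : r' < j) :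
    wk σ h r ≠ σ (wk σ h r') := by
  intro e
  rcases lt_trichotomy r r' with hlt | heq | hgt
  · have e2 : σ (wk σ h r) = wk σ h r' := by rw [e]; exact (hσ _).1
    have e3 : (wk σ h (r + 1)).1 = (wk σ h r').1 := by
      rw [← e2]
      rfl
    have e4 := hj (r + 1) (by omega) r' hr' e3
    subst e4
    have e5 : wk σ h (r + 1) = nx (σ (wk σ h r)) := rfl
    rw [e2] at e5
    exact nx_ne hd _ e5.symm
  · subst heq
    exact (hσ _).2 e.symm
  · have e3 : (wk σ h (r' + 1)).1 = (wk σ h r).1 := by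
      rw [e]
      rfl
    have e4 := hj (r' + 1) (by omega) r hr e3
    subst e4
    have e5 : wk σ h (r' + 1) = nx (σ (wk σ h r')) := rfl
    rw [← e] at e5
    exact nx_ne hd _ e5.symm

theorem inj_of_dist (hd : ∀ v, 2 ≤ d v) {σ : Equiv.Perm (Half d)} (hσ : IsPairing σ) {h : Half d}
    {j : ℕ} (hj : Dist σ h j) :
    Function.Injective (Sum.elim (fun r : Fin j => wk σ h r) (fun r : Fin j => σ (wk σ h r))) := by
  rintro (r | r) (r' | r') e
  · simp only [Sum.elim_inl] at e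
    have := hj r r.2 r' r'.2 (by rw [e])
    rw [Fin.ext this]
  · simp only [Sum.elim_inl, Sum.elim_inr] at e
    exact absurd e (wk_ne hd hσ hj r.2 r'.2)
  · simp only [Sum.elim_inl, Sum.elim_inr] at e
    exact absurd e.symm (wk_ne hd hσ hj r'.2 r.2)
  · simp only [Sum.elim_inr] at e
    have e1 := σ.injective e
    have := hj r r.2 r' r'.2 (by rw [e1])
    rw [Fin.ext this]

/-- Probability of containing given pairs. -/
theorem pair_le (hP : Target_PAIR) (he : Even (∑ v, d v)) (j : ℕ) (a b : Fin j → Half d)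
    (hab : Function.Injective (Sum.elim a b)) (hj : 2 * j < ∑ v, d v) :
    pairLaw d {σ | ∀ i, σ (a i) = b i} ≤
      ENNReal.ofReal ((1 / (((∑ v, d v : ℕ) : ℝ) - 2 * j)) ^ j) := by
  have h := hP n d he (Measure.dirac (0, 0)) ∅ MeasurableSet.empty j a b hab ∅ ∅
    (Finset.disjoint_empty_left _) (by simp) 0 (by simp) (by simp) hj
  rw [pow_zero, mul_one] at h
  have e : {p : Equiv.Perm (Half d) × Marks n | (∀ i, p.1 (a i) = b i) ∧
      ∀ h ∈ (∅ : Finset (Half d)), p.1 h ∈ (∅ : Finset (Half d)) → p.2 (edge p.1 h) ∉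
        (∅ : Set (ℝ≥0 × ℝ≥0))} = {σ | ∀ i, σ (a i) = b i} ×ˢ univ := by
    ext p
    simp
  rw [e] at h
  have : IsProbabilityMeasure (marksLaw (Measure.dirac ((0 : ℝ≥0), (0 : ℝ≥0))) n) := by
    unfold marksLaw
    infer_instance
  have : IsZeroOrProbabilityMeasure (pairLaw d) := by
    unfold pairLaw
    infer_instance
  rw [Measure.prod_prod, measure_univ, mul_one] at h
  exact h

theorem word_le (hP : Target_PAIR) (he : Even (∑ v, d v)) (hd : ∀ v, 2 ≤ d v) (h : Half d) (j : ℕ)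
    (hj : 2 * j < ∑ v, d v) (g : Fin j → Half d) :
    pairLaw d {σ | IsPairing σ ∧ Dist σ h j ∧ word σ h j = g} ≤
      ENNReal.ofReal ((1 / (((∑ v, d v : ℕ) : ℝ) - 2 * j)) ^ j) := by
  rcases Set.eq_empty_or_nonempty {σ : Equiv.Perm (Half d) | IsPairing σ ∧ Dist σ h j ∧ word σ h j = g}
    with h0 | ⟨σ, hσ, hdi, hw⟩
  · rw [h0, measure_empty]
    exact bot_le
  · have hinj : Function.Injective (Sum.elim (st h g) g) := by
      have e1 : st h g = fun r : Fin j => wk σ h r := by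
        funext r
        rw [← hw, st_word]
      have e2 : g = fun r : Fin j => σ (wk σ h r) := by
        rw [← hw]
        rfl
      rw [e1]
      conv in g => rw [e2]
      exact inj_of_dist hd hσ hdi
    refine le_trans (measure_mono ?_) (pair_le hP he j (st h g) g hinj hj)
    rintro τ ⟨hτ, -, hw'⟩ i
    rw [← hw', st_word]
    rfl

theorem words_le (hP : Target_PAIR) (he : Even (∑ v, d v)) (hd : ∀ v, 2 ≤ d v) (h : Half d) (j : ℕ)
    (hj : 2 * j < ∑ v, d v) (F : Finset (Fin j → Half d)) :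
    pairLaw d {σ | IsPairing σ ∧ Dist σ h j ∧ word σ h j ∈ F} ≤
      F.card * ENNReal.ofReal ((1 / (((∑ v, d v : ℕ) : ℝ) - 2 * j)) ^ j) := by
  have hsub : {σ : Equiv.Perm (Half d) | IsPairing σ ∧ Dist σ h j ∧ word σ h j ∈ F} ⊆
      ⋃ g ∈ F, {σ | IsPairing σ ∧ Dist σ h j ∧ word σ h j = g} := by
    rintro σ ⟨h1, h2, h3⟩
    simp only [mem_iUnion]
    exact ⟨_, h3, h1, h2, rfl⟩
  refine le_trans (measure_mono hsub) (le_trans (measure_biUnion_finset_le _ _) ?_)
  refine le_trans (Finset.sum_le_sum fun g _ => word_le hP he hd h j hj g) ?_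
  rw [Finset.sum_const, nsmul_eq_mul]

/-- Half-edges of vertices of degree less than `K`. -/
def small (d : Vx n → ℕ) (K : ℕ) : Finset (Half d) :=
  (Finset.univ.filter fun v => d v < K).sigma fun _ => Finset.univ

theorem mem_small {K : ℕ} {h : Half d} : h ∈ small d K ↔ d h.1 < K := by
  simp [small]

theorem card_small_add (d : Vx n → ℕ) (K : ℕ) :
    (small d K).card + K * (Finset.univ.filter fun v => K ≤ d v).card ≤ ∑ v, d v := by
  have h1 : (small d K).card = ∑ v ∈ Finset.univ.filter (fun v => d v < K), d v := by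
    unfold small
    rw [Finset.card_sigma]
    simp
  rw [h1, ← Finset.sum_filter_add_sum_filter_not Finset.univ (fun v => d v < K) d]
  have h2 : Finset.univ.filter (fun v => ¬ d v < K) = Finset.univ.filter (fun v => K ≤ d v) := by
    ext v
    simp
  rw [h2]
  have h3 : (Finset.univ.filter (fun v => K ≤ d v)).card * K ≤
      ∑ v ∈ Finset.univ.filter (fun v => K ≤ d v), d v := by
    rw [← smul_eq_mul]
    refine Finset.card_nsmul_le_sum _ _ _ ?_
    intro v hv
    exact (Finset.mem_filter.1 hv).2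
  rw [mul_comm K]
  omega

theorem st_init (h : Half d) {s : ℕ} {g g' : Fin (s + 1) → Half d}
    (hg : (Fin.init g : Fin s → Half d) = Fin.init g') (r : Fin (s + 1)) : st h g r = st h g' r := by
  unfold st
  split_ifs with h0
  · rfl
  · have h1 : (r : ℕ) - 1 < s := by omega
    have h2 := congrFun hg ⟨(r : ℕ) - 1, h1⟩
    simp only [Fin.init] at h2
    have h3 : (Fin.castSucc (⟨(r : ℕ) - 1, h1⟩ : Fin s)) = (⟨(r : ℕ) - 1, by omega⟩ : Fin (s + 1)) :=
      rfl
    rw [h3] at h2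
    rw [h2]

/-- Number of words whose last half-edge returns to the vertex of step `r`. -/
theorem card_back_le (h : Half d) (K s : ℕ) (r : Fin (s + 1)) :
    (Finset.univ.filter fun g : Fin (s + 1) → Half d =>
      (g (Fin.last s)).1 = (st h g r).1 ∧ d (g (Fin.last s)).1 < K).card ≤ (∑ v, d v) ^ s * K := by
  have hc : ((Finset.univ : Finset (Fin s → Half d)) ×ˢ Finset.range K).card = (∑ v, d v) ^ s * K := by
    rw [Finset.card_product, Finset.card_range, Finset.card_univ, Fintype.card_fun,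
      Fintype.card_sigma]
    simp
  rw [← hc]
  refine Finset.card_le_card_of_injOn
    (fun g : Fin (s + 1) → Half d => ((Fin.init g : Fin s → Half d), ((g (Fin.last s)).2 : ℕ)))
    ?_ ?_
  · intro g hg
    have hg2 := (Finset.mem_filter.1 hg).2
    simp only [Finset.coe_product, Finset.coe_univ, Finset.coe_range, Set.mem_prod, mem_univ,
      true_and, mem_Iio]
    exact lt_trans (g (Fin.last s)).2.2 hg2.2
  · intro g hg g' hg' e
    have hg2 := (Finset.mem_filter.1 hg).2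
    have hg2' := (Finset.mem_filter.1 hg').2
    simp only [Prod.mk.injEq] at e
    funext i
    refine Fin.lastCases ?_ (fun i => ?_) i
    · refine half_ext ?_ e.2
      rw [hg2.1, hg2'.1, st_init h e.1]
    · exact congrFun e.1 i

/-- The event that all the vertices are distinct and of small degree. -/
theorem long_le (hP : Target_PAIR) (he : Even (∑ v, d v)) (hd : ∀ v, 2 ≤ d v) (h : Half d) (K : ℕ)
    (hK : 2 * K < ∑ v, d v) :
    pairLaw d {σ | IsPairing σ ∧ Dist σ h (K + 1) ∧ ∀ s ≤ K, d (wk σ h s).1 < K} ≤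
      ENNReal.ofReal (((small d K).card / (((∑ v, d v : ℕ) : ℝ) - 2 * K)) ^ K) := by
  have h1 := words_le hP he hd h K hK (Fintype.piFinset fun _ => small d K)
  rw [Fintype.card_piFinset_const] at h1
  have hpos : (0 : ℝ) < ((∑ v, d v : ℕ) : ℝ) - 2 * K := by
    have : ((2 * K : ℕ) : ℝ) < ((∑ v, d v : ℕ) : ℝ) := by exact_mod_cast hK
    push_cast at this ⊢
    linarith
  have h2 : (((small d K).card ^ K : ℕ) : ℝ≥0∞) *
      ENNReal.ofReal ((1 / (((∑ v, d v : ℕ) : ℝ) - 2 * K)) ^ K) =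
      ENNReal.ofReal (((small d K).card / (((∑ v, d v : ℕ) : ℝ) - 2 * K)) ^ K) := by
    rw [← ENNReal.ofReal_natCast, ← ENNReal.ofReal_mul (by positivity)]
    congr 1
    push_cast
    rw [← mul_pow]
    congr 1
    ring
  rw [h2] at h1
  refine le_trans (measure_mono ?_) h1
  rintro σ ⟨ha, hb, hc⟩
  refine ⟨ha, fun s hs s' hs' => hb s (by omega) s' (by omega), ?_⟩
  rw [Fintype.mem_piFinset]
  intro r
  rw [mem_small]
  exact hc (r + 1) (by omega)

theorem num1 (L : ℝ) (K s : ℕ) (hs : s < K) (hKL : 4 * (K : ℝ) ≤ L) :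
    ((s : ℝ) + 1) * (L ^ s * K) * (1 / (L - 2 * ((s : ℝ) + 1))) ^ (s + 1) ≤
      (K : ℝ) ^ 2 * 2 ^ K / L := by
  have hsK : (s : ℝ) + 1 ≤ K := by exact_mod_cast hs
  have hK0 : (0 : ℝ) < K := by
    have : 0 < K := by omega
    exact_mod_cast this
  have hL : 0 < L := by linarith
  have h1 : 1 / (L - 2 * ((s : ℝ) + 1)) ≤ 2 / L := by
    rw [div_le_div_iff₀ (by linarith) hL]
    linarith
  have h0 : 0 ≤ 1 / (L - 2 * ((s : ℝ) + 1)) := by
    apply div_nonneg zero_le_one
    linarith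
  have h2 : (1 / (L - 2 * ((s : ℝ) + 1))) ^ (s + 1) ≤ (2 / L) ^ (s + 1) :=
    pow_le_pow_left₀ h0 h1 _
  calc ((s : ℝ) + 1) * (L ^ s * K) * (1 / (L - 2 * ((s : ℝ) + 1))) ^ (s + 1)
      ≤ ((s : ℝ) + 1) * (L ^ s * K) * (2 / L) ^ (s + 1) :=
        mul_le_mul_of_nonneg_left h2 (by positivity)
    _ = (((s : ℝ) + 1) * K * 2 ^ (s + 1)) / L := by
        rw [div_pow]
        field_simp
        ring
    _ ≤ (K : ℝ) ^ 2 * 2 ^ K / L := by
        refine div_le_div_of_nonneg_right ?_ hL.le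
        have h3 : (2 : ℝ) ^ (s + 1) ≤ 2 ^ K := pow_le_pow_right₀ (by norm_num) hs
        have h4 : ((s : ℝ) + 1) * K ≤ (K : ℝ) ^ 2 := by nlinarith
        exact mul_le_mul h4 h3 (by positivity) (by positivity)

/-- The event that step `s + 1` is the first return. -/
theorem back_le (hP : Target_PAIR) (he : Even (∑ v, d v)) (hd : ∀ v, 2 ≤ d v) (h : Half d)
    (K s : ℕ) (hs : s < K) (hK : 4 * K ≤ ∑ v, d v) :
    pairLaw d {σ | IsPairing σ ∧ Dist σ h (s + 1) ∧ (∀ r ≤ s, d (wk σ h r).1 < K) ∧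
      ∃ r ≤ s, (wk σ h (s + 1)).1 = (wk σ h r).1} ≤
      ENNReal.ofReal ((K : ℝ) ^ 2 * 2 ^ K / ((∑ v, d v : ℕ) : ℝ)) := by
  classical
  have hj : 2 * (s + 1) < ∑ v, d v := by omega
  have h1 := words_le hP he hd h (s + 1) hj (Finset.univ.biUnion fun r : Fin (s + 1) =>
    Finset.univ.filter fun g : Fin (s + 1) → Half d =>
      (g (Fin.last s)).1 = (st h g r).1 ∧ d (g (Fin.last s)).1 < K)
  refine le_trans (measure_mono ?_) (le_trans h1 ?_)
  · rintro σ ⟨ha, hb, hc, r, hr, hr2⟩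
    refine ⟨ha, hb, ?_⟩
    simp only [Finset.mem_biUnion, Finset.mem_univ, true_and, Finset.mem_filter]
    refine ⟨⟨r, by omega⟩, ?_, ?_⟩
    · rw [st_word]
      exact hr2
    · have e : (word σ h (s + 1) (Fin.last s)).1 = (wk σ h r).1 := hr2
      rw [e]
      exact hc r hr
  · have hcard : ((Finset.univ.biUnion fun r : Fin (s + 1) =>
        Finset.univ.filter fun g : Fin (s + 1) → Half d =>
          (g (Fin.last s)).1 = (st h g r).1 ∧ d (g (Fin.last s)).1 < K).card : ℕ) ≤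
        (s + 1) * ((∑ v, d v) ^ s * K) := by
      refine le_trans Finset.card_biUnion_le ?_
      refine le_trans (Finset.sum_le_sum fun r _ => card_back_le h K s r) ?_
      simp
    have hKL : 4 * (K : ℝ) ≤ ((∑ v, d v : ℕ) : ℝ) := by exact_mod_cast hK
    have hsK : (s : ℝ) + 1 ≤ K := by exact_mod_cast hs
    have hK0 : (0 : ℝ) < K := by
      have : 0 < K := by omega
      exact_mod_cast this
    refine le_trans (mul_le_mul_left (Nat.cast_le.2 hcard) _) ?_
    rw [← ENNReal.ofReal_natCast, ← ENNReal.ofReal_mul (by positivity)]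
    refine ENNReal.ofReal_le_ofReal ?_
    have := num1 ((∑ v, d v : ℕ) : ℝ) K s hs hKL
    push_cast at this ⊢
    exact this

/-- Fixed degrees. -/
theorem fixed_le (hP : Target_PAIR) (he : Even (∑ v, d v)) (hd : ∀ v, 2 ≤ d v) (x : Vx n) (K : ℕ)
    (hK1 : 1 ≤ K) (hK : 4 * K ≤ ∑ v, d v) :
    pairLaw d {σ | ¬ ∃ hd : ∀ v, 0 < d v, ∃ i ≤ K, Hit σ (firstHalf hd x) K i} ≤
      ENNReal.ofReal (((small d K).card / (((∑ v, d v : ℕ) : ℝ) - 2 * K)) ^ K) +
      ENNReal.ofReal ((K : ℝ) ^ 3 * 2 ^ K / ((∑ v, d v : ℕ) : ℝ)) := by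
  have hd' : ∀ v, 0 < d v := fun v => lt_of_lt_of_le two_pos (hd v)
  have hfin : {σ : Equiv.Perm (Half d) | IsPairing σ}.Finite := Set.toFinite _
  have h0 : pairLaw d {σ | ¬ ∃ hd : ∀ v, 0 < d v, ∃ i ≤ K, Hit σ (firstHalf hd x) K i} =
      pairLaw d ({σ | IsPairing σ} ∩
        {σ | ¬ ∃ hd : ∀ v, 0 < d v, ∃ i ≤ K, Hit σ (firstHalf hd x) K i}) :=
    (uniformOn_inter_self hfin).symm
  rw [h0]
  set h := firstHalf hd' x with hh
  have hsub : ({σ : Equiv.Perm (Half d) | IsPairing σ} ∩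
        {σ | ¬ ∃ hd : ∀ v, 0 < d v, ∃ i ≤ K, Hit σ (firstHalf hd x) K i}) ⊆
      {σ | IsPairing σ ∧ Dist σ h (K + 1) ∧ ∀ s ≤ K, d (wk σ h s).1 < K} ∪
      ⋃ s ∈ Finset.range K, {σ | IsPairing σ ∧ Dist σ h (s + 1) ∧
        (∀ r ≤ s, d (wk σ h r).1 < K) ∧ ∃ r ≤ s, (wk σ h (s + 1)).1 = (wk σ h r).1} := by
    rintro σ ⟨h1, h2⟩
    by_contra hcon
    simp only [mem_union, mem_iUnion, Finset.mem_range, not_or, not_exists] at hcon
    obtain ⟨hc1, hc2⟩ := hcon
    have hnohit : ∀ i ≤ K, ¬ Hit σ h K i := fun i hi hit => h2 ⟨hd', i, hi, hit⟩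
    have key : ∀ s ≤ K, Dist σ h (s + 1) ∧ ∀ r ≤ s, d (wk σ h r).1 < K := by
      intro s
      induction s with
      | zero =>
        intro _
        refine ⟨fun s hs s' hs' _ => by omega, fun r hr => ?_⟩
        by_contra hlt
        refine hnohit 0 (Nat.zero_le _) ⟨fun s hs => by omega, ?_, fun s hs s' hs' _ => by omega⟩
        have : r = 0 := by omega
        rw [this] at hlt
        omega
      | succ s ih =>
        intro hs
        obtain ⟨ih1, ih2⟩ := ih (by omega)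
        have hne : ∀ r ≤ s, (wk σ h (s + 1)).1 ≠ (wk σ h r).1 := fun r hr e =>
          hc2 s (by omega) ⟨h1, ih1, ih2, r, hr, e⟩
        have hdist : Dist σ h (s + 1 + 1) := by
          intro a ha b hb e
          rcases Nat.lt_or_ge a (s + 1) with ha' | ha'
          · rcases Nat.lt_or_ge b (s + 1) with hb' | hb'
            · exact ih1 a ha' b hb' e
            · have hb2 : b = s + 1 := by omega
              subst hb2
              exact absurd e.symm (hne a (by omega))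
          · have ha2 : a = s + 1 := by omega
            subst ha2
            rcases Nat.lt_or_ge b (s + 1) with hb' | hb'
            · exact absurd e (hne b (by omega))
            · omega
        refine ⟨hdist, fun r hr => ?_⟩
        rcases Nat.lt_or_ge r (s + 1) with hr' | hr'
        · exact ih2 r (by omega)
        · have hr2 : r = s + 1 := by omega
          subst hr2
          by_contra hlt
          refine hnohit (s + 1) hs ⟨fun t ht => ih2 t (by omega), by omega, ?_⟩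
          intro a ha b hb e
          exact hdist a (by omega) b (by omega) e
    obtain ⟨k1, k2⟩ := key K le_rfl
    exact hc1 ⟨h1, k1, k2⟩
  refine le_trans (measure_mono hsub) (le_trans (measure_union_le _ _) (add_le_add ?_ ?_))
  · exact long_le hP he hd h K (by omega)
  · refine le_trans (measure_biUnion_finset_le _ _) ?_
    refine le_trans (Finset.sum_le_sum fun s hs =>
      back_le hP he hd h K s (Finset.mem_range.1 hs) hK) ?_
    rw [Finset.sum_const, Finset.card_range, nsmul_eq_mul, ← ENNReal.ofReal_natCast,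
      ← ENNReal.ofReal_mul (by positivity)]
    refine ENNReal.ofReal_le_ofReal (le_of_eq ?_)
    ring

theorem num2 (L M : ℝ) (K : ℕ) (T : ℝ) (hT0 : 0 ≤ T) (hT : T + K * M ≤ L) (hL : 4 * (K : ℝ) ≤ L)
    (hK : 1 ≤ K) (hM : 4 ≤ M) : (T / (L - 2 * K)) ^ K ≤ Real.exp (-(K * (K * M / (2 * L)))) := by
  have hK0 : (1 : ℝ) ≤ K := by exact_mod_cast hK
  have hL0 : 0 < L := by linarith
  have hL2 : 0 < L - 2 * K := by linarith
  have h1 : T / (L - 2 * K) ≤ 1 - K * M / (2 * L) := by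
    have h3 : K * M / (2 * L) * (L - 2 * K) ≤ K * M / 2 := by
      rw [div_mul_eq_mul_div, div_le_div_iff₀ (by linarith) two_pos]
      have : 0 ≤ (K : ℝ) * M * (4 * K) := by positivity
      nlinarith
    rw [div_le_iff₀ hL2, sub_mul]
    nlinarith
  have h2 : 1 - K * M / (2 * L) ≤ Real.exp (-(K * M / (2 * L))) := by
    have := Real.add_one_le_exp (-(K * M / (2 * L)))
    linarith
  have h3 : 0 ≤ T / (L - 2 * K) := div_nonneg hT0 hL2.le
  calc (T / (L - 2 * K)) ^ K ≤ (Real.exp (-(K * M / (2 * L)))) ^ K :=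
        pow_le_pow_left₀ h3 (h1.trans h2) _
    _ = Real.exp (-(K * (K * M / (2 * L)))) := by
        rw [← Real.exp_nat_mul]
        congr 1
        ring

/-- Fixed good degrees. -/
theorem good_le (hP : Target_PAIR) (hC : Target_COND) {τ c₂ K' ζ : ℝ} (hc₂ : 0 < c₂)
    (hK' : 1 ≤ K') (K : ℕ) (hK : 1 ≤ K) (n : ℕ) (hn1 : (K : ℝ) ≤ ((n : ℝ) + 1) ^ ζ)
    (hn2 : 4 ≤ c₂ * (n + 1) * (K : ℝ) ^ (1 - τ)) (hn3 : 2 * K ≤ n + 1) (δ : Vx n → ℕ)
    (hδ : GoodDeg τ c₂ K' ζ δ) (x : Vx n) :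
    pairLaw (fixDeg δ) {σ | ¬ ∃ hd : ∀ v, 0 < fixDeg δ v, ∃ i ≤ K, Hit σ (firstHalf hd x) K i} ≤
      ENNReal.ofReal (Real.exp (-(c₂ / (2 * K') * (K : ℝ) ^ (3 - τ)))) +
      ENNReal.ofReal ((K : ℝ) ^ 3 * 2 ^ K / ((n : ℝ) + 1)) := by
  obtain ⟨he, hfix⟩ := hC.2.2.1 n δ
  have hd : ∀ v, 2 ≤ fixDeg δ v := fun v => (hδ.two_le v).trans (hfix v).1
  have hLN : 2 * (n + 1) ≤ ∑ v, fixDeg δ v := by
    have : ∑ v : Vx n, 2 ≤ ∑ v, fixDeg δ v := Finset.sum_le_sum fun v _ => hd v
    simp only [Finset.sum_const, Finset.card_univ, Fintype.card_fin, smul_eq_mul] at this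
    omega
  have hK4 : 4 * K ≤ ∑ v, fixDeg δ v := by omega
  refine le_trans (fixed_le hP he hd x K hK hK4) (add_le_add ?_ ?_)
  · refine ENNReal.ofReal_le_ofReal ?_
    have hKr : (1 : ℝ) ≤ K := by exact_mod_cast hK
    have hmany := hδ.many K hKr hn1
    set M : ℝ := c₂ * (n + 1) * (K : ℝ) ^ (1 - τ) with hM
    have hL1 := hδ.total
    have hLN' : 2 * ((n : ℝ) + 1) ≤ ((∑ v, fixDeg δ v : ℕ) : ℝ) := by exact_mod_cast hLN
    have hK4' : 4 * (K : ℝ) ≤ ((∑ v, fixDeg δ v : ℕ) : ℝ) := by exact_mod_cast hK4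
    have hcard : M ≤ ((Finset.univ.filter fun v => K ≤ fixDeg δ v).card : ℝ) := by
      refine hmany.trans ?_
      have : (Finset.univ.filter fun v : Vx n => (K : ℝ) ≤ (δ v : ℝ)) ⊆
          (Finset.univ.filter fun v => K ≤ fixDeg δ v) := by
        intro v hv
        simp only [Finset.mem_filter, Finset.mem_univ, true_and, Nat.cast_le] at hv ⊢
        exact hv.trans (hfix v).1
      exact_mod_cast Finset.card_le_card this
    have hT : ((small (fixDeg δ) K).card : ℝ) + K * M ≤ ((∑ v, fixDeg δ v : ℕ) : ℝ) := by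
      have h1 := card_small_add (fixDeg δ) K
      have h2 : ((small (fixDeg δ) K).card : ℝ) +
          K * ((Finset.univ.filter fun v => K ≤ fixDeg δ v).card : ℝ) ≤
          ((∑ v, fixDeg δ v : ℕ) : ℝ) := by exact_mod_cast h1
      have h3 := mul_le_mul_of_nonneg_left hcard (by positivity : (0 : ℝ) ≤ K)
      linarith
    refine (num2 _ M K _ (by positivity) hT hK4' hK hn2).trans ?_
    refine Real.exp_le_exp.2 (neg_le_neg ?_)
    have hNpos : (0 : ℝ) < (n : ℝ) + 1 := by positivity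
    have hLpos : (0 : ℝ) < ((∑ v, fixDeg δ v : ℕ) : ℝ) := by linarith
    have e1 : (K : ℝ) ^ (3 - τ) = K * (K * (K : ℝ) ^ (1 - τ)) := by
      have : 3 - τ = 1 + (1 + (1 - τ)) := by ring
      rw [this, Real.rpow_add (by linarith), Real.rpow_add (by linarith), Real.rpow_one]
    rw [e1]
    have hp : 0 < (K : ℝ) ^ (1 - τ) := Real.rpow_pos_of_pos (by linarith) _
    have e2 : c₂ / (2 * K') * (K * (K * (K : ℝ) ^ (1 - τ))) =
        K * (K * M / (2 * (K' * ((n : ℝ) + 1)))) := by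
      rw [hM]
      field_simp
    rw [e2]
    refine mul_le_mul_of_nonneg_left ?_ (by positivity)
    refine div_le_div_of_nonneg_left (by positivity) (by positivity) ?_
    linarith
  · refine ENNReal.ofReal_le_ofReal ?_
    refine div_le_div_of_nonneg_left (by positivity) (by positivity) ?_
    have : ((n : ℝ) + 1) ≤ ((∑ v, fixDeg δ v : ℕ) : ℝ) := by
      have : n + 1 ≤ ∑ v, fixDeg δ v := by omega
      exact_mod_cast this
    exact this

theorem avg_le {n : ℕ} {f : Vx n → ℝ≥0∞} {b : ℝ≥0∞} (h : ∀ x, f x ≤ b) : avg f ≤ b := by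
  unfold avg
  refine ENNReal.div_le_of_le_mul ?_
  refine (Finset.sum_le_sum fun v _ => h v).trans ?_
  rw [Finset.sum_const, Finset.card_univ, Fintype.card_fin, nsmul_eq_mul, mul_comm]

end Start1Aux

open Start1Aux in
/-- START1. -/
theorem target_START1 (hP : Target_PAIR) (hD : Target_DEG) (hC : Target_COND) :
    Target_START1 := by
  intro τ μ _ c₁ C₁ hT ε hε
  have hτ1 : 0 < τ - 1 := by linarith [hT.two_lt]
  have hτ3 : 0 < 3 - τ := by linarith [hT.lt_three]
  obtain ⟨c₂, hc₂, hDε⟩ := hD τ μ c₁ C₁ hT (1 / (2 * (τ - 1))) (by positivity)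
    (by rw [div_mul_eq_mul_div, one_mul, div_lt_one (by positivity)]; linarith)
  set ζ : ℝ := 1 / (2 * (τ - 1)) with hζ
  have hζ0 : 0 < ζ := by positivity
  have hε3 : 0 < ε / 3 := ENNReal.div_pos hε.ne' (by norm_num)
  obtain ⟨K', hK', hbad⟩ := hDε (ε / 3) hε3
  have lim1 : Tendsto (fun K : ℕ => ENNReal.ofReal
      (Real.exp (-(c₂ / (2 * K') * (K : ℝ) ^ (3 - τ))))) atTop (𝓝 0) := by
    rw [← ENNReal.ofReal_zero]
    refine ENNReal.tendsto_ofReal ?_
    refine Real.tendsto_exp_atBot.comp ?_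
    refine tendsto_neg_atTop_atBot.comp ?_
    refine Tendsto.const_mul_atTop (by positivity) ?_
    exact (tendsto_rpow_atTop hτ3).comp tendsto_natCast_atTop_atTop
  filter_upwards [lim1.eventually_le_const hε3, eventually_ge_atTop 1] with K hK1 hK
  have hKr : (1 : ℝ) ≤ K := by exact_mod_cast hK
  have hcast : Tendsto (fun n : ℕ => (n : ℝ) + 1) atTop atTop :=
    tendsto_atTop_add_const_right _ _ tendsto_natCast_atTop_atTop
  have lim2 : Tendsto (fun n : ℕ => ENNReal.ofReal ((K : ℝ) ^ 3 * 2 ^ K / ((n : ℝ) + 1)))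
      atTop (𝓝 0) := by
    rw [← ENNReal.ofReal_zero]
    refine ENNReal.tendsto_ofReal ?_
    exact hcast.const_div_atTop _
  have ev1 : ∀ᶠ n : ℕ in atTop, (K : ℝ) ≤ ((n : ℝ) + 1) ^ ζ :=
    ((tendsto_rpow_atTop hζ0).comp hcast).eventually_ge_atTop _
  have ev2 : ∀ᶠ n : ℕ in atTop, 4 ≤ c₂ * ((n : ℝ) + 1) * (K : ℝ) ^ (1 - τ) := by
    have hp : 0 < (K : ℝ) ^ (1 - τ) := Real.rpow_pos_of_pos (by linarith) _
    exact ((hcast.const_mul_atTop hc₂).atTop_mul_const hp).eventually_ge_atTop _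
  filter_upwards [hbad, lim2.eventually_le_const hε3, ev1, ev2, eventually_ge_atTop (2 * K)]
    with n hb h2 h3 h4 h5
  refine avg_le fun x => ?_
  rw [hC.2.2.2.1 μ n]
  have hprob : ∀ δ : Vx n → ℕ, IsProbabilityMeasure (pairLaw (fixDeg δ)) := fun δ =>
    hC.2.1 n _ (hC.2.2.1 n δ).1
  calc ∫⁻ δ, pairLaw (fixDeg δ) {σ | Cfg.mk δ σ ∈ {g : Cfg n | ¬ ∃ hd : ∀ v, 0 < fixDeg g.deg v,
        ∃ i ≤ K, Hit g.pair (firstHalf hd x) K i}} ∂(Measure.pi fun _ : Vx n => μ)
      ≤ ∫⁻ δ, (({δ | ¬ GoodDeg τ c₂ K' ζ δ} : Set (Vx n → ℕ)).indicator 1 δ + (ε / 3 + ε / 3))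
          ∂(Measure.pi fun _ : Vx n => μ) := by
        refine lintegral_mono fun δ => ?_
        by_cases hg : GoodDeg τ c₂ K' ζ δ
        · refine le_trans ?_ (le_add_of_nonneg_left bot_le)
          refine le_trans (good_le hP hC hc₂ hK' K hK n h3 h4 (by omega) δ hg x) ?_
          exact add_le_add hK1 h2
        · have := hprob δ
          refine le_trans prob_le_one ?_
          rw [Set.indicator_of_mem (by exact hg)]
          exact le_add_of_nonneg_right bot_le
    _ = (∫⁻ δ, ({δ | ¬ GoodDeg τ c₂ K' ζ δ} : Set (Vx n → ℕ)).indicator 1 δ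
          ∂(Measure.pi fun _ : Vx n => μ)) + (ε / 3 + ε / 3) := by
        rw [lintegral_add_right _ measurable_const, lintegral_const, measure_univ, mul_one]
    _ ≤ ε / 3 + (ε / 3 + ε / 3) :=
        add_le_add ((lintegral_indicator_one_le _).trans hb) le_rfl
    _ = ε := by rw [← add_assoc, ENNReal.add_thirds]

end Pool.Agent.TwoCol
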