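import Pool.Agent.TwoCol.Start2b

open MeasureTheory ProbabilityTheory Filter Topology Set
open scoped ENNReal NNReal

namespace Pool.Agent.TwoCol
namespace Start2Aux

lemma series_bound {a C1 C2 : ℝ} (ha : 1 < a) (hC1 : 0 ≤ C1) (hC2 : 0 ≤ C2) {K : ℕ}
    (hK : 1 ≤ K) (h : C1 * (K : ℝ) ^ (-(2 * (a - 1))) ≤ 1 / 2) (r : ℕ) :
    C1 ^ r * (C2 * ((K : ℝ) ^ (a ^ r)) ^ (-(2 : ℝ))) ≤ C2 * (K : ℝ) ^ (-(2 : ℝ)) * (1 / 2) ^ r := by
  have hK1 : (1 : ℝ) ≤ K := by exact_mod_cast hK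
  have hK0 : (0 : ℝ) < K := by linarith
  have h1 : 1 + (r : ℝ) * (a - 1) ≤ a ^ r := by
    have := one_add_mul_le_pow (a := a - 1) (by linarith) r
    simpa using this
  have h2 : ((K : ℝ) ^ (a ^ r)) ^ (-(2 : ℝ)) ≤
      (K : ℝ) ^ (-(2 : ℝ)) * ((K : ℝ) ^ (-(2 * (a - 1)))) ^ r := by
    have e : ((K : ℝ) ^ (-(2 * (a - 1)))) ^ r = (K : ℝ) ^ (-(2 * (a - 1)) * r) := by
      rw [Real.rpow_mul hK0.le, Real.rpow_natCast]
    rw [← Real.rpow_mul hK0.le, e, ← Real.rpow_add hK0]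
    apply Real.rpow_le_rpow_of_exponent_le hK1
    nlinarith
  calc C1 ^ r * (C2 * ((K : ℝ) ^ (a ^ r)) ^ (-(2 : ℝ))) ≤
      C1 ^ r * (C2 * ((K : ℝ) ^ (-(2 : ℝ)) * ((K : ℝ) ^ (-(2 * (a - 1)))) ^ r)) := by
        gcongr
    _ = C2 * (K : ℝ) ^ (-(2 : ℝ)) * (C1 * (K : ℝ) ^ (-(2 * (a - 1)))) ^ r := by
        rw [mul_pow]; ring
    _ ≤ C2 * (K : ℝ) ^ (-(2 : ℝ)) * (1 / 2) ^ r := by
        gcongr

lemma ev_K1 {a C1 : ℝ} (ha : 1 < a) : ∀ᶠ K : ℕ in atTop,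
    C1 * (K : ℝ) ^ (-(2 * (a - 1))) ≤ 1 / 2 := by
  have h1 : Tendsto (fun K : ℕ => C1 * (K : ℝ) ^ (-(2 * (a - 1)))) atTop (𝓝 (C1 * 0)) :=
    ((tendsto_rpow_neg_atTop (by linarith)).comp tendsto_natCast_atTop_atTop).const_mul _
  rw [mul_zero] at h1
  exact (h1.eventually (gt_mem_nhds (by norm_num : (0 : ℝ) < 1 / 2))).mono fun K h => h.le

lemma ev_K2 (C2 : ℝ) (hC2 : 0 ≤ C2) (ε : ℝ≥0∞) (hε : 0 < ε) : ∀ᶠ K : ℕ in atTop,
    ENNReal.ofReal (4 * ((K : ℝ) + 1) * (C2 * (K : ℝ) ^ (-(2 : ℝ)))) ≤ ε := by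
  have h1 : Tendsto (fun K : ℕ => 8 * C2 * (K : ℝ)⁻¹) atTop (𝓝 (8 * C2 * 0)) :=
    (tendsto_inv_atTop_zero.comp tendsto_natCast_atTop_atTop).const_mul _
  rw [mul_zero] at h1
  have h2 : Tendsto (fun K : ℕ => ENNReal.ofReal (8 * C2 * (K : ℝ)⁻¹)) atTop (𝓝 0) := by
    have := (ENNReal.continuous_ofReal.tendsto 0).comp h1
    simpa [Function.comp_def] using this
  filter_upwards [h2.eventually (gt_mem_nhds hε), eventually_ge_atTop 1] with K h3 h4
  refine (ENNReal.ofReal_le_ofReal ?_).trans h3.le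
  have hK1 : (1 : ℝ) ≤ K := by exact_mod_cast h4
  have hK0 : (0 : ℝ) < K := by linarith
  rw [Real.rpow_neg hK0.le, Real.rpow_two]
  have : 4 * ((K : ℝ) + 1) * (C2 * ((K : ℝ) ^ 2)⁻¹) = C2 * (4 * ((K : ℝ) + 1) / K ^ 2) := by
    field_simp
  rw [this]
  have h5 : 4 * ((K : ℝ) + 1) / K ^ 2 ≤ 8 * (K : ℝ)⁻¹ := by
    rw [div_le_iff₀ (by positivity)]
    field_simp
    nlinarith
  nlinarith [mul_le_mul_of_nonneg_left h5 hC2]

lemma probMarks (ρ : Measure (ℝ≥0 × ℝ≥0)) [IsProbabilityMeasure ρ] (n : ℕ) :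
    IsProbabilityMeasure (marksLaw ρ n) := by
  unfold marksLaw
  infer_instance

lemma pair_null (hC : Target_COND) {n : ℕ} (d : Vx n → ℕ) (hev : Even (∑ v, d v))
    (ρ : Measure (ℝ≥0 × ℝ≥0)) [IsProbabilityMeasure ρ] :
    ((pairLaw d).prod (marksLaw ρ n)) {p | ¬ IsPairing p.1} = 0 := by
  haveI := hC.2.1 n d hev
  haveI := probMarks ρ n
  have h1 : {p : Equiv.Perm (Half d) × Marks n | ¬ IsPairing p.1} =
      {σ | ¬ IsPairing σ} ×ˢ univ := by
    ext p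
    simp
  rw [h1, Measure.prod_prod]
  have h2 : pairLaw d {σ | ¬ IsPairing σ} = 0 := by
    rw [pairLaw, uniformOn_eq_zero_iff (Set.toFinite _)]
    ext σ
    simp
  rw [h2, zero_mul]

/-- The exploration followed by a bad ascending path. -/
def SS (τ c₂ T α a κ : ℝ) (G : Set (ℝ≥0 × ℝ≥0)) (K n : ℕ) (x : Vx n) : Set (Cfg n × Marks n) :=
  {p | GoodDeg τ c₂ T (1 / 4) p.1.deg → IsPairing p.1.pair →
    ∃ i ∈ Finset.range (K + 1), ∃ r ∈ Finset.range (⌊κ * lgg n⌋₊ + 1),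
      ∃ hd : ∀ v, 0 < fixDeg p.1.deg v, (p.1.pair, p.2) ∈ Bad α a G K i r (firstHalf hd x)}

lemma meas_SS (τ c₂ T α a κ : ℝ) (G : Set (ℝ≥0 × ℝ≥0)) (hG : MeasurableSet G) (K n : ℕ)
    (x : Vx n) (g : Cfg n) : MeasurableSet {X | (g, X) ∈ SS τ c₂ T α a κ G K n x} := by
  by_cases h1 : GoodDeg τ c₂ T (1 / 4) g.deg
  swap
  · have : {X | (g, X) ∈ SS τ c₂ T α a κ G K n x} = univ := by
      ext X
      simp only [SS, mem_setOf_eq, mem_univ, iff_true]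
      intro h
      exact absurd h h1
    rw [this]
    exact MeasurableSet.univ
  by_cases h2 : IsPairing g.pair
  swap
  · have : {X | (g, X) ∈ SS τ c₂ T α a κ G K n x} = univ := by
      ext X
      simp only [SS, mem_setOf_eq, mem_univ, iff_true]
      intro _ h
      exact absurd h h2
    rw [this]
    exact MeasurableSet.univ
  by_cases h3 : ∀ v, 0 < fixDeg g.deg v
  swap
  · have : {X | (g, X) ∈ SS τ c₂ T α a κ G K n x} = ∅ := by
      ext X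
      simp only [SS, mem_setOf_eq, mem_empty_iff_false, iff_false]
      intro h
      obtain ⟨i, _, r, _, hd, _⟩ := h h1 h2
      exact h3 hd
    rw [this]
    exact MeasurableSet.empty
  have : {X | (g, X) ∈ SS τ c₂ T α a κ G K n x} =
      ⋃ i ∈ Finset.range (K + 1), ⋃ r ∈ Finset.range (⌊κ * lgg n⌋₊ + 1),
        {X | (g.pair, X) ∈ Bad α a G K i r (firstHalf h3 x)} := by
    ext X
    simp only [mem_iUnion]
    constructor
    · intro h
      obtain ⟨i, hi, r, hr, hd, hb⟩ := h h1 h2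
      exact ⟨i, hi, r, hr, hb⟩
    · rintro ⟨i, hi, r, hr, hb⟩
      exact fun _ _ => ⟨i, hi, r, hr, h3, hb⟩
  rw [this]
  refine Finset.measurableSet_biUnion _ fun i _ => ?_
  refine Finset.measurableSet_biUnion _ fun r _ => ?_
  exact meas_Bad α a G hG K i r _ _

/-- For a typical degree sequence the sum over the starting vertices is small. -/
lemma sum_good (hC : Target_COND) (hP : Target_PAIR) {τ c₂ T a α κ : ℝ} (hτ : 2 < τ)
    (hα : a * (τ - 2) < 1) (hc₂ : 0 < c₂) (hT : 0 < T) (ha : 1 < a)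
    (ρ : Measure (ℝ≥0 × ℝ≥0)) [IsProbabilityMeasure ρ] (G : Set (ℝ≥0 × ℝ≥0))
    (hG : MeasurableSet G) {K n : ℕ} (hK : 8 ≤ K)
    (hM1 : MM α n ^ a ≤ 1 * ((n : ℝ) + 1) ^ ((1 : ℝ) / 4))
    (hM2 : MM α n ^ (1 + a * (τ - 2)) ≤ (2 * c₂) * ((n : ℝ) + 1) ^ (1 : ℝ))
    (hκ : 0 ≤ κ * lgg n)
    (hN1 : 2 * (K : ℝ) + 2 * κ * lgg n ≤ 1 * ((n : ℝ) + 1))
    (hN2 : 2 * (K : ℝ) * K + 2 * κ * K * lgg n ≤ Real.log 2 * ((n : ℝ) + 1))
    (δ : Vx n → ℕ) (hgood : GoodDeg τ c₂ T (1 / 4) δ) :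
    ∑ x, ((pairLaw (fixDeg δ)).prod (marksLaw ρ n))
      {p | (Cfg.mk δ p.1, p.2) ∈ SS τ c₂ T α a κ G K n x} ≤
    ∑ i ∈ Finset.range (K + 1), ∑ r ∈ Finset.range (⌊κ * lgg n⌋₊ + 1),
      ENNReal.ofReal (2 * (1 / ((n : ℝ) + 1)) ^ r) *
      ∑ v ∈ Finset.univ.filter (fun v : Fin (r + 1) → Vx n => Function.Injective v),
        ∏ s, phi a ((ρ G).toReal * c₂ / (16 * T)) (1 - a * (τ - 2)) K r s (δ (v s)) := by
  obtain ⟨hev, hfix⟩ := hC.2.2.1 n δ
  have hd : ∀ v, 0 < fixDeg δ v := fun v =>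
    lt_of_lt_of_le (by have := hgood.two_le v; omega) (hfix v).1
  have h1 : ∀ x, ((pairLaw (fixDeg δ)).prod (marksLaw ρ n))
      {p | (Cfg.mk δ p.1, p.2) ∈ SS τ c₂ T α a κ G K n x} ≤
      ∑ i ∈ Finset.range (K + 1), ∑ r ∈ Finset.range (⌊κ * lgg n⌋₊ + 1),
        ((pairLaw (fixDeg δ)).prod (marksLaw ρ n)) (Bad α a G K i r (firstHalf hd x)) := by
    intro x
    have hsub : {p : Equiv.Perm (Half (fixDeg δ)) × Marks n |
        (Cfg.mk δ p.1, p.2) ∈ SS τ c₂ T α a κ G K n x} ⊆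
        {p | ¬ IsPairing p.1} ∪ ⋃ i ∈ Finset.range (K + 1),
          ⋃ r ∈ Finset.range (⌊κ * lgg n⌋₊ + 1), Bad α a G K i r (firstHalf hd x) := by
      intro p hp
      by_cases hpair : IsPairing p.1
      · right
        obtain ⟨i, hi, r, hr, hd', hb⟩ := hp hgood hpair
        simp only [mem_iUnion]
        exact ⟨i, hi, r, hr, hb⟩
      · left
        exact hpair
    refine (measure_mono hsub).trans ((measure_union_le _ _).trans ?_)
    rw [pair_null hC (fixDeg δ) hev ρ, zero_add]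
    refine (measure_biUnion_finset_le _ _).trans (Finset.sum_le_sum fun i _ => ?_)
    exact measure_biUnion_finset_le _ _
  refine (Finset.sum_le_sum fun x _ => h1 x).trans ?_
  rw [Finset.sum_comm]
  refine Finset.sum_le_sum fun i hi => ?_
  rw [Finset.sum_comm]
  refine Finset.sum_le_sum fun r hr => ?_
  exact perdelta hP hτ hα hc₂ hT ha hd hev (fun v => (hfix v).1) (fun v => (hfix v).2)
    hgood.two_le hgood.total hgood.many ρ G hG hK hM1 hM2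
    (by simpa [Nat.lt_succ_iff] using hi) (by simpa [Nat.lt_succ_iff] using hr) hκ hN1 hN2

/-- The union bound, integrated over the degrees. -/
lemma integrated (hR : Target_PROD) (μ : Measure ℕ) [IsProbabilityMeasure μ]
    {a c η C1 C2 : ℝ} (ha : 1 < a) (hC1 : 0 ≤ C1) (hC2 : 0 ≤ C2) {K R n : ℕ} (hK : 1 ≤ K)
    (h1 : ∫⁻ k, ENNReal.ofReal (((k : ℝ) + 1) ^ (1 : ℝ)) ∂μ ≤ ENNReal.ofReal C1)
    (h2 : ∀ u : ℝ, 1 ≤ u → ∫⁻ k, (if u ≤ (k : ℝ) + 1 then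
      ENNReal.ofReal (((k : ℝ) + 1) ^ (1 + 1 / (a - 1)) * Real.exp (-c * (k : ℝ) ^ η))
        else 0) ∂μ ≤ ENNReal.ofReal (C2 * u ^ (-(2 : ℝ))))
    (h3 : C1 * (K : ℝ) ^ (-(2 * (a - 1))) ≤ 1 / 2) :
    ∫⁻ δ, ∑ i ∈ Finset.range (K + 1), ∑ r ∈ Finset.range (R + 1),
      ENNReal.ofReal (2 * (1 / ((n : ℝ) + 1)) ^ r) *
      ∑ v ∈ Finset.univ.filter (fun v : Fin (r + 1) → Vx n => Function.Injective v),
        ∏ s, phi a c η K r s (δ (v s)) ∂(Measure.pi fun _ : Vx n => μ) ≤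
    ((n + 1 : ℕ) : ℝ≥0∞) * ENNReal.ofReal (4 * ((K : ℝ) + 1) * (C2 * (K : ℝ) ^ (-(2 : ℝ)))) := by
  have hN0 : (0 : ℝ) < n + 1 := by positivity
  have hK1 : (1 : ℝ) ≤ K := by exact_mod_cast hK
  have hterm : ∀ r : ℕ, ENNReal.ofReal (2 * (1 / ((n : ℝ) + 1)) ^ r) *
      ∫⁻ δ, ∑ v ∈ Finset.univ.filter (fun v : Fin (r + 1) → Vx n => Function.Injective v),
        ∏ s, phi a c η K r s (δ (v s)) ∂(Measure.pi fun _ : Vx n => μ) ≤
      ENNReal.ofReal (((n : ℝ) + 1) * (2 * (C2 * (K : ℝ) ^ (-(2 : ℝ)))) * (1 / 2) ^ r) := by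
    intro r
    have e1 : ∏ s, ∫⁻ k, phi a c η K r s k ∂μ ≤
        ENNReal.ofReal (C1 ^ r * (C2 * ((K : ℝ) ^ (a ^ r)) ^ (-(2 : ℝ)))) := by
      rw [Fin.prod_univ_castSucc, ENNReal.ofReal_mul (by positivity)]
      gcongr
      · calc ∏ s : Fin r, ∫⁻ k, phi a c η K r s.castSucc k ∂μ ≤ ∏ s : Fin r, ENNReal.ofReal C1 := by
              refine Finset.prod_le_prod' fun s _ => ?_
              simp only [phi, if_neg (Fin.castSucc_lt_last s).ne]
              exact h1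
          _ = ENNReal.ofReal C1 ^ r := by simp
          _ = ENNReal.ofReal (C1 ^ r) := by rw [ENNReal.ofReal_pow hC1]
          _ ≤ _ := le_rfl
      · simp only [phi, if_true]
        exact h2 _ (Real.one_le_rpow hK1 (by positivity))
    have e2 := hR μ n r (phi a c η K r)
    have e3 : ((n + 1 : ℕ) : ℝ≥0∞) = ENNReal.ofReal ((n : ℝ) + 1) := by
      rw [← ENNReal.ofReal_natCast]
      push_cast
      rfl
    have e4 := series_bound ha hC1 hC2 hK h3 r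
    calc _ ≤ ENNReal.ofReal (2 * (1 / ((n : ℝ) + 1)) ^ r) * (ENNReal.ofReal ((n : ℝ) + 1) ^ (r + 1) *
          ENNReal.ofReal (C1 ^ r * (C2 * ((K : ℝ) ^ (a ^ r)) ^ (-(2 : ℝ))))) := by
          gcongr
          refine e2.trans ?_
          rw [e3]
          gcongr
      _ = ENNReal.ofReal (((n : ℝ) + 1) * (2 * (C1 ^ r * (C2 * ((K : ℝ) ^ (a ^ r)) ^ (-(2 : ℝ)))))) := by
          rw [← ENNReal.ofReal_pow hN0.le, ← ENNReal.ofReal_mul (by positivity),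
            ← ENNReal.ofReal_mul (by positivity)]
          congr 1
          rw [one_div, inv_pow, pow_succ]
          field_simp
      _ ≤ _ := by
          apply ENNReal.ofReal_le_ofReal
          calc ((n : ℝ) + 1) * (2 * (C1 ^ r * (C2 * ((K : ℝ) ^ (a ^ r)) ^ (-(2 : ℝ))))) ≤
              ((n : ℝ) + 1) * (2 * (C2 * (K : ℝ) ^ (-(2 : ℝ)) * (1 / 2) ^ r)) := by gcongr
            _ = _ := by ring
  have hgeo : ∑ r ∈ Finset.range (R + 1), ENNReal.ofReal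
      (((n : ℝ) + 1) * (2 * (C2 * (K : ℝ) ^ (-(2 : ℝ)))) * (1 / 2) ^ r) ≤
      ENNReal.ofReal (((n : ℝ) + 1) * (2 * (C2 * (K : ℝ) ^ (-(2 : ℝ)))) * 2) := by
    rw [← ENNReal.ofReal_sum_of_nonneg (fun r _ => by positivity), ← Finset.mul_sum]
    apply ENNReal.ofReal_le_ofReal
    gcongr
    have h4 := geom_sum_eq (show (1 / 2 : ℝ) ≠ 1 by norm_num) (R + 1)
    rw [h4]
    have h5 : (0 : ℝ) < (1 / 2) ^ (R + 1) := by positivity
    rw [div_le_iff_of_neg (by norm_num)]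
    linarith
  rw [lintegral_finsetSum _ (fun i _ => Measurable.of_discrete)]
  calc _ ≤ ∑ i ∈ Finset.range (K + 1),
        ENNReal.ofReal (((n : ℝ) + 1) * (2 * (C2 * (K : ℝ) ^ (-(2 : ℝ)))) * 2) := by
        refine Finset.sum_le_sum fun i _ => ?_
        rw [lintegral_finsetSum _ (fun i _ => Measurable.of_discrete)]
        refine (Finset.sum_le_sum fun r _ => ?_).trans hgeo
        rw [lintegral_const_mul _ Measurable.of_discrete]
        exact hterm r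
    _ = _ := by
        rw [Finset.sum_const, Finset.card_range, nsmul_eq_mul]
        have e3 : ((n + 1 : ℕ) : ℝ≥0∞) = ENNReal.ofReal ((n : ℝ) + 1) := by
          rw [← ENNReal.ofReal_natCast]
          push_cast
          rfl
        have e4 : ((K + 1 : ℕ) : ℝ≥0∞) = ENNReal.ofReal ((K : ℝ) + 1) := by
          rw [← ENNReal.ofReal_natCast]
          push_cast
          rfl
        rw [e3, e4, ← ENNReal.ofReal_mul (by positivity), ← ENNReal.ofReal_mul (by positivity)]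
        congr 1
        ring

end Start2Aux

open Start2Aux in
theorem target_START2 (hC : Target_COND) (hP : Target_PAIR) (hD : Target_DEG)
    (hR : Target_PROD) (hM : Target_MOM) : Target_START2 := by
  intro τ μ _ c₁ C₁ htail ρ _ q hq α κ hα0 hα1 hκ ε hε
  have hτ2 := htail.two_lt
  have hτ3 := htail.lt_three
  -- the exponent `a`
  have hθ : 0 < Real.log (1 / (τ - 2)) := by
    apply Real.log_pos
    rw [lt_div_iff₀ (by linarith)]
    linarith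
  have hκ0 : 0 < κ := lt_trans (div_pos hα0 hθ) hκ
  have h1 : α / κ < Real.log (1 / (τ - 2)) := by
    rw [div_lt_iff₀ hκ0]
    rw [div_lt_iff₀ hθ] at hκ
    linarith
  obtain ⟨l, hl1, hl2⟩ := exists_between h1
  have hακ : 0 < α / κ := div_pos hα0 hκ0
  have hl0 : 0 < l := hακ.trans hl1
  set a := Real.exp l with ha_def
  have ha : 1 < a := Real.one_lt_exp_iff.mpr hl0
  have hla : Real.log a = l := Real.log_exp l
  have haθ : a * (τ - 2) < 1 := by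
    have : a < 1 / (τ - 2) := by
      rw [ha_def, ← Real.lt_log_iff_exp_lt (by apply div_pos one_pos; linarith)]
      exact hl2
    rw [lt_div_iff₀ (by linarith)] at this
    exact this
  have hκa : α / Real.log a < κ := by
    rw [hla, div_lt_iff₀ hl0]
    rw [div_lt_iff₀ hκ0] at hl1
    linarith
  -- constants
  set G : Set (ℝ≥0 × ℝ≥0) := {x | x.1 ≤ q} with hG_def
  have hG : MeasurableSet G := measurableSet_le measurable_fst measurable_const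
  have hp : 0 < (ρ G).toReal := ENNReal.toReal_pos hq (measure_ne_top _ _)
  obtain ⟨c₂, hc₂, hD2⟩ := hD τ μ c₁ C₁ htail (1 / 4) (by norm_num) (by linarith)
  obtain ⟨T, hT, hD3⟩ := hD2 (ε / 2) (ENNReal.half_pos hε.ne')
  obtain ⟨_, _, _, _, hM3, hM4⟩ := hM τ μ c₁ C₁ htail
  obtain ⟨C1, hC1, hM3'⟩ := hM3 1 (by linarith)
  set c : ℝ := (ρ G).toReal * c₂ / (16 * T) with hc_def
  have hc : 0 < c := by positivity
  set η : ℝ := 1 - a * (τ - 2) with hη_def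
  have hη : 0 < η := by linarith
  obtain ⟨C2, hC2, hM4'⟩ := hM4 (1 + 1 / (a - 1)) c η 2 hc hη
  filter_upwards [eventually_ge_atTop 8, ev_K1 (C1 := C1) ha,
    ev_K2 C2 hC2.le (ε / 2) (ENNReal.half_pos hε.ne')] with K hK hK1 hK2
  filter_upwards [hD3, steps (α := α) ha hκa (show 3 ≤ K by omega),
    ev_linear (2 * (K : ℝ)) (2 * κ) 1 one_pos,
    ev_linear (2 * (K : ℝ) * K) (2 * κ * K) (Real.log 2) (Real.log_pos one_lt_two),
    ev_MM hα1 a 1 (1 / 4) one_pos (by norm_num),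
    ev_MM hα1 (1 + a * (τ - 2)) (2 * c₂) 1 (by positivity) one_pos,
    tendsto_lgg.eventually (eventually_ge_atTop 0)] with n hn1 hn2 hn3 hn4 hn5 hn6 hn7
  have hκn : 0 ≤ κ * lgg n := mul_nonneg hκ0.le hn7
  -- covering
  have hcov : ∀ x : Vx n, {p : Cfg n × Marks n | ∃ hd : ∀ v, 0 < fixDeg p.1.deg v, ∃ i ≤ K,
        Hit p.1.pair (firstHalf hd x) K i ∧
        ¬ ∃ (l : ℕ) (y : ℕ → Vx n), y 0 = (wk p.1.pair (firstHalf hd x) i).1 ∧
          y l ∈ core α (fixDeg p.1.deg) ∧ (∀ s < l, y s ∉ core α (fixDeg p.1.deg)) ∧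
          (l : ℝ) ≤ κ * lgg n ∧ ∀ s < l, rd p.1.pair p.2 (y s) (y (s + 1)) ≤ q} ⊆
      SS τ c₂ T α a κ G K n x := by
    rintro x ⟨g, X⟩ ⟨hd, i, hi, hit, hno⟩ _ hpair
    obtain ⟨r, hr, hb⟩ := cover hpair X (firstHalf hd x) (show 2 ≤ K by omega) ha q hit hκn hn2 hno
    exact ⟨i, by simpa [Nat.lt_succ_iff] using hi, r, by simpa [Nat.lt_succ_iff] using hr, hd, hb⟩
  -- integration
  have hint : ∑ x : Vx n, Q μ ρ n (SS τ c₂ T α a κ G K n x) ≤ ε * ((n + 1 : ℕ) : ℝ≥0∞) := by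
    have hQ : ∀ x : Vx n, Q μ ρ n (SS τ c₂ T α a κ G K n x) =
        ∫⁻ δ, ((pairLaw (fixDeg δ)).prod (marksLaw ρ n))
          {p | (Cfg.mk δ p.1, p.2) ∈ SS τ c₂ T α a κ G K n x} ∂(Measure.pi fun _ : Vx n => μ) :=
      fun x => (hC.2.2.2.2.1 μ ρ n _ (fun g => meas_SS τ c₂ T α a κ G hG K n x g)).2
    rw [Finset.sum_congr rfl fun x _ => hQ x, ← lintegral_finsetSum _
      (fun i _ => Measurable.of_discrete)]
    have hpt : ∀ δ : Vx n → ℕ, ∑ x, ((pairLaw (fixDeg δ)).prod (marksLaw ρ n))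
          {p | (Cfg.mk δ p.1, p.2) ∈ SS τ c₂ T α a κ G K n x} ≤
        ({δ | ¬ GoodDeg τ c₂ T (1 / 4) δ}.indicator (fun _ => ((n + 1 : ℕ) : ℝ≥0∞)) δ) +
        ∑ i ∈ Finset.range (K + 1), ∑ r ∈ Finset.range (⌊κ * lgg n⌋₊ + 1),
          ENNReal.ofReal (2 * (1 / ((n : ℝ) + 1)) ^ r) *
          ∑ v ∈ Finset.univ.filter (fun v : Fin (r + 1) → Vx n => Function.Injective v),
            ∏ s, phi a c η K r s (δ (v s)) := by
      intro δ
      by_cases hgood : GoodDeg τ c₂ T (1 / 4) δ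
      · refine le_trans ?_ le_add_self
        exact sum_good hC hP hτ2 haθ hc₂ (by linarith) ha ρ G hG hK hn5 hn6 hκn hn3 hn4 δ hgood
      · refine le_trans ?_ le_self_add
        rw [indicator_of_mem (by exact hgood)]
        haveI := hC.2.1 n (fixDeg δ) (hC.2.2.1 n δ).1
        haveI := probMarks ρ n
        calc _ ≤ ∑ x : Vx n, (1 : ℝ≥0∞) := Finset.sum_le_sum fun x _ => prob_le_one
          _ = ((n + 1 : ℕ) : ℝ≥0∞) := by simp
    refine (lintegral_mono hpt).trans ?_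
    rw [lintegral_add_left Measurable.of_discrete, lintegral_indicator_const
      (DiscreteMeasurableSpace.forall_measurableSet _)]
    have hI := integrated (n := n) (R := ⌊κ * lgg n⌋₊) hR μ ha hC1.le hC2.le
      (show 1 ≤ K by omega) hM3' hM4' hK1
    calc _ ≤ ((n + 1 : ℕ) : ℝ≥0∞) * (ε / 2) + ((n + 1 : ℕ) : ℝ≥0∞) * (ε / 2) := by
          gcongr
          exact hI.trans (by gcongr)
      _ = ε * ((n + 1 : ℕ) : ℝ≥0∞) := by
          rw [← mul_add, ENNReal.add_halves, mul_comm]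
  rw [avg]
  apply ENNReal.div_le_of_le_mul
  exact (Finset.sum_le_sum fun x _ => measure_mono (hcov x)).trans hint

end Pool.Agent.TwoCol
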