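import Mathlib

/-!
# Two-colour competition on the configuration model: definitions

Vertices are `0, …, n` (so `n + 1` vertices).  The degrees are i.i.d. with law `μ`, one half-edge is
added to the last vertex if their sum is odd, and the half-edges are paired uniformly at random.
Every pair of half-edges carries a pair of numbers `X = (X¹, X²)`, independent over the pairs; the edge
made of this pair has red length `c + X¹` and blue length `lam * (c + X²)`.  Coupling (i): `X¹ = X²`;
coupling (ii): `X¹`, `X²` independent.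
-/

open MeasureTheory ProbabilityTheory Filter Topology Set
open scoped ENNReal NNReal

namespace Pool.Agent.TwoCol

/-- Vertices. -/
abbrev Vx (n : ℕ) : Type := Fin (n + 1)

/-- One half-edge is added to the last vertex if the sum of the degrees is odd. -/
def fixDeg {n : ℕ} (δ : Vx n → ℕ) : Vx n → ℕ :=
  if Even (∑ v, δ v) then δ else Function.update δ (Fin.last n) (δ (Fin.last n) + 1)

/-- The half-edges of the degree sequence `d`. -/
abbrev Half {n : ℕ} (d : Vx n → ℕ) : Type := Σ v : Vx n, Fin (d v)

/-- A perfect matching of `H`, as a fixed point free involution. -/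
def IsPairing {H : Type*} (σ : Equiv.Perm H) : Prop := ∀ h, σ (σ h) = h ∧ σ h ≠ h

instance instMeasurableSpacePerm {n : ℕ} (d : Vx n → ℕ) :
    MeasurableSpace (Equiv.Perm (Half d)) := ⊤

/-- The uniform distribution on the perfect matchings of the half-edges. -/
noncomputable def pairLaw {n : ℕ} (d : Vx n → ℕ) : Measure (Equiv.Perm (Half d)) :=
  uniformOn {σ | IsPairing σ}

/-- A realisation of the configuration model: the degrees and the matching of the half-edges. -/
structure Cfg (n : ℕ) where
  /-- degrees -/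
  deg : Vx n → ℕ
  /-- matching -/
  pair : Equiv.Perm (Half (fixDeg deg))

instance instMeasurableSpaceCfg (n : ℕ) : MeasurableSpace (Cfg n) := ⊤

/-- The law of the configuration model with i.i.d. degrees of law `μ`. -/
noncomputable def cfgLaw (μ : Measure ℕ) (n : ℕ) : Measure (Cfg n) :=
  (Measure.pi fun _ : Vx n => μ).bind fun δ => (pairLaw (fixDeg δ)).map (Cfg.mk δ)

/-- Slots for half-edges, independent of the degrees; pairs of slots carry the lengths. -/
abbrev Slot (n : ℕ) : Type := Vx n × ℕ

/-- Slot of a half-edge. -/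
def slot {n : ℕ} {d : Vx n → ℕ} (h : Half d) : Slot n := (h.1, (h.2 : ℕ))

/-- The pair of slots of the edge containing the half-edge `h`. -/
def edge {n : ℕ} {d : Vx n → ℕ} (σ : Equiv.Perm (Half d)) (h : Half d) : Sym2 (Slot n) :=
  s(slot h, slot (σ h))

/-- Lengths: a pair of numbers for every pair of slots. -/
abbrev Marks (n : ℕ) : Type := Sym2 (Slot n) → ℝ≥0 × ℝ≥0

/-- The family of lengths is i.i.d. with law `ρ`. -/
noncomputable def marksLaw (ρ : Measure (ℝ≥0 × ℝ≥0)) (n : ℕ) : Measure (Marks n) :=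
  Measure.infinitePi fun _ : Sym2 (Slot n) => ρ

/-- Time needed by the two colours (`true` is red, `false` is blue) to cross an edge. -/
noncomputable def cross (c lam : ℝ≥0) : Bool → ℝ≥0 × ℝ≥0 → ℝ≥0∞
  | true, x => ((c + x.1 : ℝ≥0) : ℝ≥0∞)
  | false, x => ((lam * (c + x.2) : ℝ≥0) : ℝ≥0∞)

/-- Time needed by the colour `κ` from `u` to `v`: minimum over the edges joining `u` and `v`. -/
noncomputable def wt (c lam : ℝ≥0) {n : ℕ} {d : Vx n → ℕ} (σ : Equiv.Perm (Half d)) (X : Marks n)
    (κ : Bool) (u v : Vx n) : ℝ≥0∞ :=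
  ⨅ h : Half d, ⨅ (_ : h.1 = u ∧ (σ h).1 = v), cross c lam κ (X (edge σ h))

/-- First instant at which the colour `κ` reaches `v`. -/
noncomputable def arr {V : Type*} (W : Bool → V → V → ℝ≥0∞) (src : Bool → V) (t : V → ℝ≥0∞)
    (col : V → Option Bool) (κ : Bool) (v : V) : ℝ≥0∞ :=
  (⨅ (_ : v = src κ), (0 : ℝ≥0∞)) ⊓ ⨅ u : V, ⨅ (_ : col u = some κ), t u + W κ u v

/-- `(t, col)` is the outcome of the competition: `t v` is the instant at which `v` is painted
(`⊤` if never) and `col v` its colour.  The sources are reached at time `0`; a painted vertex passes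
its colour on; a vertex takes the colour that reaches it first, the toss of the coin of the vertex
decides if both colours reach it at the same instant. -/
structure IsPainting {V : Type*} (W : Bool → V → V → ℝ≥0∞) (src : Bool → V) (coin : V → Bool)
    (t : V → ℝ≥0∞) (col : V → Option Bool) : Prop where
  time : ∀ v, t v = arr W src t col true v ⊓ arr W src t col false v
  red : ∀ v, arr W src t col true v < arr W src t col false v → col v = some true
  blue : ∀ v, arr W src t col false v < arr W src t col true v → col v = some false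
  tie : ∀ v, arr W src t col true v = arr W src t col false v → t v ≠ ⊤ → col v = some (coin v)
  never : ∀ v, t v = ⊤ → col v = none

/-- The sample space: configuration model, the two sources, lengths, coins. -/
abbrev Om (n : ℕ) : Type := Cfg n × (Bool → Vx n) × Marks n × (Vx n → Bool)

/-- The law of all the random choices; `μ` is the law of the degrees and `ρ` the joint law of
`(X¹, X²)`. -/
noncomputable def law (μ : Measure ℕ) (ρ : Measure (ℝ≥0 × ℝ≥0)) (n : ℕ) : Measure (Om n) :=
  (cfgLaw μ n).prod ((Measure.pi fun _ : Bool => (uniformOn univ : Measure (Vx n))).prod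
    ((marksLaw ρ n).prod (Measure.pi fun _ : Vx n => (uniformOn univ : Measure Bool))))

/-- The set of vertices eventually painted with the colour `κ`. -/
def painted (c lam : ℝ≥0) {n : ℕ} (κ : Bool) (ω : Om n) : Set (Vx n) :=
  {v | ∃ t col, IsPainting (wt c lam ω.1.pair ω.2.2.1) ω.2.1 ω.2.2.2 t col ∧ col v = some κ}

/-- The assumption on the degree law. -/
structure Tail (τ : ℝ) (μ : Measure ℕ) (c₁ C₁ : ℝ) : Prop where
  two_lt : 2 < τ
  lt_three : τ < 3
  pos : 0 < c₁
  two_le : μ {k | k < 2} = 0
  lower : ∀ x : ℝ, 1 ≤ x → c₁ / x ^ (τ - 1) ≤ μ.real {k : ℕ | x < k}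
  upper : ∀ x : ℝ, 1 ≤ x → μ.real {k : ℕ | x < k} ≤ C₁ / x ^ (τ - 1)

/-- The theorem. -/
def Main : Prop :=
  (∀ (V : Type) [Fintype V] (W : Bool → V → V → ℝ≥0∞) (src : Bool → V) (coin : V → Bool),
    (∃ c : ℝ≥0∞, 0 < c ∧ ∀ κ u v, c ≤ W κ u v) →
    ∃! p : (V → ℝ≥0∞) × (V → Option Bool), IsPainting W src coin p.1 p.2) ∧
  ∀ (τ : ℝ) (μ : Measure ℕ) [IsProbabilityMeasure μ] (c₁ C₁ : ℝ), Tail τ μ c₁ C₁ →
    ∀ (c lam : ℝ≥0), 0 < c → 1 < lam → ∀ (ν : Measure ℝ≥0) [IsProbabilityMeasure ν]
      (ρ : Measure (ℝ≥0 × ℝ≥0)), (ρ = ν.map (fun x => (x, x)) ∨ ρ = ν.prod ν) →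
      (∀ n, IsProbabilityMeasure (law μ ρ n)) ∧
      (∀ ε : ℝ, 0 < ε → Tendsto (fun n : ℕ => law μ ρ n
        {ω | ((painted c lam true ω).ncard : ℝ) < (1 - ε) * (n + 1)}) atTop (𝓝 0)) ∧
      (∀ ε : ℝ, 0 < ε → Tendsto (fun n : ℕ => law μ ρ n
        {ω | ε * (n + 1) < ((painted c lam false ω).ncard : ℝ)}) atTop (𝓝 0))

end Pool.Agent.TwoCol
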