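import Pool.Agent.TwoCol.FinB

/-!
# Final assembly, part C: null sets, essential infimum, parameters
-/

open MeasureTheory ProbabilityTheory Filter Topology Set
open scoped ENNReal NNReal

namespace Pool.Agent.TwoCol.FinAux

lemma exists_essInf (ν : Measure ℝ≥0) [IsProbabilityMeasure ν] :
    ∃ x₀ : ℝ≥0, ν (Iio x₀) = 0 ∧ ∀ q, x₀ < q → ν (Iic q) ≠ 0 := by
  set T : Set ℝ≥0 := {q | ν (Iic q) ≠ 0} with hT
  have hne : T.Nonempty := by
    by_contra h
    rw [not_nonempty_iff_eq_empty] at h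
    have h0 : ∀ k : ℕ, ν (Iic (k : ℝ≥0)) = 0 := by
      intro k
      by_contra hk
      have : (k : ℝ≥0) ∈ T := hk
      rw [h] at this
      exact this
    have hu : (univ : Set ℝ≥0) = ⋃ k : ℕ, Iic (k : ℝ≥0) := by
      ext x
      simp only [mem_univ, mem_iUnion, mem_Iic, true_iff]
      exact exists_nat_ge x
    have : ν univ = 0 := by
      rw [hu]; exact measure_iUnion_null h0
    simp at this
  refine ⟨sInf T, ?_, ?_⟩
  · obtain ⟨u, hu1, hu2, hu3⟩ := exists_seq_tendsto_sInf (α := ℝ≥0) hne (OrderBot.bddBelow T)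
    by_cases h0 : sInf T = 0
    · rw [h0]
      have : (Iio (0 : ℝ≥0)) = ∅ := by ext x; simp
      rw [this]; simp
    · have hlt : 0 < sInf T := pos_iff_ne_zero.2 h0
      obtain ⟨v, hv1, hv2, hv3⟩ := exists_seq_strictMono_tendsto' hlt
      have hU : Iio (sInf T) ⊆ ⋃ k, Iic (v k) := by
        intro x hx
        have := (hv3.eventually (lt_mem_nhds (show x < sInf T from hx))).exists
        obtain ⟨k, hk⟩ := this
        exact mem_iUnion.2 ⟨k, hk.le⟩
      refine measure_mono_null hU (measure_iUnion_null fun k => ?_)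
      by_contra hk
      exact absurd (csInf_le (OrderBot.bddBelow T) (show v k ∈ T from hk)) (not_le.2 (hv2 k).2)
  · intro q hq
    obtain ⟨q', hq', hlt⟩ := (csInf_lt_iff (OrderBot.bddBelow T) hne).1 hq
    exact fun h => hq' (measure_mono_null (Iic_subset_Iic.2 hlt.le) h)

lemma marks_null (ρ : Measure (ℝ≥0 × ℝ≥0)) [IsProbabilityMeasure ρ] (n : ℕ) {x₀ : ℝ≥0}
    (h : ρ {x | x.2 < x₀} = 0) :
    MeasurableSet {X : Marks n | ∃ e, (X e).2 < x₀} ∧
    marksLaw ρ n {X : Marks n | ∃ e, (X e).2 < x₀} = 0 := by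
  have hm : MeasurableSet {x : ℝ≥0 × ℝ≥0 | x.2 < x₀} := measurable_snd measurableSet_Iio
  have he : {X : Marks n | ∃ e, (X e).2 < x₀} =
      ⋃ e : Sym2 (Slot n), (fun X : Marks n => X e) ⁻¹' {x | x.2 < x₀} := by
    ext X; simp
  have hc : Countable (Sym2 (Slot n)) := inferInstance
  rw [he]
  refine ⟨MeasurableSet.iUnion fun e => (measurable_pi_apply e) hm, measure_iUnion_null fun e => ?_⟩
  have := (measurePreserving_eval_infinitePi (fun _ : Sym2 (Slot n) => ρ) e).measure_preimage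
    hm.nullMeasurableSet
  unfold marksLaw
  exact this.trans h

lemma pairing_null (hC : Target_COND) (μ : Measure ℕ) [IsProbabilityMeasure μ] (n : ℕ) :
    cfgLaw μ n {g | ¬ IsPairing g.pair} = 0 := by
  rw [hC.2.2.2.1 μ n]
  have : ∀ δ : Vx n → ℕ, pairLaw (fixDeg δ) {σ | Cfg.mk δ σ ∈ {g : Cfg n | ¬ IsPairing g.pair}} = 0 := by
    intro δ
    unfold pairLaw
    rw [uniformOn_eq_zero_iff (toFinite _)]
    ext σ
    simp
  rw [lintegral_congr this]
  simp

lemma lgg_tendsto : Tendsto lgg atTop atTop := by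
  unfold lgg
  refine Real.tendsto_log_atTop.comp (Real.tendsto_log_atTop.comp ?_)
  exact tendsto_atTop_add_const_right _ _ tendsto_natCast_atTop_atTop

/-- Choice of the parameters. -/
lemma params {τ lam c x₀ : ℝ} (h2 : 2 < τ) (h3 : τ < 3) (hl : 1 < lam) (hc : 0 < c)
    (hx : 0 ≤ x₀) :
    ∃ α α' b κ₁ κ₂ q : ℝ, 0 < α ∧ α < 1 ∧ 0 < α' ∧ α' < α ∧ 1 / (τ - 2) < b ∧ 0 < Real.log b ∧
      α / Real.log (1 / (τ - 2)) < κ₁ ∧ 2 * (1 - α) / Real.log (1 / (τ - 2)) < κ₂ ∧
      0 < κ₁ ∧ 0 < κ₂ ∧ x₀ < q ∧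
      (κ₁ + κ₂) * (c + q) < α' / Real.log b * (lam * (c + x₀)) := by
  set α : ℝ := (2 / (1 + lam) + 1) / 2 with hα
  have hl0 : 0 < 1 + lam := by linarith
  have e1 : 2 / (1 + lam) < 1 := by rw [div_lt_one hl0]; linarith
  have e0 : 0 < 2 / (1 + lam) := by positivity
  have hα1 : α < 1 := by rw [hα]; linarith
  have hα0 : 0 < α := by rw [hα]; linarith
  have hα2 : 2 / (1 + lam) < α := by rw [hα]; linarith
  have hg : 2 - α < lam * α := by
    rw [div_lt_iff₀ hl0] at hα2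
    linarith
  set g : ℝ := lam * α / (2 - α) with hgd
  have h2α : 0 < 2 - α := by linarith
  have hg1 : 1 < g := by rw [hgd, one_lt_div h2α]; exact hg
  have hg0 : 0 < g := by linarith
  set r : ℝ := g ^ (1 / 5 : ℝ) with hr
  have hr1 : 1 < r := Real.one_lt_rpow hg1 (by norm_num)
  have hr0 : 0 < r := by linarith
  have hr4 : r ^ 4 < g := by
    have : r ^ 4 = g ^ (4 / 5 : ℝ) := by
      rw [hr, ← Real.rpow_natCast, ← Real.rpow_mul hg0.le]; norm_num
    rw [this]
    calc g ^ (4 / 5 : ℝ) < g ^ (1 : ℝ) := Real.rpow_lt_rpow_of_exponent_lt hg1 (by norm_num)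
      _ = g := Real.rpow_one g
  have hθ : 0 < τ - 2 := by linarith
  have hθ1 : 1 < 1 / (τ - 2) := by rw [one_lt_div hθ]; linarith
  set Lθ := Real.log (1 / (τ - 2)) with hLθ
  have hL : 0 < Lθ := Real.log_pos hθ1
  refine ⟨α, α / r, Real.exp (r * Lθ), r * (α / Lθ), r * (2 * (1 - α) / Lθ),
    r * (c + x₀) - c, hα0, hα1, by positivity, ?_, ?_, ?_, ?_, ?_, by positivity, ?_, ?_, ?_⟩
  · exact div_lt_self hα0 hr1
  · rw [← Real.log_lt_iff_lt_exp (by positivity), ← hLθ]
    nlinarith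
  · rw [Real.log_exp]; positivity
  · have : 0 < α / Lθ := by positivity
    nlinarith
  · have : 0 < 2 * (1 - α) / Lθ := by
      have : 0 < 1 - α := by linarith
      positivity
    nlinarith
  · have : 0 < 1 - α := by linarith
    positivity
  · have : 0 < c + x₀ := by linarith
    nlinarith
  · rw [Real.log_exp]
    have hcx : 0 < c + x₀ := by linarith
    have e2 : (r * (α / Lθ) + r * (2 * (1 - α) / Lθ)) * (c + (r * (c + x₀) - c)) =
        (r ^ 4 * (2 - α)) * ((c + x₀) / (r ^ 2 * Lθ)) := by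
      field_simp; ring
    have e3 : α / r / (r * Lθ) * (lam * (c + x₀)) = (lam * α) * ((c + x₀) / (r ^ 2 * Lθ)) := by
      field_simp
    rw [e2, e3]
    have e4 : r ^ 4 * (2 - α) < lam * α := by
      rw [hgd, lt_div_iff₀ h2α] at hr4; exact hr4
    have : 0 < (c + x₀) / (r ^ 2 * Lθ) := by positivity
    exact mul_lt_mul_of_pos_right e4 this

end Pool.Agent.TwoCol.FinAux
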