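import Pool.Agent.TwoCol.FinA
import Pool.Agent.TwoCol.FinC

/-!
# Final assembly
-/

open MeasureTheory ProbabilityTheory Filter Topology Set
open scoped ENNReal NNReal

namespace Pool.Agent.TwoCol

namespace FinAux

lemma marg {ν : Measure ℝ≥0} [IsProbabilityMeasure ν] {ρ : Measure (ℝ≥0 × ℝ≥0)}
    (h : ρ = ν.map (fun x => (x, x)) ∨ ρ = ν.prod ν) :
    IsProbabilityMeasure ρ ∧ ∀ S : Set ℝ≥0, MeasurableSet S →
      ρ (Prod.fst ⁻¹' S) = ν S ∧ ρ (Prod.snd ⁻¹' S) = ν S := by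
  have hm : Measurable fun x : ℝ≥0 => (x, x) := measurable_id.prodMk measurable_id
  rcases h with rfl | rfl
  · refine ⟨Measure.isProbabilityMeasure_map hm.aemeasurable, fun S hS => ⟨?_, ?_⟩⟩
    · rw [Measure.map_apply hm (measurable_fst hS)]; rfl
    · rw [Measure.map_apply hm (measurable_snd hS)]; rfl
  · refine ⟨inferInstance, fun S hS => ⟨?_, ?_⟩⟩
    · rw [show (Prod.fst ⁻¹' S : Set (ℝ≥0 × ℝ≥0)) = S ×ˢ univ by ext; simp,
        Measure.prod_prod, measure_univ, mul_one]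
    · rw [show (Prod.snd ⁻¹' S : Set (ℝ≥0 × ℝ≥0)) = univ ×ˢ S by ext; simp,
        Measure.prod_prod, measure_univ, one_mul]

lemma avg_mono {n : ℕ} {f g : Vx n → ℝ≥0∞} (h : ∀ v, f v ≤ g v) : avg f ≤ avg g := by
  unfold avg
  gcongr with v
  exact h v

lemma avg_const {n : ℕ} (a : ℝ≥0∞) : avg (fun _ : Vx n => a) = a := by
  unfold avg
  rw [Finset.sum_const, Finset.card_univ, Fintype.card_fin, nsmul_eq_mul, mul_comm]
  exact ENNReal.mul_div_cancel_right (by simp) (by simp)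

lemma avg_add {n : ℕ} (f g : Vx n → ℝ≥0∞) : avg (fun v => f v + g v) = avg f + avg g := by
  unfold avg
  rw [Finset.sum_add_distrib, ENNReal.add_div]

lemma eventually_params {κ₁ κ₂ c q lam x₀ α' lb : ℝ} (s₀ : ℝ) (hκ₁ : 0 < κ₁) (hκ₂ : 0 < κ₂)
    (hc : 0 < c) (hq : 0 < q) (hlam : 0 < lam) (hx : 0 ≤ x₀) (hα' : 0 < α') (hlb : 0 < lb)
    (h : (κ₁ + κ₂) * (c + q) < α' / lb * (lam * (c + x₀))) :
    ∃ κ₃ κ₄ : ℝ, 0 < κ₄ ∧ ∀ᶠ n : ℕ in atTop,
      κ₁ * lgg n + (⌊α' * lgg n / lb⌋₊ : ℕ) ≤ κ₄ * lgg n ∧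
      κ₁ * lgg n + (⌊κ₃ * lgg n⌋₊ : ℕ) ≤ κ₄ * lgg n ∧
      0 ≤ q * κ₁ * lgg n + s₀ ∧ 0 ≤ κ₁ * lgg n ∧ 0 ≤ κ₂ * lgg n ∧
      (κ₁ * lgg n) * (c + q) + s₀ + (κ₂ * lgg n) * (c + q) <
        ((⌊α' * lgg n / lb⌋₊ : ℕ) + 1) * (lam * (c + x₀)) ∧
      2 * ((κ₁ * lgg n) * (c + q) + s₀) + (κ₂ * lgg n) * (c + q) <
        ((⌊κ₃ * lgg n⌋₊ : ℕ) + 1) * (lam * (c + x₀)) := by
  set cb := lam * (c + x₀) with hcb
  have hcb0 : 0 < cb := by have : 0 < c + x₀ := by linarith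
                           positivity
  set κ₃ := (2 * κ₁ + κ₂) * (c + q) / cb + 1 with hκ₃
  have hκ₃0 : 0 < κ₃ := by positivity
  refine ⟨κ₃, κ₁ + α' / lb + κ₃, by positivity, ?_⟩
  set D := α' / lb * cb - (κ₁ + κ₂) * (c + q) with hD
  have hD0 : 0 < D := by rw [hD]; linarith
  filter_upwards [lgg_tendsto.eventually_ge_atTop 0,
    lgg_tendsto.eventually_gt_atTop (s₀ / D), lgg_tendsto.eventually_gt_atTop (2 * s₀ / cb),
    lgg_tendsto.eventually_ge_atTop (-s₀ / (q * κ₁))] with n h0 h1 h2 h3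
  set ℓ := lgg n
  have f1 : ((⌊α' * ℓ / lb⌋₊ : ℕ) : ℝ) ≤ α' / lb * ℓ := by
    have := Nat.floor_le (show 0 ≤ α' * ℓ / lb by positivity)
    calc _ ≤ _ := this
      _ = _ := by ring
  have f2 : ((⌊κ₃ * ℓ⌋₊ : ℕ) : ℝ) ≤ κ₃ * ℓ := Nat.floor_le (by positivity)
  have f3 : α' / lb * ℓ < ((⌊α' * ℓ / lb⌋₊ : ℕ) : ℝ) + 1 := by
    have := Nat.lt_floor_add_one (α' * ℓ / lb)
    calc α' / lb * ℓ = α' * ℓ / lb := by ring
      _ < _ := this
  have f4 : κ₃ * ℓ < ((⌊κ₃ * ℓ⌋₊ : ℕ) : ℝ) + 1 := Nat.lt_floor_add_one _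
  have hκ3' : 0 ≤ κ₃ * ℓ := by positivity
  have hα3' : 0 ≤ α' / lb * ℓ := by positivity
  refine ⟨?_, ?_, ?_, by positivity, by positivity, ?_, ?_⟩
  · calc κ₁ * ℓ + _ ≤ κ₁ * ℓ + α' / lb * ℓ + κ₃ * ℓ := by linarith
      _ = _ := by ring
  · calc κ₁ * ℓ + _ ≤ κ₁ * ℓ + α' / lb * ℓ + κ₃ * ℓ := by linarith
      _ = _ := by ring
  · rw [div_le_iff₀ (by positivity)] at h3
    linarith
  · rw [div_lt_iff₀ hD0] at h1
    have e1 : (α' / lb * ℓ) * cb < (((⌊α' * ℓ / lb⌋₊ : ℕ) : ℝ) + 1) * cb :=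
      mul_lt_mul_of_pos_right f3 hcb0
    have e2 : ℓ * D = (α' / lb * ℓ) * cb - ((κ₁ * ℓ) * (c + q) + (κ₂ * ℓ) * (c + q)) := by
      rw [hD]; ring
    linarith
  · rw [div_lt_iff₀ hcb0] at h2
    have e1 : (κ₃ * ℓ) * cb < (((⌊κ₃ * ℓ⌋₊ : ℕ) : ℝ) + 1) * cb :=
      mul_lt_mul_of_pos_right f4 hcb0
    have e2 : (κ₃ * ℓ) * cb = (2 * κ₁ + κ₂) * (c + q) * ℓ + ℓ * cb := by
      rw [hκ₃]; field_simp
    linarith

/-- The probabilistic core of the proof. -/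
lemma key (hX : Target_EXU) (hDet : Target_DET) (hC : Target_COND) (hB : Target_BLUE)
    (hCo : Target_CORE) (hS : Target_START) (hBall : Target_BALL)
    (τ : ℝ) (μ : Measure ℕ) [IsProbabilityMeasure μ] (c₁ C₁ : ℝ) (hT : Tail τ μ c₁ C₁)
    (c lam : ℝ≥0) (hc : 0 < c) (hlam : 1 < lam) (ν : Measure ℝ≥0) [IsProbabilityMeasure ν]
    (ρ : Measure (ℝ≥0 × ℝ≥0)) (hρ : ρ = ν.map (fun x => (x, x)) ∨ ρ = ν.prod ν)
    (ε : ℝ≥0∞) (hε : 0 < ε) :
    ∀ᶠ n : ℕ in atTop, ∃ (N : Set (Om n)) (E : Vx n → Set (Om n)), law μ ρ n N = 0 ∧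
      (∀ w, MeasurableSet (E w)) ∧ avg (fun w => law μ ρ n (E w)) ≤ ε ∧
      ∀ ω, ω ∉ N → ∀ w, ω ∉ E w →
        w ∈ painted c lam true ω ∧ w ∉ painted c lam false ω := by
  classical
  obtain ⟨hρp, hmarg⟩ := marg hρ
  obtain ⟨x₀, hx1, hx2⟩ := exists_essInf ν
  obtain ⟨α, α', b, κ₁, κ₂, q, hα0, hα1, hα'0, hα', hb, hlb, hκ₁, hκ₂, hκ₁0, hκ₂0, hq, hineq⟩ :=
    params (c := c) (lam := lam) (x₀ := x₀) hT.two_lt hT.lt_three (by exact_mod_cast hlam)
      (by exact_mod_cast hc) x₀.2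
  have hlam0 : 0 < lam := lt_trans one_pos hlam
  obtain ⟨q, rfl⟩ : ∃ q' : ℝ≥0, q = q' := ⟨⟨q, (x₀.2.trans hq.le)⟩, rfl⟩
  have hqx : x₀ < q := by exact_mod_cast hq
  have hq0 : (0 : ℝ) < q := lt_of_le_of_lt x₀.2 hq
  have hρq : ρ {x | x.1 ≤ q} ≠ 0 := by
    have := (hmarg (Iic q) measurableSet_Iic).1
    intro h
    exact hx2 q hqx (this ▸ h)
  have hρx : ρ {x | x.2 < x₀} = 0 := by
    have := (hmarg (Iio x₀) measurableSet_Iio).2
    exact this.trans hx1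
  set ε' : ℝ≥0∞ := ε / 6 with hε'
  have hε'0 : 0 < ε' := ENNReal.div_pos hε.ne' (by simp)
  obtain ⟨s₀, hS⟩ := hS τ μ c₁ C₁ hT ρ q hρq α κ₁ hα0 hα1 hκ₁ ε' hε'0
  obtain ⟨κ₃, κ₄, hκ₄, hev⟩ := eventually_params (κ₁ := κ₁) (κ₂ := κ₂) (c := c) (q := q)
    (lam := lam) (x₀ := x₀) (α' := α') (lb := Real.log b) s₀ hκ₁0 hκ₂0 (by exact_mod_cast hc)
    hq0 (by exact_mod_cast hlam0) x₀.2 hα'0 hlb hineq
  filter_upwards [hB τ μ c₁ C₁ hT b α α' hb hα'0 hα' hα1 ε' hε'0,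
    hCo τ μ c₁ C₁ hT ρ q hρq α κ₂ hα0 hα1 hκ₂ ε' hε'0, hS,
    hBall.2 α κ₄ hα0 hα1 hκ₄ ε' hε'0, hev] with n pB pC pS pBall pev
  obtain ⟨p1, p2, p3, p4, p5, p6, p7⟩ := pev
  have hcp := hC.1 μ n
  set J := ⌊α' * lgg n / Real.log b⌋₊
  set k := ⌊κ₃ * lgg n⌋₊
  -- the events
  let B1 : Vx n → Set (Cfg n) := fun x => {g | x ∈ core α (fixDeg g.deg) ∨
      ∃ u ∈ ball (Adj g.pair) (core α (fixDeg g.deg)) x J,
        ∃ v ∈ core α (fixDeg g.deg), Adj g.pair u v}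
  let B2 : Set (Cfg n × Marks n) := {p | ¬ ∀ u ∈ core α (fixDeg p.1.deg),
      ∀ v ∈ core α (fixDeg p.1.deg),
      ∃ (l : ℕ) (y : ℕ → Vx n), y 0 = u ∧ y l = v ∧ (l : ℝ) ≤ κ₂ * lgg n ∧
        (∀ i ≤ l, y i ∈ core α (fixDeg p.1.deg)) ∧
        ∀ i < l, rd p.1.pair p.2 (y i) (y (i + 1)) ≤ q}
  let B3 : Vx n → Set (Cfg n × Marks n) := fun x => {p | ¬ ∃ (l : ℕ) (y : ℕ → Vx n), y 0 = x ∧
          y l ∈ core α (fixDeg p.1.deg) ∧ (∀ s < l, y s ∉ core α (fixDeg p.1.deg)) ∧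
          (l : ℝ) ≤ κ₁ * lgg n ∧
          ∑ s ∈ Finset.range l, rd p.1.pair p.2 (y s) (y (s + 1)) ≤
            ENNReal.ofReal (q * κ₁ * lgg n + s₀)}
  let B4 : Vx n → Vx n → Set (Cfg n) := fun x b =>
    {g | b ∈ ball (Adj g.pair) (core α (fixDeg g.deg)) x ⌊κ₄ * lgg n⌋₊}
  have hmeasC : ∀ T : Set (Cfg n), MeasurableSet T := fun T => trivial
  let S : Vx n → (Bool → Vx n) → Set (Cfg n × Marks n) := fun w s =>
    (B1 (s false) ×ˢ univ) ∪ toMeasurable (Q μ ρ n) B2 ∪ toMeasurable (Q μ ρ n) (B3 (s true)) ∪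
      toMeasurable (Q μ ρ n) (B3 w) ∪ (B4 (s true) (s false) ×ˢ univ) ∪ (B4 w (s false) ×ˢ univ)
  have hSm : ∀ w s, MeasurableSet (S w s) := by
    intro w s
    refine ((((MeasurableSet.union ?_ (measurableSet_toMeasurable _ _)).union
      (measurableSet_toMeasurable _ _)).union (measurableSet_toMeasurable _ _)).union ?_).union ?_
    all_goals exact (hmeasC _).prod MeasurableSet.univ
  let N : Set (Om n) := {ω | (ω.1, ω.2.2.1) ∈ (univ ×ˢ {X : Marks n | ∃ e, (X e).2 < x₀} ∪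
    {g : Cfg n | ¬ IsPairing g.pair} ×ˢ univ : Set (Cfg n × Marks n))}
  obtain ⟨mN, hN⟩ := marks_null ρ n hρx
  refine ⟨N, fun w => {ω | (ω.1, ω.2.2.1) ∈ S w ω.2.1}, ?_, fun w =>
    (law_src hC μ ρ n (S w) (hSm w)).1, ?_, ?_⟩
  · -- null set
    have h1 := (law_src hC μ ρ n (fun _ => univ ×ˢ {X : Marks n | ∃ e, (X e).2 < x₀} ∪
      {g : Cfg n | ¬ IsPairing g.pair} ×ˢ univ)
      (fun _ => (MeasurableSet.univ.prod mN).union ((hmeasC _).prod MeasurableSet.univ))).2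
    refine h1.trans ?_
    have h2 : Q μ ρ n (univ ×ˢ {X : Marks n | ∃ e, (X e).2 < x₀} ∪
      {g : Cfg n | ¬ IsPairing g.pair} ×ˢ univ) = 0 := by
      refine measure_union_null ?_ ?_
      · unfold Q
        rw [Measure.prod_prod, hN, mul_zero]
      · unfold Q
        rw [Measure.prod_prod, pairing_null hC μ n, zero_mul]
    simp [h2]
  · -- bound
    have hQ1 : ∀ T : Set (Cfg n), Q μ ρ n (T ×ˢ univ) = cfgLaw μ n T := by
      intro T
      unfold Q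
      rw [Measure.prod_prod, measure_univ, mul_one]
    have hB4 : ∀ x, avg (fun b => cfgLaw μ n (B4 x b)) ≤ ε' := by
      intro x
      have e1 : avg (fun b => cfgLaw μ n (B4 x b)) =
          ∫⁻ g, avg (fun b : Vx n => if b ∈ ball (Adj g.pair) (core α (fixDeg g.deg)) x
            ⌊κ₄ * lgg n⌋₊ then (1 : ℝ≥0∞) else 0) ∂(cfgLaw μ n) := by
        unfold avg
        simp only [ENNReal.div_eq_inv_mul]
        rw [lintegral_const_mul _ measurable_from_top,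
          lintegral_finsetSum _ fun _ _ => measurable_from_top]
        congr 1
        refine Finset.sum_congr rfl fun b _ => ?_
        have : (fun g : Cfg n => if b ∈ ball (Adj g.pair) (core α (fixDeg g.deg)) x
            ⌊κ₄ * lgg n⌋₊ then (1 : ℝ≥0∞) else 0) = (B4 x b).indicator 1 := by
          funext g
          rfl
        rw [this, lintegral_indicator_one (hmeasC _)]
      rw [e1]
      calc _ ≤ ∫⁻ _, ε' ∂(cfgLaw μ n) := lintegral_mono fun g => by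
            refine le_of_eq_of_le ?_ (pBall (fixDeg g.deg) g.pair x)
            unfold avg
            refine congrArg (fun z : ℝ≥0∞ => z / _) (Finset.sum_congr rfl fun b _ => ?_)
            by_cases h : b ∈ ball (Adj g.pair) (core α (fixDeg g.deg)) x ⌊κ₄ * lgg n⌋₊
            · exact (if_pos h).trans (if_pos h).symm
            · exact (if_neg h).trans (if_neg h).symm
        _ = ε' := by simp
    have hlaw : ∀ w, law μ ρ n {ω | (ω.1, ω.2.2.1) ∈ S w ω.2.1} ≤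
        ((((ε' + ε') + ε') + Q μ ρ n (B3 w)) + ε') + ε' := by
      intro w
      rw [(law_src hC μ ρ n (S w) (hSm w)).2]
      have hbd : ∀ s, Q μ ρ n (S w s) ≤ ((((cfgLaw μ n (B1 (s false)) + ε') + Q μ ρ n (B3 (s true)))
          + Q μ ρ n (B3 w)) + cfgLaw μ n (B4 (s true) (s false))) + cfgLaw μ n (B4 w (s false)) := by
        intro s
        refine (measure_union_le _ _).trans (add_le_add ?_ (hQ1 _).le)
        refine (measure_union_le _ _).trans (add_le_add ?_ (hQ1 _).le)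
        refine (measure_union_le _ _).trans (add_le_add ?_ (measure_toMeasurable _).le)
        refine (measure_union_le _ _).trans (add_le_add ?_ (measure_toMeasurable _).le)
        refine (measure_union_le _ _).trans (add_le_add (hQ1 _).le ?_)
        exact (measure_toMeasurable _).le.trans pC
      refine (lintegral_mono hbd).trans ?_
      have mm : ∀ f : (Bool → Vx n) → ℝ≥0∞, Measurable f := fun f => measurable_of_countable f
      rw [lintegral_add_left (mm _), lintegral_add_left (mm _), lintegral_add_left (mm _),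
        lintegral_add_left (mm _), lintegral_add_left (mm _)]
      rw [lint_src_one n false (fun b => cfgLaw μ n (B1 b)),
        lint_src_one n true (fun b => Q μ ρ n (B3 b)),
        lint_src_one n false (fun b => cfgLaw μ n (B4 w b)),
        lint_src_two n (fun x b => cfgLaw μ n (B4 x b))]
      simp only [lintegral_const, measure_univ, mul_one]
      have h4 : avg (fun x => avg fun b => cfgLaw μ n (B4 x b)) ≤ ε' :=
        (avg_mono hB4).trans (avg_const _).le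
      exact add_le_add (add_le_add (add_le_add (add_le_add (add_le_add pB le_rfl) pS) le_rfl) h4)
        (hB4 w)
    calc avg (fun w => law μ ρ n {ω | (ω.1, ω.2.2.1) ∈ S w ω.2.1}) ≤
        avg (fun w => ((((ε' + ε') + ε') + Q μ ρ n (B3 w)) + ε') + ε') := avg_mono hlaw
      _ ≤ ((((ε' + ε') + ε') + ε') + ε') + ε' := by
        rw [avg_add, avg_add, avg_add, avg_const, avg_const]
        exact add_le_add (add_le_add (add_le_add le_rfl pS) le_rfl) le_rfl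
      _ = 6 * ε' := by ring
      _ = ε := by rw [hε']; exact ENNReal.mul_div_cancel (by simp) (by simp)
  · -- conclusion
    intro ω hωN w hωE
    have n1 : IsPairing ω.1.pair := by
      by_contra h
      exact hωN (Or.inr ⟨h, trivial⟩)
    have n2 : ∀ e, x₀ ≤ (ω.2.2.1 e).2 := by
      intro e
      by_contra h
      exact hωN (Or.inl ⟨trivial, e, not_le.1 h⟩)
    have hnot : (ω.1, ω.2.2.1) ∉ S w ω.2.1 := hωE
    simp only [S, mem_union, not_or] at hnot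
    obtain ⟨⟨⟨⟨⟨m1, m2⟩, m3⟩, m4⟩, m5⟩, m6⟩ := hnot
    have m2' : (ω.1, ω.2.2.1) ∉ B2 := fun h => m2 (subset_toMeasurable _ _ h)
    have m3' : (ω.1, ω.2.2.1) ∉ B3 (ω.2.1 true) := fun h => m3 (subset_toMeasurable _ _ h)
    have m4' : (ω.1, ω.2.2.1) ∉ B3 w := fun h => m4 (subset_toMeasurable _ _ h)
    have m1' : ω.1 ∉ B1 (ω.2.1 false) := fun h => m1 ⟨h, trivial⟩
    have m5' : ω.1 ∉ B4 (ω.2.1 true) (ω.2.1 false) := fun h => m5 ⟨h, trivial⟩
    have m6' : ω.1 ∉ B4 w (ω.2.1 false) := fun h => m6 ⟨h, trivial⟩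
    have hall : ∀ t col, IsPainting (wt c lam ω.1.pair ω.2.2.1) ω.2.1 ω.2.2.2 t col →
        col w = some true := by
      intro t col hp
      refine good hDet hBall hc hlam0 n1 n2 hp (α := α) (κ₁ := κ₁) (κ₂ := κ₂) (κ₄ := κ₄)
        (s₀ := s₀) (J := J) (k := k) (q := q) ?_ ?_ ?_ w ?_ ?_ p1 p2 p3 p4 p5 p6 p7
      · exact fun h => m1' (Or.inl h)
      · exact fun u hu v hv hA => m1' (Or.inr ⟨u, hu, v, hv, hA⟩)
      · exact not_not.1 m2'
      · rintro x (rfl | rfl)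
        · exact not_not.1 m3'
        · exact not_not.1 m4'
      · rintro x (rfl | rfl)
        · exact m5'
        · exact m6'
    obtain ⟨p, hp, -⟩ := hX (Vx n) (wt c lam ω.1.pair ω.2.2.1) ω.2.1 ω.2.2.2
      (wt_pos hc hlam0)
    refine ⟨⟨p.1, p.2, hp, hall _ _ hp⟩, ?_⟩
    rintro ⟨t, col, hp', hcol⟩
    rw [hall t col hp'] at hcol
    simp at hcol

end FinAux

open FinAux

theorem target_FIN (hX : Target_EXU) (hDet : Target_DET) (hC : Target_COND) (hB : Target_BLUE)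
    (hCo : Target_CORE) (hS : Target_START) (hBall : Target_BALL) : Main := by
  refine ⟨hX, ?_⟩
  intro τ μ _ c₁ C₁ hT c lam hc hlam ν _ ρ hρ
  have hρp := (marg hρ).1
  refine ⟨fun n => prob_law hC μ ρ n, ?_, ?_⟩
  all_goals
    intro ε hε
    rw [ENNReal.tendsto_nhds_zero]
    intro η hη
    have hη' : 0 < η * ENNReal.ofReal ε :=
      ENNReal.mul_pos hη.ne' (by simp [ENNReal.ofReal_eq_zero, hε])
    filter_upwards [key hX hDet hC hB hCo hS hBall τ μ c₁ C₁ hT c lam hc hlam ν ρ hρ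
      (η * ENNReal.ofReal ε) hη'] with n hn
    obtain ⟨N, E, hN, hE, hav, hgood⟩ := hn
    have hmk := markov (law μ ρ n) n E hE ε hε
    have hfin : (ENNReal.ofReal ε)⁻¹ * avg (fun w => law μ ρ n (E w)) ≤ η := by
      calc _ ≤ (ENNReal.ofReal ε)⁻¹ * (η * ENNReal.ofReal ε) := by gcongr
        _ = η := by
          rw [mul_comm η, ← mul_assoc, ENNReal.inv_mul_cancel (by simp [ENNReal.ofReal_eq_zero, hε])
            ENNReal.ofReal_ne_top, one_mul]
    have hsub : ∀ T : Set (Om n), T ⊆ N ∪ {ω | ε * (n + 1) <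
        (({w | ω ∈ E w} : Set (Vx n)).ncard : ℝ)} → law μ ρ n T ≤ η := by
      intro T hT
      calc law μ ρ n T ≤ _ := measure_mono hT
        _ ≤ law μ ρ n N + law μ ρ n {ω | ε * (n + 1) <
          (({w | ω ∈ E w} : Set (Vx n)).ncard : ℝ)} := measure_union_le _ _
        _ ≤ 0 + η := add_le_add hN.le (hmk.trans hfin)
        _ = η := zero_add _
    apply hsub
    intro ω hω
    by_cases hωN : ω ∈ N
    · exact Or.inl hωN
    right
  · -- red
    have h1 : {w : Vx n | ω ∉ E w} ⊆ painted c lam true ω := fun w hw => (hgood ω hωN w hw).1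
    have h2 := Set.ncard_le_ncard h1 (toFinite _)
    have h3 : ({w : Vx n | ω ∈ E w}).ncard + ({w : Vx n | ω ∉ E w}).ncard = n + 1 := by
      have := Set.ncard_add_ncard_compl {w : Vx n | ω ∈ E w}
      rw [Nat.card_eq_fintype_card, Fintype.card_fin] at this
      exact this
    have h4 : ((({w : Vx n | ω ∈ E w}).ncard : ℕ) : ℝ) + (({w : Vx n | ω ∉ E w}).ncard : ℕ) = n + 1 := by
      exact_mod_cast h3
    have h5 : ((({w : Vx n | ω ∉ E w}).ncard : ℕ) : ℝ) ≤ ((painted c lam true ω).ncard : ℝ) := by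
      exact_mod_cast h2
    have h6 : ((painted c lam true ω).ncard : ℝ) < (1 - ε) * (n + 1) := hω
    change ε * (n + 1) < (({w | ω ∈ E w} : Set (Vx n)).ncard : ℝ)
    linarith
  · -- blue
    have h1 : painted c lam false ω ⊆ {w : Vx n | ω ∈ E w} := fun w hw => by
      by_contra h
      exact (hgood ω hωN w h).2 hw
    have h2 := Set.ncard_le_ncard h1 (toFinite _)
    have h6 : ε * (n + 1) < ((painted c lam false ω).ncard : ℝ) := hω
    change ε * (n + 1) < (({w | ω ∈ E w} : Set (Vx n)).ncard : ℝ)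
    exact lt_of_lt_of_le h6 (by exact_mod_cast h2)

end Pool.Agent.TwoCol
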