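import Pool.Agent.TwoCol.Spec

/-!
# Final assembly, part A: deterministic consequences
-/

open MeasureTheory ProbabilityTheory Filter Topology Set
open scoped ENNReal NNReal

namespace Pool.Agent.TwoCol.FinAux

variable {n : ℕ} {d : Vx n → ℕ}

lemma adj_of_wt {c lam : ℝ≥0} {σ : Equiv.Perm (Half d)} {X : Marks n} {κ : Bool} {u v : Vx n}
    (h : wt c lam σ X κ u v ≠ ⊤) : Adj σ u v := by
  by_contra hA
  apply h
  unfold wt
  simp only [iInf_eq_top]
  intro h' hh
  exact absurd ⟨h', hh⟩ hA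

lemma adj_of_rd {σ : Equiv.Perm (Half d)} {X : Marks n} {u v : Vx n}
    (h : rd σ X u v ≠ ⊤) : Adj σ u v := by
  by_contra hA
  apply h
  unfold rd
  simp only [iInf_eq_top]
  intro h' hh
  exact absurd ⟨h', hh⟩ hA

lemma le_wt_false {c lam x₀ : ℝ≥0} {σ : Equiv.Perm (Half d)} {X : Marks n}
    (hX : ∀ e, x₀ ≤ (X e).2) (u v : Vx n) :
    ((lam * (c + x₀) : ℝ≥0) : ℝ≥0∞) ≤ wt c lam σ X false u v := by
  unfold wt
  refine le_iInf fun h => le_iInf fun _ => ?_
  simp only [cross]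
  have := hX (edge σ h)
  exact_mod_cast (by gcongr : lam * (c + x₀) ≤ lam * (c + (X (edge σ h)).2))

lemma wt_true {c lam : ℝ≥0} {σ : Equiv.Perm (Half d)} {X : Marks n} (u v : Vx n) :
    wt c lam σ X true u v = c + rd σ X u v := by
  unfold wt rd
  rw [ENNReal.add_iInf]
  refine iInf_congr fun h => ?_
  rw [ENNReal.add_iInf]
  refine iInf_congr fun _ => ?_
  simp [cross]

lemma wt_pos {c lam : ℝ≥0} (hc : 0 < c) (hl : 0 < lam) {σ : Equiv.Perm (Half d)} {X : Marks n} :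
    ∃ c' : ℝ≥0∞, 0 < c' ∧ ∀ κ u v, c' ≤ wt c lam σ X κ u v := by
  refine ⟨((min c (lam * c) : ℝ≥0) : ℝ≥0∞), ?_, ?_⟩
  · exact_mod_cast lt_min hc (mul_pos hl hc)
  · intro κ u v
    unfold wt
    refine le_iInf fun h => le_iInf fun _ => ?_
    cases κ
    · simp only [cross]
      refine ENNReal.coe_le_coe.2 ((min_le_right _ _).trans ?_)
      gcongr
      simp
    · simp only [cross]
      refine ENNReal.coe_le_coe.2 ((min_le_left _ _).trans ?_)
      simp

lemma edge_symm {σ : Equiv.Perm (Half d)} (hσ : IsPairing σ) (h : Half d) :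
    edge σ (σ h) = edge σ h := by
  unfold edge
  rw [(hσ h).1, Sym2.eq_swap]

lemma adj_symm {σ : Equiv.Perm (Half d)} (hσ : IsPairing σ) {u v : Vx n} (h : Adj σ u v) :
    Adj σ v u := by
  obtain ⟨h, h1, h2⟩ := h
  exact ⟨σ h, h2, by rw [(hσ h).1]; exact h1⟩

lemma rd_symm {σ : Equiv.Perm (Half d)} (hσ : IsPairing σ) {X : Marks n} (u v : Vx n) :
    rd σ X u v = rd σ X v u := by
  have key : ∀ u v : Vx n, rd σ X u v ≤ rd σ X v u := by
    intro u v
    unfold rd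
    refine le_iInf fun h => le_iInf fun hh => ?_
    refine (iInf_le _ (σ h)).trans ((iInf_le _ ⟨hh.2, by rw [(hσ h).1]; exact hh.1⟩).trans ?_)
    rw [edge_symm hσ]
  exact le_antisymm (key u v) (key v u)

lemma ball_mono {V : Type*} {A : V → V → Prop} {S : Set V} {x : V} {k l : ℕ} (h : k ≤ l) :
    ball A S x k ⊆ ball A S x l := by
  induction l, h using Nat.le_induction with
  | base => exact subset_rfl
  | succ l _ ih => exact ih.trans subset_union_left

/-- The deterministic conclusion for a configuration without bad events. -/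
lemma good (hDet : Target_DET) (hBall : Target_BALL) {c lam x₀ q : ℝ≥0}
    (hc : 0 < c) (hlam : 0 < lam) {σ : Equiv.Perm (Half d)} (hσ : IsPairing σ) {X : Marks n}
    (hX : ∀ e, x₀ ≤ (X e).2) {src : Bool → Vx n} {coin : Vx n → Bool} {t : Vx n → ℝ≥0∞}
    {col : Vx n → Option Bool} (hp : IsPainting (wt c lam σ X) src coin t col)
    {α κ₁ κ₂ κ₄ s₀ : ℝ} {J k : ℕ}
    (b1 : src false ∉ core α d)
    (b2 : ∀ u ∈ ball (Adj σ) (core α d) (src false) J, ∀ v ∈ core α d, ¬ Adj σ u v)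
    (co : ∀ u ∈ core α d, ∀ v ∈ core α d,
      ∃ (l : ℕ) (y : ℕ → Vx n), y 0 = u ∧ y l = v ∧ (l : ℝ) ≤ κ₂ * lgg n ∧
        (∀ i ≤ l, y i ∈ core α d) ∧ ∀ i < l, rd σ X (y i) (y (i + 1)) ≤ q)
    (w : Vx n)
    (st : ∀ x, x = src true ∨ x = w → ∃ (l : ℕ) (y : ℕ → Vx n), y 0 = x ∧
          y l ∈ core α d ∧ (∀ s < l, y s ∉ core α d) ∧
          (l : ℝ) ≤ κ₁ * lgg n ∧
          ∑ s ∈ Finset.range l, rd σ X (y s) (y (s + 1)) ≤
            ENNReal.ofReal (q * κ₁ * lgg n + s₀))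
    (ba : ∀ x, x = src true ∨ x = w →
      src false ∉ ball (Adj σ) (core α d) x ⌊κ₄ * lgg n⌋₊)
    (hJ4 : κ₁ * lgg n + J ≤ κ₄ * lgg n) (hk4 : κ₁ * lgg n + k ≤ κ₄ * lgg n)
    (h0 : 0 ≤ q * κ₁ * lgg n + s₀) (h1 : 0 ≤ κ₁ * lgg n) (h2 : 0 ≤ κ₂ * lgg n)
    (hJ : (κ₁ * lgg n) * (c + q) + s₀ + (κ₂ * lgg n) * (c + q) < (J + 1) * (lam * (c + x₀)))
    (hk : 2 * ((κ₁ * lgg n) * (c + q) + s₀) + (κ₂ * lgg n) * (c + q) <
      (k + 1) * (lam * (c + x₀))) :
    col w = some true := by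
  have hcost : ∀ (l : ℕ) (y : ℕ → Vx n), (l : ℝ) ≤ κ₁ * lgg n →
      ∑ s ∈ Finset.range l, rd σ X (y s) (y (s + 1)) ≤ ENNReal.ofReal (q * κ₁ * lgg n + s₀) →
      ∑ s ∈ Finset.range l, wt c lam σ X true (y s) (y (s + 1)) ≤
        ENNReal.ofReal ((κ₁ * lgg n) * (c + q) + s₀) := by
    intro l y hl hs
    simp only [wt_true]
    rw [Finset.sum_add_distrib, Finset.sum_const, Finset.card_range, nsmul_eq_mul]
    have e1 : (l : ℝ≥0∞) * (c : ℝ≥0∞) ≤ ENNReal.ofReal ((κ₁ * lgg n) * c) := by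
      rw [show (l : ℝ≥0∞) * (c : ℝ≥0∞) = ENNReal.ofReal ((l : ℝ) * c) by
        rw [ENNReal.ofReal_mul (by positivity)]; simp]
      exact ENNReal.ofReal_le_ofReal (mul_le_mul_of_nonneg_right hl c.2)
    calc _ ≤ ENNReal.ofReal ((κ₁ * lgg n) * c) + ENNReal.ofReal (q * κ₁ * lgg n + s₀) :=
          add_le_add e1 hs
      _ = ENNReal.ofReal ((κ₁ * lgg n) * c + (q * κ₁ * lgg n + s₀)) :=
          (ENNReal.ofReal_add (mul_nonneg h1 c.2) h0).symm
      _ = _ := by congr 1; ring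
  obtain ⟨l, y, hy0, hyl, hyc, hl, hsum⟩ := st (src true) (Or.inl rfl)
  obtain ⟨l', y', hy0', hyl', hyc', hl', hsum'⟩ := st w (Or.inr rfl)
  have hadj : ∀ (l : ℕ) (y : ℕ → Vx n),
      ∑ s ∈ Finset.range l, rd σ X (y s) (y (s + 1)) ≤ ENNReal.ofReal (q * κ₁ * lgg n + s₀) →
      ∀ i < l, Adj σ (y i) (y (i + 1)) := by
    intro l y hs i hi
    apply adj_of_rd (X := X)
    have := Finset.single_le_sum (f := fun s => rd σ X (y s) (y (s + 1)))
      (fun _ _ => zero_le) (Finset.mem_range.2 hi)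
    exact ne_top_of_le_ne_top ENNReal.ofReal_ne_top (this.trans hs)
  obtain ⟨g1, g2, g3⟩ := hBall.1 (Vx n) (Adj σ) (core α d) (fun u v h => adj_symm hσ h)
  have hreach : ∀ (x : Vx n) (l : ℕ) (y : ℕ → Vx n) (k i : ℕ), y 0 = x → i < l →
      (∀ s < l, y s ∉ core α d) → (∀ i < l, Adj σ (y i) (y (i + 1))) → (l : ℝ) ≤ κ₁ * lgg n →
      κ₁ * lgg n + k ≤ κ₄ * lgg n → src false ∉ ball (Adj σ) (core α d) x ⌊κ₄ * lgg n⌋₊ →
      y i ∉ ball (Adj σ) (core α d) (src false) k := by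
    intro x l y k i hy0 hi hyc hA hl hk4 hx hmem
    apply hx
    have e1 := g1 _ _ _ hmem
    have e2 : y i ∈ ball (Adj σ) (core α d) x i := by
      rw [← hy0]
      exact g3 i y (fun s hs => hyc s (by omega)) (fun s hs => hA s (by omega))
    have e3 := g2 _ _ _ _ _ e2 e1
    refine ball_mono ?_ e3
    apply Nat.le_floor
    push_cast
    have : (i : ℝ) ≤ l := by exact_mod_cast hi.le
    linarith
  have hs0 : 0 ≤ (κ₁ * lgg n) * (c + q) + s₀ := by
    have : (0 : ℝ) ≤ (κ₁ * lgg n) * c := mul_nonneg h1 c.2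
    nlinarith
  have hs2 : 0 ≤ (κ₂ * lgg n) * ((c : ℝ) + q) := mul_nonneg h2 (by positivity)
  have hcb : ∀ m : ℕ, ((m : ℝ≥0∞) + 1) * ((lam * (c + x₀) : ℝ≥0) : ℝ≥0∞) =
      ENNReal.ofReal (((m : ℝ) + 1) * (lam * (c + x₀))) := by
    intro m
    rw [ENNReal.ofReal_mul (by positivity), ENNReal.ofReal_add (by positivity) (by positivity)]
    simp only [ENNReal.ofReal_natCast, ENNReal.ofReal_one]
    congr 1
    rw [show ((lam : ℝ) * (c + x₀)) = ((lam * (c + x₀) : ℝ≥0) : ℝ) by push_cast; rfl]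
    rw [ENNReal.ofReal_coe_nnreal]
  have := hDet (Vx n) (wt c lam σ X) src coin t col hp (Adj σ) (fun u v h => adj_of_wt h)
    (core α d) ((lam * (c + x₀) : ℝ≥0) : ℝ≥0∞)
    (by
      have : 0 < lam * (c + x₀) := mul_pos hlam (add_pos_of_pos_of_nonneg hc (zero_le))
      exact_mod_cast this.ne')
    (le_wt_false hX)
    (fun u v => by
      rw [wt_true]
      have : (0 : ℝ≥0∞) < c := by exact_mod_cast hc
      exact (lt_of_lt_of_le this le_self_add).ne')
    J k b1 (fun u hu v hA hv => b2 u hu v hv hA) l y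
    (ENNReal.ofReal ((κ₁ * lgg n) * (c + q) + s₀)) hy0 hyl
    (fun i hi => hreach (src true) l y J i hy0 hi hyc (hadj l y hsum) hl hJ4
      (ba _ (Or.inl rfl)))
    (hcost l y hl hsum)
    (ENNReal.ofReal ((κ₂ * lgg n) * (c + q)))
    (by
      intro u hu v hv
      obtain ⟨m, z, hz0, hzm, hm, hzc, hzr⟩ := co u hu v hv
      refine ⟨m, z, hz0, hzm, hzc, ?_⟩
      simp only [wt_true]
      calc ∑ i ∈ Finset.range m, ((c : ℝ≥0∞) + rd σ X (z i) (z (i + 1)))
          ≤ ∑ i ∈ Finset.range m, ((c : ℝ≥0∞) + q) :=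
            Finset.sum_le_sum fun i hi => by
              gcongr; exact hzr i (Finset.mem_range.1 hi)
        _ = ENNReal.ofReal ((m : ℝ) * (c + q)) := by
            rw [Finset.sum_const, Finset.card_range, nsmul_eq_mul,
              ENNReal.ofReal_mul (by positivity), ENNReal.ofReal_add (NNReal.coe_nonneg c) (NNReal.coe_nonneg q)]
            simp
        _ ≤ _ := ENNReal.ofReal_le_ofReal (mul_le_mul_of_nonneg_right hm (by positivity)))
    (by
      rw [← ENNReal.ofReal_add hs0 hs2, hcb]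
      exact (ENNReal.ofReal_lt_ofReal_iff (by
        have : 0 < (lam : ℝ) * (c + x₀) := by positivity
        positivity)).2 hJ)
    l' (fun i => y' (l' - i)) (ENNReal.ofReal ((κ₁ * lgg n) * (c + q) + s₀))
    (by simpa using hyl')
    (by
      intro i hi hil
      exact hreach w l' y' k (l' - i) hy0' (by omega) hyc' (hadj l' y' hsum') hl' hk4
        (ba _ (Or.inr rfl)))
    (by
      refine le_trans (le_of_eq ?_) (hcost l' y' hl' hsum')
      rw [← Finset.sum_range_reflect (fun s => wt c lam σ X true (y' s) (y' (s + 1)))]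
      refine Finset.sum_congr rfl fun i hi => ?_
      rw [Finset.mem_range] at hi
      rw [wt_true, wt_true, rd_symm hσ]
      have e1 : l' - (i + 1) = l' - 1 - i := by omega
      have e2 : l' - i = l' - 1 - i + 1 := by omega
      rw [e1, e2])
    (by
      rw [← ENNReal.ofReal_add hs0 hs2, ← ENNReal.ofReal_add (add_nonneg hs0 hs2) hs0, hcb]
      refine (ENNReal.ofReal_lt_ofReal_iff (by
        have : 0 < (lam : ℝ) * (c + x₀) := by positivity
        positivity)).2 (lt_of_le_of_lt (le_of_eq ?_) hk)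
      ring)
  simpa [hy0'] using this

end Pool.Agent.TwoCol.FinAux
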