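import Pool.Agent.TwoCol.Spec

/-!
# Final assembly, part B: measure theory
-/

open MeasureTheory ProbabilityTheory Filter Topology Set
open scoped ENNReal NNReal

namespace Pool.Agent.TwoCol.FinAux

instance instProbUnif (n : ℕ) : IsProbabilityMeasure (uniformOn univ : Measure (Vx n)) :=
  isProbabilityMeasure_uniformOn finite_univ univ_nonempty

instance instProbCoin : IsProbabilityMeasure (uniformOn univ : Measure Bool) :=
  isProbabilityMeasure_uniformOn finite_univ univ_nonempty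

instance instProbMarks (ρ : Measure (ℝ≥0 × ℝ≥0)) [IsProbabilityMeasure ρ] (n : ℕ) :
    IsProbabilityMeasure (marksLaw ρ n) := by
  unfold marksLaw; infer_instance

lemma prob_law (hC : Target_COND) (μ : Measure ℕ) [IsProbabilityMeasure μ]
    (ρ : Measure (ℝ≥0 × ℝ≥0)) [IsProbabilityMeasure ρ] (n : ℕ) :
    IsProbabilityMeasure (law μ ρ n) := by
  have := hC.1 μ n
  unfold law
  infer_instance

lemma unif_singleton (n : ℕ) (x : Vx n) :
    (uniformOn univ : Measure (Vx n)) {x} = ((n + 1 : ℕ) : ℝ≥0∞)⁻¹ := by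
  rw [uniformOn_univ]
  simp

lemma lint_unif (n : ℕ) (F : Vx n → ℝ≥0∞) :
    ∫⁻ x, F x ∂(uniformOn univ : Measure (Vx n)) = avg F := by
  rw [lintegral_fintype]
  simp only [unif_singleton]
  unfold avg
  rw [← Finset.sum_mul, ENNReal.div_eq_inv_mul, mul_comm]

lemma lint_src_one (n : ℕ) (κ : Bool) (F : Vx n → ℝ≥0∞) :
    ∫⁻ s, F (s κ) ∂(Measure.pi fun _ : Bool => (uniformOn univ : Measure (Vx n))) = avg F := by
  have h := measurePreserving_eval (fun _ : Bool => (uniformOn univ : Measure (Vx n))) κ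
  have h2 := h.lintegral_comp (f := F) (measurable_of_countable F)
  rw [← lint_unif]
  exact h2

lemma lint_src_two (n : ℕ) (F : Vx n → Vx n → ℝ≥0∞) :
    ∫⁻ s, F (s true) (s false) ∂(Measure.pi fun _ : Bool => (uniformOn univ : Measure (Vx n))) =
      avg fun x => avg fun b => F x b := by
  rw [lintegral_fintype]
  have h1 : ∀ s : Bool → Vx n, (Measure.pi fun _ : Bool => (uniformOn univ : Measure (Vx n))) {s} =
      ((n + 1 : ℕ) : ℝ≥0∞)⁻¹ * ((n + 1 : ℕ) : ℝ≥0∞)⁻¹ := by
    intro s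
    rw [Measure.pi_singleton]
    simp [unif_singleton, sq]
  simp only [h1]
  rw [← Finset.sum_mul]
  have h2 : ∑ s : Bool → Vx n, F (s true) (s false) = ∑ x, ∑ b, F x b := by
    rw [← (Equiv.boolArrowEquivProd (Vx n)).symm.sum_comp, Fintype.sum_prod_type]
    rw [Finset.sum_comm]
    rfl
  rw [h2]
  unfold avg
  simp only [ENNReal.div_eq_inv_mul]
  rw [← Finset.mul_sum, mul_comm, mul_assoc]

/-- Fubini for events depending on the configuration, the lengths and the sources. -/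
lemma law_src (hC : Target_COND) (μ : Measure ℕ) [IsProbabilityMeasure μ]
    (ρ : Measure (ℝ≥0 × ℝ≥0)) [IsProbabilityMeasure ρ] (n : ℕ)
    (S : (Bool → Vx n) → Set (Cfg n × Marks n)) (hS : ∀ s, MeasurableSet (S s)) :
    MeasurableSet {ω : Om n | (ω.1, ω.2.2.1) ∈ S ω.2.1} ∧
    law μ ρ n {ω | (ω.1, ω.2.2.1) ∈ S ω.2.1} =
      ∫⁻ s, Q μ ρ n (S s) ∂(Measure.pi fun _ : Bool => (uniformOn univ : Measure (Vx n))) := by
  have := hC.1 μ n
  have hcount : ∀ T : Set (Bool → Vx n), MeasurableSet T := fun T => T.toFinite.measurableSet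
  have hm : MeasurableSet {ω : Om n | (ω.1, ω.2.2.1) ∈ S ω.2.1} := by
    have : {ω : Om n | (ω.1, ω.2.2.1) ∈ S ω.2.1} =
        ⋃ s : Bool → Vx n, (fun ω : Om n => ω.2.1) ⁻¹' {s} ∩
          (fun ω : Om n => (ω.1, ω.2.2.1)) ⁻¹' (S s) := by
      ext ω
      simp
    rw [this]
    refine MeasurableSet.iUnion fun s => MeasurableSet.inter ?_ ?_
    · exact (measurable_fst.comp measurable_snd) (hcount _)
    · exact (measurable_fst.prodMk (measurable_fst.comp (measurable_snd.comp measurable_snd))) (hS s)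
  refine ⟨hm, ?_⟩
  unfold law
  rw [Measure.prod_apply hm]
  have h1 : ∀ g : Cfg n, ((Measure.pi fun _ : Bool => (uniformOn univ : Measure (Vx n))).prod
      ((marksLaw ρ n).prod (Measure.pi fun _ : Vx n => (uniformOn univ : Measure Bool))))
        (Prod.mk g ⁻¹' {ω : Om n | (ω.1, ω.2.2.1) ∈ S ω.2.1}) =
      ∫⁻ s, marksLaw ρ n {X | (g, X) ∈ S s}
        ∂(Measure.pi fun _ : Bool => (uniformOn univ : Measure (Vx n))) := by
    intro g
    rw [Measure.prod_apply (measurable_prodMk_left hm)]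
    refine lintegral_congr fun s => ?_
    have : (Prod.mk s ⁻¹' (Prod.mk g ⁻¹' {ω : Om n | (ω.1, ω.2.2.1) ∈ S ω.2.1})) =
        {X | (g, X) ∈ S s} ×ˢ (univ : Set (Vx n → Bool)) := by
      ext p
      simp
    rw [this, Measure.prod_prod, measure_univ, mul_one]
  simp only [h1]
  have h2 : ∀ s, Q μ ρ n (S s) = ∫⁻ g, marksLaw ρ n {X | (g, X) ∈ S s} ∂(cfgLaw μ n) := by
    intro s
    unfold Q
    rw [Measure.prod_apply (hS s)]
    rfl
  simp only [h2]
  rw [lintegral_lintegral_swap]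
  apply Measurable.aemeasurable
  have hf : ∀ s, Measurable fun g : Cfg n => marksLaw ρ n {X | (g, X) ∈ S s} := fun s =>
    measurable_from_top
  have : Function.uncurry (fun (g : Cfg n) (s : Bool → Vx n) => marksLaw ρ n {X | (g, X) ∈ S s}) =
      fun p => ∑ s, (Set.indicator {s} (fun _ => (1 : ℝ≥0∞)) p.2) *
        marksLaw ρ n {X | (p.1, X) ∈ S s} := by
    funext p
    rw [Finset.sum_eq_single p.2]
    · simp [Function.uncurry]
    · intro s _ hs
      rw [Set.indicator_of_notMem (by simpa using hs.symm)]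
      simp
    · simp
  rw [this]
  refine Finset.measurable_sum _ fun s _ => Measurable.mul ?_ ((hf s).comp measurable_fst)
  exact (measurable_const.indicator (hcount _)).comp measurable_snd

/-- Markov inequality for a random number of vertices. -/
lemma markov {Ω : Type*} [MeasurableSpace Ω] (P : Measure Ω) (n : ℕ) (E : Vx n → Set Ω)
    (hE : ∀ w, MeasurableSet (E w)) (ε : ℝ) (hε : 0 < ε) :
    P {ω | ε * (n + 1) < (({w | ω ∈ E w} : Set (Vx n)).ncard : ℝ)} ≤
      (ENNReal.ofReal ε)⁻¹ * avg fun w => P (E w) := by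
  classical
  have h1 : ∀ ω, ((({w | ω ∈ E w} : Set (Vx n)).ncard : ℝ≥0∞)) =
      ∑ w, (E w).indicator (fun _ => (1 : ℝ≥0∞)) ω := by
    intro ω
    rw [Set.ncard_eq_toFinset_card' , Finset.card_eq_sum_ones, ]
    push_cast
    rw [Set.toFinset_ofPred, Finset.sum_filter]
    refine Finset.sum_congr rfl fun w _ => ?_
    simp [Set.indicator_apply]
  have h2 : ∫⁻ ω, ((({w | ω ∈ E w} : Set (Vx n)).ncard : ℝ≥0∞)) ∂P = ∑ w, P (E w) := by
    simp only [h1]
    rw [lintegral_finsetSum _ fun w _ => measurable_const.indicator (hE w)]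
    refine Finset.sum_congr rfl fun w _ => ?_
    rw [lintegral_indicator (hE w)]
    simp
  have h3 : {ω | ε * (n + 1) < (({w | ω ∈ E w} : Set (Vx n)).ncard : ℝ)} ⊆
      {ω | ENNReal.ofReal (ε * (n + 1)) ≤ ((({w | ω ∈ E w} : Set (Vx n)).ncard : ℝ≥0∞))} := by
    intro ω hω
    change ε * (n + 1) < (({w | ω ∈ E w} : Set (Vx n)).ncard : ℝ) at hω
    change ENNReal.ofReal (ε * (n + 1)) ≤ ((({w | ω ∈ E w} : Set (Vx n)).ncard : ℝ≥0∞))
    rw [show ((({w | ω ∈ E w} : Set (Vx n)).ncard : ℝ≥0∞)) =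
      ENNReal.ofReal (({w | ω ∈ E w} : Set (Vx n)).ncard : ℝ) by simp]
    exact ENNReal.ofReal_le_ofReal hω.le
  have h4 := meas_ge_le_lintegral_div (μ := P)
    (f := fun ω => ((({w | ω ∈ E w} : Set (Vx n)).ncard : ℝ≥0∞)))
    (by
      simp only [h1]
      exact (Finset.measurable_sum _ fun w _ => measurable_const.indicator (hE w)).aemeasurable)
    (ε := ENNReal.ofReal (ε * (n + 1))) (by
      have : 0 < ε * (n + 1 : ℝ) := by positivity
      simp [ENNReal.ofReal_eq_zero, this]) ENNReal.ofReal_ne_top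
  refine (measure_mono h3).trans (h4.trans (le_of_eq ?_))
  rw [h2]
  unfold avg
  rw [ENNReal.ofReal_mul hε.le, ENNReal.div_eq_inv_mul, ENNReal.div_eq_inv_mul,
    ENNReal.mul_inv (Or.inr ENNReal.ofReal_ne_top) (Or.inl ENNReal.ofReal_ne_top), mul_assoc]
  congr 3
  rw [show ((n : ℝ) + 1) = ((n + 1 : ℕ) : ℝ) by push_cast; rfl, ENNReal.ofReal_natCast]

end Pool.Agent.TwoCol.FinAux
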