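import Pool.Agent.TwoCol.Defs

/-!
# Exact statements of the parts (each `Target_*` is a proposition, proved in its own file)
-/

open MeasureTheory ProbabilityTheory Filter Topology Set
open scoped ENNReal NNReal

namespace Pool.Agent.TwoCol

/-! ## Deterministic part -/

/-- JOB EXU. Existence and uniqueness of the outcome. -/
def Target_EXU : Prop :=
  ∀ (V : Type) [Fintype V] (W : Bool → V → V → ℝ≥0∞) (src : Bool → V) (coin : V → Bool),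
    (∃ c : ℝ≥0∞, 0 < c ∧ ∀ κ u v, c ≤ W κ u v) →
    ∃! p : (V → ℝ≥0∞) × (V → Option Bool), IsPainting W src coin p.1 p.2

/-- Vertices outside `S` joined to `x` by a path of at most `k` edges outside `S`. -/
def ball {V : Type*} (A : V → V → Prop) (S : Set V) (x : V) : ℕ → Set V
  | 0 => {y | y = x ∧ x ∉ S}
  | k + 1 => ball A S x k ∪ {v | v ∉ S ∧ ∃ u ∈ ball A S x k, A u v}

/-- JOB DET. The deterministic argument. -/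
def Target_DET : Prop :=
  ∀ (V : Type) [Fintype V] (W : Bool → V → V → ℝ≥0∞) (src : Bool → V) (coin : V → Bool)
    (t : V → ℝ≥0∞) (col : V → Option Bool), IsPainting W src coin t col →
  ∀ (A : V → V → Prop), (∀ u v, W false u v ≠ ⊤ → A u v) →
  ∀ (core : Set V) (cb : ℝ≥0∞), cb ≠ 0 → (∀ u v, cb ≤ W false u v) → (∀ u v, W true u v ≠ 0) →
  ∀ (J k : ℕ),
    src false ∉ core → (∀ u ∈ ball A core (src false) J, ∀ v, A u v → v ∉ core) →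
  ∀ (m : ℕ) (x : ℕ → V) (s₁ : ℝ≥0∞), x 0 = src true → x m ∈ core →
    (∀ i < m, x i ∉ ball A core (src false) J) →
    ∑ i ∈ Finset.range m, W true (x i) (x (i + 1)) ≤ s₁ →
  ∀ s₂ : ℝ≥0∞, (∀ u ∈ core, ∀ v ∈ core, ∃ (l : ℕ) (y : ℕ → V), y 0 = u ∧ y l = v ∧
      (∀ i ≤ l, y i ∈ core) ∧ ∑ i ∈ Finset.range l, W true (y i) (y (i + 1)) ≤ s₂) →
    s₁ + s₂ < (J + 1) * cb →
  ∀ (m' : ℕ) (z : ℕ → V) (s₃ : ℝ≥0∞), z 0 ∈ core →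
    (∀ i, 0 < i → i ≤ m' → z i ∉ ball A core (src false) k) →
    ∑ i ∈ Finset.range m', W true (z i) (z (i + 1)) ≤ s₃ → s₁ + s₂ + s₃ < (k + 1) * cb →
    col (z m') = some true

/-! ## Basic objects for the probabilistic part -/

/-- Adjacency in the multigraph. -/
def Adj {n : ℕ} {d : Vx n → ℕ} (σ : Equiv.Perm (Half d)) (u v : Vx n) : Prop :=
  ∃ h : Half d, h.1 = u ∧ (σ h).1 = v

/-- The smallest red number `X¹` on an edge from `u` to `v`. -/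
noncomputable def rd {n : ℕ} {d : Vx n → ℕ} (σ : Equiv.Perm (Half d)) (X : Marks n)
    (u v : Vx n) : ℝ≥0∞ :=
  ⨅ h : Half d, ⨅ (_ : h.1 = u ∧ (σ h).1 = v), ((X (edge σ h)).1 : ℝ≥0∞)

/-- Law of configuration and lengths. -/
noncomputable def Q (μ : Measure ℕ) (ρ : Measure (ℝ≥0 × ℝ≥0)) (n : ℕ) :
    Measure (Cfg n × Marks n) := (cfgLaw μ n).prod (marksLaw ρ n)

/-- Average over the vertices. -/
noncomputable def avg {n : ℕ} (f : Vx n → ℝ≥0∞) : ℝ≥0∞ := (∑ v, f v) / ((n + 1 : ℕ) : ℝ≥0∞)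

/-- `log log (n + 1)`. -/
noncomputable def lgg (n : ℕ) : ℝ := Real.log (Real.log (n + 1))

/-- The degree threshold of the core, `exp ((log (n+1)) ^ α)`. -/
noncomputable def MM (α : ℝ) (n : ℕ) : ℝ := Real.exp (Real.log (n + 1) ^ α)

/-- The core: vertices of degree at least `MM α n`. -/
def core {n : ℕ} (α : ℝ) (d : Vx n → ℕ) : Set (Vx n) := {v | MM α n ≤ d v}

/-- JOB COND. Measurability is trivial in the configuration; Fubini. -/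
def Target_COND : Prop :=
  (∀ (μ : Measure ℕ) [IsProbabilityMeasure μ] (n : ℕ), IsProbabilityMeasure (cfgLaw μ n)) ∧
  (∀ (n : ℕ) (d : Vx n → ℕ), Even (∑ v, d v) → IsProbabilityMeasure (pairLaw d)) ∧
  (∀ (n : ℕ) (δ : Vx n → ℕ), Even (∑ v, fixDeg δ v) ∧ ∀ v, δ v ≤ fixDeg δ v ∧
    fixDeg δ v ≤ δ v + 1) ∧
  (∀ (μ : Measure ℕ) [IsProbabilityMeasure μ] (n : ℕ) (S : Set (Cfg n)),
    cfgLaw μ n S = ∫⁻ δ, pairLaw (fixDeg δ) {σ | Cfg.mk δ σ ∈ S} ∂(Measure.pi fun _ : Vx n => μ)) ∧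
  (∀ (μ : Measure ℕ) [IsProbabilityMeasure μ] (ρ : Measure (ℝ≥0 × ℝ≥0)) [IsProbabilityMeasure ρ]
    (n : ℕ) (S : Set (Cfg n × Marks n)), (∀ g, MeasurableSet {X | (g, X) ∈ S}) →
    MeasurableSet S ∧ Q μ ρ n S = ∫⁻ δ, ((pairLaw (fixDeg δ)).prod (marksLaw ρ n))
      {p | (Cfg.mk δ p.1, p.2) ∈ S} ∂(Measure.pi fun _ : Vx n => μ)) ∧
  (∀ (n : ℕ) (d : Vx n → ℕ) (σ : Equiv.Perm (Half d)) (u v : Vx n),
    Measurable fun X : Marks n => rd σ X u v) ∧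
  (∀ (n : ℕ) (d : Vx n → ℕ) (ρ : Measure (ℝ≥0 × ℝ≥0)) [IsProbabilityMeasure ρ]
    (S : Set (Equiv.Perm (Half d) × Marks n)), (∀ σ, MeasurableSet {X | (σ, X) ∈ S}) →
    MeasurableSet S ∧ ((pairLaw d).prod (marksLaw ρ n)) S =
      ∫⁻ σ, marksLaw ρ n {X | (σ, X) ∈ S} ∂(pairLaw d))

/-- JOB PAIR. Random pairings with random marks: probability of containing `j` given pairs and of
having no good edge from `A` to `B`. -/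
def Target_PAIR : Prop :=
  ∀ (n : ℕ) (d : Vx n → ℕ), Even (∑ v, d v) →
    ∀ (ρ : Measure (ℝ≥0 × ℝ≥0)) [IsProbabilityMeasure ρ] (G : Set (ℝ≥0 × ℝ≥0)), MeasurableSet G →
    ∀ (j : ℕ) (a b : Fin j → Half d), Function.Injective (Sum.elim a b) →
    ∀ (A B : Finset (Half d)), Disjoint A B →
      (∀ i, a i ∉ A ∧ a i ∉ B ∧ b i ∉ A ∧ b i ∉ B) →
    ∀ k : ℕ, 2 * k ≤ A.card → k ≤ B.card → 2 * j < ∑ v, d v →
      ((pairLaw d).prod (marksLaw ρ n))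
        {p | (∀ i, p.1 (a i) = b i) ∧ ∀ h ∈ A, p.1 h ∈ B → p.2 (edge p.1 h) ∉ G} ≤
      ENNReal.ofReal ((1 / (((∑ v, d v : ℕ) : ℝ) - 2 * j)) ^ j *
        (1 - (ρ G).toReal * ((B.card : ℝ) - k) / ((∑ v, d v : ℕ) : ℝ)) ^ k)

/-- JOB PATH (uses PAIR). Union bound for a path through given distinct vertices. -/
def Target_PATH : Prop :=
  ∀ (n : ℕ) (d : Vx n → ℕ), Even (∑ v, d v) → ∀ (j : ℕ) (v : Fin (j + 1) → Vx n),
    Function.Injective v → 2 * j < ∑ v, d v →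
    pairLaw d {σ | ∀ i : Fin j, Adj σ (v i.castSucc) (v i.succ)} ≤
      ENNReal.ofReal ((1 / (((∑ v, d v : ℕ) : ℝ) - 2 * j)) ^ j *
        ∏ i : Fin j, ((d (v i.castSucc) : ℝ) * d (v i.succ)))

/-- JOB PROD. Expectation of sums of products over distinct vertices. -/
def Target_PROD : Prop :=
  ∀ (μ : Measure ℕ) [IsProbabilityMeasure μ] (n j : ℕ) (φ : Fin (j + 1) → ℕ → ℝ≥0∞),
    ∫⁻ δ, ∑ v ∈ Finset.univ.filter (fun v : Fin (j + 1) → Vx n => Function.Injective v),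
      ∏ i, φ i (δ (v i)) ∂(Measure.pi fun _ : Vx n => μ) ≤
    ((n + 1 : ℕ) : ℝ≥0∞) ^ (j + 1) * ∏ i, ∫⁻ k, φ i k ∂μ

/-- JOB MOM. Moments of the degree law. -/
def Target_MOM : Prop :=
  ∀ (τ : ℝ) (μ : Measure ℕ) [IsProbabilityMeasure μ] (c₁ C₁ : ℝ), Tail τ μ c₁ C₁ →
    ∃ C : ℝ, 1 ≤ C ∧
    (∀ u : ℝ, 1 ≤ u → ∫⁻ k, (if (k : ℝ) ≤ u then ((k : ℝ≥0∞) + 1) ^ 2 else 0) ∂μ ≤
      ENNReal.ofReal (C * u ^ (3 - τ))) ∧
    (∀ u : ℝ, 1 ≤ u → ∫⁻ k, (if u < (k : ℝ) + 1 then ((k : ℝ≥0∞) + 1) else 0) ∂μ ≤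
      ENNReal.ofReal (C * u ^ (2 - τ))) ∧
    (∀ γ : ℝ, γ < τ - 1 → ∃ C' : ℝ, 0 < C' ∧
      ∫⁻ k, ENNReal.ofReal (((k : ℝ) + 1) ^ γ) ∂μ ≤ ENNReal.ofReal C') ∧
    (∀ (A κ η B : ℝ), 0 < κ → 0 < η → ∃ C' : ℝ, 0 < C' ∧ ∀ u : ℝ, 1 ≤ u →
      ∫⁻ k, (if u ≤ (k : ℝ) + 1 then ENNReal.ofReal (((k : ℝ) + 1) ^ A *
        Real.exp (-κ * (k : ℝ) ^ η)) else 0) ∂μ ≤ ENNReal.ofReal (C' * u ^ (-B)))

/-- Typical degree sequences. -/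
structure GoodDeg (τ c₂ K ζ : ℝ) {n : ℕ} (δ : Vx n → ℕ) : Prop where
  two_le : ∀ v, 2 ≤ δ v
  total : ((∑ v, fixDeg δ v : ℕ) : ℝ) ≤ K * (n + 1)
  many : ∀ y : ℝ, 1 ≤ y → y ≤ ((n : ℝ) + 1) ^ ζ →
    c₂ * (n + 1) * y ^ (1 - τ) ≤ ((Finset.univ.filter fun v : Vx n => y ≤ (δ v : ℝ)).card : ℝ)

/-- JOB DEG. -/
def Target_DEG : Prop :=
  ∀ (τ : ℝ) (μ : Measure ℕ) [IsProbabilityMeasure μ] (c₁ C₁ : ℝ), Tail τ μ c₁ C₁ →
    ∀ ζ : ℝ, 0 < ζ → ζ * (τ - 1) < 1 → ∃ c₂ : ℝ, 0 < c₂ ∧ ∀ ε : ℝ≥0∞, 0 < ε → ∃ K : ℝ, 1 ≤ K ∧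
      ∀ᶠ n : ℕ in atTop, (Measure.pi fun _ : Vx n => μ) {δ | ¬ GoodDeg τ c₂ K ζ δ} ≤ ε

/-! ## The four probabilistic statements -/

/-- JOB BLUE (uses PATH, PROD, MOM, COND). From a uniform vertex the core is not reached in
`α' lgg n / log b` steps. -/
def Target_BLUE : Prop :=
  ∀ (τ : ℝ) (μ : Measure ℕ) [IsProbabilityMeasure μ] (c₁ C₁ : ℝ), Tail τ μ c₁ C₁ →
    ∀ (b α α' : ℝ), 1 / (τ - 2) < b → 0 < α' → α' < α → α < 1 → ∀ ε : ℝ≥0∞, 0 < ε →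
    ∀ᶠ n : ℕ in atTop, avg (fun x : Vx n => cfgLaw μ n {g | x ∈ core α (fixDeg g.deg) ∨
      ∃ u ∈ ball (Adj g.pair) (core α (fixDeg g.deg)) x ⌊α' * lgg n / Real.log b⌋₊,
        ∃ v ∈ core α (fixDeg g.deg), Adj g.pair u v}) ≤ ε

/-- JOB CORE (uses PAIR, DEG, COND). Short paths with good edges inside the core. -/
def Target_CORE : Prop :=
  ∀ (τ : ℝ) (μ : Measure ℕ) [IsProbabilityMeasure μ] (c₁ C₁ : ℝ), Tail τ μ c₁ C₁ →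
    ∀ (ρ : Measure (ℝ≥0 × ℝ≥0)) [IsProbabilityMeasure ρ] (q : ℝ≥0), ρ {x | x.1 ≤ q} ≠ 0 →
    ∀ (α κ : ℝ), 0 < α → α < 1 → 2 * (1 - α) / Real.log (1 / (τ - 2)) < κ → ∀ ε : ℝ≥0∞, 0 < ε →
    ∀ᶠ n : ℕ in atTop, Q μ ρ n {p | ¬ ∀ u ∈ core α (fixDeg p.1.deg), ∀ v ∈ core α (fixDeg p.1.deg),
      ∃ (l : ℕ) (y : ℕ → Vx n), y 0 = u ∧ y l = v ∧ (l : ℝ) ≤ κ * lgg n ∧
        (∀ i ≤ l, y i ∈ core α (fixDeg p.1.deg)) ∧
        ∀ i < l, rd p.1.pair p.2 (y i) (y (i + 1)) ≤ q} ≤ ε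

/-- The first half-edge of a vertex. -/
def firstHalf {n : ℕ} {d : Vx n → ℕ} (hd : ∀ v, 0 < d v) (x : Vx n) : Half d := ⟨x, ⟨0, hd x⟩⟩

/-- The next half-edge at the same vertex. -/
def nx {n : ℕ} {d : Vx n → ℕ} (h : Half d) : Half d :=
  ⟨h.1, ⟨((h.2 : ℕ) + 1) % d h.1, Nat.mod_lt _ (lt_of_le_of_lt (Nat.zero_le _) h.2.2)⟩⟩

/-- Exploration: leave by the half-edge `h`, then by the half-edge following the one of arrival. -/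
def wk {n : ℕ} {d : Vx n → ℕ} (σ : Equiv.Perm (Half d)) (h : Half d) : ℕ → Half d
  | 0 => h
  | s + 1 => nx (σ (wk σ h s))

/-- The exploration from `x` meets for the first time a vertex of degree at least `K` at step `i`,
and the vertices met before are distinct. -/
def Hit {n : ℕ} {d : Vx n → ℕ} (σ : Equiv.Perm (Half d)) (h : Half d) (K i : ℕ) : Prop :=
  (∀ s < i, d (wk σ h s).1 < K) ∧ K ≤ d (wk σ h i).1 ∧
    ∀ s ≤ i, ∀ s' ≤ i, (wk σ h s).1 = (wk σ h s').1 → s = s'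

/-- JOB START1 (uses PAIR, DEG, COND). The exploration meets a vertex of degree `≥ K` in at most `K`
steps, with probability close to one for large `K`. -/
def Target_START1 : Prop :=
  ∀ (τ : ℝ) (μ : Measure ℕ) [IsProbabilityMeasure μ] (c₁ C₁ : ℝ), Tail τ μ c₁ C₁ →
    ∀ ε : ℝ≥0∞, 0 < ε → ∀ᶠ K : ℕ in atTop, ∀ᶠ n : ℕ in atTop,
      avg (fun x : Vx n => cfgLaw μ n {g | ¬ ∃ hd : ∀ v, 0 < fixDeg g.deg v,
        ∃ i ≤ K, Hit g.pair (firstHalf hd x) K i}) ≤ ε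

/-- JOB START2 (uses PAIR, DEG, COND, PROD, MOM). From the first vertex of degree `≥ K` there is a
short path of good edges to the core. -/
def Target_START2 : Prop :=
  ∀ (τ : ℝ) (μ : Measure ℕ) [IsProbabilityMeasure μ] (c₁ C₁ : ℝ), Tail τ μ c₁ C₁ →
    ∀ (ρ : Measure (ℝ≥0 × ℝ≥0)) [IsProbabilityMeasure ρ] (q : ℝ≥0), ρ {x | x.1 ≤ q} ≠ 0 →
    ∀ (α κ : ℝ), 0 < α → α < 1 → α / Real.log (1 / (τ - 2)) < κ → ∀ ε : ℝ≥0∞, 0 < ε →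
    ∀ᶠ K : ℕ in atTop, ∀ᶠ n : ℕ in atTop,
      avg (fun x : Vx n => Q μ ρ n {p | ∃ hd : ∀ v, 0 < fixDeg p.1.deg v, ∃ i ≤ K,
        Hit p.1.pair (firstHalf hd x) K i ∧
        ¬ ∃ (l : ℕ) (y : ℕ → Vx n), y 0 = (wk p.1.pair (firstHalf hd x) i).1 ∧
          y l ∈ core α (fixDeg p.1.deg) ∧ (∀ s < l, y s ∉ core α (fixDeg p.1.deg)) ∧
          (l : ℝ) ≤ κ * lgg n ∧ ∀ s < l, rd p.1.pair p.2 (y s) (y (s + 1)) ≤ q}) ≤ ε

/-- JOB START (uses START1, START2, COND). From a uniform vertex there is a short and cheap path to the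
core. -/
def Target_START : Prop :=
  ∀ (τ : ℝ) (μ : Measure ℕ) [IsProbabilityMeasure μ] (c₁ C₁ : ℝ), Tail τ μ c₁ C₁ →
    ∀ (ρ : Measure (ℝ≥0 × ℝ≥0)) [IsProbabilityMeasure ρ] (q : ℝ≥0), ρ {x | x.1 ≤ q} ≠ 0 →
    ∀ (α κ : ℝ), 0 < α → α < 1 → α / Real.log (1 / (τ - 2)) < κ → ∀ ε : ℝ≥0∞, 0 < ε →
    ∃ s₀ : ℝ, ∀ᶠ n : ℕ in atTop,
      avg (fun x : Vx n => Q μ ρ n {p | ¬ ∃ (l : ℕ) (y : ℕ → Vx n), y 0 = x ∧
          y l ∈ core α (fixDeg p.1.deg) ∧ (∀ s < l, y s ∉ core α (fixDeg p.1.deg)) ∧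
          (l : ℝ) ≤ κ * lgg n ∧
          ∑ s ∈ Finset.range l, rd p.1.pair p.2 (y s) (y (s + 1)) ≤
            ENNReal.ofReal (q * κ * lgg n + s₀)}) ≤ ε

/-- JOB BALL. Balls outside the core are small. -/
def Target_BALL : Prop :=
  (∀ (V : Type) (A : V → V → Prop) (S : Set V), (∀ u v, A u v → A v u) →
    (∀ (x y : V) (k : ℕ), y ∈ ball A S x k → x ∈ ball A S y k) ∧
    (∀ (x y z : V) (k l : ℕ), y ∈ ball A S x k → z ∈ ball A S y l → z ∈ ball A S x (k + l)) ∧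
    (∀ (l : ℕ) (y : ℕ → V), (∀ i ≤ l, y i ∉ S) → (∀ i < l, A (y i) (y (i + 1))) →
      y l ∈ ball A S (y 0) l)) ∧
  (∀ (α κ : ℝ), 0 < α → α < 1 → 0 < κ → ∀ ε : ℝ≥0∞, 0 < ε → ∀ᶠ n : ℕ in atTop,
    ∀ (d : Vx n → ℕ) (σ : Equiv.Perm (Half d)) (x : Vx n),
      avg (fun b : Vx n => (open scoped Classical in
        if b ∈ ball (Adj σ) (core α d) x ⌊κ * lgg n⌋₊ then (1 : ℝ≥0∞) else 0)) ≤ ε)

end Pool.Agent.TwoCol
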