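import Pool.Agent.TwoCol.Spec

open MeasureTheory ProbabilityTheory Filter Topology Set
open scoped ENNReal NNReal

namespace Pool.Agent.TwoCol
namespace Start2Aux

/-! ### Combinatorics of the exploration followed by an ascending path -/

lemma elim_inj {H V : Type*} (vx : H → V) (σ : H → H) (hσ : ∀ h, σ (σ h) = h) {j : ℕ}
    (E : Fin j → H) (w : ℕ → V) (hw : ∀ s ≤ j, ∀ s' ≤ j, w s = w s' → s = s')
    (h1 : ∀ t : Fin j, vx (E t) = w t) (h2 : ∀ t : Fin j, vx (σ (E t)) = w (t + 1)) :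
    Function.Injective (Sum.elim E (fun t => σ (E t))) := by
  have key : ∀ s t : Fin j, E s ≠ σ (E t) := by
    intro s t hst
    have e1 : w s = w (t + 1) := by rw [← h1 s, hst, h2 t]
    have e2 := hw s (by omega) (t + 1) (by omega) e1
    have e3 : σ (E s) = E t := by rw [hst, hσ]
    have e4 : w (s + 1) = w t := by rw [← h2 s, e3, h1 t]
    have e5 := hw (s + 1) (by omega) t (by omega) e4
    omega
  rintro (s | s) (t | t) hst
  · simp only [Sum.elim_inl] at hst
    have e1 : w s = w t := by rw [← h1 s, hst, h1 t]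
    have := hw s (by omega) t (by omega) e1
    simp [Fin.ext_iff, this]
  · exact absurd hst (key s t)
  · exact absurd hst.symm (key t s)
  · simp only [Sum.elim_inr] at hst
    have e1 : w (s + 1) = w (t + 1) := by rw [← h2 s, hst, h2 t]
    have := hw (s + 1) (by omega) (t + 1) (by omega) e1
    simp [Fin.ext_iff]
    omega

variable {n : ℕ} {d : Vx n → ℕ}

/-- The half-edges of a vertex. -/
def hv (d : Vx n → ℕ) (u : Vx n) : Finset (Half d) := Finset.univ.filter fun h => h.1 = u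

lemma mem_hv {u : Vx n} {h : Half d} : h ∈ hv d u ↔ h.1 = u := by simp [hv]

lemma card_hv (u : Vx n) : (hv d u).card = d u := by
  have : hv d u = (Finset.univ : Finset (Fin (d u))).map
      ⟨fun i => (⟨u, i⟩ : Half d), fun i j hij => by simpa using hij⟩ := by
    ext h
    simp only [mem_hv, Finset.mem_map, Finset.mem_univ, true_and, Function.Embedding.coeFn_mk]
    constructor
    · rintro rfl
      exact ⟨h.2, rfl⟩
    · rintro ⟨i, rfl⟩
      rfl
  rw [this, Finset.card_map, Finset.card_univ, Fintype.card_fin]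

lemma card_half : Fintype.card (Half d) = ∑ v, d v := by
  simp [Fintype.card_sigma]

/-- Half-edges by which the exploration leaves the vertices. -/
def exits (e₀ : Half d) {i : ℕ} (g : Fin i → Half d) (s : Fin i) : Half d :=
  if h : s.val = 0 then e₀ else nx (g ⟨s.val - 1, by omega⟩)

/-- Last vertex of the exploration. -/
def lastv (e₀ : Half d) : (i : ℕ) → (Fin i → Half d) → Vx n
  | 0, _ => e₀.1
  | i + 1, g => (g (Fin.last i)).1

/-- The unused half-edges of `u`. -/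
def AA {j : ℕ} (E F : Fin j → Half d) (u : Vx n) : Finset (Half d) :=
  (hv d u).filter fun h => ∀ t, E t ≠ h ∧ F t ≠ h

/-- Half-edges of the vertices of degree at least `y`. -/
noncomputable def BB (d : Vx n → ℕ) (y : ℝ) : Finset (Half d) :=
  Finset.univ.filter fun h => y ≤ (d h.1 : ℝ)

/-- The conditions on the data. -/
def Cn {j : ℕ} (E F : Fin j → Half d) (u : Vx n) : Prop :=
  Function.Injective (Sum.elim E F) ∧ (∀ t, d (E t).1 ≤ d u ∧ d (F t).1 ≤ d u) ∧
    d u - 1 ≤ (AA E F u).card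

/-- The elementary events. -/
def Ev (a : ℝ) (G : Set (ℝ≥0 × ℝ≥0)) {j : ℕ} (E F : Fin j → Half d) (u : Vx n) :
    Set (Equiv.Perm (Half d) × Marks n) :=
  {p | Cn E F u ∧ (∀ t, p.1 (E t) = F t) ∧
    ∀ h ∈ AA E F u, p.1 h ∈ BB d ((d u : ℝ) ^ a) → p.2 (edge p.1 h) ∉ G}

lemma meas_Ev (a : ℝ) (G : Set (ℝ≥0 × ℝ≥0)) (hG : MeasurableSet G) {j : ℕ}
    (E F : Fin j → Half d) (u : Vx n) (σ : Equiv.Perm (Half d)) :
    MeasurableSet {X : Marks n | (σ, X) ∈ Ev a G E F u} := by
  have : {X : Marks n | (σ, X) ∈ Ev a G E F u} =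
      {X | Cn E F u} ∩ ({X | ∀ t, σ (E t) = F t} ∩
      ⋂ h ∈ AA E F u, ({X : Marks n | σ h ∈ BB d ((d u : ℝ) ^ a)}ᶜ ∪
        {X | X (edge σ h) ∈ G}ᶜ)) := by
    ext X
    simp only [Ev, mem_setOf_eq, mem_inter_iff, mem_iInter, mem_union, mem_compl_iff]
    constructor
    · rintro ⟨h1, h2, h3⟩
      refine ⟨h1, h2, fun h hh => ?_⟩
      by_cases hb : σ h ∈ BB d ((d u : ℝ) ^ a)
      · exact Or.inr (h3 h hh hb)
      · exact Or.inl hb
    · rintro ⟨h1, h2, h3⟩
      refine ⟨h1, h2, fun h hh hb => ?_⟩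
      rcases h3 h hh with h4 | h4
      · exact absurd hb h4
      · exact h4
  rw [this]
  refine (MeasurableSet.const _).inter ((MeasurableSet.const _).inter ?_)
  refine Finset.measurableSet_biInter _ fun h _ => ?_
  refine (MeasurableSet.const _).compl.union (MeasurableSet.compl ?_)
  exact measurableSet_preimage (measurable_pi_apply _) hG


lemma card_BB_le (y : ℝ) : (BB d y).card ≤ ∑ v, d v := by
  rw [← card_half]
  exact Finset.card_le_univ _

/-- PAIR for the elementary events. -/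
lemma ev_bound (hP : Target_PAIR) (hev : Even (∑ v, d v)) (ρ : Measure (ℝ≥0 × ℝ≥0))
    [IsProbabilityMeasure ρ] (G : Set (ℝ≥0 × ℝ≥0)) (hG : MeasurableSet G) {j : ℕ}
    (E F : Fin j → Half d) (u : Vx n) (a : ℝ) (k : ℕ) (h0 : (d u : ℝ) < (d u : ℝ) ^ a)
    (h1 : 2 * k ≤ d u - 1) (h2 : k ≤ (BB d ((d u : ℝ) ^ a)).card) (h3 : 2 * j < ∑ v, d v) :
    ((pairLaw d).prod (marksLaw ρ n)) (Ev a G E F u) ≤
      ENNReal.ofReal ((1 / (((∑ v, d v : ℕ) : ℝ) - 2 * j)) ^ j *
        (1 - (ρ G).toReal * (((BB d ((d u : ℝ) ^ a)).card : ℝ) - k) / ((∑ v, d v : ℕ) : ℝ)) ^ k) := by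
  by_cases hC : Cn E F u
  · obtain ⟨c1, c2, c3⟩ := hC
    refine le_trans (measure_mono ?_) (hP n d hev ρ G hG j E F c1 (AA E F u)
      (BB d ((d u : ℝ) ^ a)) ?_ ?_ k (by omega) h2 h3)
    · rintro p ⟨_, q1, q2⟩
      exact ⟨q1, q2⟩
    · rw [Finset.disjoint_left]
      intro h hA hB
      simp only [AA, Finset.mem_filter, mem_hv] at hA
      simp only [BB, Finset.mem_filter, Finset.mem_univ, true_and] at hB
      rw [hA.1] at hB
      linarith
    · intro i
      have c2i := c2 i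
      refine ⟨?_, ?_, ?_, ?_⟩
      · intro h
        simp only [AA, Finset.mem_filter] at h
        exact (h.2 i).1 rfl
      · intro h
        simp only [BB, Finset.mem_filter, Finset.mem_univ, true_and] at h
        have : (d (E i).1 : ℝ) ≤ d u := by exact_mod_cast c2i.1
        linarith
      · intro h
        simp only [AA, Finset.mem_filter] at h
        exact (h.2 i).2 rfl
      · intro h
        simp only [BB, Finset.mem_filter, Finset.mem_univ, true_and] at h
        have : (d (F i).1 : ℝ) ≤ d u := by exact_mod_cast c2i.2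
        linarith
  · have : Ev a G E F u = ∅ := by
      ext p
      simp [Ev, hC]
    rw [this, measure_empty]
    exact zero_le

/-- The exponential estimate. -/
lemma pow_bound {p D B L N c₂ K' a θ : ℝ} {k : ℕ} (hp0 : 0 ≤ p) (hp1 : p ≤ 1) (hD : 1 ≤ D)
    (hN : 0 < N) (hc : 0 < c₂) (hK' : 0 < K') (hB : c₂ * N * D ^ (-(a * θ)) ≤ B) (hBL : B ≤ L)
    (hL : L ≤ K' * N) (hk2 : (k : ℝ) ≤ B / 2) (hk : D / 8 ≤ k) :
    (1 - p * (B - k) / L) ^ k ≤ Real.exp (-(p * c₂ / (16 * K')) * D ^ (1 - a * θ)) := by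
  have hB0 : 0 < B := lt_of_lt_of_le (by positivity) hB
  have hL0 : 0 < L := lt_of_lt_of_le hB0 hBL
  have hx1 : p * (B - k) / L ≤ 1 := by
    rw [div_le_one hL0]
    have : B - k ≤ L := by
      have : (0 : ℝ) ≤ k := Nat.cast_nonneg k
      linarith
    have h0 : 0 ≤ B - k := by linarith
    calc p * (B - k) ≤ 1 * (B - k) := mul_le_mul_of_nonneg_right hp1 h0
      _ ≤ L := by linarith
  have hx2 : p * c₂ / (2 * K') * D ^ (-(a * θ)) ≤ p * (B - k) / L := by
    rw [le_div_iff₀ hL0]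
    have h1 : c₂ * N * D ^ (-(a * θ)) / 2 ≤ B - k := by linarith
    have h2 : p * c₂ / (2 * K') * D ^ (-(a * θ)) * L ≤
        p * c₂ / (2 * K') * D ^ (-(a * θ)) * (K' * N) := by
      apply mul_le_mul_of_nonneg_left hL
      positivity
    have h3 : p * c₂ / (2 * K') * D ^ (-(a * θ)) * (K' * N) =
        p * (c₂ * N * D ^ (-(a * θ)) / 2) := by
      field_simp
    rw [h3] at h2
    exact le_trans h2 (mul_le_mul_of_nonneg_left h1 hp0)
  have h1 : (1 - p * (B - k) / L) ^ k ≤ Real.exp (-(p * (B - k) / L)) ^ k := by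
    apply pow_le_pow_left₀ (by linarith)
    have := Real.one_sub_le_exp_neg (p * (B - k) / L)
    linarith
  refine h1.trans ?_
  rw [← Real.exp_nat_mul, Real.exp_le_exp]
  have h2 : p * c₂ / (2 * K') * D ^ (-(a * θ)) * (D / 8) ≤ p * (B - k) / L * k := by
    apply mul_le_mul hx2 hk (by positivity)
    exact le_trans (by positivity) hx2
  have h3 : p * c₂ / (2 * K') * D ^ (-(a * θ)) * (D / 8) =
      p * c₂ / (16 * K') * D ^ (1 - a * θ) := by
    have : D ^ (1 - a * θ) = D ^ (-(a * θ)) * D := by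
      rw [show 1 - a * θ = -(a * θ) + 1 by ring, Real.rpow_add (by linarith), Real.rpow_one]
    rw [this]
    field_simp
    ring
  rw [h3] at h2
  nlinarith [h2]

/-- Choices of the exploration. -/
noncomputable def GG (e₀ : Half d) (i : ℕ) (u : Vx n) : Finset (Fin i → Half d) := by
  classical exact Finset.univ.filter fun g => lastv e₀ i g = u

lemma mem_GG {e₀ : Half d} {i : ℕ} {u : Vx n} {g : Fin i → Half d} :
    g ∈ GG e₀ i u ↔ lastv e₀ i g = u := by
  simp [GG]

lemma card_GG_zero (e₀ : Half d) (u : Vx n) : (GG e₀ 0 u).card = if e₀.1 = u then 1 else 0 := by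
  classical
  by_cases h : e₀.1 = u
  · simp [GG, lastv, h]
  · simp [GG, lastv, h]

lemma card_GG_succ (e₀ : Half d) (i : ℕ) (u : Vx n) :
    (GG e₀ (i + 1) u).card = (∑ v, d v) ^ i * d u := by
  classical
  have : GG e₀ (i + 1) u = Fintype.piFinset fun s : Fin (i + 1) =>
      if s = Fin.last i then hv d u else Finset.univ := by
    ext g
    rw [mem_GG, Fintype.mem_piFinset]
    simp only [lastv]
    constructor
    · intro h s
      by_cases hs : s = Fin.last i
      · subst hs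
        simp [mem_hv, h]
      · simp [hs]
    · intro h
      have := h (Fin.last i)
      simpa [mem_hv] using this
  rw [this, Fintype.card_piFinset, Fin.prod_univ_castSucc]
  simp only [if_true, card_hv]
  have h2 : ∀ s : Fin i, (if s.castSucc = Fin.last i then hv d u else Finset.univ).card =
      ∑ v, d v := by
    intro s
    rw [if_neg (Fin.castSucc_lt_last s).ne, Finset.card_univ, card_half]
  rw [Finset.prod_congr rfl fun s _ => h2 s]
  simp

lemma sum_GG (hd : ∀ v, 0 < d v) (i : ℕ) (u : Vx n) {j : ℕ} (hN : (n + 1 : ℝ) ≤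
    ((∑ v, d v : ℕ) : ℝ) - 2 * j) (hj : 2 * (j : ℝ) * i ≤ Real.log 2 * (n + 1)) :
    (∑ x, ((GG (firstHalf hd x) i u).card : ℝ)) * (1 / (((∑ v, d v : ℕ) : ℝ) - 2 * j)) ^ i ≤
      2 * d u := by
  have hdu : (1 : ℝ) ≤ d u := by exact_mod_cast hd u
  have hN0 : (0 : ℝ) < n + 1 := by positivity
  rcases i with _ | i
  · simp only [card_GG_zero, firstHalf, pow_zero, mul_one]
    have : (∑ x : Vx n, (((if x = u then 1 else 0 : ℕ)) : ℝ)) = 1 := by
      simp
    rw [this]
    linarith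
  · simp only [card_GG_succ, Finset.sum_const, Finset.card_univ, Fintype.card_fin, nsmul_eq_mul]
    set L : ℝ := ((∑ v, d v : ℕ) : ℝ) with hL
    set M : ℝ := L - 2 * j with hM
    have hM0 : 0 < M := lt_of_lt_of_le hN0 hN
    have e1 : ((n + 1 : ℕ) : ℝ) * (((∑ v, d v) ^ i * d u : ℕ) : ℝ) * (1 / M) ^ (i + 1) =
        ((n + 1 : ℝ) / M) * (L / M) ^ i * d u := by
      rw [hL]
      push_cast
      rw [pow_succ, div_pow, div_pow]
      field_simp
      rw [one_pow, mul_one]
    rw [e1]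
    have h1 : (n + 1 : ℝ) / M ≤ 1 := by rw [div_le_one hM0]; exact hN
    have h2 : (L / M) ^ i ≤ 2 := by
      have h3 : L / M ≤ Real.exp (2 * j / (n + 1)) := by
        have : L / M = 1 + 2 * j / M := by
          rw [hM] at hM0 ⊢
          field_simp
          ring
        rw [this]
        have h4 : 2 * (j : ℝ) / M ≤ 2 * j / (n + 1) := by
          apply div_le_div_of_nonneg_left (by positivity) hN0 hN
        have h5 := Real.add_one_le_exp (2 * (j : ℝ) / (n + 1))
        linarith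
      have hLM : 0 ≤ L / M := by positivity
      have h4 : (L / M) ^ i ≤ Real.exp (2 * j / (n + 1)) ^ i := pow_le_pow_left₀ hLM h3 i
      refine h4.trans ?_
      rw [← Real.exp_nat_mul]
      have h5 : (i : ℝ) * (2 * j / (n + 1)) ≤ Real.log 2 := by
        rw [mul_div_assoc', div_le_iff₀ hN0]
        push_cast at hj
        have : (0 : ℝ) ≤ 2 * j := by positivity
        nlinarith
      calc Real.exp (i * (2 * j / (n + 1))) ≤ Real.exp (Real.log 2) := Real.exp_le_exp.mpr h5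
        _ = 2 := Real.exp_log (by norm_num)
    have h3 : (n + 1 : ℝ) / M * (L / M) ^ i ≤ 1 * 2 := by
      apply mul_le_mul h1 h2 (by positivity) (by norm_num)
    have hdu0 : (0 : ℝ) ≤ d u := by linarith
    nlinarith [mul_le_mul_of_nonneg_right h3 hdu0]

lemma asc_prod {a : ℝ} (ha : 1 < a) (r : ℕ) (D : ℕ → ℝ) (h1 : ∀ s, 1 ≤ D s)
    (h : ∀ s < r, D s ^ a ≤ D (s + 1)) :
    ∏ s ∈ Finset.range r, D s ≤ D r ^ (1 / (a - 1)) := by
  have ha1 : 0 < a - 1 := by linarith
  induction r with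
  | zero =>
    simp only [Finset.range_zero, Finset.prod_empty]
    exact Real.one_le_rpow (h1 0) (by positivity)
  | succ r ih =>
    rw [Finset.prod_range_succ]
    have hD0 : 0 < D r := by linarith [h1 r]
    have ih' := ih fun s hs => h s (by omega)
    calc (∏ s ∈ Finset.range r, D s) * D r ≤ D r ^ (1 / (a - 1)) * D r :=
          mul_le_mul_of_nonneg_right ih' hD0.le
      _ = D r ^ (a * (1 / (a - 1))) := by
          rw [show a * (1 / (a - 1)) = 1 / (a - 1) + 1 by field_simp; ring,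
            Real.rpow_add hD0, Real.rpow_one]
      _ = (D r ^ a) ^ (1 / (a - 1)) := by rw [Real.rpow_mul hD0.le]
      _ ≤ D (r + 1) ^ (1 / (a - 1)) :=
          Real.rpow_le_rpow (by positivity) (h r (by omega)) (by positivity)

lemma asc_lower {a K : ℝ} (ha : 1 < a) (hK : 1 ≤ K) (r : ℕ) (D : ℕ → ℝ) (h0 : K ≤ D 0)
    (h : ∀ s < r, D s ^ a ≤ D (s + 1)) :
    ∀ s ≤ r, K ^ (a ^ s) ≤ D s := by
  intro s
  induction s with
  | zero => intro _; simpa using h0
  | succ s ih =>
    intro hs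
    have ih' := ih (by omega)
    calc K ^ (a ^ (s + 1)) = (K ^ (a ^ s)) ^ a := by
          rw [← Real.rpow_mul (by linarith), pow_succ]
      _ ≤ D s ^ a := Real.rpow_le_rpow (by positivity) ih' (by linarith)
      _ ≤ D (s + 1) := h s (by omega)

/-- Tuples to sequences. -/
lemma asc_fin {a K : ℝ} (ha : 1 < a) (hK : 1 ≤ K) (r : ℕ) (D : Fin (r + 1) → ℝ)
    (h1 : ∀ s, 1 ≤ D s) (h0 : K ≤ D 0) (h : ∀ s : Fin r, D s.castSucc ^ a ≤ D s.succ) :
    (∏ s : Fin r, D s.castSucc ≤ D (Fin.last r) ^ (1 / (a - 1))) ∧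
      K ^ (a ^ r) ≤ D (Fin.last r) := by
  let D' : ℕ → ℝ := fun s => if hs : s < r + 1 then D ⟨s, hs⟩ else 1
  have hD' : ∀ s < r, D' s ^ a ≤ D' (s + 1) := by
    intro s hs
    have := h ⟨s, hs⟩
    simp only [D']
    rw [dif_pos (by omega), dif_pos (by omega)]
    exact this
  have h1' : ∀ s, 1 ≤ D' s := by
    intro s
    simp only [D']
    split_ifs with hs
    · exact h1 _
    · exact le_rfl
  have hlast : D' r = D (Fin.last r) := by
    simp only [D']
    rw [dif_pos (by omega)]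
    rfl
  have h0' : K ≤ D' 0 := by
    simp only [D']
    rw [dif_pos (by omega)]
    exact h0
  constructor
  · have := asc_prod ha r D' h1' hD'
    rw [hlast] at this
    refine le_trans (le_of_eq ?_) this
    rw [Finset.prod_range]
    refine Finset.prod_congr rfl fun s _ => ?_
    simp only [D']
    rw [dif_pos (by omega)]
    rfl
  · have := asc_lower ha hK r D' h0' hD' r le_rfl
    rwa [hlast] at this

/-- The real inequality behind the union bound. -/
lemma real_bound {a c η N M : ℝ} (ha : 1 < a) (hc : 0 ≤ c) (hη : 0 ≤ η) (hN : 0 < N)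
    (hM : N ≤ M) (i r : ℕ) (S : ℝ) (D δ : Fin (r + 1) → ℝ) (hδ0 : ∀ s, 0 ≤ δ s)
    (hδ : ∀ s, δ s ≤ D s) (hδ' : ∀ s, D s ≤ δ s + 1) (h1 : ∀ s, 1 ≤ D s)
    (h : ∀ s : Fin r, D s.castSucc ^ a ≤ D s.succ)
    (hS : S * (1 / M) ^ i ≤ 2 * D 0) :
    S * (∏ s : Fin r, D s.castSucc) * (∏ s : Fin r, D s.succ) *
      ((1 / M) ^ (i + r) * Real.exp (-c * D (Fin.last r) ^ η)) ≤
    2 * (1 / N) ^ r * ((∏ s : Fin r, (δ s.castSucc + 1)) *
      ((δ (Fin.last r) + 1) ^ (1 + 1 / (a - 1)) * Real.exp (-c * δ (Fin.last r) ^ η))) := by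
  have ha1 : 0 < a - 1 := by linarith
  have hprod := (asc_fin (K := 1) ha le_rfl r D h1 (h1 0) h).1
  have hM0 : 0 < M := by linarith
  set P1 := ∏ s : Fin r, D s.castSucc with hP1
  set P2 := ∏ s : Fin r, D s.succ with hP2
  set T := D (Fin.last r) with hT
  have hT1 : 1 ≤ T := h1 _
  have hP1' : 0 ≤ P1 := Finset.prod_nonneg fun s _ => by linarith [h1 s.castSucc]
  have hP2' : 0 ≤ P2 := Finset.prod_nonneg fun s _ => by linarith [h1 s.succ]
  have e1 : D 0 * P2 = P1 * T := by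
    rw [hP1, hP2, hT, ← Fin.prod_univ_succ, ← Fin.prod_univ_castSucc]
  have e2 : S * P1 * P2 * ((1 / M) ^ (i + r) * Real.exp (-c * T ^ η)) =
      (S * (1 / M) ^ i) * (P1 * P2 * ((1 / M) ^ r * Real.exp (-c * T ^ η))) := by
    rw [pow_add]
    ring
  rw [e2]
  have h2 : (S * (1 / M) ^ i) * (P1 * P2 * ((1 / M) ^ r * Real.exp (-c * T ^ η))) ≤
      (2 * D 0) * (P1 * P2 * ((1 / M) ^ r * Real.exp (-c * T ^ η))) :=
    mul_le_mul_of_nonneg_right hS (by positivity)
  refine h2.trans ?_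
  have e3 : (2 * D 0) * (P1 * P2 * ((1 / M) ^ r * Real.exp (-c * T ^ η))) =
      2 * (1 / M) ^ r * (P1 * (P1 * T * Real.exp (-c * T ^ η))) := by
    calc (2 * D 0) * (P1 * P2 * ((1 / M) ^ r * Real.exp (-c * T ^ η))) =
        2 * (1 / M) ^ r * (P1 * (D 0 * P2) * Real.exp (-c * T ^ η)) := by ring
      _ = _ := by rw [e1]; ring
  rw [e3]
  have h3 : (1 / M) ^ r ≤ (1 / N) ^ r := by
    apply pow_le_pow_left₀ (by positivity)
    exact one_div_le_one_div_of_le hN hM
  have h4 : P1 ≤ ∏ s : Fin r, (δ s.castSucc + 1) :=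
    Finset.prod_le_prod (fun s _ => by linarith [h1 s.castSucc]) fun s _ => hδ' _
  have h5 : P1 * T ≤ (δ (Fin.last r) + 1) ^ (1 + 1 / (a - 1)) := by
    calc P1 * T ≤ T ^ (1 / (a - 1)) * T := mul_le_mul_of_nonneg_right hprod (by linarith)
      _ = T ^ (1 + 1 / (a - 1)) := by
          rw [Real.rpow_add (by linarith), Real.rpow_one, mul_comm]
      _ ≤ _ := Real.rpow_le_rpow (by linarith) (hδ' _) (by positivity)
  have h6 : Real.exp (-c * T ^ η) ≤ Real.exp (-c * δ (Fin.last r) ^ η) := by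
    rw [Real.exp_le_exp]
    have : δ (Fin.last r) ^ η ≤ T ^ η := Real.rpow_le_rpow (hδ0 _) (hδ _) hη
    nlinarith
  have hQ1 : 0 ≤ ∏ s : Fin r, (δ s.castSucc + 1) := le_trans hP1' h4
  have h7 : (0 : ℝ) ≤ (δ (Fin.last r) + 1) ^ (1 + 1 / (a - 1)) := by
    have := hδ0 (Fin.last r)
    positivity
  apply mul_le_mul
  · exact mul_le_mul_of_nonneg_left h3 (by norm_num)
  · apply mul_le_mul h4
    · exact mul_le_mul h5 h6 (Real.exp_pos _).le h7
    · positivity
    · exact hQ1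
  · positivity
  · positivity

/-- Ascending paths of vertices. -/
noncomputable def VV (d : Vx n → ℕ) (α a : ℝ) (K r : ℕ) : Finset (Fin (r + 1) → Vx n) := by
  classical exact Finset.univ.filter fun v => Function.Injective v ∧ K ≤ d (v 0) ∧
    (∀ s : Fin r, (d (v s.castSucc) : ℝ) ^ a ≤ d (v s.succ)) ∧ (d (v (Fin.last r)) : ℝ) < MM α n

lemma mem_VV {α a : ℝ} {K r : ℕ} {v : Fin (r + 1) → Vx n} :
    v ∈ VV d α a K r ↔ Function.Injective v ∧ K ≤ d (v 0) ∧
    (∀ s : Fin r, (d (v s.castSucc) : ℝ) ^ a ≤ d (v s.succ)) ∧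
      (d (v (Fin.last r)) : ℝ) < MM α n := by
  simp [VV]

/-- The bad event. -/
def Bad (α a : ℝ) (G : Set (ℝ≥0 × ℝ≥0)) (K i r : ℕ) (e₀ : Half d) :
    Set (Equiv.Perm (Half d) × Marks n) :=
  ⋃ v ∈ VV d α a K r, ⋃ g ∈ GG e₀ i (v 0),
    ⋃ x ∈ Fintype.piFinset (fun s : Fin r => hv d (v s.castSucc)),
      ⋃ y ∈ Fintype.piFinset (fun s : Fin r => hv d (v s.succ)),
        Ev a G (Fin.append (exits e₀ g) x) (Fin.append g y) (v (Fin.last r))

lemma meas_Bad (α a : ℝ) (G : Set (ℝ≥0 × ℝ≥0)) (hG : MeasurableSet G) (K i r : ℕ)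
    (e₀ : Half d) (σ : Equiv.Perm (Half d)) :
    MeasurableSet {X : Marks n | (σ, X) ∈ Bad α a G K i r e₀} := by
  have : {X : Marks n | (σ, X) ∈ Bad α a G K i r e₀} =
    ⋃ v ∈ VV d α a K r, ⋃ g ∈ GG e₀ i (v 0),
    ⋃ x ∈ Fintype.piFinset (fun s : Fin r => hv d (v s.castSucc)),
      ⋃ y ∈ Fintype.piFinset (fun s : Fin r => hv d (v s.succ)),
        {X | (σ, X) ∈ Ev a G (Fin.append (exits e₀ g) x) (Fin.append g y) (v (Fin.last r))} := by
    ext X
    simp only [Bad, mem_setOf_eq, mem_iUnion]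
  rw [this]
  refine Finset.measurableSet_biUnion _ fun v _ => ?_
  refine Finset.measurableSet_biUnion _ fun g _ => ?_
  refine Finset.measurableSet_biUnion _ fun x _ => ?_
  refine Finset.measurableSet_biUnion _ fun y _ => ?_
  exact meas_Ev a G hG _ _ _ σ

/-- The weights. -/
noncomputable def phi (a c η : ℝ) (K r : ℕ) (s : Fin (r + 1)) (k : ℕ) : ℝ≥0∞ :=
  if s = Fin.last r then
    (if (K : ℝ) ^ (a ^ r) ≤ (k : ℝ) + 1 then
      ENNReal.ofReal (((k : ℝ) + 1) ^ (1 + 1 / (a - 1)) * Real.exp (-c * (k : ℝ) ^ η)) else 0)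
  else ENNReal.ofReal (((k : ℝ) + 1) ^ (1 : ℝ))

lemma prod_phi (a c η : ℝ) (K r : ℕ) (k : Fin (r + 1) → ℕ)
    (hk : (K : ℝ) ^ (a ^ r) ≤ (k (Fin.last r) : ℝ) + 1) :
    ∏ s, phi a c η K r s (k s) = ENNReal.ofReal ((∏ s : Fin r, ((k s.castSucc : ℝ) + 1)) *
      (((k (Fin.last r) : ℝ) + 1) ^ (1 + 1 / (a - 1)) *
        Real.exp (-c * (k (Fin.last r) : ℝ) ^ η))) := by
  rw [Fin.prod_univ_castSucc]
  have h1 : ∀ s : Fin r, phi a c η K r s.castSucc (k s.castSucc) =
      ENNReal.ofReal ((k s.castSucc : ℝ) + 1) := by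
    intro s
    rw [phi, if_neg (Fin.castSucc_lt_last s).ne, Real.rpow_one]
  rw [Finset.prod_congr rfl fun s _ => h1 s, phi, if_pos rfl, if_pos hk,
    ENNReal.ofReal_mul (Finset.prod_nonneg fun s _ => by positivity),
    ENNReal.ofReal_prod_of_nonneg fun s _ => by positivity]

lemma bad_measure {α a c η N M : ℝ} (ha : 1 < a) (hc : 0 ≤ c) (hη : 0 ≤ η) (hN : 0 < N)
    (hM : N ≤ M) {G : Set (ℝ≥0 × ℝ≥0)} {K i r : ℕ} (hK : 1 ≤ K) (hd : ∀ v, 0 < d v)
    (δ : Vx n → ℕ) (hδ : ∀ v, δ v ≤ d v) (hδ' : ∀ v, d v ≤ δ v + 1)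
    (P : Measure (Equiv.Perm (Half d) × Marks n))
    (H : ∀ u, K ≤ d u → (d u : ℝ) < MM α n → ∀ (E F : Fin (i + r) → Half d),
      P (Ev a G E F u) ≤ ENNReal.ofReal ((1 / M) ^ (i + r) * Real.exp (-c * (d u : ℝ) ^ η)))
    (hS : ∀ u, (∑ x, ((GG (firstHalf hd x) i u).card : ℝ)) * (1 / M) ^ i ≤ 2 * d u) :
    ∑ x, P (Bad α a G K i r (firstHalf hd x)) ≤
      ENNReal.ofReal (2 * (1 / N) ^ r) *
      ∑ v ∈ Finset.univ.filter (fun v : Fin (r + 1) → Vx n => Function.Injective v),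
        ∏ s, phi a c η K r s (δ (v s)) := by
  classical
  set W : (Fin (r + 1) → Vx n) → ℝ := fun v => (1 / M) ^ (i + r) *
    Real.exp (-c * (d (v (Fin.last r)) : ℝ) ^ η) with hW
  have hM0 : 0 < M := by linarith
  have hW0 : ∀ v, 0 ≤ W v := fun v => by simp only [hW]; positivity
  have h1 : ∀ v ∈ VV d α a K r, K ≤ d (v (Fin.last r)) ∧
      (K : ℝ) ^ (a ^ r) ≤ d (v (Fin.last r)) := by
    intro v hv
    rw [mem_VV] at hv
    have hK' : (1 : ℝ) ≤ K := by exact_mod_cast hK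
    have h2 := (asc_fin (K := (K : ℝ)) ha hK' r (fun s => (d (v s) : ℝ))
      (fun s => by exact_mod_cast hd (v s)) (by exact_mod_cast hv.2.1) hv.2.2.1).2
    refine ⟨?_, h2⟩
    have h3 : (K : ℝ) ≤ (K : ℝ) ^ (a ^ r) := by
      calc (K : ℝ) = (K : ℝ) ^ (1 : ℝ) := (Real.rpow_one _).symm
        _ ≤ (K : ℝ) ^ (a ^ r) := Real.rpow_le_rpow_of_exponent_le hK' (one_le_pow₀ ha.le)
    exact_mod_cast h3.trans h2
  have step1 : ∀ x, P (Bad α a G K i r (firstHalf hd x)) ≤ ∑ v ∈ VV d α a K r,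
      ENNReal.ofReal (((GG (firstHalf hd x) i (v 0)).card : ℝ) *
        (∏ s : Fin r, (d (v s.castSucc) : ℝ)) * (∏ s : Fin r, (d (v s.succ) : ℝ)) * W v) := by
    intro x
    refine (measure_biUnion_finset_le _ _).trans (Finset.sum_le_sum fun v hv => ?_)
    have hb : ∀ g ∈ GG (firstHalf hd x) i (v 0),
        ∀ y ∈ Fintype.piFinset (fun s : Fin r => Start2Aux.hv d (v s.castSucc)),
        ∀ z ∈ Fintype.piFinset (fun s : Fin r => Start2Aux.hv d (v s.succ)),
        P (Ev a G (Fin.append (exits (firstHalf hd x) g) y) (Fin.append g z) (v (Fin.last r))) ≤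
          ENNReal.ofReal (W v) := by
      intro g _ y _ z _
      exact H _ (h1 v hv).1 ((mem_VV.1 hv).2.2.2) _ _
    refine (measure_biUnion_finset_le _ _).trans ?_
    refine (Finset.sum_le_sum fun g hg => (measure_biUnion_finset_le _ _).trans
      (Finset.sum_le_sum fun y hy => (measure_biUnion_finset_le _ _).trans
      (Finset.sum_le_sum fun z hz => hb g hg y hy z hz))).trans ?_
    simp only [Finset.sum_const, Fintype.card_piFinset, card_hv, nsmul_eq_mul]
    have hw := hW0 v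
    generalize W v = w at hw ⊢
    rw [ENNReal.ofReal_mul (by positivity), ENNReal.ofReal_mul (by positivity),
      ENNReal.ofReal_mul (by positivity), ENNReal.ofReal_natCast,
      ENNReal.ofReal_prod_of_nonneg (fun s _ => by positivity),
      ENNReal.ofReal_prod_of_nonneg (fun s _ => by positivity)]
    simp only [ENNReal.ofReal_natCast]
    push_cast
    rw [mul_assoc, mul_assoc]
  refine (Finset.sum_le_sum fun x _ => step1 x).trans ?_
  rw [Finset.sum_comm, Finset.mul_sum]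
  refine (Finset.sum_le_sum_of_subset_of_nonneg (s := VV d α a K r)
    (t := Finset.univ.filter fun v : Fin (r + 1) → Vx n => Function.Injective v) ?_ ?_).trans' ?_
  · intro v hv
    simp [(mem_VV.1 hv).1]
  · intro v _ _
    exact zero_le
  refine Finset.sum_le_sum fun v hv => ?_
  have hvv := mem_VV.1 hv
  have h4 : (K : ℝ) ^ (a ^ r) ≤ (δ (v (Fin.last r)) : ℝ) + 1 :=
    (h1 v hv).2.trans (by exact_mod_cast hδ' _)
  rw [prod_phi a c η K r (fun s => δ (v s)) h4, ← ENNReal.ofReal_mul (by positivity),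
    ← ENNReal.ofReal_sum_of_nonneg (fun x _ => by have := hW0 v; positivity)]
  apply ENNReal.ofReal_le_ofReal
  rw [← Finset.sum_mul, ← Finset.sum_mul, ← Finset.sum_mul]
  exact real_bound ha hc hη hN hM i r _ (fun s => (d (v s) : ℝ)) (fun s => (δ (v s) : ℝ))
    (fun s => by positivity) (fun s => by exact_mod_cast hδ _) (fun s => by exact_mod_cast hδ' _)
    (fun s => by exact_mod_cast hd _) hvv.2.2.1 (hS _)

/-- A good edge. -/
def Ge (σ : Equiv.Perm (Half d)) (X : Marks n) (q : ℝ≥0) (u w : Vx n) : Prop :=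
  ∃ h : Half d, h.1 = u ∧ (σ h).1 = w ∧ (X (edge σ h)).1 ≤ q

lemma rd_le_of_Ge {σ : Equiv.Perm (Half d)} {X : Marks n} {q : ℝ≥0} {u w : Vx n}
    (h : Ge σ X q u w) : rd σ X u w ≤ q := by
  obtain ⟨h, h1, h2, h3⟩ := h
  refine (iInf₂_le h ⟨h1, h2⟩).trans ?_
  exact_mod_cast h3

lemma stuck {σ : Equiv.Perm (Half d)} (X : Marks n) (e₀ : Half d) {K i : ℕ}
    (hK : 2 ≤ K) {a α κ : ℝ} (ha : 1 < a) (q : ℝ≥0) (hit : K ≤ d (wk σ e₀ i).1)
    (hκ : 0 ≤ κ * lgg n)
    (hR : ∀ r : ℕ, (K : ℝ) ^ (a ^ r) < MM α n → (r : ℝ) + 1 ≤ κ * lgg n)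
    (hno : ¬ ∃ (l : ℕ) (y : ℕ → Vx n), y 0 = (wk σ e₀ i).1 ∧ y l ∈ core α d ∧
      (∀ s < l, y s ∉ core α d) ∧ (l : ℝ) ≤ κ * lgg n ∧
      ∀ s < l, rd σ X (y s) (y (s + 1)) ≤ q) :
    ∃ (r : ℕ) (y : ℕ → Vx n), r ≤ ⌊κ * lgg n⌋₊ ∧ y 0 = (wk σ e₀ i).1 ∧
      (∀ s < r, (d (y s) : ℝ) ^ a ≤ d (y (s + 1)) ∧ Ge σ X q (y s) (y (s + 1))) ∧
      (∀ s ≤ r, (d (y s) : ℝ) < MM α n) ∧
      ∀ h : Half d, h.1 = y r → (d (y r) : ℝ) ^ a ≤ d (σ h).1 → ¬ (X (edge σ h)).1 ≤ q := by
  have hK1 : (1 : ℝ) ≤ K := by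
    have : 1 ≤ K := by omega
    exact_mod_cast this
  -- lower bounds on the degrees along ascending paths
  have low : ∀ (r : ℕ) (y : ℕ → Vx n), y 0 = (wk σ e₀ i).1 →
      (∀ s < r, (d (y s) : ℝ) ^ a ≤ d (y (s + 1))) → (K : ℝ) ^ (a ^ r) ≤ d (y r) := by
    intro r y h0 h1
    exact asc_lower ha hK1 r (fun s => (d (y s) : ℝ)) (by simp only [h0]; exact_mod_cast hit)
      h1 r le_rfl
  by_contra hcon
  push Not at hcon
  have all : ∀ r : ℕ, ∃ y : ℕ → Vx n, y 0 = (wk σ e₀ i).1 ∧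
      (∀ s < r, (d (y s) : ℝ) ^ a ≤ d (y (s + 1)) ∧ Ge σ X q (y s) (y (s + 1))) ∧
      (∀ s ≤ r, (d (y s) : ℝ) < MM α n) := by
    intro r
    induction r with
    | zero =>
      refine ⟨fun _ => (wk σ e₀ i).1, rfl, by simp, ?_⟩
      intro s _
      by_contra hlt
      exact hno ⟨0, fun _ => (wk σ e₀ i).1, rfl, by simpa [core] using hlt, by simp, by simpa using hκ,
        by simp⟩
    | succ r ih =>
      obtain ⟨y, h0, h1, h2⟩ := ih
      have hlow := low r y h0 fun s hs => (h1 s hs).1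
      have hr := hR r (lt_of_le_of_lt hlow (h2 r le_rfl))
      have hrf : r ≤ ⌊κ * lgg n⌋₊ := Nat.le_floor (by linarith)
      obtain ⟨h, hh1, hh2, hh3⟩ := hcon r y hrf h0 h1 h2
      let y' : ℕ → Vx n := fun s => if s ≤ r then y s else (σ h).1
      have y'0 : y' 0 = y 0 := by simp [y']
      have y'l : ∀ s ≤ r, y' s = y s := fun s hs => by simp [y', hs]
      have y'r : y' (r + 1) = (σ h).1 := by simp [y']
      have step : ∀ s < r + 1, (d (y' s) : ℝ) ^ a ≤ d (y' (s + 1)) ∧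
          Ge σ X q (y' s) (y' (s + 1)) := by
        intro s hs
        rcases Nat.lt_succ_iff_lt_or_eq.1 hs with hs' | rfl
        · rw [y'l s (by omega), y'l (s + 1) (by omega)]
          exact h1 s hs'
        · rw [y'l s le_rfl, y'r]
          exact ⟨hh2, h, hh1, rfl, hh3⟩
      by_cases hw : (d (σ h).1 : ℝ) < MM α n
      · refine ⟨y', by rw [y'0, h0], step, ?_⟩
        intro s hs
        rcases Nat.le_succ_iff.1 hs with hs' | rfl
        · rw [y'l s hs']
          exact h2 s hs'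
        · rw [y'r]
          exact hw
      · exfalso
        refine hno ⟨r + 1, y', by rw [y'0, h0], ?_, ?_, by push_cast; exact hr, ?_⟩
        · rw [y'r]
          simpa [core] using hw
        · intro s hs
          rw [y'l s (by omega)]
          have := h2 s (by omega)
          simpa [core] using this
        · intro s hs
          exact rd_le_of_Ge (step s hs).2
  obtain ⟨y, h0, h1, h2⟩ := all (⌊κ * lgg n⌋₊ + 1)
  have hlow := low _ y h0 fun s hs => (h1 s hs).1
  have hr := hR _ (lt_of_le_of_lt hlow (h2 _ le_rfl))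
  have := Nat.lt_floor_add_one (κ * lgg n)
  push_cast at hr
  linarith

lemma wk_succ_fst (σ : Equiv.Perm (Half d)) (e₀ : Half d) (s : ℕ) :
    (wk σ e₀ (s + 1)).1 = (σ (wk σ e₀ s)).1 := rfl

lemma cover {σ : Equiv.Perm (Half d)} (hσ : IsPairing σ) (X : Marks n) (e₀ : Half d) {K i : ℕ}
    (hK : 2 ≤ K) {a α κ : ℝ} (ha : 1 < a) (q : ℝ≥0) (hit : Hit σ e₀ K i)
    (hκ : 0 ≤ κ * lgg n)
    (hR : ∀ r : ℕ, (K : ℝ) ^ (a ^ r) < MM α n → (r : ℝ) + 1 ≤ κ * lgg n)
    (hno : ¬ ∃ (l : ℕ) (y : ℕ → Vx n), y 0 = (wk σ e₀ i).1 ∧ y l ∈ core α d ∧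
      (∀ s < l, y s ∉ core α d) ∧ (l : ℝ) ≤ κ * lgg n ∧
      ∀ s < l, rd σ X (y s) (y (s + 1)) ≤ q) :
    ∃ r ≤ ⌊κ * lgg n⌋₊, (σ, X) ∈ Bad α a {x | x.1 ≤ q} K i r e₀ := by
  obtain ⟨r, y, hr, h0, h1, h2, h3⟩ := stuck X e₀ hK ha q hit.2.1 hκ hR hno
  refine ⟨r, hr, ?_⟩
  have hG : ∀ s : Fin r, ∃ h : Half d, h.1 = y s ∧ (σ h).1 = y (s + 1) := by
    intro s
    obtain ⟨h, e1, e2, _⟩ := (h1 s s.2).2
    exact ⟨h, e1, e2⟩
  choose hh hh1 hh2 using hG
  -- degrees increase along `y`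
  have hy0 : K ≤ d (y 0) := by rw [h0]; exact hit.2.1
  have hinc : ∀ s ≤ r, K ≤ d (y s) ∧ ∀ t < s, d (y t) < d (y s) := by
    intro s
    induction s with
    | zero => intro _; exact ⟨hy0, by simp⟩
    | succ s ih =>
      intro hs
      obtain ⟨i1, i2⟩ := ih (by omega)
      have hlt : d (y s) < d (y (s + 1)) := by
        have e1 := (h1 s (by omega)).1
        have e2 : (1 : ℝ) < d (y s) := by
          have : 1 < d (y s) := by omega
          exact_mod_cast this
        have e3 : (d (y s) : ℝ) < (d (y s) : ℝ) ^ a := by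
          calc (d (y s) : ℝ) = (d (y s) : ℝ) ^ (1 : ℝ) := (Real.rpow_one _).symm
            _ < (d (y s) : ℝ) ^ a := Real.rpow_lt_rpow_of_exponent_lt e2 ha
        exact_mod_cast lt_of_lt_of_le e3 e1
      refine ⟨by omega, fun t ht => ?_⟩
      rcases Nat.lt_succ_iff_lt_or_eq.1 ht with h | rfl
      · exact (i2 t h).trans hlt
      · exact hlt
  -- the vertices
  let w : ℕ → Vx n := fun t => if t ≤ i then (wk σ e₀ t).1 else y (t - i)
  have w1 : ∀ t ≤ i, w t = (wk σ e₀ t).1 := fun t ht => by simp [w, ht]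
  have w2 : ∀ s, w (i + s) = y s := by
    intro s
    rcases Nat.eq_zero_or_pos s with rfl | hs
    · rw [Nat.add_zero, w1 i le_rfl, h0]
    · have : ¬ (i + s ≤ i) := by omega
      simp only [w, if_neg this]
      congr 1
      omega
  have hw : ∀ s ≤ i + r, ∀ s' ≤ i + r, w s = w s' → s = s' := by
    have key : ∀ s ≤ i + r, ∀ s' ≤ i + r, s < s' → w s ≠ w s' := by
      intro s hs s' hs' hlt heq
      by_cases c1 : s' ≤ i
      · rw [w1 s (by omega), w1 s' c1] at heq
        have := hit.2.2 s (by omega) s' c1 heq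
        omega
      · obtain ⟨u', rfl⟩ : ∃ u', s' = i + u' := ⟨s' - i, by omega⟩
        rw [w2] at heq
        by_cases c2 : s < i
        · rw [w1 s c2.le] at heq
          have e1 := hit.1 s c2
          have e2 := (hinc u' (by omega)).1
          rw [heq] at e1
          omega
        · obtain ⟨u, rfl⟩ : ∃ u, s = i + u := ⟨s - i, by omega⟩
          rw [w2] at heq
          have := (hinc u' (by omega)).2 u (by omega)
          rw [heq] at this
          omega
    intro s hs s' hs' heq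
    rcases lt_trichotomy s s' with h | h | h
    · exact absurd heq (key s hs s' hs' h)
    · exact h
    · exact absurd heq.symm (key s' hs' s hs h)
  have hwd : ∀ t ≤ i + r, d (w t) ≤ d (y r) := by
    intro t ht
    by_cases c : t < i
    · rw [w1 t c.le]
      have e1 := hit.1 t c
      have e2 := (hinc r le_rfl).1
      omega
    · obtain ⟨u, rfl⟩ : ∃ u, t = i + u := ⟨t - i, by omega⟩
      rw [w2]
      rcases Nat.lt_or_ge u r with h | h
      · exact ((hinc r le_rfl).2 u h).le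
      · have : u = r := by omega
        rw [this]
  -- the data
  let g : Fin i → Half d := fun s => σ (wk σ e₀ s)
  have hex : ∀ s : Fin i, exits e₀ g s = wk σ e₀ s := by
    rintro ⟨s, hs⟩
    rcases s with _ | s
    · simp [exits, wk]
    · simp [exits, wk, g]
  let E : Fin (i + r) → Half d := Fin.append (exits e₀ g) hh
  have hF : Fin.append g (fun s => σ (hh s)) = fun t => σ (E t) := by
    funext t
    refine Fin.addCases (fun s => ?_) (fun s => ?_) t
    · simp only [E, Fin.append_left, hex]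
      rfl
    · simp only [E, Fin.append_right]
  have hE1 : ∀ t : Fin (i + r), (E t).1 = w t := by
    intro t
    refine Fin.addCases (fun s => ?_) (fun s => ?_) t
    · simp only [E, Fin.append_left, hex, Fin.val_castAdd]
      rw [w1 _ s.2.le]
    · simp only [E, Fin.append_right, Fin.val_natAdd]
      rw [w2, hh1]
  have hE2 : ∀ t : Fin (i + r), (σ (E t)).1 = w (t + 1) := by
    intro t
    refine Fin.addCases (fun s => ?_) (fun s => ?_) t
    · simp only [E, Fin.append_left, hex, Fin.val_castAdd]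
      rw [w1 _ s.2, wk_succ_fst]
    · simp only [E, Fin.append_right, Fin.val_natAdd]
      rw [add_assoc, w2, hh2]
  have hinj := elim_inj (fun h : Half d => h.1) σ (fun h => (hσ h).1) E w hw hE1 hE2
  simp only [Bad, mem_iUnion]
  refine ⟨fun s => y s, ?_, g, ?_, hh, ?_, fun s => σ (hh s), ?_, ?_⟩
  · rw [mem_VV]
    refine ⟨?_, hy0, fun s => (h1 s s.2).1, h2 r le_rfl⟩
    intro s t hst
    simp only at hst
    rw [← w2, ← w2] at hst
    have := hw _ (by omega) _ (by omega) hst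
    exact Fin.ext (by omega)
  · rw [mem_GG]
    change _ = y 0
    rw [h0]
    clear_value w E
    rcases i with _ | i
    · rfl
    · rfl
  · rw [Fintype.mem_piFinset]
    intro s
    rw [mem_hv]
    exact hh1 s
  · rw [Fintype.mem_piFinset]
    intro s
    rw [mem_hv]
    exact hh2 s
  · rw [hF]
    change (σ, X) ∈ Ev a _ E (fun t => σ (E t)) (y r)
    refine ⟨⟨hinj, ?_, ?_⟩, fun t => rfl, ?_⟩
    · intro t
      rw [hE1, hE2]
      exact ⟨hwd _ (by omega), hwd _ (by omega)⟩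
    · have h5 := Finset.card_filter_add_card_filter_not (s := hv d (y r))
        (fun h => ∀ t, E t ≠ h ∧ σ (E t) ≠ h)
      rw [card_hv] at h5
      have h6 : ((hv d (y r)).filter fun h => ¬ ∀ t, E t ≠ h ∧ σ (E t) ≠ h).card ≤ 1 := by
        rw [Finset.card_le_one]
        have h7 : ∀ h ∈ (hv d (y r)).filter fun h => ¬ ∀ t, E t ≠ h ∧ σ (E t) ≠ h,
            ∃ t : Fin (i + r), (t : ℕ) + 1 = i + r ∧ σ (E t) = h := by
          intro h hh'
          rw [Finset.mem_filter, mem_hv] at hh'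
          obtain ⟨e1, e2⟩ := hh'
          push Not at e2
          obtain ⟨t, ht⟩ := e2
          by_cases c : E t = h
          · exfalso
            rw [← c, hE1, ← w2 r] at e1
            have := hw _ (by omega) _ (by omega) e1
            omega
          · have e3 := ht c
            refine ⟨t, ?_, e3⟩
            rw [← e3, hE2, ← w2 r] at e1
            exact hw _ (by omega) _ (by omega) e1
        intro x hx z hz
        obtain ⟨t, e1, e2⟩ := h7 x hx
        obtain ⟨t', e1', e2'⟩ := h7 z hz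
        have : t = t' := Fin.ext (by omega)
        rw [← e2, ← e2', this]
      have h8 : (AA E (fun t => σ (E t)) (y r)).card =
          ((hv d (y r)).filter fun h => ∀ t, E t ≠ h ∧ σ (E t) ≠ h).card := rfl
      omega
    · intro h hA hB
      simp only [AA, Finset.mem_filter, mem_hv] at hA
      simp only [BB, Finset.mem_filter, Finset.mem_univ, true_and] at hB
      exact h3 h hA.1 hB

end Start2Aux
end Pool.Agent.TwoCol
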