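import Pool.Agent.TwoCol.Start2a

open MeasureTheory ProbabilityTheory Filter Topology Set
open scoped ENNReal NNReal

namespace Pool.Agent.TwoCol
namespace Start2Aux

/-! ### Asymptotics -/

lemma tendsto_logN : Tendsto (fun n : ℕ => Real.log ((n : ℝ) + 1)) atTop atTop :=
  Real.tendsto_log_atTop.comp (tendsto_natCast_atTop_atTop.atTop_add tendsto_const_nhds)

lemma tendsto_lgg : Tendsto lgg atTop atTop :=
  Real.tendsto_log_atTop.comp tendsto_logN

lemma ev_linear (A B c : ℝ) (hc : 0 < c) : ∀ᶠ n : ℕ in atTop,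
    A + B * lgg n ≤ c * ((n : ℝ) + 1) := by
  have h1 : ∀ᶠ x : ℝ in atTop, Real.log x ≤ c / (2 * (|B| + 1)) * x := by
    have hc' : 0 < c / (2 * (|B| + 1)) := by positivity
    have := Real.isLittleO_log_id_atTop.bound hc'
    filter_upwards [this, eventually_ge_atTop 1] with x hx hx1
    simp only [id, Real.norm_eq_abs, abs_of_nonneg (Real.log_nonneg hx1),
      abs_of_nonneg (by linarith : (0 : ℝ) ≤ x)] at hx
    exact hx
  have hN : Tendsto (fun n : ℕ => (n : ℝ) + 1) atTop atTop :=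
    tendsto_natCast_atTop_atTop.atTop_add tendsto_const_nhds
  filter_upwards [hN.eventually h1, hN.eventually (eventually_ge_atTop (2 * A / c)),
    tendsto_logN.eventually (eventually_ge_atTop 1)] with n h2 h3 h4
  have hN0 : (0 : ℝ) < n + 1 := by positivity
  have h5 : lgg n ≤ Real.log (n + 1) := by
    have := Real.log_le_sub_one_of_pos (show 0 < Real.log ((n : ℝ) + 1) by linarith)
    simp only [lgg]
    linarith
  have h6 : 0 ≤ lgg n := Real.log_nonneg h4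
  have h7 : B * lgg n ≤ |B| * Real.log (n + 1) := by
    calc B * lgg n ≤ |B| * lgg n := mul_le_mul_of_nonneg_right (le_abs_self B) h6
      _ ≤ |B| * Real.log (n + 1) := mul_le_mul_of_nonneg_left h5 (abs_nonneg B)
  have h8 : |B| * Real.log (n + 1) ≤ c / 2 * (n + 1) := by
    have hB : 0 ≤ |B| := abs_nonneg B
    calc |B| * Real.log (n + 1) ≤ (|B| + 1) * Real.log (n + 1) :=
          mul_le_mul_of_nonneg_right (by linarith) (by linarith)
      _ ≤ (|B| + 1) * (c / (2 * (|B| + 1)) * (n + 1)) :=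
          mul_le_mul_of_nonneg_left h2 (by linarith)
      _ = c / 2 * (n + 1) := by field_simp
  have h9 : A ≤ c / 2 * (n + 1) := by
    rw [div_le_iff₀ hc] at h3
    linarith
  linarith

lemma ev_MM {α : ℝ} (hα1 : α < 1) (e c ζ : ℝ) (hc : 0 < c) (hζ : 0 < ζ) :
    ∀ᶠ n : ℕ in atTop, MM α n ^ e ≤ c * ((n : ℝ) + 1) ^ ζ := by
  have h1 : Tendsto (fun x : ℝ => x ^ (-(1 - α))) atTop (𝓝 0) :=
    tendsto_rpow_neg_atTop (by linarith)
  have h2 : ∀ᶠ x : ℝ in atTop, |e| * x ^ (-(1 - α)) < ζ / 2 := by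
    have : Tendsto (fun x : ℝ => |e| * x ^ (-(1 - α))) atTop (𝓝 (|e| * 0)) := h1.const_mul _
    rw [mul_zero] at this
    exact this.eventually (gt_mem_nhds (by positivity))
  filter_upwards [tendsto_logN.eventually h2, tendsto_logN.eventually (eventually_gt_atTop 0),
    tendsto_logN.eventually (eventually_ge_atTop (-(2 * Real.log c / ζ)))] with n h3 h4 h5
  have hN0 : (0 : ℝ) < n + 1 := by positivity
  rw [MM, ← Real.exp_mul, Real.rpow_def_of_pos hN0, ← Real.exp_log hc, ← Real.exp_add,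
    Real.exp_le_exp]
  set x := Real.log ((n : ℝ) + 1) with hx
  have h6 : x ^ α * e ≤ ζ / 2 * x := by
    have h7 : x ^ α = x ^ (-(1 - α)) * x := by
      rw [show α = -(1 - α) + 1 by ring, Real.rpow_add h4, Real.rpow_one]
      ring_nf
    calc x ^ α * e ≤ x ^ α * |e| := mul_le_mul_of_nonneg_left (le_abs_self e) (by positivity)
      _ = (|e| * x ^ (-(1 - α))) * x := by rw [h7]; ring
      _ ≤ ζ / 2 * x := mul_le_mul_of_nonneg_right h3.le h4.le
  have h8 : -Real.log c ≤ ζ / 2 * x := by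
    have : ζ * (-(2 * Real.log c / ζ)) ≤ ζ * x := mul_le_mul_of_nonneg_left h5 hζ.le
    have e2 : ζ * (-(2 * Real.log c / ζ)) = -(2 * Real.log c) := by field_simp
    linarith
  linarith

/-- Number of steps. -/
lemma steps {α κ a : ℝ} (ha : 1 < a) (hκ : α / Real.log a < κ) {K : ℕ} (hK : 3 ≤ K) :
    ∀ᶠ n : ℕ in atTop, ∀ r : ℕ, (K : ℝ) ^ (a ^ r) < MM α n → (r : ℝ) + 1 ≤ κ * lgg n := by
  have hla : 0 < Real.log a := Real.log_pos ha
  have h1 : Tendsto (fun n : ℕ => (κ - α / Real.log a) * lgg n) atTop atTop :=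
    tendsto_lgg.const_mul_atTop (by linarith)
  filter_upwards [h1.eventually (eventually_ge_atTop 1),
    tendsto_logN.eventually (eventually_gt_atTop 0)] with n h2 h3 r hr
  have hK3 : (3 : ℝ) ≤ K := by exact_mod_cast hK
  have hlK : 1 ≤ Real.log K := by
    rw [Real.le_log_iff_exp_le (by linarith)]
    have := Real.exp_one_lt_d9
    linarith
  rw [MM, Real.rpow_def_of_pos (by linarith), Real.exp_lt_exp] at hr
  have har : 0 < a ^ r := by positivity
  have h4 : a ^ r < Real.log ((n : ℝ) + 1) ^ α := by nlinarith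
  have h5 : Real.log (a ^ r) < Real.log (Real.log ((n : ℝ) + 1) ^ α) := Real.log_lt_log har h4
  rw [Real.log_pow, Real.log_rpow h3] at h5
  have h6 : (r : ℝ) < α / Real.log a * lgg n := by
    rw [div_mul_eq_mul_div, lt_div_iff₀ hla]
    exact h5
  linarith

variable {n : ℕ}

lemma card_BB_ge {d δ : Vx n → ℕ} (hδ : ∀ v, δ v ≤ d v) {y : ℝ} :
    y * ((Finset.univ.filter fun v : Vx n => y ≤ (δ v : ℝ)).card : ℝ) ≤ ((BB d y).card : ℝ) := by
  classical
  have h1 : ((BB d y).card : ℝ) = ∑ w : Vx n, (((BB d y).filter fun h => h.1 = w).card : ℝ) := by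
    have := Finset.card_eq_sum_card_fiberwise (f := fun h : Half d => h.1) (s := BB d y)
      (t := (Finset.univ : Finset (Vx n))) (fun _ _ => by simp)
    exact_mod_cast this
  rw [h1, mul_comm, ← nsmul_eq_mul, ← Finset.sum_const]
  refine (Finset.sum_le_sum_of_subset_of_nonneg (s := Finset.univ.filter fun v : Vx n =>
    y ≤ (δ v : ℝ)) (Finset.subset_univ _) ?_).trans' ?_
  · intro i _ _
    positivity
  · refine Finset.sum_le_sum fun w hw => ?_
    simp only [Finset.mem_filter, Finset.mem_univ, true_and] at hw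
    have h2 : (BB d y).filter (fun h => h.1 = w) = hv d w := by
      ext h
      simp only [BB, Finset.mem_filter, Finset.mem_univ, true_and, mem_hv]
      constructor
      · exact fun h => h.2
      · intro h3
        refine ⟨?_, h3⟩
        rw [h3]
        exact hw.trans (by exact_mod_cast hδ w)
    rw [h2, card_hv]
    exact hw.trans (by exact_mod_cast hδ w)

/-- The estimate for the elementary events. -/
lemma tail_event (hP : Target_PAIR) {τ c₂ T a α : ℝ} (hτ : 2 < τ)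
    (hc₂ : 0 < c₂) (hT : 0 < T) (ha : 1 < a) {d δ : Vx n → ℕ}
    (hev : Even (∑ v, d v)) (hδ : ∀ v, δ v ≤ d v) (htot : ((∑ v, d v : ℕ) : ℝ) ≤ T * (n + 1))
    (hmany : ∀ y : ℝ, 1 ≤ y → y ≤ ((n : ℝ) + 1) ^ ((1 : ℝ) / 4) →
      c₂ * (n + 1) * y ^ (1 - τ) ≤ ((Finset.univ.filter fun v : Vx n => y ≤ (δ v : ℝ)).card : ℝ))
    (ρ : Measure (ℝ≥0 × ℝ≥0)) [IsProbabilityMeasure ρ] (G : Set (ℝ≥0 × ℝ≥0))
    (hG : MeasurableSet G) {K j : ℕ} (hK : 8 ≤ K)
    (hM1 : MM α n ^ a ≤ 1 * ((n : ℝ) + 1) ^ ((1 : ℝ) / 4))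
    (hM2 : MM α n ^ (1 + a * (τ - 2)) ≤ (2 * c₂) * ((n : ℝ) + 1) ^ (1 : ℝ))
    (h3 : 2 * j < ∑ v, d v) (u : Vx n) (hu : K ≤ d u) (hu' : (d u : ℝ) < MM α n)
    (E F : Fin j → Half d) :
    ((pairLaw d).prod (marksLaw ρ n)) (Ev a G E F u) ≤
      ENNReal.ofReal ((1 / (((∑ v, d v : ℕ) : ℝ) - 2 * j)) ^ j *
        Real.exp (-((ρ G).toReal * c₂ / (16 * T)) * (d u : ℝ) ^ (1 - a * (τ - 2)))) := by
  have hN0 : (0 : ℝ) < n + 1 := by positivity
  have hD8 : (8 : ℝ) ≤ d u := by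
    have : 8 ≤ d u := by omega
    exact_mod_cast this
  have hD0 : (0 : ℝ) < d u := by linarith
  set D : ℝ := (d u : ℝ) with hD
  have hDa : D < D ^ a := by
    calc D = D ^ (1 : ℝ) := (Real.rpow_one _).symm
      _ < D ^ a := Real.rpow_lt_rpow_of_exponent_lt (by linarith) ha
  have hya : D ^ a ≤ ((n : ℝ) + 1) ^ ((1 : ℝ) / 4) := by
    rw [one_mul] at hM1
    exact (Real.rpow_le_rpow hD0.le hu'.le (by linarith)).trans hM1
  have hB : c₂ * (n + 1) * D ^ (-(a * (τ - 2))) ≤ ((BB d (D ^ a)).card : ℝ) := by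
    have h4 := hmany (D ^ a) (by linarith) hya
    have h5 := card_BB_ge (d := d) hδ (y := D ^ a)
    have h6 : D ^ a * (c₂ * (n + 1) * (D ^ a) ^ (1 - τ)) =
        c₂ * (n + 1) * D ^ (-(a * (τ - 2))) := by
      rw [← Real.rpow_mul hD0.le, show -(a * (τ - 2)) = a + a * (1 - τ) by ring,
        Real.rpow_add hD0]
      ring
    rw [← h6]
    exact (mul_le_mul_of_nonneg_left h4 (by positivity)).trans h5
  have hk : ((d u / 4 : ℕ) : ℝ) ≤ ((BB d (D ^ a)).card : ℝ) / 2 := by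
    have h4 : ((d u / 4 : ℕ) : ℝ) ≤ D / 4 := by
      have := Nat.cast_div_le (α := ℝ) (m := d u) (n := 4)
      exact_mod_cast this
    have h5 : D ^ (1 + a * (τ - 2)) ≤ 2 * c₂ * (n + 1) := by
      rw [Real.rpow_one] at hM2
      refine (Real.rpow_le_rpow hD0.le hu'.le ?_).trans hM2
      have : 0 < a * (τ - 2) := mul_pos (by linarith) (by linarith)
      linarith
    have h6 : D ≤ 2 * c₂ * (n + 1) * D ^ (-(a * (τ - 2))) := by
      rw [Real.rpow_neg hD0.le, ← div_eq_mul_inv, le_div_iff₀ (by positivity)]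
      rw [Real.rpow_add hD0, Real.rpow_one] at h5
      exact h5
    linarith
  have h2 : d u / 4 ≤ (BB d (D ^ a)).card := by
    have : ((d u / 4 : ℕ) : ℝ) ≤ ((BB d (D ^ a)).card : ℝ) := by
      have h7 : (0 : ℝ) ≤ ((BB d (D ^ a)).card : ℝ) := by positivity
      linarith
    exact_mod_cast this
  refine (ev_bound hP hev ρ G hG E F u a (d u / 4) hDa (by omega) h2 h3).trans ?_
  apply ENNReal.ofReal_le_ofReal
  have hj : (0 : ℝ) ≤ (1 / (((∑ v, d v : ℕ) : ℝ) - 2 * j)) ^ j := by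
    have : (2 * j : ℝ) < ((∑ v, d v : ℕ) : ℝ) := by exact_mod_cast h3
    apply pow_nonneg
    apply div_nonneg zero_le_one
    linarith
  refine mul_le_mul_of_nonneg_left ?_ hj
  refine pow_bound (N := (n : ℝ) + 1) ENNReal.toReal_nonneg ?_ (by linarith) hN0 hc₂ hT hB ?_
    htot hk ?_
  · have := prob_le_one (μ := ρ) (s := G)
    exact ENNReal.toReal_le_of_le_ofReal zero_le_one (by simpa using this)
  · exact_mod_cast card_BB_le (d := d) (D ^ a)
  · have : d u ≤ 8 * (d u / 4) := by omega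
    have : D ≤ 8 * ((d u / 4 : ℕ) : ℝ) := by rw [hD]; exact_mod_cast this
    linarith

/-- The bound for a typical degree sequence. -/
lemma perdelta (hP : Target_PAIR) {τ c₂ T a α κ : ℝ} (hτ : 2 < τ) (hα : a * (τ - 2) < 1)
    (hc₂ : 0 < c₂) (hT : 0 < T) (ha : 1 < a) {d δ : Vx n → ℕ} (hd : ∀ v, 0 < d v)
    (hev : Even (∑ v, d v)) (hδ : ∀ v, δ v ≤ d v) (hδ' : ∀ v, d v ≤ δ v + 1)
    (h2δ : ∀ v, 2 ≤ δ v) (htot : ((∑ v, d v : ℕ) : ℝ) ≤ T * (n + 1))
    (hmany : ∀ y : ℝ, 1 ≤ y → y ≤ ((n : ℝ) + 1) ^ ((1 : ℝ) / 4) →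
      c₂ * (n + 1) * y ^ (1 - τ) ≤ ((Finset.univ.filter fun v : Vx n => y ≤ (δ v : ℝ)).card : ℝ))
    (ρ : Measure (ℝ≥0 × ℝ≥0)) [IsProbabilityMeasure ρ] (G : Set (ℝ≥0 × ℝ≥0))
    (hG : MeasurableSet G) {K i r : ℕ} (hK : 8 ≤ K)
    (hM1 : MM α n ^ a ≤ 1 * ((n : ℝ) + 1) ^ ((1 : ℝ) / 4))
    (hM2 : MM α n ^ (1 + a * (τ - 2)) ≤ (2 * c₂) * ((n : ℝ) + 1) ^ (1 : ℝ))
    (hi : i ≤ K) (hr : r ≤ ⌊κ * lgg n⌋₊) (hκ : 0 ≤ κ * lgg n)
    (hN1 : 2 * (K : ℝ) + 2 * κ * lgg n ≤ 1 * ((n : ℝ) + 1))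
    (hN2 : 2 * (K : ℝ) * K + 2 * κ * K * lgg n ≤ Real.log 2 * ((n : ℝ) + 1)) :
    ∑ x, ((pairLaw d).prod (marksLaw ρ n)) (Bad α a G K i r (firstHalf hd x)) ≤
      ENNReal.ofReal (2 * (1 / ((n : ℝ) + 1)) ^ r) *
      ∑ v ∈ Finset.univ.filter (fun v : Fin (r + 1) → Vx n => Function.Injective v),
        ∏ s, phi a ((ρ G).toReal * c₂ / (16 * T)) (1 - a * (τ - 2)) K r s (δ (v s)) := by
  have hN0 : (0 : ℝ) < n + 1 := by positivity
  have hL : 2 * (n + 1) ≤ ∑ v, d v := by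
    calc 2 * (n + 1) = ∑ v : Vx n, 2 := by simp [mul_comm]
      _ ≤ ∑ v, d v := Finset.sum_le_sum fun v _ => (h2δ v).trans (hδ v)
  have hL' : 2 * ((n : ℝ) + 1) ≤ ((∑ v, d v : ℕ) : ℝ) := by exact_mod_cast hL
  have hrr : (r : ℝ) ≤ κ * lgg n := (Nat.le_floor_iff hκ).1 hr
  have hir : (i : ℝ) ≤ K := by exact_mod_cast hi
  have hi0 : (0 : ℝ) ≤ i := by positivity
  have hr0 : (0 : ℝ) ≤ r := by positivity
  have hj1 : 2 * ((i + r : ℕ) : ℝ) ≤ (n : ℝ) + 1 := by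
    push_cast
    nlinarith
  have hM : (n : ℝ) + 1 ≤ ((∑ v, d v : ℕ) : ℝ) - 2 * ((i + r : ℕ) : ℝ) := by linarith
  refine bad_measure (N := (n : ℝ) + 1) (M := ((∑ v, d v : ℕ) : ℝ) - 2 * ((i + r : ℕ) : ℝ)) ha
    (by positivity) (by linarith) hN0 hM (by omega) hd δ hδ hδ' _ ?_ ?_
  · intro u hu hu' E F
    refine tail_event hP hτ hc₂ hT ha hev hδ htot hmany ρ G hG hK hM1 hM2 ?_ u hu hu' E F
    have : (2 * ((i + r : ℕ) : ℝ)) < ((∑ v, d v : ℕ) : ℝ) := by linarith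
    exact_mod_cast this
  · intro u
    refine sum_GG hd i u hM ?_
    have h1 : 2 * ((i + r : ℕ) : ℝ) * i ≤ 2 * (K + κ * lgg n) * K := by
      push_cast
      apply mul_le_mul _ hir hi0 (by positivity)
      linarith
    nlinarith

end Start2Aux
end Pool.Agent.TwoCol
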